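import Pool.Agent.CY.Geo
import Pool.Agent.CY.S5.Doms

/-!
Project CY, part S4 (regularity): definitions.

`nu n` is Lebesgue measure on the open half space `Ho n`.  Functions on the half space are functions
`V (n + 1) → ℝ`; only their values on `Hs n` matter.
-/

set_option autoImplicit false

open scoped Manifold ContDiff ENNReal
open MeasureTheory Set Filter Topology

namespace Pool.Agent.CY.S4

noncomputable section

variable {n : ℕ}

/-- Lebesgue measure on the open half space. -/
abbrev nu (n : ℕ) : Measure (V (n + 1)) := volume.restrict (Ho n)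

/-- The `i`-th unit vector. -/
def ei {m : ℕ} (i : Fin m) : V m := EuclideanSpace.single i 1

/-- `C^1` functions with compact support on the closed half space. -/
def T1 (n : ℕ) : Set (V (n + 1) → ℝ) := {φ | ContDiffOn ℝ 1 φ (Hs n) ∧ HasCompactSupport φ}

/-- `C^2` functions with compact support on the closed half space. -/
def T2 (n : ℕ) : Set (V (n + 1) → ℝ) := {φ | ContDiffOn ℝ 2 φ (Hs n) ∧ HasCompactSupport φ}

/-- `C^1` functions with compact support in the open half space. -/
def T0 (n : ℕ) : Set (V (n + 1) → ℝ) := {φ | ContDiff ℝ 1 φ ∧ HasCompactSupport φ ∧ tsupport φ ⊆ Ho n}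

/-- The square of the `L²` norm on the half space. -/
def sq (f : V (n + 1) → ℝ) : ℝ := ∫ x, f x ^ 2 ∂(nu n)

/-- Difference quotients. -/
def dq (i : Fin (n + 1)) (h : ℝ) (f : V (n + 1) → ℝ) : V (n + 1) → ℝ :=
  fun x => (f (x + h • ei i) - f x) / h

/-- `W` is the weak derivative `∂_i v` in the open half space. -/
def WD (i : Fin (n + 1)) (v W : V (n + 1) → ℝ) : Prop :=
  ∀ φ ∈ T0 n, ∫ x, v x * pd (Hs n) i φ x ∂(nu n) = -∫ x, W x * φ x ∂(nu n)

/-- Square integrable functions with bounded difference quotients. -/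
structure BDQ (G : V (n + 1) → ℝ) : Prop where
  mem : MemLp G 2 (nu n)
  bd : ∃ C : ℝ, ∀ (i : Fin (n + 1)) (h : ℝ), 0 < h → sq (dq i h G) ≤ C

/-- `(v, W, t)` = (function, gradient, trace) is a limit of `C^1` functions with compact support on the closed
half space. -/
structure HH (v : V (n + 1) → ℝ) (W : Fin (n + 1) → V (n + 1) → ℝ) (t : V n → ℝ) : Prop where
  memv : MemLp v 2 (nu n)
  memW : ∀ i, MemLp (W i) 2 (nu n)
  memt : MemLp t 2 (volume : Measure (V n))
  ex : ∃ u : ℕ → V (n + 1) → ℝ, (∀ k, u k ∈ T1 n) ∧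
    Tendsto (fun k => sq (fun x => u k x - v x)) atTop (𝓝 0) ∧
    (∀ i, Tendsto (fun k => sq (fun x => pd (Hs n) i (u k) x - W i x)) atTop (𝓝 0)) ∧
    Tendsto (fun k => ∫ z : V n, (u k (bd z) - t z) ^ 2) atTop (𝓝 0)

/-- The `H^1` norm squared. -/
def H1n (U : V (n + 1) → ℝ) : ℝ := sq U + ∑ i, sq (pd (Hs n) i U)

/-- The `H^2` norm squared. -/
def H2n (U : V (n + 1) → ℝ) : ℝ := H1n U + ∑ i, ∑ j, sq (pd (Hs n) i (pd (Hs n) j U))

/-- A bounded elliptic matrix of class `C^1` on the closed half space. -/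
structure Ell (A : MF (n + 1)) (l L : ℝ) : Prop where
  pos : 0 < l
  smooth : ∀ i j, ContDiffOn ℝ 1 (fun x => A x i j) (Hs n)
  bd : ∀ x ∈ Hs n, ∀ i j, |A x i j| ≤ L
  dbd : ∀ x ∈ Hs n, ∀ i j k, |pd (Hs n) k (fun y => A y i j) x| ≤ L
  ell : ∀ x ∈ Hs n, ∀ ξ : Fin (n + 1) → ℝ, l * ∑ i, ξ i ^ 2 ≤ ∑ i, ∑ j, A x i j * ξ i * ξ j

/-- The bump function used for the mollification. -/
def bump (n : ℕ) (δ : ℝ) : V (n + 1) → ℝ :=
  if h : 0 < δ then (⟨δ / 2, δ, by linarith, by linarith⟩ : ContDiffBump (0 : V (n + 1))).normed volume else 0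

/-- One-sided mollification: the value at `x` is an average of `v` over the ball of radius `δ` with centre
`x + 2 δ e_0`. -/
def moll (δ : ℝ) (v : V (n + 1) → ℝ) (x : V (n + 1)) : ℝ :=
  ∫ y, bump n δ (x + (2 * δ) • ei 0 - y) * v y ∂(nu n)

variable {X : Type} [TopologicalSpace X] [ChartedSpace (EuclideanHalfSpace (n + 1)) X]

open Classical in
/-- Extension by zero of the function `ψ` of the coordinates. -/
def ext (e : OpenPartialHomeomorph X (EuclideanHalfSpace (n + 1))) (ψ : V (n + 1) → ℝ) (p : X) : ℝ :=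
  if p ∈ e.source then ψ (co e p) else 0

/-- `ψ` is a function of the coordinates which vanishes on the half space outside the compact subset `K` of
the domain of the chart. -/
def Supp (ψ : V (n + 1) → ℝ) (K : Set (V (n + 1))) : Prop := ∀ x ∈ Hs n, x ∉ K → ψ x = 0

/-- The coefficients `(4n/(n-1)) sqrt(det g) g^{ij}`. -/
def Aco (g : MF (n + 1)) : MF (n + 1) := fun y => Matrix.of fun i j => cn n * Real.sqrt (g y).det * (g y)⁻¹ i j

end

end Pool.Agent.CY.S4
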