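import Pool.Agent.CY.S3.Base
import Pool.Agent.CY.S4.D

/-!
# CY-S4-GD: definitions for the global part

`lf e χ u` = the localized coordinate expression `χ · (u ∘ pt e)` on `dom e`, extended by zero; `lb e χ t` = the same on
the boundary.
-/

set_option autoImplicit false

open scoped Manifold ContDiff ENNReal
open MeasureTheory Set Filter Topology

namespace Pool.Agent.CY.S4

noncomputable section

variable {n : ℕ} {X : Type} [TopologicalSpace X] [ChartedSpace (EuclideanHalfSpace (n + 1)) X]
  {e : OpenPartialHomeomorph X (EuclideanHalfSpace (n + 1))}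

/-- The localized coordinate expression of `u`. -/
def lf (e : OpenPartialHomeomorph X (EuclideanHalfSpace (n + 1))) (χ : V (n + 1) → ℝ) (u : X → ℝ) :
    V (n + 1) → ℝ := (dom e).indicator fun y => χ y * u (pt e y)

/-- The localized coordinate expression of a boundary function `t`. -/
def lb (e : OpenPartialHomeomorph X (EuclideanHalfSpace (n + 1))) (χ : V (n + 1) → ℝ) (t : X → ℝ) :
    V n → ℝ := (bdom e).indicator fun z => χ (bd z) * t (pt e (bd z))

/-- `χ` is a smooth cutoff function supported (on the half space) in the domain of the chart. -/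
structure Cut (e : OpenPartialHomeomorph X (EuclideanHalfSpace (n + 1))) (χ : V (n + 1) → ℝ) : Prop where
  smooth : ContDiff ℝ ∞ χ
  cpt : HasCompactSupport χ
  sub : tsupport χ ∩ Hs n ⊆ dom e
  nonneg : ∀ y, 0 ≤ χ y
  le_one : ∀ y, χ y ≤ 1

/-- Smooth functions on the half space with compact support in `K`. -/
structure SU (K : Set (V (n + 1))) (U : V (n + 1) → ℝ) : Prop where
  smooth : ContDiffOn ℝ ∞ U (Hs n)
  cpt : HasCompactSupport U
  supp : Supp U K

/-- `C^1` functions on the half space with compact support in `K`. -/
structure SU1 (K : Set (V (n + 1))) (U : V (n + 1) → ℝ) : Prop where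
  smooth : ContDiffOn ℝ 1 U (Hs n)
  cpt : HasCompactSupport U
  supp : Supp U K

end

end Pool.Agent.CY.S4
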