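import Pool.Agent.CY.S3.Fin
import Pool.Agent.CY.S3.FrameD
import Pool.Agent.CY.S4.GD

/-!
# CY-S4-G5: an integrable pair orthogonal to all `C^1` functions vanishes

`C1 n X` is a subalgebra of `C(X)` which separates points (smooth bump functions, `SmoothBumpFunction` or
`exists_contMDiff_zero_iff_one_iff_of_isClosed`), so it is dense (Stone-Weierstrass
`ContinuousMap.subalgebra_topologicalClosure_eq_top_of_separatesPoints`) and the identity holds for all continuous
`φ`.  `X` is compact, Hausdorff and second countable (`ChartedSpace.secondCountable_of_sigmaCompact`), hence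
metrizable.  The finite measures `a⁺ μ + b⁺ σ` and `a⁻ μ + b⁻ σ` have the same integrals of bounded continuous
functions, so they coincide (`MeasureTheory.ext_of_forall_integral_eq_of_IsFiniteMeasure`).  Restrict to the boundary
`B` (closed, `vol_boundary : vol g B = 0`, `bvol_compl_boundary`): `b⁺ σ = b⁻ σ`, so `b = 0` `σ`-a.e., then
`a⁺ μ = a⁻ μ`, `a = 0` `μ`-a.e.
-/

set_option autoImplicit false

open scoped Manifold ContDiff ENNReal
open MeasureTheory Set Filter Topology

namespace Pool.Agent.CY.S4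

noncomputable section

set_option linter.unusedSectionVars false

private theorem g5_set {Y : Type} [TopologicalSpace Y] [HasOuterApproxClosed Y] [CompactSpace Y]
    [MeasurableSpace Y] [BorelSpace Y] (μ σ : Measure Y) {a b : Y → ℝ} (ha : Integrable a μ)
    (hb : Integrable b σ) (h : ∀ φ : C(Y, ℝ), ∫ p, a p * φ p ∂μ + ∫ p, b p * φ p ∂σ = 0) :
    ∀ s, MeasurableSet s → ∫ p in s, a p ∂μ + ∫ p in s, b p ∂σ = 0 := by
  have hlim : ∀ (ν : Measure Y) (c : Y → ℝ), Integrable c ν → ∀ (F : Set Y) (hF : IsClosed F),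
      Tendsto (fun k : ℕ => ∫ p, c p * ((hF.apprSeq k p : NNReal) : ℝ) ∂ν) atTop
        (𝓝 (∫ p in F, c p ∂ν)) := by
    intro ν c hc F hF
    rw [← integral_indicator hF.measurableSet]
    refine tendsto_integral_of_dominated_convergence (fun p => ‖c p‖) (fun k => ?_) hc.norm
      (fun k => ?_) ?_
    · exact hc.1.mul ((NNReal.continuous_coe.comp (hF.apprSeq k).continuous).aestronglyMeasurable)
    · refine Eventually.of_forall fun p => ?_
      rw [norm_mul, Real.norm_of_nonneg (NNReal.coe_nonneg _)]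
      have h1 : ((hF.apprSeq k p : NNReal) : ℝ) ≤ 1 := by
        exact_mod_cast HasOuterApproxClosed.apprSeq_apply_le_one hF k p
      calc ‖c p‖ * ((hF.apprSeq k p : NNReal) : ℝ) ≤ ‖c p‖ * 1 := by gcongr
        _ = ‖c p‖ := mul_one _
    · refine Eventually.of_forall fun p => ?_
      have h1 := (tendsto_pi_nhds.1 (HasOuterApproxClosed.tendsto_apprSeq hF)) p
      have h2 : Tendsto (fun k : ℕ => ((hF.apprSeq k p : NNReal) : ℝ)) atTop
          (𝓝 ((F.indicator (fun _ => (1 : NNReal)) p : NNReal) : ℝ)) :=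
        (NNReal.continuous_coe.tendsto _).comp h1
      have h3 := h2.const_mul (c p)
      have h4 : c p * ((F.indicator (fun _ => (1 : NNReal)) p : NNReal) : ℝ) = F.indicator c p := by
        by_cases hp : p ∈ F
        · rw [indicator_of_mem hp, indicator_of_mem hp, NNReal.coe_one, mul_one]
        · rw [indicator_of_notMem hp, indicator_of_notMem hp, NNReal.coe_zero, mul_zero]
      rwa [h4] at h3
  have hcl : ∀ F : Set Y, IsClosed F → ∫ p in F, a p ∂μ + ∫ p in F, b p ∂σ = 0 := by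
    intro F hF
    refine tendsto_nhds_unique ((hlim μ a ha F hF).add (hlim σ b hb F hF)) ?_
    have h1 : (fun k : ℕ => ∫ p, a p * ((hF.apprSeq k p : NNReal) : ℝ) ∂μ +
        ∫ p, b p * ((hF.apprSeq k p : NNReal) : ℝ) ∂σ) = fun _ => 0 := by
      funext k
      exact h ⟨fun p => ((hF.apprSeq k p : NNReal) : ℝ),
        NNReal.continuous_coe.comp (hF.apprSeq k).continuous⟩
    rw [h1]
    exact tendsto_const_nhds
  refine MeasurableSpace.induction_on_inter
    (C := fun s _ => ∫ p in s, a p ∂μ + ∫ p in s, b p ∂σ = 0)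
    (s := {s : Set Y | IsClosed s}) ?_ isPiSystem_isClosed ?_ ?_ ?_ ?_
  · rw [BorelSpace.measurable_eq (α := Y), borel_eq_generateFrom_isClosed]
  · simp
  · exact fun t ht => hcl t ht
  · intro t ht h0
    rw [setIntegral_compl ht ha, setIntegral_compl ht hb]
    have h1 := hcl univ isClosed_univ
    rw [setIntegral_univ, setIntegral_univ] at h1
    linarith
  · intro f hd hm h0
    have h1 := hasSum_integral_iUnion hm hd ha.integrableOn
    have h2 := hasSum_integral_iUnion hm hd hb.integrableOn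
    have h3 := h1.add h2
    simp only [h0] at h3
    exact h3.unique hasSum_zero

private theorem g5_zero {Y : Type} [TopologicalSpace Y] [HasOuterApproxClosed Y] [CompactSpace Y]
    [MeasurableSpace Y] [BorelSpace Y] (μ σ : Measure Y) {a b : Y → ℝ} (ha : Integrable a μ)
    (hb : Integrable b σ) {B : Set Y} (h1 : μ B = 0) (h2 : σ Bᶜ = 0)
    (h : ∀ φ : C(Y, ℝ), ∫ p, a p * φ p ∂μ + ∫ p, b p * φ p ∂σ = 0) :
    a =ᵐ[μ] 0 ∧ b =ᵐ[σ] 0 := by
  have hs := g5_set μ σ ha hb h
  have hb0 : b =ᵐ[σ] 0 := by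
    refine hb.ae_eq_zero_of_forall_setIntegral_eq_zero fun s hs' _ => ?_
    have e1 := hs (s ∩ toMeasurable μ B) (hs'.inter (measurableSet_toMeasurable μ B))
    have e2 : ∫ p in s ∩ toMeasurable μ B, a p ∂μ = 0 := by
      refine setIntegral_measure_zero _ ?_
      refine measure_mono_null inter_subset_right ?_
      rw [measure_toMeasurable, h1]
    have e3 : ∫ p in s ∩ toMeasurable μ B, b p ∂σ = ∫ p in s, b p ∂σ := by
      refine setIntegral_congr_set ?_
      refine inter_ae_eq_left_of_ae_eq_univ ?_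
      rw [ae_eq_univ]
      exact measure_mono_null (compl_subset_compl.2 (subset_toMeasurable μ B)) h2
    rw [e2, e3, zero_add] at e1
    exact e1
  refine ⟨?_, hb0⟩
  refine ha.ae_eq_zero_of_forall_setIntegral_eq_zero fun s hs' _ => ?_
  have e1 := hs s hs'
  have e2 : ∫ p in s, b p ∂σ = 0 := by
    rw [setIntegral_congr_ae (g := fun _ => (0 : ℝ)) hs' (hb0.mono fun p hp _ => hp)]
    simp
  rw [e2, add_zero] at e1
  exact e1

variable {n : ℕ} {X : Type} [TopologicalSpace X] [ChartedSpace (EuclideanHalfSpace (n + 1)) X]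
  [IsManifold (𝓡∂ (n + 1)) ∞ X] [CompactSpace X] [T2Space X] [MeasurableSpace X] [BorelSpace X]
  {g : Metric n X} {e : OpenPartialHomeomorph X (EuclideanHalfSpace (n + 1))}

private theorem g5_alg (n : ℕ) (X : Type) [TopologicalSpace X]
    [ChartedSpace (EuclideanHalfSpace (n + 1)) X] [IsManifold (𝓡∂ (n + 1)) ∞ X] [CompactSpace X]
    [T2Space X] : ∃ A : Subalgebra ℝ C(X, ℝ), (∀ f : C(X, ℝ), f ∈ A ↔ (f : X → ℝ) ∈ C1 n X) ∧
      A.topologicalClosure = ⊤ := by
  let A : Subalgebra ℝ C(X, ℝ) :=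
    { carrier := {f | (f : X → ℝ) ∈ C1 n X}
      mul_mem' := fun {f k} hf hk => C1.mul hf hk
      add_mem' := fun {f k} hf hk => C1.add hf hk
      algebraMap_mem' := fun r => C1.const r }
  refine ⟨A, fun f => Iff.rfl, ?_⟩
  refine ContinuousMap.subalgebra_topologicalClosure_eq_top_of_separatesPoints A ?_
  intro x y hxy
  obtain ⟨f, hf0, hf1, _⟩ := exists_contMDiffMap_zero_one_of_isClosed (𝓡∂ (n + 1)) (n := ⊤)
    (isClosed_singleton (x := x)) (isClosed_singleton (x := y)) (disjoint_singleton.2 hxy)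
  have hf : (f : X → ℝ) ∈ C1 n X := C1.of_smooth f.contMDiff
  refine ⟨f, ⟨⟨f, C1.continuous hf⟩, hf, rfl⟩, ?_⟩
  have h0 : f x = 0 := hf0 rfl
  have h1 : f y = 1 := hf1 rfl
  rw [h0, h1]
  exact zero_ne_one

theorem dense_zero (g : Metric n X) {a b : X → ℝ} (ha : MemLp a 2 (vol g)) (hb : MemLp b 2 (bvol g))
    (h : ∀ φ ∈ C1 n X, ∫ p, a p * φ p ∂(vol g) + ∫ p, b p * φ p ∂(bvol g) = 0) :
    a =ᵐ[vol g] 0 ∧ b =ᵐ[bvol g] 0 := by
  have := Manifold.metrizableSpace (𝓡∂ (n + 1)) X
  have ia : Integrable a (vol g) := ha.integrable (by norm_num)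
  have ib : Integrable b (bvol g) := hb.integrable (by norm_num)
  refine g5_zero (vol g) (bvol g) ia ib (vol_boundary g) (bvol_compl_boundary g) ?_
  obtain ⟨A, hA, hA'⟩ := g5_alg n X
  have hcont : ∀ (ν : Measure X) (c : X → ℝ), Integrable c ν →
      Continuous fun φ : C(X, ℝ) => ∫ p, c p * φ p ∂ν := by
    intro ν c hc
    have hi : ∀ φ : C(X, ℝ), Integrable (fun p => c p * φ p) ν := by
      intro φ
      refine hc.mul_bdd (c := ‖φ‖) φ.continuous.aestronglyMeasurable ?_
      exact Eventually.of_forall fun p => φ.norm_coe_le_norm p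
    rw [Metric.continuous_iff']
    intro φ ε hε
    have h1 : Tendsto (fun ψ : C(X, ℝ) => (∫ p, ‖c p‖ ∂ν) * ‖ψ - φ‖) (𝓝 φ) (𝓝 0) := by
      have : Continuous fun ψ : C(X, ℝ) => (∫ p, ‖c p‖ ∂ν) * ‖ψ - φ‖ := by fun_prop
      have h2 := this.tendsto φ
      simpa using h2
    filter_upwards [h1.eventually (gt_mem_nhds hε)] with ψ hψ
    refine lt_of_le_of_lt ?_ hψ
    rw [Real.dist_eq, ← integral_sub (hi ψ) (hi φ), ← Real.norm_eq_abs]
    rw [← integral_mul_const]
    refine norm_integral_le_of_norm_le (hc.norm.mul_const _) ?_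
    refine Eventually.of_forall fun p => ?_
    rw [← mul_sub, norm_mul]
    gcongr
    exact (ψ - φ).norm_coe_le_norm p
  have hclosed : IsClosed {φ : C(X, ℝ) | ∫ p, a p * φ p ∂(vol g) + ∫ p, b p * φ p ∂(bvol g) = 0} :=
    isClosed_eq ((hcont _ a ia).add (hcont _ b ib)) continuous_const
  have hsub : (A : Set C(X, ℝ)) ⊆
      {φ : C(X, ℝ) | ∫ p, a p * φ p ∂(vol g) + ∫ p, b p * φ p ∂(bvol g) = 0} :=
    fun φ hφ => h φ ((hA φ).1 hφ)
  have hcl := closure_minimal hsub hclosed
  intro φ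
  refine hcl ?_
  rw [← Subalgebra.topologicalClosure_coe, hA']
  trivial

end

end Pool.Agent.CY.S4
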