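import Pool.Agent.CY.S4.GD
import Pool.Agent.CY.S3.Fin
import Pool.Agent.CY.S5.Mean
import Pool.Agent.CY.S5.Green

/-!
# CY-S4-Iface: facts used from S3 and S5
-/

set_option autoImplicit false

open scoped Manifold ContDiff ENNReal
open MeasureTheory Set Filter Topology

namespace Pool.Agent.CY.S4

noncomputable section

set_option linter.unusedSectionVars false

section linear

variable {m : ℕ} {S U : Set (V m)}

theorem lap_add (hD : Dom S U) (g : MF m) {f k : V m → ℝ} (hf : ContDiffOn ℝ 2 f U) (hk : ContDiffOn ℝ 2 k U)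
    {y : V m} (hy : y ∈ U) : lap S g (fun z => f z + k z) y = lap S g f y + lap S g k y := by
  have hf1 : DifferentiableOn ℝ f U := hf.differentiableOn (by norm_num)
  have hk1 : DifferentiableOn ℝ k U := hk.differentiableOn (by norm_num)
  unfold lap
  rw [← Finset.sum_add_distrib]
  refine Finset.sum_congr rfl fun i _ => ?_
  rw [← Finset.sum_add_distrib]
  refine Finset.sum_congr rfl fun j _ => ?_
  rw [← mul_add]
  congr 1
  unfold hess
  have h1 : pd S i (pd S j (fun z => f z + k z)) y = pd S i (pd S j f) y + pd S i (pd S j k) y := by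
    rw [hD.pd_congr i (g := fun z => pd S j f z + pd S j k z) (fun z hz => hD.pd_add j hf1 hk1 hz) hy]
    exact hD.pd_add i (hD.diffOn_pd j hf) (hD.diffOn_pd j hk) hy
  rw [h1]
  have h2 : ∑ l, Gam S g l i j y * pd S l (fun z => f z + k z) y =
      ∑ l, Gam S g l i j y * pd S l f y + ∑ l, Gam S g l i j y * pd S l k y := by
    rw [← Finset.sum_add_distrib]
    exact Finset.sum_congr rfl fun l _ => by rw [hD.pd_add l hf1 hk1 hy]; ring
  rw [h2]
  ring

theorem nder_add {n : ℕ} {U : Set (V (n + 1))} (hD : Dom (Hs n) U) (g : MF (n + 1)) {f k : V (n + 1) → ℝ}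
    (hf : DifferentiableOn ℝ f U) (hk : DifferentiableOn ℝ k U) {z : V n} (hz : bd z ∈ U) :
    nder g (fun y => f y + k y) z = nder g f z + nder g k z := by
  unfold nder
  have h2 : ∑ j, (g (bd z))⁻¹ 0 j * pd (Hs n) j (fun y => f y + k y) (bd z) =
      ∑ j, (g (bd z))⁻¹ 0 j * pd (Hs n) j f (bd z) + ∑ j, (g (bd z))⁻¹ 0 j * pd (Hs n) j k (bd z) := by
    rw [← Finset.sum_add_distrib]
    exact Finset.sum_congr rfl fun l _ => by rw [hD.pd_add l hf hk hz]; ring
  rw [h2]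
  ring

end linear

variable {n : ℕ} {X : Type} [TopologicalSpace X] [ChartedSpace (EuclideanHalfSpace (n + 1)) X]
  [IsManifold (𝓡∂ (n + 1)) ∞ X] [CompactSpace X] [T2Space X] [MeasurableSpace X] [BorelSpace X]
  {g : Metric n X} {e : OpenPartialHomeomorph X (EuclideanHalfSpace (n + 1))}

theorem memLp_top_of_continuous {μ : Measure X} [IsFiniteMeasure μ] {F : X → ℝ} (hF : Continuous F) :
    MemLp F ⊤ μ := by
  obtain ⟨C, hC⟩ := isCompact_univ.exists_bound_of_continuousOn hF.continuousOn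
  exact memLp_top_of_bound hF.aestronglyMeasurable C (Eventually.of_forall fun x => hC x (mem_univ x))

theorem memLp_top_of_bcont (g : Metric n X) {F : X → ℝ} (hF : ContinuousOn F ((𝓡∂ (n + 1)).boundary X)) :
    MemLp F ⊤ (bvol g) := by
  have hc : IsClosed ((𝓡∂ (n + 1)).boundary X) := isClosed_boundary
  obtain ⟨C, hC⟩ := hc.isCompact.exists_bound_of_continuousOn hF
  have hr : (bvol g).restrict ((𝓡∂ (n + 1)).boundary X) = bvol g :=
    Measure.restrict_eq_self_of_ae_mem (ae_bvol_boundary g)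
  have hm : AEStronglyMeasurable F (bvol g) := by
    rw [← hr]
    exact hF.aestronglyMeasurable hc.measurableSet
  refine memLp_top_of_bound hm C ?_
  filter_upwards [ae_bvol_boundary g] with p hp
  exact hC p hp

theorem gip_eq (he : e ∈ atlas (EuclideanHalfSpace (n + 1)) X) {p : X} (hp : p ∈ e.source) {u v : X → ℝ}
    (hu : u ∈ C1 n X) (hv : v ∈ C1 n X) :
    gipX g u v p = gip (Hs n) (g.G e) (loc e u) (loc e v) (co e p) :=
  gipX_eq g he hu hv hp

theorem lap_eq (he : e ∈ atlas (EuclideanHalfSpace (n + 1)) X) {p : X} (hp : p ∈ e.source) {u : X → ℝ}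
    (hu : ContMDiff (𝓡∂ (n + 1)) 𝓘(ℝ) ∞ u) :
    lapX g u p = lap (Hs n) (g.G e) (loc e u) (co e p) :=
  lapX_eq g he (hu.of_le ENat.LEInfty.out) hp

theorem nder_eq (he : e ∈ atlas (EuclideanHalfSpace (n + 1)) X) {p : X} (hp : p ∈ e.source)
    (hb : p ∈ (𝓡∂ (n + 1)).boundary X) {u : X → ℝ} (hu : ContMDiff (𝓡∂ (n + 1)) 𝓘(ℝ) ∞ u) :
    nderX g u p = nder (g.G e) (loc e u) (tl (co e p)) :=
  nderX_eq g he (hu.of_le ENat.LEInfty.out) hp hb

theorem scal_eq (he : e ∈ atlas (EuclideanHalfSpace (n + 1)) X) {p : X} (hp : p ∈ e.source) :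
    scalX g p = scal (Hs n) (g.G e) (co e p) := scalX_eq g he hp

theorem mean_eq (he : e ∈ atlas (EuclideanHalfSpace (n + 1)) X) {p : X} (hp : p ∈ e.source)
    (hb : p ∈ (𝓡∂ (n + 1)).boundary X) : meanX g p = meanCurv (g.G e) (tl (co e p)) := meanX_eq g he hp hb

theorem scalX_memLp (g : Metric n X) : MemLp (scalX g) ⊤ (vol g) :=
  memLp_top_of_continuous (continuous_scalX g)

theorem meanX_memLp (g : Metric n X) : MemLp (meanX g) ⊤ (bvol g) :=
  memLp_top_of_bcont g (continuousOn_meanX g)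

theorem gipX_memLp (g : Metric n X) {u v : X → ℝ} (hu : u ∈ C1 n X) (hv : v ∈ C1 n X) :
    MemLp (gipX g u v) ⊤ (vol g) :=
  memLp_top_of_continuous (continuous_gipX g hu hv)

theorem Lop_memLp (g : Metric n X) {u : X → ℝ} (hu : ContMDiff (𝓡∂ (n + 1)) 𝓘(ℝ) ∞ u) :
    MemLp (Lop g u) ⊤ (vol g) :=
  memLp_top_of_continuous (continuous_Lop g (hu.of_le ENat.LEInfty.out))

theorem Bop_memLp (g : Metric n X) {u : X → ℝ} (hu : ContMDiff (𝓡∂ (n + 1)) 𝓘(ℝ) ∞ u) :
    MemLp (Bop g u) ⊤ (bvol g) :=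
  memLp_top_of_bcont g (continuousOn_Bop g (hu.of_le ENat.LEInfty.out))

theorem Lop_add (g : Metric n X) {u v : X → ℝ} (hu : ContMDiff (𝓡∂ (n + 1)) 𝓘(ℝ) ∞ u)
    (hv : ContMDiff (𝓡∂ (n + 1)) 𝓘(ℝ) ∞ v) (p : X) : Lop g (fun q => u q + v q) p = Lop g u p + Lop g v p := by
  have h1 : ContDiffOn ℝ 2 (loc (ch (n := n) p) u) (dom (ch p)) :=
    contDiffOn_loc (chart_mem_atlas _ p) (k := 2) (hu.of_le ENat.LEInfty.out)
  have h2 : ContDiffOn ℝ 2 (loc (ch (n := n) p) v) (dom (ch p)) :=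
    contDiffOn_loc (chart_mem_atlas _ p) (k := 2) (hv.of_le ENat.LEInfty.out)
  have h3 : lapX g (fun q => u q + v q) p = lapX g u p + lapX g v p :=
    lap_add (dom_chart _) _ h1 h2 (co_mem_dom _ (mem_chart_source _ p))
  unfold Lop
  rw [h3]
  ring

theorem Bop_add (g : Metric n X) {u v : X → ℝ} (hu : ContMDiff (𝓡∂ (n + 1)) 𝓘(ℝ) ∞ u)
    (hv : ContMDiff (𝓡∂ (n + 1)) 𝓘(ℝ) ∞ v) {p : X} (hp : p ∈ (𝓡∂ (n + 1)).boundary X) :
    Bop g (fun q => u q + v q) p = Bop g u p + Bop g v p := by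
  have h1 : DifferentiableOn ℝ (loc (ch (n := n) p) u) (dom (ch p)) :=
    (contDiffOn_loc (chart_mem_atlas _ p) (k := 1) (hu.of_le ENat.LEInfty.out)).differentiableOn (by simp)
  have h2 : DifferentiableOn ℝ (loc (ch (n := n) p) v) (dom (ch p)) :=
    (contDiffOn_loc (chart_mem_atlas _ p) (k := 1) (hv.of_le ENat.LEInfty.out)).differentiableOn (by simp)
  have h0 : co (ch (n := n) p) p 0 = 0 :=
    (mem_boundary_iff (chart_mem_atlas _ p) (mem_chart_source _ p)).1 hp
  have h3 : bd (tl (co (ch (n := n) p) p)) ∈ dom (ch (n := n) p) := by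
    rw [bd_tl h0]
    exact co_mem_dom _ (mem_chart_source _ p)
  have h4 : nderX g (fun q => u q + v q) p = nderX g u p + nderX g v p :=
    nder_add (dom_chart _) _ h1 h2 h3
  unfold Bop
  rw [h4]
  ring

/-- Green's formula. -/
theorem green (g : Metric n X) {u v : X → ℝ} (hu : ContMDiff (𝓡∂ (n + 1)) 𝓘(ℝ) ∞ u) (hv : v ∈ C1 n X) :
    ∫ p, Lop g u p * v p ∂(vol g) + ∫ p, Bop g u p * v p ∂(bvol g) =
      cn n * ∫ p, gipX g u v p ∂(vol g) + ∫ p, scalX g p * u p * v p ∂(vol g) +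
        2 * ∫ p, meanX g p * u p * v p ∂(bvol g) :=
  green_LB g (hu.of_le ENat.LEInfty.out) hv

end

end Pool.Agent.CY.S4
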