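import Pool.Agent.CY.S4.D

/-!
# CY-S4-L0: L2 calculus

Elementary facts about square integrable real functions on a measure space, with the square of the norm written
`∫ f²`.  Proofs: Cauchy-Schwarz from `MeasureTheory.integral_mul_le_Lp_mul_Lq` or from the inner product of
`Lp ℝ 2 μ` (`MeasureTheory.L2.inner_def`), the limits from Cauchy-Schwarz, completeness from the completeness
of `Lp ℝ 2 μ` (`MemLp.toLp`, `eLpNorm` = (∫ f²)^{1/2}; `MemLp.eLpNorm_eq_integral_rpow_norm`).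
-/

set_option autoImplicit false

open scoped Manifold ContDiff ENNReal
open MeasureTheory Set Filter Topology

namespace Pool.Agent.CY.S4

noncomputable section

variable {α : Type} [MeasurableSpace α] {μ : Measure α} {f g : α → ℝ}

theorem l2_int_mul (hf : MemLp f 2 μ) (hg : MemLp g 2 μ) : Integrable (fun x => f x * g x) μ :=
  hf.integrable_mul hg

theorem l2_int_sq (hf : MemLp f 2 μ) : Integrable (fun x => f x ^ 2) μ := hf.integrable_sq

/-- Cauchy-Schwarz. -/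
theorem l2_cs (hf : MemLp f 2 μ) (hg : MemLp g 2 μ) :
    |∫ x, f x * g x ∂μ| ≤ Real.sqrt (∫ x, f x ^ 2 ∂μ) * Real.sqrt (∫ x, g x ^ 2 ∂μ) := by
  have hfg := l2_int_mul hf hg
  have hff := l2_int_sq hf
  have hgg := l2_int_sq hg
  have h : ∀ t : ℝ, 0 ≤ (∫ x, f x ^ 2 ∂μ) * (t * t) + (2 * ∫ x, f x * g x ∂μ) * t + ∫ x, g x ^ 2 ∂μ := by
    intro t
    have e : ∫ x, (t * f x + g x) ^ 2 ∂μ =
        (∫ x, f x ^ 2 ∂μ) * (t * t) + (2 * ∫ x, f x * g x ∂μ) * t + ∫ x, g x ^ 2 ∂μ := by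
      have e1 : (fun x => (t * f x + g x) ^ 2) = fun x => ((t * t) * f x ^ 2 + (2 * t) * (f x * g x)) + g x ^ 2 := by
        ext x; ring
      have i1 : Integrable (fun x => (t * t) * f x ^ 2) μ := hff.const_mul _
      have i2 : Integrable (fun x => (2 * t) * (f x * g x)) μ := hfg.const_mul _
      have i3 : Integrable (fun x => (t * t) * f x ^ 2 + (2 * t) * (f x * g x)) μ := i1.add i2
      rw [e1, integral_add i3 hgg, integral_add i1 i2, integral_const_mul, integral_const_mul]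
      ring
    rw [← e]
    exact integral_nonneg fun _ => sq_nonneg _
  have hd := discrim_le_zero h
  rw [discrim] at hd
  have h2 : (∫ x, f x * g x ∂μ) ^ 2 ≤ (∫ x, f x ^ 2 ∂μ) * ∫ x, g x ^ 2 ∂μ := by nlinarith
  rw [← Real.sqrt_mul (integral_nonneg fun _ => sq_nonneg _)]
  exact Real.abs_le_sqrt h2

theorem l2_add_le (hf : MemLp f 2 μ) (hg : MemLp g 2 μ) :
    ∫ x, (f x + g x) ^ 2 ∂μ ≤ 2 * ∫ x, f x ^ 2 ∂μ + 2 * ∫ x, g x ^ 2 ∂μ := by
  have hff := (l2_int_sq hf).const_mul 2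
  have hgg := (l2_int_sq hg).const_mul 2
  rw [← integral_const_mul, ← integral_const_mul, ← integral_add hff hgg]
  refine integral_mono (l2_int_sq (hf.add hg)) (hff.add hgg) fun x => ?_
  show (f x + g x) ^ 2 ≤ 2 * f x ^ 2 + 2 * g x ^ 2
  nlinarith [sq_nonneg (f x - g x)]

theorem l2_sub_le (hf : MemLp f 2 μ) (hg : MemLp g 2 μ) :
    ∫ x, (f x - g x) ^ 2 ∂μ ≤ 2 * ∫ x, f x ^ 2 ∂μ + 2 * ∫ x, g x ^ 2 ∂μ := by
  have hff := (l2_int_sq hf).const_mul 2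
  have hgg := (l2_int_sq hg).const_mul 2
  rw [← integral_const_mul, ← integral_const_mul, ← integral_add hff hgg]
  refine integral_mono (l2_int_sq (hf.sub hg)) (hff.add hgg) fun x => ?_
  show (f x - g x) ^ 2 ≤ 2 * f x ^ 2 + 2 * g x ^ 2
  nlinarith [sq_nonneg (f x + g x)]

/-- No measurability of `f` is needed: if `f ^ 2` is not integrable the left side is `0`. -/
theorem l2_mono {c : ℝ} (hg : MemLp g 2 μ) (h : ∀ᵐ x ∂μ, |f x| ≤ c * |g x|) :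
    ∫ x, f x ^ 2 ∂μ ≤ c ^ 2 * ∫ x, g x ^ 2 ∂μ := by
  rw [← integral_const_mul]
  refine integral_mono_of_nonneg (Eventually.of_forall fun _ => sq_nonneg _) ((l2_int_sq hg).const_mul _) ?_
  filter_upwards [h] with x hx
  have h1 : |f x| ^ 2 ≤ (c * |g x|) ^ 2 := pow_le_pow_left₀ (abs_nonneg _) hx 2
  rw [sq_abs, mul_pow, sq_abs] at h1
  exact h1

/-- Finite sums: `(∑ f_i)² ≤ N ∑ f_i²`. -/
theorem l2_sum_le {ι : Type} (s : Finset ι) (F : ι → α → ℝ) (hF : ∀ i ∈ s, MemLp (F i) 2 μ) :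
    ∫ x, (∑ i ∈ s, F i x) ^ 2 ∂μ ≤ s.card * ∑ i ∈ s, ∫ x, F i x ^ 2 ∂μ := by
  rw [← integral_finsetSum _ (fun i hi => l2_int_sq (hF i hi)), ← integral_const_mul]
  refine integral_mono_of_nonneg (Eventually.of_forall fun _ => sq_nonneg _)
    ((integrable_finsetSum _ fun i hi => l2_int_sq (hF i hi)).const_mul _) (Eventually.of_forall fun x => ?_)
  exact sq_sum_le_card_mul_sum_sq

variable {F : ℕ → α → ℝ}

theorem l2_tend_int (hF : ∀ k, MemLp (F k) 2 μ) (hf : MemLp f 2 μ) (hg : MemLp g 2 μ)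
    (h : Tendsto (fun k => ∫ x, (F k x - f x) ^ 2 ∂μ) atTop (𝓝 0)) :
    Tendsto (fun k => ∫ x, F k x * g x ∂μ) atTop (𝓝 (∫ x, f x * g x ∂μ)) := by
  rw [tendsto_iff_dist_tendsto_zero]
  have hb : ∀ k, dist (∫ x, F k x * g x ∂μ) (∫ x, f x * g x ∂μ) ≤
      Real.sqrt (∫ x, (F k x - f x) ^ 2 ∂μ) * Real.sqrt (∫ x, g x ^ 2 ∂μ) := by
    intro k
    rw [Real.dist_eq, ← integral_sub (l2_int_mul (hF k) hg) (l2_int_mul hf hg)]
    have e : (fun x => F k x * g x - f x * g x) = fun x => (F k x - f x) * g x := by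
      ext x; ring
    rw [e]
    exact l2_cs ((hF k).sub hf) hg
  have h0 : Tendsto (fun k => Real.sqrt (∫ x, (F k x - f x) ^ 2 ∂μ) * Real.sqrt (∫ x, g x ^ 2 ∂μ)) atTop (𝓝 0) := by
    have h1 := (Real.continuous_sqrt.tendsto 0).comp h
    rw [Real.sqrt_zero] at h1
    simpa using h1.mul_const (Real.sqrt (∫ x, g x ^ 2 ∂μ))
  exact squeeze_zero (fun k => dist_nonneg) hb h0

theorem l2_tend_sq (hF : ∀ k, MemLp (F k) 2 μ) (hf : MemLp f 2 μ)
    (h : Tendsto (fun k => ∫ x, (F k x - f x) ^ 2 ∂μ) atTop (𝓝 0)) :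
    Tendsto (fun k => ∫ x, F k x ^ 2 ∂μ) atTop (𝓝 (∫ x, f x ^ 2 ∂μ)) := by
  have h1 := l2_tend_int hF hf hf h
  have e0 : ∫ x, f x * f x ∂μ = ∫ x, f x ^ 2 ∂μ := by
    congr 1; ext x; ring
  have e : ∀ k, ∫ x, F k x ^ 2 ∂μ =
      ∫ x, (F k x - f x) ^ 2 ∂μ + 2 * (∫ x, F k x * f x ∂μ) - ∫ x, f x ^ 2 ∂μ := by
    intro k
    have i1 := l2_int_sq ((hF k).sub hf)
    have i2 := (l2_int_mul (hF k) hf).const_mul 2
    have i3 := l2_int_sq hf
    have i1' : Integrable (fun x => (F k x - f x) ^ 2) μ := i1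
    have i4 : Integrable (fun x => (F k x - f x) ^ 2 + 2 * (F k x * f x)) μ := i1'.add i2
    rw [← integral_const_mul, ← integral_add i1' i2, ← integral_sub i4 i3]
    congr 1
    ext x
    ring
  have h2 := (h.add (h1.const_mul 2)).sub_const (∫ x, f x ^ 2 ∂μ)
  rw [e0] at h2
  have e2 : (0 : ℝ) + 2 * (∫ x, f x ^ 2 ∂μ) - ∫ x, f x ^ 2 ∂μ = ∫ x, f x ^ 2 ∂μ := by ring
  rw [e2] at h2
  exact h2.congr fun k => (e k).symm

/-- A convergent sequence is a Cauchy sequence. -/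
theorem l2_cauchy (hF : ∀ k, MemLp (F k) 2 μ) (hf : MemLp f 2 μ)
    (h : Tendsto (fun k => ∫ x, (F k x - f x) ^ 2 ∂μ) atTop (𝓝 0)) :
    ∀ ε > 0, ∃ N, ∀ j ≥ N, ∀ k ≥ N, ∫ x, (F j x - F k x) ^ 2 ∂μ ≤ ε := by
  intro ε hε
  have h1 : ∀ᶠ k in atTop, ∫ x, (F k x - f x) ^ 2 ∂μ < ε / 4 :=
    h.eventually (gt_mem_nhds (by positivity))
  obtain ⟨N, hN⟩ := eventually_atTop.mp h1
  refine ⟨N, fun j hj k hk => ?_⟩
  have e : (fun x => (F j x - F k x) ^ 2) = fun x => ((F j x - f x) - (F k x - f x)) ^ 2 := by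
    ext x; ring
  rw [e]
  have := l2_sub_le ((hF j).sub hf) ((hF k).sub hf)
  simp only [Pi.sub_apply] at this
  linarith [hN j hj, hN k hk]

private theorem norm_sq_toLp (hf : MemLp f 2 μ) : ‖hf.toLp f‖ ^ 2 = ∫ x, f x ^ 2 ∂μ := by
  rw [← real_inner_self_eq_norm_sq, L2.inner_def]
  refine integral_congr_ae ?_
  filter_upwards [hf.coeFn_toLp] with x hx
  rw [hx]
  simp [pow_two]

/-- Completeness. -/
theorem l2_complete (hF : ∀ k, MemLp (F k) 2 μ)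
    (h : ∀ ε > 0, ∃ N, ∀ j ≥ N, ∀ k ≥ N, ∫ x, (F j x - F k x) ^ 2 ∂μ ≤ ε) :
    ∃ f : α → ℝ, MemLp f 2 μ ∧ Tendsto (fun k => ∫ x, (F k x - f x) ^ 2 ∂μ) atTop (𝓝 0) := by
  have hc : CauchySeq (fun k => (hF k).toLp (F k)) := by
    rw [Metric.cauchySeq_iff]
    intro ε hε
    obtain ⟨N, hN⟩ := h ((ε / 2) ^ 2) (by positivity)
    refine ⟨N, fun j hj k hk => ?_⟩
    have h1 := hN j hj k hk
    have h2 : ‖((hF j).sub (hF k)).toLp (F j - F k)‖ ^ 2 ≤ (ε / 2) ^ 2 := by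
      rw [norm_sq_toLp]
      exact h1
    have h3 : ‖((hF j).sub (hF k)).toLp (F j - F k)‖ ≤ ε / 2 := by
      exact (pow_le_pow_iff_left₀ (norm_nonneg _) (by positivity) (by norm_num)).mp h2
    rw [dist_eq_norm, ← MemLp.toLp_sub]
    linarith
  obtain ⟨g, hg⟩ := cauchySeq_tendsto_of_complete hc
  refine ⟨g, Lp.memLp g, ?_⟩
  have e : ∀ k, ∫ x, (F k x - g x) ^ 2 ∂μ = ‖(hF k).toLp (F k) - g‖ ^ 2 := by
    intro k
    have h1 : (hF k).toLp (F k) - g = ((hF k).sub (Lp.memLp g)).toLp (F k - (g : α → ℝ)) := by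
      rw [MemLp.toLp_sub (hF k) (Lp.memLp g), Lp.toLp_coeFn g (Lp.memLp g)]
    rw [h1, norm_sq_toLp]
    rfl
  have h1 : Tendsto (fun k => ‖(hF k).toLp (F k) - g‖) atTop (𝓝 0) :=
    tendsto_iff_norm_sub_tendsto_zero.mp hg
  have h2 := h1.pow 2
  simp only [ne_eq, OfNat.ofNat_ne_zero, not_false_eq_true, zero_pow] at h2
  exact h2.congr fun k => (e k).symm

/-- Uniqueness of the limit. -/
theorem l2_unique (hF : ∀ k, MemLp (F k) 2 μ) (hf : MemLp f 2 μ) (hg : MemLp g 2 μ)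
    (h : Tendsto (fun k => ∫ x, (F k x - f x) ^ 2 ∂μ) atTop (𝓝 0))
    (h' : Tendsto (fun k => ∫ x, (F k x - g x) ^ 2 ∂μ) atTop (𝓝 0)) : f =ᵐ[μ] g := by
  have hb : ∀ k, ∫ x, (f x - g x) ^ 2 ∂μ ≤
      2 * ∫ x, (F k x - g x) ^ 2 ∂μ + 2 * ∫ x, (F k x - f x) ^ 2 ∂μ := by
    intro k
    have e : (fun x => (f x - g x) ^ 2) = fun x => ((F k x - g x) - (F k x - f x)) ^ 2 := by
      ext x; ring
    rw [e]
    exact l2_sub_le ((hF k).sub hg) ((hF k).sub hf)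
  have h0 : Tendsto (fun k => 2 * ∫ x, (F k x - g x) ^ 2 ∂μ + 2 * ∫ x, (F k x - f x) ^ 2 ∂μ) atTop (𝓝 0) := by
    simpa using (h'.const_mul 2).add (h.const_mul 2)
  have h1 : ∫ x, (f x - g x) ^ 2 ∂μ ≤ 0 := ge_of_tendsto' h0 hb
  have h2 : ∫ x, (f x - g x) ^ 2 ∂μ = 0 := le_antisymm h1 (integral_nonneg fun _ => sq_nonneg _)
  have h3 := (integral_eq_zero_iff_of_nonneg (fun _ => sq_nonneg _) (l2_int_sq (hf.sub hg))).mp h2
  filter_upwards [h3] with x hx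
  have h4 : (f x - g x) ^ 2 = 0 := hx
  have h5 : f x - g x = 0 := by
    rcases pow_eq_zero_iff (two_ne_zero) |>.mp h4 with h
    exact h
  linarith

end

end Pool.Agent.CY.S4
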