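import Pool.Agent.CY.S3.NormD
import Pool.Agent.CY.S4.Iface
import Pool.Agent.CY.S4.G5
import Pool.Agent.CY.S4.L0

/-!
# CY-S4-G11: identification of the limits

`L_k = Lop g (u k) → a` in `L²(vol)`, `B_k = Bop g (u k) → b` in `L²(bvol)` (`l2_complete`, `Lop_memLp`, `Bop_memLp`).
`green` for `u k` and `φ ∈ C1 n X`, and `inner_D` : the right side tends to the left side of `WeakEq` (`hT`, `scalX` and
`meanX` are bounded), so `∫ a φ + ∫ b φ = ∫ lam |w|^(pp-1) φ + ∫ kap |τ|^(qq-1) φ` and `dense_zero` gives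
`a = lam |w|^(pp-1)`, `b = kap |τ|^(qq-1)` a.e.  Finally `(u k)^(pp-1) → |w|^(pp-1)` in `L²(vol)`: `s ↦ s^(pp-1)` is Lipschitz
on `[c, C]`; the same for `τ` on the boundary.
-/

set_option autoImplicit false

open scoped Manifold ContDiff ENNReal
open MeasureTheory Set Filter Topology

namespace Pool.Agent.CY.S4

noncomputable section

set_option linter.unusedSectionVars false

variable {n : ℕ} {X : Type} [TopologicalSpace X] [ChartedSpace (EuclideanHalfSpace (n + 1)) X]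
  [IsManifold (𝓡∂ (n + 1)) ∞ X] [CompactSpace X] [T2Space X] [MeasurableSpace X] [BorelSpace X]
  {g : Metric n X} {e : OpenPartialHomeomorph X (EuclideanHalfSpace (n + 1))}

theorem g11_inner_int {α : Type} [MeasurableSpace α] {μ : Measure α} {F : Type} [NormedAddCommGroup F]
    [InnerProductSpace ℝ F] {f h : α → F} (hf : MemLp f 2 μ) (hh : MemLp h 2 μ) :
    Integrable (fun x => inner ℝ (f x) (h x)) μ := by
  have h1 := l2_int_mul hf.norm hh.norm
  refine h1.mono' (hf.1.inner hh.1) (Eventually.of_forall fun x => ?_)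
  exact norm_inner_le_norm _ _

theorem g11_inner_cs {α : Type} [MeasurableSpace α] {μ : Measure α} {F : Type} [NormedAddCommGroup F]
    [InnerProductSpace ℝ F] {f h : α → F} (hf : MemLp f 2 μ) (hh : MemLp h 2 μ) :
    |∫ x, inner ℝ (f x) (h x) ∂μ| ≤
      Real.sqrt (∫ x, ‖f x‖ ^ 2 ∂μ) * Real.sqrt (∫ x, ‖h x‖ ^ 2 ∂μ) := by
  have h1 := l2_int_mul hf.norm hh.norm
  have h2 : |∫ x, inner ℝ (f x) (h x) ∂μ| ≤ ∫ x, ‖f x‖ * ‖h x‖ ∂μ := by
    rw [← Real.norm_eq_abs]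
    refine norm_integral_le_of_norm_le h1 (Eventually.of_forall fun x => ?_)
    exact norm_inner_le_norm _ _
  exact h2.trans ((le_abs_self _).trans (l2_cs hf.norm hh.norm))

theorem g11_inner_tend {α : Type} [MeasurableSpace α] {μ : Measure α} {F : Type} [NormedAddCommGroup F]
    [InnerProductSpace ℝ F] {f : ℕ → α → F} {z h : α → F} (hf : ∀ k, MemLp (f k) 2 μ)
    (hz : MemLp z 2 μ) (hh : MemLp h 2 μ)
    (ht : Tendsto (fun k => ∫ x, ‖f k x - z x‖ ^ 2 ∂μ) atTop (𝓝 0)) :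
    Tendsto (fun k => ∫ x, inner ℝ (f k x) (h x) ∂μ) atTop (𝓝 (∫ x, inner ℝ (z x) (h x) ∂μ)) := by
  rw [tendsto_iff_norm_sub_tendsto_zero]
  have h0 : Tendsto (fun k => Real.sqrt (∫ x, ‖f k x - z x‖ ^ 2 ∂μ) *
      Real.sqrt (∫ x, ‖h x‖ ^ 2 ∂μ)) atTop (𝓝 0) := by
    have h1 := ht.sqrt.mul_const (Real.sqrt (∫ x, ‖h x‖ ^ 2 ∂μ))
    rw [Real.sqrt_zero, zero_mul] at h1
    exact h1
  refine squeeze_zero (fun k => norm_nonneg _) (fun k => ?_) h0
  rw [← integral_sub (g11_inner_int (hf k) hh) (g11_inner_int hz hh), Real.norm_eq_abs]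
  have h2 : ∫ x, (inner ℝ (f k x) (h x) - inner ℝ (z x) (h x)) ∂μ =
      ∫ x, inner ℝ (f k x - z x) (h x) ∂μ := by
    congr 1
    ext x
    rw [inner_sub_left]
  rw [h2]
  exact g11_inner_cs ((hf k).sub hz) hh

theorem g11_cont_memLp {F : Type} [NormedAddCommGroup F] [SecondCountableTopology F]
    {μ : Measure X} [IsFiniteMeasure μ] {φ : X → F} (hφ : Continuous φ) (q : ℝ≥0∞) : MemLp φ q μ := by
  obtain ⟨M, hM⟩ := isCompact_univ.exists_bound_of_continuousOn hφ.continuousOn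
  exact MemLp.of_bound hφ.aestronglyMeasurable M (Eventually.of_forall fun x => hM x (mem_univ x))

/-- `s ↦ s ^ r` is Lipschitz on `[c, C]`. -/
theorem g11_lip {c C : ℝ} (hc : 0 < c) (r : ℝ) :
    ∃ K : ℝ, 0 ≤ K ∧ ∀ s ∈ Icc c C, ∀ t ∈ Icc c C, |s ^ r - t ^ r| ≤ K * |s - t| := by
  have hcont : ContinuousOn (fun s : ℝ => r * s ^ (r - 1)) (Icc c C) := by
    refine continuousOn_const.mul (continuousOn_id.rpow_const fun s hs => Or.inl ?_)
    exact (hc.trans_le hs.1).ne'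
  obtain ⟨K, hK⟩ := isCompact_Icc.exists_bound_of_continuousOn hcont
  refine ⟨max K 0, le_max_right _ _, fun s hs t ht => ?_⟩
  have h1 := Convex.norm_image_sub_le_of_norm_hasDerivWithin_le (f := fun s : ℝ => s ^ r)
    (f' := fun s : ℝ => r * s ^ (r - 1)) (s := Icc c C) (C := max K 0) (x := t) (y := s)
    (fun x hx => (Real.hasDerivAt_rpow_const (Or.inl (hc.trans_le hx.1).ne')).hasDerivWithinAt)
    (fun x hx => (hK x hx).trans (le_max_left _ _)) (convex_Icc c C) ht hs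
  simpa [Real.norm_eq_abs] using h1

/-- the last step: if `L_k → a` and `a = lam |w|^r` then `L_k - lam u_k^r → 0`. -/
theorem g11_last {α : Type} [MeasurableSpace α] {μ : Measure α} [IsFiniteMeasure μ]
    {u L : ℕ → α → ℝ} {w a : α → ℝ} {c C lam r : ℝ} (hc : 0 < c) (hr : 0 ≤ r)
    (hum : ∀ k, MemLp (u k) 2 μ) (hwm : MemLp w 2 μ) (hLm : ∀ k, MemLp (L k) 2 μ) (ham : MemLp a 2 μ)
    (hb : ∀ k x, c ≤ u k x ∧ u k x ≤ C) (hw : ∀ᵐ x ∂μ, c ≤ w x ∧ w x ≤ C)
    (hut : Tendsto (fun k => ∫ x, (u k x - w x) ^ 2 ∂μ) atTop (𝓝 0))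
    (hLt : Tendsto (fun k => ∫ x, (L k x - a x) ^ 2 ∂μ) atTop (𝓝 0))
    (ha : ∀ᵐ x ∂μ, a x = lam * |w x| ^ r) :
    Tendsto (fun k => ∫ x, (L k x - lam * (u k x) ^ r) ^ 2 ∂μ) atTop (𝓝 0) := by
  obtain ⟨K, hK0, hK⟩ := g11_lip (C := C) hc r
  have hmw : MemLp (fun x => K * |lam| * (u 0 x - w x)) 2 μ := ((hum 0).sub hwm).const_mul _
  have hlim : Tendsto (fun k => 2 * ∫ x, (L k x - a x) ^ 2 ∂μ +
      2 * ((|lam| * K) ^ 2 * ∫ x, (u k x - w x) ^ 2 ∂μ)) atTop (𝓝 0) := by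
    have := (hLt.const_mul 2).add ((hut.const_mul ((|lam| * K) ^ 2)).const_mul 2)
    simpa using this
  refine squeeze_zero (fun k => integral_nonneg fun x => sq_nonneg _) (fun k => ?_) hlim
  have hd1 : MemLp (fun x => |L k x - a x|) 2 μ := ((hLm k).sub ham).abs
  have hd2 : MemLp (fun x => |lam| * K * |u k x - w x|) 2 μ := ((hum k).sub hwm).abs.const_mul _
  have h1 : ∫ x, (L k x - lam * (u k x) ^ r) ^ 2 ∂μ ≤
      1 ^ 2 * ∫ x, (|L k x - a x| + |lam| * K * |u k x - w x|) ^ 2 ∂μ := by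
    refine l2_mono (c := 1) (hd1.add hd2) ?_
    filter_upwards [hw, ha] with x hx hax
    have hwx : 0 < w x := hc.trans_le hx.1
    have h2 : L k x - lam * u k x ^ r = (L k x - a x) + lam * (w x ^ r - u k x ^ r) := by
      rw [hax, abs_of_pos hwx]; ring
    have h3 : |w x ^ r - u k x ^ r| ≤ K * |u k x - w x| := by
      rw [abs_sub_comm (u k x)]
      exact hK _ hx _ (hb k x)
    have h4 : 0 ≤ |L k x - a x| + |lam| * K * |u k x - w x| := by positivity
    change _ ≤ 1 * |(|L k x - a x| + |lam| * K * |u k x - w x|)|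
    rw [h2, one_mul, abs_of_nonneg h4]
    refine (abs_add_le _ _).trans ?_
    rw [abs_mul]
    have := mul_le_mul_of_nonneg_left h3 (abs_nonneg lam)
    linarith
  rw [one_pow, one_mul] at h1
  refine h1.trans ((l2_add_le hd1 hd2).trans ?_)
  have h5 : ∫ x, |L k x - a x| ^ 2 ∂μ = ∫ x, (L k x - a x) ^ 2 ∂μ := by simp only [sq_abs]
  have h6 : ∫ x, (|lam| * K * |u k x - w x|) ^ 2 ∂μ = (|lam| * K) ^ 2 * ∫ x, (u k x - w x) ^ 2 ∂μ := by
    rw [← integral_const_mul]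
    congr 1
    ext x
    rw [mul_pow, sq_abs]
  rw [h5, h6]

theorem g11_pow_memLp {α : Type} [MeasurableSpace α] {μ : Measure α} [IsFiniteMeasure μ]
    {w : α → ℝ} {c C r : ℝ} (hc : 0 < c) (hr : 0 ≤ r) (hwm : MemLp w 2 μ)
    (hw : ∀ᵐ x ∂μ, c ≤ w x ∧ w x ≤ C) : MemLp (fun x => |w x| ^ r) 2 μ := by
  refine MemLp.of_bound ?_ (C ^ r) ?_
  · have h1 : Continuous fun s : ℝ => |s| ^ r := continuous_abs.rpow_const fun _ => Or.inr hr
    exact h1.comp_aestronglyMeasurable hwm.1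
  · filter_upwards [hw] with x hx
    have hwx : 0 < w x := hc.trans_le hx.1
    rw [abs_of_pos hwx, Real.norm_eq_abs, abs_of_nonneg (Real.rpow_nonneg hwx.le _)]
    exact Real.rpow_le_rpow hwx.le hx.2 hr

theorem ident (hn : 3 ≤ n) (f : Frame g) {w : X → ℝ} {ζ : X → f.F} {τ : X → ℝ} {lam kap c C : ℝ} (hc : 0 < c)
    (hwm : MemLp w 2 (vol g)) (hζ : MemLp ζ 2 (vol g)) (hτm : MemLp τ 2 (bvol g))
    (hw : ∀ᵐ x ∂(vol g), c ≤ w x ∧ w x ≤ C) (hτ : ∀ᵐ x ∂(bvol g), c ≤ τ x ∧ τ x ≤ C)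
    (hE : WeakEq n (vol g) (bvol g) (scalX g) (meanX g) (C1 n X) f.D lam kap w ζ τ)
    {u : ℕ → X → ℝ} (hu : ∀ k, ContMDiff (𝓡∂ (n + 1)) 𝓘(ℝ) ∞ (u k)) (hb : ∀ k p, c ≤ u k p ∧ u k p ≤ C)
    (hT : TendH (vol g) (bvol g) f.D u w ζ τ)
    (hL : ∀ ε > 0, ∃ N, ∀ j ≥ N, ∀ k ≥ N, ∫ p, (Lop g (u j) p - Lop g (u k) p) ^ 2 ∂(vol g) ≤ ε)
    (hB : ∀ ε > 0, ∃ N, ∀ j ≥ N, ∀ k ≥ N, ∫ p, (Bop g (u j) p - Bop g (u k) p) ^ 2 ∂(bvol g) ≤ ε) :
    Tendsto (fun k => ∫ x, (Lop g (u k) x - lam * (u k x) ^ (pp n - 1)) ^ 2 ∂(vol g)) atTop (𝓝 0) ∧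
    Tendsto (fun k => ∫ x, (Bop g (u k) x - kap * (u k x) ^ (qq n - 1)) ^ 2 ∂(bvol g)) atTop (𝓝 0) := by
  have h3 : (3 : ℝ) ≤ n := by exact_mod_cast hn
  have hn1 : (0 : ℝ) < (n : ℝ) - 1 := by linarith
  have hp1 : 0 ≤ pp n - 1 := by
    have : 1 ≤ pp n := by
      rw [pp, le_div_iff₀ hn1]; linarith
    linarith
  have hq1 : 0 ≤ qq n - 1 := by
    have : 1 ≤ qq n := by
      rw [qq, le_div_iff₀ hn1]; linarith
    linarith
  have huc : ∀ k, u k ∈ C1 n X := fun k => C1.of_smooth (hu k)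
  have hLm : ∀ k, MemLp (Lop g (u k)) 2 (vol g) := fun k =>
    (Lop_memLp g (hu k)).mono_exponent le_top
  have hBm : ∀ k, MemLp (Bop g (u k)) 2 (bvol g) := fun k =>
    (Bop_memLp g (hu k)).mono_exponent le_top
  obtain ⟨a, ham, hat⟩ := l2_complete hLm hL
  obtain ⟨b, hbm, hbt⟩ := l2_complete hBm hB
  have hum : ∀ k, MemLp (u k) 2 (vol g) := fun k => g11_cont_memLp (C1.continuous (huc k)) 2
  have humb : ∀ k, MemLp (u k) 2 (bvol g) := fun k => g11_cont_memLp (C1.continuous (huc k)) 2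
  have hDm : ∀ k, MemLp (f.D (u k)) 2 (vol g) := fun k => g11_cont_memLp (f.continuous_D (huc k)) 2
  have hwp : MemLp (fun x => |w x| ^ (pp n - 1)) 2 (vol g) := g11_pow_memLp hc hp1 hwm hw
  have hτp : MemLp (fun x => |τ x| ^ (qq n - 1)) 2 (bvol g) := g11_pow_memLp hc hq1 hτm hτ
  -- the limit equation
  have hlimeq : ∀ φ ∈ C1 n X, ∫ p, a p * φ p ∂(vol g) + ∫ p, b p * φ p ∂(bvol g) =
      lam * ∫ x, |w x| ^ (pp n - 1) * φ x ∂(vol g) + kap * ∫ x, |τ x| ^ (qq n - 1) * φ x ∂(bvol g) := by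
    intro φ hφ
    have hφv : MemLp φ 2 (vol g) := g11_cont_memLp (C1.continuous hφ) 2
    have hφb : MemLp φ 2 (bvol g) := g11_cont_memLp (C1.continuous hφ) 2
    have hφvT : MemLp φ ⊤ (vol g) := g11_cont_memLp (C1.continuous hφ) ⊤
    have hφbT : MemLp φ ⊤ (bvol g) := g11_cont_memLp (C1.continuous hφ) ⊤
    have hRφ : MemLp (fun p => scalX g p * φ p) 2 (vol g) := hφv.mul (scalX_memLp g)
    have hHφ : MemLp (fun p => meanX g p * φ p) 2 (bvol g) := hφb.mul (meanX_memLp g)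
    have e1 := l2_tend_int hLm ham hφv hat
    have e2 := l2_tend_int hBm hbm hφb hbt
    have e3 := g11_inner_tend hDm hζ (g11_cont_memLp (f.continuous_D hφ) 2) hT.2.1
    have e4 := l2_tend_int hum hwm hRφ hT.1
    have e5 := l2_tend_int humb hτm hHφ hT.2.2
    have hg : ∀ k, ∫ p, Lop g (u k) p * φ p ∂(vol g) + ∫ p, Bop g (u k) p * φ p ∂(bvol g) =
        cn n * ∫ p, inner ℝ (f.D (u k) p) (f.D φ p) ∂(vol g) + ∫ p, u k p * (scalX g p * φ p) ∂(vol g) +
        2 * ∫ p, u k p * (meanX g p * φ p) ∂(bvol g) := by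
      intro k
      have h4 := green g (hu k) hφ
      rw [h4]
      congr 1
      · congr 1
        · congr 1
          refine integral_congr_ae (Eventually.of_forall fun p => ?_)
          exact (inner_D f (huc k) hφ p).symm
        · refine integral_congr_ae (Eventually.of_forall fun p => ?_)
          simp only
          ring
      · congr 1
        refine integral_congr_ae (Eventually.of_forall fun p => ?_)
        simp only
        ring
    have hl := e1.add e2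
    have hr := ((e3.const_mul (cn n)).add e4).add (e5.const_mul 2)
    have heq := tendsto_nhds_unique (hl.congr hg) hr
    rw [heq]
    have h5 := hE φ hφ
    rw [← h5]
    congr 1
    · congr 1
      refine integral_congr_ae (Eventually.of_forall fun p => ?_)
      simp only
      ring
    · congr 1
      refine integral_congr_ae (Eventually.of_forall fun p => ?_)
      simp only
      ring
  -- identification
  have hA : MemLp (fun p => a p - lam * |w p| ^ (pp n - 1)) 2 (vol g) := ham.sub (hwp.const_mul lam)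
  have hBb : MemLp (fun p => b p - kap * |τ p| ^ (qq n - 1)) 2 (bvol g) := hbm.sub (hτp.const_mul kap)
  obtain ⟨hz1, hz2⟩ := dense_zero g hA hBb (fun φ hφ => by
    have hφv : MemLp φ 2 (vol g) := g11_cont_memLp (C1.continuous hφ) 2
    have hφb : MemLp φ 2 (bvol g) := g11_cont_memLp (C1.continuous hφ) 2
    have h6 : ∫ p, (a p - lam * |w p| ^ (pp n - 1)) * φ p ∂(vol g) =
        ∫ p, a p * φ p ∂(vol g) - lam * ∫ x, |w x| ^ (pp n - 1) * φ x ∂(vol g) := by
      rw [← integral_const_mul, ← integral_sub (l2_int_mul ham hφv)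
        ((l2_int_mul hwp hφv).const_mul lam)]
      congr 1
      ext p
      ring
    have h7 : ∫ p, (b p - kap * |τ p| ^ (qq n - 1)) * φ p ∂(bvol g) =
        ∫ p, b p * φ p ∂(bvol g) - kap * ∫ x, |τ x| ^ (qq n - 1) * φ x ∂(bvol g) := by
      rw [← integral_const_mul, ← integral_sub (l2_int_mul hbm hφb)
        ((l2_int_mul hτp hφb).const_mul kap)]
      congr 1
      ext p
      ring
    rw [h6, h7]
    linarith [hlimeq φ hφ])
  have ha : ∀ᵐ x ∂(vol g), a x = lam * |w x| ^ (pp n - 1) := by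
    filter_upwards [hz1] with x hx
    simp only [Pi.zero_apply] at hx
    linarith
  have hb' : ∀ᵐ x ∂(bvol g), b x = kap * |τ x| ^ (qq n - 1) := by
    filter_upwards [hz2] with x hx
    simp only [Pi.zero_apply] at hx
    linarith
  exact ⟨g11_last hc hp1 hum hwm hLm ham hb hw hT.1 hat ha,
    g11_last hc hq1 humb hτm hBm hbm hb hτ hT.2.2 hbt hb'⟩

end

end Pool.Agent.CY.S4
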