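import Pool.Agent.CY.S4.G10b
import Pool.Agent.CY.S4.G11

/-!
# CY-S4: `smooth_approx`
-/

set_option autoImplicit false
set_option linter.unusedSectionVars false

open scoped Manifold ContDiff ENNReal
open MeasureTheory Set Filter Topology

namespace Pool.Agent.CY

open S4

variable {n : ℕ} {X : Type} [TopologicalSpace X] [ChartedSpace (EuclideanHalfSpace (n + 1)) X]
  [IsManifold (𝓡∂ (n + 1)) ∞ X] [CompactSpace X] [T2Space X] [MeasurableSpace X] [BorelSpace X]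

theorem smooth_approx (hn : 3 ≤ n) (g : Metric n X) (f : Frame g) (lam kap : ℝ) (w : X → ℝ) (ζ : X → f.F)
    (τ : X → ℝ) (c C : ℝ) (h : InH (vol g) (bvol g) (C1 n X) f.D w ζ τ) (hc : 0 < c)
    (hw : ∀ᵐ x ∂(vol g), c ≤ w x ∧ w x ≤ C) (hτ : ∀ᵐ x ∂(bvol g), c ≤ τ x ∧ τ x ≤ C)
    (hE : WeakEq n (vol g) (bvol g) (scalX g) (meanX g) (C1 n X) f.D lam kap w ζ τ) :
    ∃ (u : ℕ → X → ℝ) (K : ℝ), (∀ k, ContMDiff (𝓡∂ (n + 1)) 𝓘(ℝ) ∞ (u k)) ∧
      (∀ k p, c ≤ u k p ∧ u k p ≤ C) ∧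
      Tendsto (fun k => ∫ x, (u k x - τ x) ^ 2 ∂(bvol g)) atTop (𝓝 0) ∧
      Tendsto (fun k => ∫ x, (Lop g (u k) x - lam * (u k x) ^ (pp n - 1)) ^ 2 ∂(vol g)) atTop (𝓝 0) ∧
      Tendsto (fun k => ∫ x, (Bop g (u k) x - kap * (u k x) ^ (qq n - 1)) ^ 2 ∂(bvol g)) atTop (𝓝 0) ∧
      (∀ k, ∫ x, (gipX g (u k) (u k) x) ^ 2 ∂(vol g) ≤ K) := by
  obtain ⟨u, hu, hT⟩ := h.ex
  have key := fun i => frame_seq (g := g) hn f i hc h.memw h.memz h.memt hw hτ hE hu hT
  choose U h1 h2 h3 h4 using key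
  have hb : ∀ k p, c ≤ glue f (fun i => U i k) p ∧ glue f (fun i => U i k) p ≤ C :=
    fun k p => glue_bounds f (fun i y hy => h2 i k y hy) p
  have hs : ∀ k, ContMDiff (𝓡∂ (n + 1)) 𝓘(ℝ) ∞ (glue f fun i => U i k) :=
    fun k => glue_smooth f fun i => h1 i k
  have hT' := glue_tendH f h.memw h.memz h.memt hu hT h1 h4
  obtain ⟨hL, hB⟩ := ident hn f hc h.memw h.memz h.memt hw hτ hE hs hb hT'
    (glue_L_cauchy f h1 h3) (glue_B_cauchy f h1 h3)
  have hM : ∀ i k, ∀ y ∈ Hs n, |U i k y| ≤ |c| + |C| := by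
    intro i k y hy
    by_cases hd : y ∈ dom (f.e i)
    · have h5 := h2 i k y hd
      have h6 : f.η i (pt (f.e i) y) ^ 2 ≤ 1 := by
        rw [← f.η_sum (pt (f.e i) y)]
        exact Finset.single_le_sum (f := fun j => f.η j (pt (f.e i) y) ^ 2) (fun j _ => sq_nonneg _)
          (Finset.mem_univ i)
      have h7 := sq_nonneg (f.η i (pt (f.e i) y))
      rw [abs_le]
      constructor
      · have : -|c| ≤ c * f.η i (pt (f.e i) y) ^ 2 := by
          have h8 : |c * f.η i (pt (f.e i) y) ^ 2| ≤ |c| := by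
            rw [abs_mul, abs_of_nonneg h7]
            exact mul_le_of_le_one_right (abs_nonneg _) h6
          linarith [neg_abs_le (c * f.η i (pt (f.e i) y) ^ 2)]
        linarith [abs_nonneg C]
      · have : C * f.η i (pt (f.e i) y) ^ 2 ≤ |C| := by
          have h8 : |C * f.η i (pt (f.e i) y) ^ 2| ≤ |C| := by
            rw [abs_mul, abs_of_nonneg h7]
            exact mul_le_of_le_one_right (abs_nonneg _) h6
          linarith [le_abs_self (C * f.η i (pt (f.e i) y) ^ 2)]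
        linarith [abs_nonneg c]
    · have h9 : U i k y = 0 := (h1 i k).supp y hy fun hK => hd ((K_compact f i).2 hK)
      rw [h9, abs_zero]
      positivity
  obtain ⟨K, hK⟩ := glue_gip f h1 hM h3
  exact ⟨fun k => glue f fun i => U i k, K, hs, hb, hT'.2.2, hL, hB, hK⟩

end Pool.Agent.CY
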