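import Pool.Agent.CY.S4.L1t
import Pool.Agent.CY.S4.GD

/-!
# CY-S4-G1b: cutoff functions in a chart

* `contDiffOn_of_supp`: near a point of `Hs n \ K` the function vanishes on `Hs n`; `dom e` is a neighbourhood within
  `Hs n` of its points (`dom_chart e`).
* `exists_cut`: `dom e = O ∩ Hs n`, `O` open (`dom_open`), `K ⊆ O` compact: smooth bump functions
  (`exists_contMDiff_tsupport_subset`, `exists_contDiff_tsupport_subset`, or the `IsCompact` versions) equal to `1` near `K`.
* `lf_T1`: `contDiffOn_loc`, and the values off `dom e` are `0`.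
-/

set_option autoImplicit false

open scoped Manifold ContDiff ENNReal
open MeasureTheory Set Filter Topology

namespace Pool.Agent.CY.S4

noncomputable section

set_option linter.unusedSectionVars false

variable {n : ℕ} {X : Type} [TopologicalSpace X] [ChartedSpace (EuclideanHalfSpace (n + 1)) X]
  {e : OpenPartialHomeomorph X (EuclideanHalfSpace (n + 1))}

theorem contDiffOn_of_supp {k : WithTop ℕ∞} {ψ : V (n + 1) → ℝ} (hψ : ContDiffOn ℝ k ψ (dom e))
    {K : Set (V (n + 1))} (hK : IsCompact K) (hKd : K ⊆ dom e) (hs : Supp ψ K) :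
    ContDiffOn ℝ k ψ (Hs n) := by
  intro y hy
  by_cases hyd : y ∈ dom e
  · exact (dom_chart e).contDiffAt hψ hyd
  · have hyK : y ∉ K := fun h => hyd (hKd h)
    have h1 : ψ =ᶠ[𝓝[Hs n] y] fun _ => (0 : ℝ) := by
      have h2 : Kᶜ ∈ 𝓝[Hs n] y := mem_nhdsWithin_of_mem_nhds (hK.isClosed.isOpen_compl.mem_nhds hyK)
      filter_upwards [h2, self_mem_nhdsWithin] with z hz hz'
      exact hs z hz' hz
    exact contDiffWithinAt_const.congr_of_eventuallyEq h1 (hs y hy hyK)

theorem exists_cut {K : Set (V (n + 1))} (hK : IsCompact K) (hKd : K ⊆ dom e) :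
    ∃ χ : V (n + 1) → ℝ, Cut e χ ∧ ∃ O : Set (V (n + 1)), IsOpen O ∧ K ⊆ O ∧ ∀ y ∈ O, χ y = 1 := by
  obtain ⟨O, hO, hOd⟩ := dom_open e
  have hKO : K ⊆ O := fun y hy => by
    have := hKd hy
    rw [hOd] at this
    exact this.1
  obtain ⟨K1, hK1, hKK1, hK1O⟩ := exists_compact_between hK hO hKO
  obtain ⟨K2, hK2, hK12, hK2O⟩ := exists_compact_between hK1 hO hK1O
  obtain ⟨χ, hs, hc, h0, h1⟩ : ∃ χ : V (n + 1) → ℝ, ContDiff ℝ ∞ χ ∧ HasCompactSupport χ ∧
      tsupport χ ⊆ O ∧ (∀ y ∈ K1, χ y = 1) ∧ ∀ y, χ y ∈ Icc (0 : ℝ) 1 := by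
    have hd : Disjoint ((interior K2)ᶜ) K1 := by
      rw [disjoint_left]
      exact fun y hy hy1 => hy (hK12 hy1)
    obtain ⟨f, hf0, hf1, hf⟩ := exists_contMDiffMap_zero_one_of_isClosed (n := (⊤ : ℕ∞)) 𝓘(ℝ, V (n + 1))
      isOpen_interior.isClosed_compl hK1.isClosed hd
    have hsup : tsupport f ⊆ K2 := by
      refine closure_minimal ?_ hK2.isClosed
      intro y hy
      by_contra hyK
      exact hy (hf0 fun h => hyK (interior_subset h))
    exact ⟨f, f.contMDiff.contDiff, HasCompactSupport.of_support_subset_isCompact hK2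
      (subset_closure.trans hsup), hsup.trans hK2O, fun y hy => hf1 hy, hf⟩
  refine ⟨χ, ⟨hs, hc, ?_, fun y => (h1.2 y).1, fun y => (h1.2 y).2⟩, interior K1, isOpen_interior,
    hKK1, fun y hy => h1.1 y (interior_subset hy)⟩
  rintro y ⟨h2, h3⟩
  rw [hOd]
  exact ⟨h0 h2, h3⟩

/-- The support of a cutoff function is a compact subset of the domain of the chart. -/
theorem Cut.compact {χ : V (n + 1) → ℝ} (h : Cut e χ) : IsCompact (tsupport χ ∩ Hs n) := by
  exact h.cpt.isCompact.inter_right isClosed_Hs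

theorem lf_T1 [IsManifold (𝓡∂ (n + 1)) ∞ X] (he : e ∈ atlas (EuclideanHalfSpace (n + 1)) X) {χ : V (n + 1) → ℝ}
    (h : Cut e χ) {u : X → ℝ} (hu : u ∈ C1 n X) : lf e χ u ∈ T1 n := by
  have hsupp : Supp (lf e χ u) (tsupport χ ∩ Hs n) := by
    intro y hy hyK
    unfold lf
    by_cases hyd : y ∈ dom e
    · rw [indicator_of_mem hyd]
      have : χ y = 0 := by
        by_contra hne
        exact hyK ⟨subset_tsupport χ (Function.mem_support.2 hne), hy⟩
      rw [this, zero_mul]
    · rw [indicator_of_notMem hyd]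
  have hcd : ContDiffOn ℝ 1 (lf e χ u) (dom e) := by
    have h1 : ContDiffOn ℝ 1 (fun y => u (pt e y)) (dom e) := contDiffOn_loc (k := 1) he hu
    have h2 : ContDiffOn ℝ 1 (fun y => χ y * u (pt e y)) (dom e) :=
      ((h.smooth.of_le (by exact_mod_cast le_top)).contDiffOn).mul h1
    refine h2.congr fun y hy => ?_
    unfold lf
    rw [indicator_of_mem hy]
  refine ⟨contDiffOn_of_supp hcd h.compact h.sub hsupp, ?_⟩
  refine HasCompactSupport.of_support_subset_isCompact h.compact ?_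
  intro y hy
  by_contra hyK
  apply hy
  by_cases hyd : y ∈ dom e
  · exact hsupp y (dom_subset e hyd) hyK
  · unfold lf
    rw [indicator_of_notMem hyd]

end

end Pool.Agent.CY.S4
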