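import Pool.Agent.CY.S4.G1a
import Pool.Agent.CY.S4.G1b

/-!
# CY-S4-G1c: extension by zero is smooth

By `contMDiff_of_loc` (S5/Doms.lean) it suffices to see `y ↦ ext e ψ (pt e' y)` on `dom e'`: near `y` with
`pt e' y ∈ e.source` it is `ψ (tr e' e y)` (`contDiffOn_tr_vec`, `dom_chart2`; `tr e' e` maps `dom2 e' e` into
`dom e ⊆ Hs n`); the set `pt e '' K` is compact, hence closed, and the function vanishes on its complement
(for `q ∉ pt e '' K` either `q ∉ e.source` or `co e q ∉ K`).
-/

set_option autoImplicit false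

open scoped Manifold ContDiff ENNReal
open MeasureTheory Set Filter Topology

namespace Pool.Agent.CY.S4

noncomputable section

set_option linter.unusedSectionVars false

variable {n : ℕ} {X : Type} [TopologicalSpace X] [ChartedSpace (EuclideanHalfSpace (n + 1)) X]
  {e : OpenPartialHomeomorph X (EuclideanHalfSpace (n + 1))}

theorem ext_contMDiff [IsManifold (𝓡∂ (n + 1)) ∞ X] [T2Space X] (he : e ∈ atlas (EuclideanHalfSpace (n + 1)) X)
    {k : ℕ∞} {ψ : V (n + 1) → ℝ} (hψ : ContDiffOn ℝ k ψ (Hs n))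
    {K : Set (V (n + 1))} (hK : IsCompact K) (hKd : K ⊆ dom e) (hs : Supp ψ K) :
    ContMDiff (𝓡∂ (n + 1)) 𝓘(ℝ) k (ext e ψ) := by
  refine contMDiff_of_loc fun e' he' => ?_
  have hcl : IsClosed (pt e '' K) := (hK.image_of_continuousOn ((continuousOn_pt e).mono hKd)).isClosed
  intro y hy
  by_cases hs' : pt e' y ∈ e.source
  · have hy2 : y ∈ dom2 e' e := ⟨hy, hs'⟩
    have h1 : ContDiffOn ℝ k (fun z => ψ (tr e' e z)) (dom2 e' e) := by
      refine (hψ.comp ((contDiffOn_tr_vec he' he).of_le (by exact_mod_cast le_top)) ?_)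
      intro z hz
      exact dom_subset e (tr_mem e' e hz).1
    have h2 : ContDiffOn ℝ k (fun z => ext e ψ (pt e' z)) (dom2 e' e) := by
      refine h1.congr fun z hz => ?_
      rw [ext_co hz.2]
      rfl
    refine (h2 y hy2).mono_of_mem_nhdsWithin ?_
    have h3 := (dom_chart2 e' e).nhds y hy2
    rw [(dom_chart e').nhds_eq hy] at h3
    exact h3
  · have hn : pt e' y ∉ pt e '' K := by
      rintro ⟨z, hz, h⟩
      exact hs' (by rw [← h]; exact pt_mem_source e (hKd hz))
    have h1 : ∀ q : X, q ∉ pt e '' K → ext e ψ q = 0 := by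
      intro q hq
      by_cases hqs : q ∈ e.source
      · rw [ext_co hqs]
        refine hs _ (co_mem_Hs e q) fun h => hq ⟨co e q, h, pt_co e hqs⟩
      · exact ext_not hqs
    have h2 : (fun z => ext e ψ (pt e' z)) =ᶠ[𝓝[dom e'] y] fun _ => (0 : ℝ) := by
      have h3 := (continuousOn_pt e' y hy).preimage_mem_nhdsWithin (hcl.isOpen_compl.mem_nhds hn)
      filter_upwards [h3] with z hz
      exact h1 _ hz
    exact contDiffWithinAt_const.congr_of_eventuallyEq h2 (h1 _ hn)

end

end Pool.Agent.CY.S4
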