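import Pool.Agent.CY.S5.Met
import Pool.Agent.CY.S4.G1b

/-!
# CY-S4-G2a: the coefficient matrix
-/

set_option autoImplicit false

open scoped Manifold ContDiff ENNReal
open MeasureTheory Set Filter Topology

namespace Pool.Agent.CY.S4

noncomputable section

set_option linter.unusedSectionVars false

variable {n : ℕ} {X : Type} [TopologicalSpace X] [ChartedSpace (EuclideanHalfSpace (n + 1)) X]
  [IsManifold (𝓡∂ (n + 1)) ∞ X] [CompactSpace X] [T2Space X] [MeasurableSpace X] [BorelSpace X]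
  {g : Metric n X} {e : OpenPartialHomeomorph X (EuclideanHalfSpace (n + 1))}

private theorem metOn' (g : Metric n X) (he : e ∈ atlas (EuclideanHalfSpace (n + 1)) X) :
    MetOn (dom e) (g.G e) 3 := ⟨g.posDef e he, g.smooth e he⟩

theorem Aco_smooth (hn : 2 ≤ n) (he : e ∈ atlas (EuclideanHalfSpace (n + 1)) X) (i j : Fin (n + 1)) :
    ContDiffOn ℝ 1 (fun y => Aco (g.G e) y i j) (dom e) := by
  have hm := metOn' g he
  have h1 : ContDiffOn ℝ 3 (fun y => Real.sqrt (g.G e y).det) (dom e) :=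
    hm.contDiffOn_det.sqrt fun y hy => (hm.det_pos hy).ne'
  have h2 : ContDiffOn ℝ 3 (fun y => cn n * Real.sqrt (g.G e y).det * (g.G e y)⁻¹ i j) (dom e) :=
    (contDiffOn_const.mul h1).mul (hm.contDiffOn_inv i j)
  exact h2.of_le (by norm_cast)

private def qq' {m : ℕ} (A : Matrix (Fin m) (Fin m) ℝ) (ξ : Fin m → ℝ) : ℝ :=
  ∑ i, ∑ j, A i j * ξ i * ξ j

private theorem qq_pos' {m : ℕ} {A : Matrix (Fin m) (Fin m) ℝ} (hA : A.PosDef) {ξ : Fin m → ℝ}
    (h : ξ ≠ 0) : 0 < qq' A ξ := by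
  have h1 := hA.dotProduct_mulVec_pos h
  have h2 : star ξ ⬝ᵥ A.mulVec ξ = qq' A ξ := by
    simp only [dotProduct, Matrix.mulVec, qq', star_trivial, Finset.mul_sum]
    refine Finset.sum_congr rfl fun i _ => Finset.sum_congr rfl fun j _ => by ring
  rw [h2] at h1
  exact h1

private theorem qq_smul' {m : ℕ} (A : Matrix (Fin m) (Fin m) ℝ) (r : ℝ) (ξ : Fin m → ℝ) :
    qq' A (fun i => r * ξ i) = r ^ 2 * qq' A ξ := by
  simp only [qq', Finset.mul_sum]
  refine Finset.sum_congr rfl fun i _ => Finset.sum_congr rfl fun j _ => by ring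

private theorem pos_lower' {α : Type} [TopologicalSpace α] {K : Set α} (hK : IsCompact K) {f : α → ℝ}
    (hf : ContinuousOn f K) (hp : ∀ x ∈ K, 0 < f x) : ∃ c > 0, ∀ x ∈ K, c ≤ f x := by
  rcases K.eq_empty_or_nonempty with h | h
  · exact ⟨1, one_pos, by simp [h]⟩
  · obtain ⟨x0, hx0, hm⟩ := hK.exists_isMinOn h hf
    exact ⟨f x0, hp x0 hx0, fun x hx => hm hx⟩

private theorem Aco_lower (hn : 2 ≤ n) (g : Metric n X) (he : e ∈ atlas (EuclideanHalfSpace (n + 1)) X)
    {L : Set (V (n + 1))} (hL : IsCompact L) (hs : L ⊆ dom e) :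
    ∃ l > 0, ∀ y ∈ L, ∀ ξ : Fin (n + 1) → ℝ, l * ∑ i, ξ i ^ 2 ≤ qq' (Aco (g.G e) y) ξ := by
  have hm := metOn' g he
  have hp : ∀ y ∈ L, (g.G e y).PosDef := fun y hy => g.posDef e he y (hs hy)
  have hn2 : (2 : ℝ) ≤ n := by exact_mod_cast hn
  have hcn : 0 < cn n := by
    unfold cn
    apply div_pos <;> linarith
  set S : Set (V (n + 1)) := Metric.sphere 0 1 with hS
  have hSc : IsCompact S := isCompact_sphere 0 1
  let F : V (n + 1) × V (n + 1) → ℝ := fun p => qq' (Aco (g.G e) p.1) (fun i => p.2 i)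
  have hF : ContinuousOn F (L ×ˢ S) := by
    simp only [F, qq']
    refine continuousOn_finsetSum _ fun i _ => continuousOn_finsetSum _ fun j _ => ?_
    refine ContinuousOn.mul (ContinuousOn.mul ?_ ?_) ?_
    · exact (((Aco_smooth (g := g) hn he i j).continuousOn).mono hs).comp continuousOn_fst
        fun p hp => hp.1
    · exact Continuous.continuousOn (by fun_prop)
    · exact Continuous.continuousOn (by fun_prop)
  have hSne : ∀ x ∈ S, (fun i => x i) ≠ (0 : Fin (n + 1) → ℝ) := by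
    intro x hx h
    have : x = 0 := by
      ext i
      exact congrFun h i
    rw [hS, mem_sphere_zero_iff_norm, this, norm_zero] at hx
    exact zero_ne_one hx
  have hFp : ∀ p ∈ L ×ˢ S, 0 < F p := by
    intro p hp'
    have h1 : F p = cn n * Real.sqrt (g.G e p.1).det * qq' (g.G e p.1)⁻¹ (fun i => p.2 i) := by
      simp only [F, qq', Aco, Matrix.of_apply, Finset.mul_sum]
      refine Finset.sum_congr rfl fun i _ => Finset.sum_congr rfl fun j _ => by ring
    rw [h1]
    have h2 : 0 < Real.sqrt (g.G e p.1).det := Real.sqrt_pos.2 (hp p.1 hp'.1).det_pos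
    have h3 := qq_pos' (hp p.1 hp'.1).inv (hSne p.2 hp'.2)
    positivity
  obtain ⟨c3, hc3, hc3'⟩ := pos_lower' (hL.prod hSc) hF hFp
  refine ⟨c3, hc3, fun y hy ξ => ?_⟩
  by_cases hξ : ξ = 0
  · subst hξ
    simp [qq']
  · set x : V (n + 1) := WithLp.toLp 2 ξ with hx
    have hx0 : x ≠ 0 := by
      intro h
      apply hξ
      funext i
      have := congrArg (fun z : V (n + 1) => z i) h
      exact this
    have hnx : 0 < ‖x‖ := norm_pos_iff.2 hx0
    have hsq : ‖x‖ ^ 2 = ∑ i, ξ i ^ 2 := by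
      rw [EuclideanSpace.norm_sq_eq]
      refine Finset.sum_congr rfl fun i _ => ?_
      rw [Real.norm_eq_abs, sq_abs]
    have hmem : (‖x‖⁻¹ • x) ∈ S := by
      rw [hS, mem_sphere_zero_iff_norm, norm_smul, norm_inv, norm_norm]
      exact inv_mul_cancel₀ hnx.ne'
    have hq : qq' (Aco (g.G e) y) ξ = ‖x‖ ^ 2 * F (y, ‖x‖⁻¹ • x) := by
      have h5 : (fun i => (‖x‖⁻¹ • x) i) = fun i => ‖x‖⁻¹ * ξ i := by
        funext i
        simp [hx]
      simp only [F]
      rw [h5, qq_smul']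
      field_simp
    have h6 := hc3' (y, ‖x‖⁻¹ • x) ⟨hy, hmem⟩
    rw [hq, ← hsq, mul_comm]
    exact mul_le_mul_of_nonneg_left h6 (by positivity)

theorem Aco_ext (hn : 2 ≤ n) (g : Metric n X) (he : e ∈ atlas (EuclideanHalfSpace (n + 1)) X)
    {K : Set (V (n + 1))} (hK : IsCompact K) (hKd : K ⊆ dom e) :
    ∃ (A : MF (n + 1)) (l L : ℝ), Ell A l L ∧ ∀ y ∈ K, ∀ i j, A y i j = Aco (g.G e) y i j := by
  classical
  obtain ⟨χ, hcut, O, hO, hKO, hχ1⟩ := exists_cut (e := e) hK hKd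
  set K' : Set (V (n + 1)) := tsupport χ ∩ Hs n with hK'
  have hK'c : IsCompact K' := hcut.compact
  have hK'd : K' ⊆ dom e := hcut.sub
  obtain ⟨l0, hl0, hl0'⟩ := Aco_lower hn g he hK'c hK'd
  set δ : Fin (n + 1) → Fin (n + 1) → ℝ := fun i j => if i = j then 1 else 0 with hδ
  set B : Fin (n + 1) → Fin (n + 1) → V (n + 1) → ℝ := fun i j =>
    (dom e).indicator fun y => χ y * (Aco (g.G e) y i j - δ i j) with hB
  have hB0 : ∀ i j y, y ∉ K' → B i j y = 0 := by
    intro i j y hy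
    simp only [hB]
    by_cases hd : y ∈ dom e
    · rw [indicator_of_mem hd]
      have : y ∉ tsupport χ := fun h => hy ⟨h, dom_subset e hd⟩
      rw [image_eq_zero_of_notMem_tsupport this, zero_mul]
    · rw [indicator_of_notMem hd]
  have hBc : ∀ i j, ContDiffOn ℝ 1 (B i j) (dom e) := by
    intro i j
    have h1 : ContDiffOn ℝ 1 (fun y => χ y * (Aco (g.G e) y i j - δ i j)) (dom e) := by
      refine ContDiffOn.mul ?_ ((Aco_smooth (g := g) hn he i j).sub contDiffOn_const)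
      exact (hcut.smooth.of_le (by exact_mod_cast le_top)).contDiffOn
    exact h1.congr fun y hy => by simp only [hB]; rw [indicator_of_mem hy]
  have hBT : ∀ i j, B i j ∈ T1 n := by
    intro i j
    refine ⟨contDiffOn_of_supp (hBc i j) hK'c hK'd fun x _ hx => hB0 i j x hx, ?_⟩
    exact HasCompactSupport.intro hK'c fun y hy => hB0 i j y hy
  choose M hM1 hM2 using fun i j => T1_bdd (hBT i j)
  set L : ℝ := 1 + ∑ i, ∑ j, |M i j| with hL
  have hML : ∀ i j, |M i j| ≤ ∑ i, ∑ j, |M i j| := by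
    intro i j
    have h1 : |M i j| ≤ ∑ j, |M i j| :=
      Finset.single_le_sum (f := fun j => |M i j|) (fun j _ => abs_nonneg _) (Finset.mem_univ j)
    have h2 : ∑ j, |M i j| ≤ ∑ i, ∑ j, |M i j| :=
      Finset.single_le_sum (f := fun i => ∑ j, |M i j|)
        (fun i _ => Finset.sum_nonneg fun j _ => abs_nonneg _) (Finset.mem_univ i)
    exact h1.trans h2
  have hδ1 : ∀ i j, |δ i j| ≤ 1 := by
    intro i j
    simp only [hδ]
    split_ifs <;> simp
  have hqδ : ∀ ξ : Fin (n + 1) → ℝ, ∑ i, ∑ j, δ i j * ξ i * ξ j = ∑ i, ξ i ^ 2 := by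
    intro ξ
    refine Finset.sum_congr rfl fun i _ => ?_
    simp only [hδ, ite_mul, one_mul, zero_mul]
    rw [Finset.sum_ite_eq]
    simp only [Finset.mem_univ, if_true]
    ring
  refine ⟨fun y => Matrix.of fun i j => δ i j + B i j y, min 1 l0, L, ⟨lt_min one_pos hl0, ?_, ?_, ?_, ?_⟩,
    ?_⟩
  · intro i j
    exact contDiffOn_const.add (hBT i j).1
  · intro x hx i j
    show |δ i j + B i j x| ≤ L
    calc |δ i j + B i j x| ≤ |δ i j| + |B i j x| := abs_add_le _ _
      _ ≤ 1 + |M i j| := add_le_add (hδ1 i j) ((hM1 i j x hx).trans (le_abs_self _))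
      _ ≤ L := by rw [hL]; linarith [hML i j]
  · intro x hx i j k
    have h1 : pd (Hs n) k (fun y => (Matrix.of fun i j => δ i j + B i j y) i j) x =
        pd (Hs n) k (B i j) x := by
      show fderivWithin ℝ (fun y => δ i j + B i j y) (Hs n) x _ = fderivWithin ℝ (B i j) (Hs n) x _
      rw [fderivWithin_const_add]
    rw [h1]
    calc |pd (Hs n) k (B i j) x| ≤ M i j := hM2 i j x hx k
      _ ≤ |M i j| := le_abs_self _
      _ ≤ L := by rw [hL]; linarith [hML i j]
  · intro x hx ξ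
    show min 1 l0 * ∑ i, ξ i ^ 2 ≤ ∑ i, ∑ j, (δ i j + B i j x) * ξ i * ξ j
    have hs0 : 0 ≤ ∑ i, ξ i ^ 2 := Finset.sum_nonneg fun i _ => sq_nonneg _
    by_cases hK'x : x ∈ K'
    · have hd := hK'd hK'x
      have h1 : ∑ i, ∑ j, (δ i j + B i j x) * ξ i * ξ j =
          (1 - χ x) * ∑ i, ξ i ^ 2 + χ x * qq' (Aco (g.G e) x) ξ := by
        rw [← hqδ ξ, qq', Finset.mul_sum, Finset.mul_sum, ← Finset.sum_add_distrib]
        refine Finset.sum_congr rfl fun i _ => ?_
        rw [Finset.mul_sum, Finset.mul_sum, ← Finset.sum_add_distrib]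
        refine Finset.sum_congr rfl fun j _ => ?_
        simp only [hB]
        rw [indicator_of_mem hd]
        ring
      rw [h1]
      have h2 := hl0' x hK'x ξ
      have h3 := hcut.nonneg x
      have h4 := hcut.le_one x
      have h5 : min 1 l0 * ∑ i, ξ i ^ 2 ≤ ∑ i, ξ i ^ 2 := by
        calc min 1 l0 * ∑ i, ξ i ^ 2 ≤ 1 * ∑ i, ξ i ^ 2 :=
              mul_le_mul_of_nonneg_right (min_le_left _ _) hs0
          _ = _ := one_mul _
      have h6 : min 1 l0 * ∑ i, ξ i ^ 2 ≤ qq' (Aco (g.G e) x) ξ :=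
        (mul_le_mul_of_nonneg_right (min_le_right _ _) hs0).trans h2
      calc min 1 l0 * ∑ i, ξ i ^ 2 = (1 - χ x) * (min 1 l0 * ∑ i, ξ i ^ 2) +
            χ x * (min 1 l0 * ∑ i, ξ i ^ 2) := by ring
        _ ≤ (1 - χ x) * ∑ i, ξ i ^ 2 + χ x * qq' (Aco (g.G e) x) ξ :=
            add_le_add (mul_le_mul_of_nonneg_left h5 (by linarith)) (mul_le_mul_of_nonneg_left h6 h3)
    · have h1 : ∑ i, ∑ j, (δ i j + B i j x) * ξ i * ξ j = ∑ i, ξ i ^ 2 := by
        rw [← hqδ ξ]
        refine Finset.sum_congr rfl fun i _ => Finset.sum_congr rfl fun j _ => ?_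
        rw [hB0 i j x hK'x, add_zero]
      rw [h1]
      calc min 1 l0 * ∑ i, ξ i ^ 2 ≤ 1 * ∑ i, ξ i ^ 2 :=
            mul_le_mul_of_nonneg_right (min_le_left _ _) hs0
        _ = _ := one_mul _
  · intro y hy i j
    show δ i j + B i j y = Aco (g.G e) y i j
    simp only [hB]
    rw [indicator_of_mem (hKd hy), hχ1 y (hKO hy)]
    ring

end

end Pool.Agent.CY.S4
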