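import Pool.Agent.CY.S3.Vol
import Pool.Agent.CY.S3.Loc
import Pool.Agent.CY.S5.Met
import Pool.Agent.CY.S4.G1b

/-!
# CY-S4-G2b: bounds for the metric and the curvature on compact subsets of a chart

Continuity on `dom e` (S5/Met.lean: `MetOn.contDiffOn_det`, `contDiffOn_inv`, `contDiffOn_Gam`; S3/Loc.lean:
`continuousOn_tang_det`, `tang_det_pos`) and compactness of `K` and of `K × sphere`; `{z | bd z ∈ K}` is compact
(`bd` is a closed embedding); if `K` is empty everything is trivial.  `(g⁻¹)_00 > 0` (positive definite).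
-/

set_option autoImplicit false

open scoped Manifold ContDiff ENNReal
open MeasureTheory Set Filter Topology

namespace Pool.Agent.CY.S4

noncomputable section

set_option linter.unusedSectionVars false

variable {n : ℕ} {X : Type} [TopologicalSpace X] [ChartedSpace (EuclideanHalfSpace (n + 1)) X]
  [IsManifold (𝓡∂ (n + 1)) ∞ X] [CompactSpace X] [T2Space X] [MeasurableSpace X] [BorelSpace X]
  {g : Metric n X} {e : OpenPartialHomeomorph X (EuclideanHalfSpace (n + 1))}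

private theorem g2b_bdd {α : Type*} [TopologicalSpace α] {K : Set α} (hK : IsCompact K) {f : α → ℝ}
    (hf : ContinuousOn f K) : ∃ C : ℝ, 0 ≤ C ∧ ∀ y ∈ K, |f y| ≤ C := by
  obtain ⟨C, hC⟩ := hK.exists_bound_of_continuousOn hf
  exact ⟨max C 0, le_max_right _ _, fun y hy => (hC y hy).trans (le_max_left _ _)⟩

private theorem g2b_fin {α ι : Type*} [TopologicalSpace α] [Fintype ι] {K : Set α} (hK : IsCompact K)
    {f : ι → α → ℝ} (hf : ∀ i, ContinuousOn (f i) K) : ∃ C : ℝ, 0 ≤ C ∧ ∀ i, ∀ y ∈ K, |f i y| ≤ C := by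
  choose C hC0 hC using fun i => g2b_bdd hK (hf i)
  refine ⟨∑ i, C i, Finset.sum_nonneg fun i _ => hC0 i, fun i y hy => (hC i y hy).trans ?_⟩
  exact Finset.single_le_sum (f := C) (fun i _ => hC0 i) (Finset.mem_univ i)

private theorem g2b_pos {α : Type*} [TopologicalSpace α] {K : Set α} (hK : IsCompact K) {f : α → ℝ}
    (hf : ContinuousOn f K) (hp : ∀ y ∈ K, 0 < f y) : ∃ c : ℝ, 0 < c ∧ ∀ y ∈ K, c ≤ f y :=
  hK.exists_forall_le' hf hp

private theorem g2b_quad {m : ℕ} {K : Set (V m)} (hK : IsCompact K) {A : MF m}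
    (hA : ∀ i j, ContinuousOn (fun y => A y i j) K) (hp : ∀ y ∈ K, (A y).PosDef) :
    ∃ c C : ℝ, 0 < c ∧ ∀ y ∈ K, ∀ ξ : Fin m → ℝ,
      c * ∑ i, ξ i ^ 2 ≤ ∑ i, ∑ j, A y i j * ξ i * ξ j ∧
        ∑ i, ∑ j, A y i j * ξ i * ξ j ≤ C * ∑ i, ξ i ^ 2 := by
  have hS : IsCompact {ξ : Fin m → ℝ | ∑ i, ξ i ^ 2 = 1} := by
    refine Metric.isCompact_of_isClosed_isBounded (isClosed_eq (by fun_prop) continuous_const) ?_
    refine (Metric.isBounded_closedBall (x := (0 : Fin m → ℝ)) (r := 1)).subset fun ξ hξ => ?_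
    rw [mem_closedBall_zero_iff, pi_norm_le_iff_of_nonneg zero_le_one]
    intro i
    have h1 : ξ i ^ 2 ≤ 1 := by
      have h2 : ∑ i, ξ i ^ 2 = 1 := hξ
      rw [← h2]
      exact Finset.single_le_sum (f := fun i => ξ i ^ 2) (fun i _ => sq_nonneg _) (Finset.mem_univ i)
    rw [Real.norm_eq_abs]
    exact abs_le_one_iff_mul_self_le_one.2 (by nlinarith)
  have hc : ContinuousOn (fun p : V m × (Fin m → ℝ) => ∑ i, ∑ j, A p.1 i j * p.2 i * p.2 j)
      (K ×ˢ {ξ : Fin m → ℝ | ∑ i, ξ i ^ 2 = 1}) := by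
    refine continuousOn_finsetSum _ fun i _ => continuousOn_finsetSum _ fun j _ => ?_
    have h1 : ContinuousOn (fun p : V m × (Fin m → ℝ) => A p.1 i j)
        (K ×ˢ {ξ : Fin m → ℝ | ∑ i, ξ i ^ 2 = 1}) :=
      (hA i j).comp continuousOn_fst fun p hp => hp.1
    refine (h1.mul ?_).mul ?_ <;> fun_prop
  have hq : ∀ y (ξ : Fin m → ℝ), ∑ i, ∑ j, A y i j * ξ i * ξ j = ξ ⬝ᵥ (A y).mulVec ξ := by
    intro y ξ
    simp only [dotProduct, Matrix.mulVec, Finset.mul_sum]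
    refine Finset.sum_congr rfl fun i _ => Finset.sum_congr rfl fun j _ => ?_
    ring
  have hpos : ∀ y ∈ K, ∀ ξ : Fin m → ℝ, ξ ≠ 0 → 0 < ∑ i, ∑ j, A y i j * ξ i * ξ j := by
    intro y hy ξ hξ
    rw [hq]
    have h1 := (hp y hy).dotProduct_mulVec_pos hξ
    simpa using h1
  obtain ⟨c, hc0, hc1⟩ := g2b_pos (hK.prod hS) hc (by
    rintro ⟨y, ξ⟩ ⟨hy, hξ⟩
    refine hpos y hy ξ ?_
    rintro rfl
    simp at hξ)
  obtain ⟨C, hC0, hC1⟩ := g2b_bdd (hK.prod hS) hc
  refine ⟨c, C, hc0, fun y hy ξ => ?_⟩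
  by_cases h0 : ξ = 0
  · subst h0
    simp
  have hs : 0 < ∑ i, ξ i ^ 2 := by
    obtain ⟨i, hi⟩ := Function.ne_iff.1 h0
    refine Finset.sum_pos' (fun i _ => sq_nonneg _) ⟨i, Finset.mem_univ i, ?_⟩
    exact (sq_pos_iff (a := ξ i)).2 hi
  set s : ℝ := ∑ i, ξ i ^ 2 with hsdef
  have hr : Real.sqrt s ^ 2 = s := Real.sq_sqrt hs.le
  have hr0 : Real.sqrt s ≠ 0 := (Real.sqrt_pos.2 hs).ne'
  have h1 : (y, fun i => ξ i / Real.sqrt s) ∈ K ×ˢ {ξ : Fin m → ℝ | ∑ i, ξ i ^ 2 = 1} := by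
    refine ⟨hy, ?_⟩
    change ∑ i, (ξ i / Real.sqrt s) ^ 2 = 1
    simp only [div_pow, hr]
    rw [← Finset.sum_div, ← hsdef, div_self hs.ne']
  have h2 : ∑ i, ∑ j, A y i j * ξ i * ξ j =
      s * ∑ i, ∑ j, A y i j * (ξ i / Real.sqrt s) * (ξ j / Real.sqrt s) := by
    rw [Finset.mul_sum]
    refine Finset.sum_congr rfl fun i _ => ?_
    rw [Finset.mul_sum]
    refine Finset.sum_congr rfl fun j _ => ?_
    have h3 : s * (A y i j * (ξ i / Real.sqrt s) * (ξ j / Real.sqrt s)) =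
        A y i j * ξ i * ξ j * (s / Real.sqrt s ^ 2) := by
      field_simp
    rw [h3, hr, div_self hs.ne', mul_one]
  have h4 := hc1 _ h1
  have h5 := (abs_le.1 (hC1 _ h1)).2
  rw [h2]
  constructor
  · rw [mul_comm c]
    exact mul_le_mul_of_nonneg_left h4 hs.le
  · rw [mul_comm C]
    exact mul_le_mul_of_nonneg_left h5 hs.le

private theorem g2b_met (g : Metric n X) (he : e ∈ atlas (EuclideanHalfSpace (n + 1)) X) :
    MetOn (dom e) (g.G e) 3 := ⟨g.posDef e he, g.smooth e he⟩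

private theorem g2b_inv (g : Metric n X) (he : e ∈ atlas (EuclideanHalfSpace (n + 1)) X) (i j : Fin (n + 1)) :
    ContinuousOn (fun y => (g.G e y)⁻¹ i j) (dom e) :=
  ((g2b_met g he).contDiffOn_inv i j).continuousOn

private theorem g2b_cpt {K : Set (V (n + 1))} (hK : IsCompact K) :
    IsCompact {z : V n | bd z ∈ K} := isClosedEmbedding_bd.isCompact_preimage hK

/-- Two-sided bounds on a compact set. -/
theorem met_bounds (g : Metric n X) (he : e ∈ atlas (EuclideanHalfSpace (n + 1)) X)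
    {K : Set (V (n + 1))} (hK : IsCompact K) (hKd : K ⊆ dom e) :
    ∃ c C : ℝ, 0 < c ∧ (∀ y ∈ K, c ≤ rhoS g e y ∧ rhoS g e y ≤ C) ∧
      (∀ y ∈ K, ∀ ξ : Fin (n + 1) → ℝ, c * ∑ i, ξ i ^ 2 ≤ ∑ i, ∑ j, (g.G e y)⁻¹ i j * ξ i * ξ j ∧
        ∑ i, ∑ j, (g.G e y)⁻¹ i j * ξ i * ξ j ≤ C * ∑ i, ξ i ^ 2) ∧
      (∀ y ∈ K, ∀ i j, |(g.G e y)⁻¹ i j| ≤ C) ∧
      (∀ z : V n, bd z ∈ K → c ≤ rhoB g e z ∧ rhoB g e z ≤ C ∧ c ≤ (g.G e (bd z))⁻¹ 0 0) := by
  have hB : {z : V n | bd z ∈ K} ⊆ bdom e := fun z hz => hKd hz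
  have hcS : ContinuousOn (rhoS g e) K := ((g.continuousOn_det he).sqrt).mono hKd
  have hcB : ContinuousOn (rhoB g e) {z : V n | bd z ∈ K} :=
    ((g.continuousOn_tang_det he).sqrt).mono hB
  obtain ⟨c1, h1, h1'⟩ := g2b_pos hK hcS fun y hy => Real.sqrt_pos.2 (g.det_pos he (hKd hy))
  obtain ⟨C1, -, h2'⟩ := g2b_bdd hK hcS
  obtain ⟨c2, C2, h3, h3'⟩ := g2b_quad hK (A := fun y => (g.G e y)⁻¹)
    (fun i j => (g2b_inv g he i j).mono hKd) (fun y hy => (g.posDef e he y (hKd hy)).inv)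
  obtain ⟨C3, -, h4'⟩ := g2b_fin (ι := Fin (n + 1) × Fin (n + 1)) hK
    (f := fun p y => (g.G e y)⁻¹ p.1 p.2) (fun p => (g2b_inv g he p.1 p.2).mono hKd)
  obtain ⟨c4, h5, h5'⟩ := g2b_pos (g2b_cpt hK) hcB fun z hz =>
    Real.sqrt_pos.2 (g.tang_det_pos he (hB hz))
  obtain ⟨C4, -, h6'⟩ := g2b_bdd (g2b_cpt hK) hcB
  obtain ⟨c5, h7, h7'⟩ := g2b_pos (g2b_cpt hK) (f := fun z => (g.G e (bd z))⁻¹ 0 0)
    (((g2b_inv g he 0 0).mono hKd).comp continuous_bd.continuousOn fun z hz => hz)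
    (fun z hz => (g.posDef e he _ (hKd hz)).inv.diag_pos)
  refine ⟨min (min c1 c2) (min c4 c5), max (max C1 C2) (max C3 C4),
    lt_min (lt_min h1 h3) (lt_min h5 h7), ?_, ?_, ?_, ?_⟩
  · intro y hy
    exact ⟨((min_le_left _ _).trans (min_le_left _ _)).trans (h1' y hy),
      (abs_le.1 (h2' y hy)).2.trans ((le_max_left _ _).trans (le_max_left _ _))⟩
  · intro y hy ξ
    have hs : 0 ≤ ∑ i, ξ i ^ 2 := Finset.sum_nonneg fun i _ => sq_nonneg _
    obtain ⟨h8, h9⟩ := h3' y hy ξ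
    exact ⟨(mul_le_mul_of_nonneg_right ((min_le_left _ _).trans (min_le_right _ _)) hs).trans h8,
      h9.trans (mul_le_mul_of_nonneg_right ((le_max_right _ _).trans (le_max_left _ _)) hs)⟩
  · intro y hy i j
    exact (h4' (i, j) y hy).trans ((le_max_left _ _).trans (le_max_right _ _))
  · intro z hz
    exact ⟨((min_le_right _ _).trans (min_le_left _ _)).trans (h5' z hz),
      (abs_le.1 (h6' z hz)).2.trans ((le_max_right _ _).trans (le_max_right _ _)),
      ((min_le_right _ _).trans (min_le_right _ _)).trans (h7' z hz)⟩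

private theorem g2b_Ric (g : Metric n X) (he : e ∈ atlas (EuclideanHalfSpace (n + 1)) X) (i j : Fin (n + 1)) :
    ContinuousOn (Ric (Hs n) (g.G e) i j) (dom e) := by
  have hG : ∀ a b c, ContDiffOn ℝ 1 (Gam (Hs n) (g.G e) a b c) (dom e) := fun a b c =>
    contDiffOn_Gam (dom_chart e) (k := 1) (l := 3) (by norm_num) (g2b_met g he) a b c
  have hp : ∀ l a b c, ContinuousOn (pd (Hs n) l (Gam (Hs n) (g.G e) a b c)) (dom e) := fun l a b c =>
    (dom_chart e).continuousOn_pd l (hG a b c)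
  unfold Ric
  refine continuousOn_finsetSum _ fun k _ => ?_
  refine ((hp k k i j).sub (hp j k i k)).add (continuousOn_finsetSum _ fun l _ => ?_)
  exact ((hG k k l).continuousOn.mul (hG l i j).continuousOn).sub
    ((hG k j l).continuousOn.mul (hG l i k).continuousOn)

private theorem g2b_tinv (g : Metric n X) (he : e ∈ atlas (EuclideanHalfSpace (n + 1)) X) (a b : Fin n) :
    ContinuousOn (fun z => (tang (g.G e) z)⁻¹ a b) (bdom e) := by
  have h1 : ∀ z, (tang (g.G e) z)⁻¹ a b =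
      (tang (g.G e) z).det⁻¹ * (tang (g.G e) z).adjugate a b := by
    intro z
    rw [Matrix.inv_def, Ring.inverse_eq_inv', Matrix.smul_apply, smul_eq_mul]
  have h2 : ContinuousOn (fun z => tang (g.G e) z) (bdom e) := by
    refine continuousOn_pi.2 fun i => continuousOn_pi.2 fun j => ?_
    exact (g.smooth e he i.succ j.succ).continuousOn.comp continuous_bd.continuousOn fun z hz => hz
  simp only [h1]
  refine ((g.continuousOn_tang_det he).inv₀ fun z hz => (g.tang_det_pos he hz).ne').mul ?_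
  exact (continuous_id.matrix_adjugate.matrix_elem a b).comp_continuousOn h2

/-- Christoffel symbols, scalar curvature and mean curvature are bounded on a compact set. -/
theorem curv_bounds (g : Metric n X) (he : e ∈ atlas (EuclideanHalfSpace (n + 1)) X)
    {K : Set (V (n + 1))} (hK : IsCompact K) (hKd : K ⊆ dom e) :
    ∃ C : ℝ, (∀ y ∈ K, ∀ k i j, |Gam (Hs n) (g.G e) k i j y| ≤ C) ∧ (∀ y ∈ K, |scal (Hs n) (g.G e) y| ≤ C) ∧
      ∀ z : V n, bd z ∈ K → |meanCurv (g.G e) z| ≤ C := by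
  have hG : ∀ a b c, ContinuousOn (Gam (Hs n) (g.G e) a b c) (dom e) := fun a b c =>
    (contDiffOn_Gam (dom_chart e) (k := 1) (l := 3) (by norm_num) (g2b_met g he) a b c).continuousOn
  have hB : {z : V n | bd z ∈ K} ⊆ bdom e := fun z hz => hKd hz
  obtain ⟨C1, -, h1⟩ := g2b_fin (ι := Fin (n + 1) × Fin (n + 1) × Fin (n + 1)) hK
    (f := fun p y => Gam (Hs n) (g.G e) p.1 p.2.1 p.2.2 y) (fun p => (hG _ _ _).mono hKd)
  obtain ⟨C2, -, h2⟩ := g2b_bdd hK (f := scal (Hs n) (g.G e)) (by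
    unfold scal
    refine continuousOn_finsetSum _ fun i _ => continuousOn_finsetSum _ fun j _ => ?_
    exact ((g2b_inv g he i j).mul (g2b_Ric g he i j)).mono hKd)
  obtain ⟨C3, -, h3⟩ := g2b_bdd (g2b_cpt hK) (f := meanCurv (g.G e)) (by
    unfold meanCurv
    have hcomp : ∀ {f : V (n + 1) → ℝ}, ContinuousOn f (dom e) →
        ContinuousOn (fun z => f (bd z)) {z : V n | bd z ∈ K} := fun {f} hf =>
      (hf.mono hKd).comp continuous_bd.continuousOn fun z hz => hz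
    refine ContinuousOn.div ?_ (hcomp (g2b_inv g he 0 0)).sqrt ?_
    · refine continuousOn_finsetSum _ fun a _ => continuousOn_finsetSum _ fun b _ => ?_
      exact ((g2b_tinv g he a b).mono hB).mul (hcomp (hG 0 a.succ b.succ))
    · intro z hz
      exact (Real.sqrt_pos.2 (g.posDef e he _ (hKd hz)).inv.diag_pos).ne')
  refine ⟨max C1 (max C2 C3), ?_, ?_, ?_⟩
  · intro y hy k i j
    exact (h1 (k, i, j) y hy).trans (le_max_left _ _)
  · intro y hy
    exact (h2 y hy).trans ((le_max_left _ _).trans (le_max_right _ _))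
  · intro z hz
    exact (h3 z hz).trans ((le_max_right _ _).trans (le_max_right _ _))

end

end Pool.Agent.CY.S4
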