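import Pool.Agent.CY.S3.Vol
import Pool.Agent.CY.S3.Loc
import Pool.Agent.CY.S5.Met
import Pool.Agent.CY.S4.G1b

/-!
# CY-S4-G2c: the boundary coefficients

On the open set `bdom e` (`isOpen_bdom`) the function `rhoB` is `C^1` (`det (tang ..) > 0`, a polynomial in the entries
`g(bd z)`, `contDiff_bd`), and `meanCurv` is `C^1` (`contDiffOn_Gam` on `dom e` composed with `bd`, inverse of the tangential
matrix, `(g⁻¹)_00 > 0`).  `z ↦ χ (bd z)` has compact support in `bdom e` (the preimage under the closed embedding `bd` of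
the compact set `tsupport χ ∩ Hs n ⊆ dom e`), so the products, extended by zero, are `C^1` on `V n`.
-/

set_option autoImplicit false

open scoped Manifold ContDiff ENNReal
open MeasureTheory Set Filter Topology

namespace Pool.Agent.CY.S4

noncomputable section

set_option linter.unusedSectionVars false

variable {n : ℕ} {X : Type} [TopologicalSpace X] [ChartedSpace (EuclideanHalfSpace (n + 1)) X]
  [IsManifold (𝓡∂ (n + 1)) ∞ X] [CompactSpace X] [T2Space X] [MeasurableSpace X] [BorelSpace X]
  {g : Metric n X} {e : OpenPartialHomeomorph X (EuclideanHalfSpace (n + 1))}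

omit [IsManifold (𝓡∂ (n + 1)) ∞ X] [CompactSpace X] [T2Space X] [MeasurableSpace X] [BorelSpace X] in
/-- Products with a cutoff function, extended by zero. -/
private theorem ind_smooth {χ : V (n + 1) → ℝ} (h : Cut e χ) {ρ : V n → ℝ}
    (hρ : ContDiffOn ℝ 1 ρ (bdom e)) :
    ContDiff ℝ 1 ((bdom e).indicator fun z : V n => χ (bd z) * ρ z) ∧
      HasCompactSupport ((bdom e).indicator fun z : V n => χ (bd z) * ρ z) := by
  have hK : IsCompact ((bd : V n → V (n + 1)) ⁻¹' tsupport χ) :=
    isClosedEmbedding_bd.isCompact_preimage h.cpt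
  have hχ : ContDiff ℝ 1 (fun z : V n => χ (bd z)) :=
    (h.smooth.of_le (by exact_mod_cast le_top)).comp (Pool.Agent.CY.contDiff_bd.of_le (by exact_mod_cast le_top))
  constructor
  · rw [contDiff_iff_contDiffAt]
    intro z
    by_cases hz : z ∈ bdom e
    · have hn : bdom e ∈ 𝓝 z := (isOpen_bdom e).mem_nhds hz
      have h1 : ContDiffAt ℝ 1 (fun z : V n => χ (bd z) * ρ z) z :=
        hχ.contDiffAt.mul (hρ.contDiffAt hn)
      refine h1.congr_of_eventuallyEq ?_
      filter_upwards [hn] with y hy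
      rw [indicator_of_mem hy]
    · have hz2 : z ∈ ((bd : V n → V (n + 1)) ⁻¹' tsupport χ)ᶜ := by
        intro hz3
        exact hz (h.sub ⟨hz3, bd_mem z⟩)
      have hn := hK.isClosed.isOpen_compl.mem_nhds hz2
      have h0 : ((bdom e).indicator fun z : V n => χ (bd z) * ρ z) =ᶠ[𝓝 z] fun _ => 0 := by
        filter_upwards [hn] with y hy
        by_cases hy2 : y ∈ bdom e
        · rw [indicator_of_mem hy2, image_eq_zero_of_notMem_tsupport hy, zero_mul]
        · rw [indicator_of_notMem hy2]
      exact contDiffAt_const.congr_of_eventuallyEq h0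
  · refine HasCompactSupport.of_support_subset_isCompact hK ?_
    intro z hz
    by_contra h2
    apply hz
    by_cases hy2 : z ∈ bdom e
    · rw [indicator_of_mem hy2, image_eq_zero_of_notMem_tsupport h2, zero_mul]
    · rw [indicator_of_notMem hy2]

omit [IsManifold (𝓡∂ (n + 1)) ∞ X] [CompactSpace X] [T2Space X] [MeasurableSpace X] [BorelSpace X] in
private theorem comp_bd {k : WithTop ℕ∞} (hk : k ≤ ((⊤ : ℕ∞) : WithTop ℕ∞)) {f : V (n + 1) → ℝ} (hf : ContDiffOn ℝ k f (dom e)) :
    ContDiffOn ℝ k (fun z : V n => f (bd z)) (bdom e) :=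
  hf.comp (Pool.Agent.CY.contDiff_bd.of_le hk).contDiffOn (fun _ hz => hz)

/-- The boundary coefficients are `C^1` functions with compact support. -/
theorem bcoef_smooth (g : Metric n X) (he : e ∈ atlas (EuclideanHalfSpace (n + 1)) X) {χ : V (n + 1) → ℝ}
    (h : Cut e χ) :
    (ContDiff ℝ 1 ((bdom e).indicator fun z : V n => χ (bd z) * rhoB g e z) ∧
      HasCompactSupport ((bdom e).indicator fun z : V n => χ (bd z) * rhoB g e z)) ∧
    (ContDiff ℝ 1 ((bdom e).indicator fun z : V n => χ (bd z) * (rhoB g e z * meanCurv (g.G e) z)) ∧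
      HasCompactSupport ((bdom e).indicator fun z : V n => χ (bd z) * (rhoB g e z * meanCurv (g.G e) z))) := by
  have hM : MetOn (dom e) (g.G e) 3 := ⟨g.posDef e he, g.smooth e he⟩
  have h3 : (3 : WithTop ℕ∞) ≤ ((⊤ : ℕ∞) : WithTop ℕ∞) :=
    WithTop.coe_le_coe.2 (le_top : (3 : ℕ∞) ≤ ⊤)
  have h1 : (1 : WithTop ℕ∞) ≤ 3 := by norm_num
  have hT : MetOn (bdom e) (tang (g.G e)) 3 :=
    ⟨fun z hz => g.tang_posDef he hz, fun a b => comp_bd h3 (g.smooth e he a.succ b.succ)⟩
  have hρ : ContDiffOn ℝ 1 (rhoB g e) (bdom e) := by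
    have h2 := (hT.of_le h1).contDiffOn_det
    exact h2.sqrt fun z hz => (hT.det_pos hz).ne'
  have hm : ContDiffOn ℝ 1 (meanCurv (g.G e)) (bdom e) := by
    unfold meanCurv
    refine ContDiffOn.div ?_ ?_ ?_
    · refine ContDiffOn.sum fun a _ => ContDiffOn.sum fun b _ => ?_
      refine ((hT.of_le h1).contDiffOn_inv a b).mul ?_
      exact comp_bd (by exact_mod_cast le_top)
        (contDiffOn_Gam (dom_chart e) (by norm_num) hM 0 a.succ b.succ)
    · refine ContDiffOn.sqrt ?_ ?_
      · exact comp_bd (by exact_mod_cast le_top) ((hM.of_le h1).contDiffOn_inv 0 0)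
      · intro z hz
        exact ((g.posDef e he (bd z) hz).inv.diag_pos).ne'
    · intro z hz
      exact (Real.sqrt_pos.2 ((g.posDef e he (bd z) hz).inv.diag_pos)).ne'
  exact ⟨ind_smooth h hρ, ind_smooth h (hρ.mul hm)⟩

end

end Pool.Agent.CY.S4
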