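import Pool.Agent.CY.S4.G1
import Pool.Agent.CY.S4.G2a
import Pool.Agent.CY.S4.G2b
import Pool.Agent.CY.S4.G2c

/-!
# CY-S4-G2: imports only
-/

set_option autoImplicit false

open scoped Manifold ContDiff ENNReal
open MeasureTheory Set Filter Topology

namespace Pool.Agent.CY.S4

noncomputable section



end

end Pool.Agent.CY.S4
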