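import Pool.Agent.CY.S4.L1t

/-!
# CY-S4-L2: Fubini and the divergence theorem on the half space

`volume_cons`: the map `(t, z) ↦ cons t z` preserves volumes (`EuclideanSpace.volume_preserving_measurableEquiv`,
`MeasureTheory.volume_preserving_piFinSuccAbove` for `i = 0`).
`div_half`: for `i = a + 1` the difference quotients `(ψ (x + h e_i) - ψ x) / h` have integral `0` by translation
invariance, are bounded by `sup |pd i ψ|`, are supported in a fixed compact set for `h ≤ 1` and converge to
`pd (Hs n) i ψ x`: dominated convergence.  For `i = 0` use Fubini (`volume_cons`) and, for every `z`,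
`∫_0^∞ ∂_0 ψ (t, z) dt = -ψ (0, z)` (fundamental theorem of calculus for a `C^1` function on `[0, ∞)` with compact
support: `MeasureTheory.integral_Ioi_of_hasDerivAt_of_tendsto`).
-/

set_option autoImplicit false

open scoped Manifold ContDiff ENNReal
open MeasureTheory Set Filter Topology

namespace Pool.Agent.CY.S4

noncomputable section

variable {n : ℕ}


/-- `cons` as a measurable equivalence. -/
def consE (n : ℕ) : (ℝ × V n) ≃ᵐ V (n + 1) :=
  ((MeasurableEquiv.refl ℝ).prodCongr (MeasurableEquiv.toLp 2 (Fin n → ℝ)).symm).trans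
    ((MeasurableEquiv.piFinSuccAbove (fun _ : Fin (n + 1) => ℝ) 0).symm.trans
      (MeasurableEquiv.toLp 2 (Fin (n + 1) → ℝ)))

theorem consE_coe : ((consE n : (ℝ × V n) ≃ᵐ V (n + 1)) : ℝ × V n → V (n + 1)) =
    fun p : ℝ × V n => cons p.1 p.2 := by
  funext p
  ext i
  refine Fin.cases ?_ (fun j => ?_) i
  · rfl
  · rfl

theorem volume_cons : MeasurePreserving (fun p : ℝ × V n => cons p.1 p.2)
    ((volume : Measure ℝ).prod (volume : Measure (V n))) (volume : Measure (V (n + 1))) := by
  have h1 : MeasurePreserving (Prod.map (id : ℝ → ℝ) (WithLp.ofLp : V n → (Fin n → ℝ)))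
      ((volume : Measure ℝ).prod (volume : Measure (V n)))
      ((volume : Measure ℝ).prod (volume : Measure (Fin n → ℝ))) :=
    (MeasurePreserving.id _).prod (PiLp.volume_preserving_ofLp (Fin n))
  have h2 := (volume_preserving_piFinSuccAbove (fun _ : Fin (n + 1) => ℝ) 0).symm
  have h3 := PiLp.volume_preserving_toLp (Fin (n + 1))
  have h4 := h3.comp (h2.comp h1)
  rw [← consE_coe]
  exact h4

theorem nu_pres : MeasurePreserving (fun p : ℝ × V n => cons p.1 p.2)
    (((volume : Measure ℝ).restrict (Ioi 0)).prod (volume : Measure (V n))) (nu n) := by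
  have h1 := (volume_cons (n := n)).restrict_preimage (s := Ho n) Ho_open.measurableSet
  have h2 : (fun p : ℝ × V n => cons p.1 p.2) ⁻¹' (Ho n) = Ioi (0 : ℝ) ×ˢ univ := by
    ext p
    simp only [mem_preimage, mem_prod, mem_univ, and_true, mem_Ioi]
    rfl
  rw [h2, ← Measure.prod_restrict, Measure.restrict_univ] at h1
  exact h1

theorem cons_emb : MeasurableEmbedding (fun p : ℝ × V n => cons p.1 p.2) := by
  rw [← consE_coe]
  exact (consE n).measurableEmbedding

theorem nu_int {f : V (n + 1) → ℝ} (hf : Integrable f (nu n)) :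
    Integrable (fun p : ℝ × V n => f (cons p.1 p.2))
      (((volume : Measure ℝ).restrict (Ioi 0)).prod (volume : Measure (V n))) :=
  (nu_pres.integrable_comp_emb cons_emb).mpr hf

theorem nu_fubini {f : V (n + 1) → ℝ} (hf : Integrable f (nu n)) :
    ∫ x, f x ∂(nu n) = ∫ z : V n, ∫ t in Ioi (0 : ℝ), f (cons t z) := by
  rw [← nu_pres.integral_comp cons_emb, integral_prod_symm _ (nu_int hf)]

theorem nu_fubini' {f : V (n + 1) → ℝ} (hf : Integrable f (nu n)) :
    ∫ x, f x ∂(nu n) = ∫ t in Ioi (0 : ℝ), ∫ z : V n, f (cons t z) := by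
  rw [← nu_pres.integral_comp cons_emb, integral_prod _ (nu_int hf)]

theorem cons_eq (t : ℝ) (z : V n) : cons t z = bd z + t • ei 0 := by
  ext i
  refine Fin.cases ?_ (fun j => ?_) i
  · simp [cons, bd, ei]
  · simp [cons, bd, ei]

theorem cons_add (t s : ℝ) (z : V n) (a : Fin n) : cons t (z + s • ei a) = cons t z + s • ei a.succ := by
  ext i
  refine Fin.cases ?_ (fun j => ?_) i
  · simp [cons, ei]
  · simp [cons, ei, EuclideanSpace.single_apply, Fin.succ_inj]

theorem cons_mem_Ho {t : ℝ} (ht : 0 < t) (z : V n) : cons t z ∈ Ho n := ht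

theorem cons_mem_Hs {t : ℝ} (ht : 0 ≤ t) (z : V n) : cons t z ∈ Hs n := ht

theorem T1_fderiv {ψ : V (n + 1) → ℝ} (hψ : ψ ∈ T1 n) {x : V (n + 1)} (hx : x ∈ Ho n) :
    HasFDerivAt ψ (fderivWithin ℝ ψ (Hs n) x) x := by
  have h1 : Hs n ∈ 𝓝 x := mem_of_superset (Ho_open.mem_nhds hx) Ho_sub_Hs
  exact (T1_diff hψ (Ho_sub_Hs hx)).hasFDerivWithinAt.hasFDerivAt h1

/-- The divergence theorem on the half space. -/
theorem div_half {ψ : V (n + 1) → ℝ} (hψ : ψ ∈ T1 n) :
    ∫ x, pd (Hs n) 0 ψ x ∂(nu n) = -∫ z : V n, ψ (bd z) ∧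
    ∀ a : Fin n, ∫ x, pd (Hs n) a.succ ψ x ∂(nu n) = 0 := by
  have hint : ∀ i, Integrable (pd (Hs n) i ψ) (nu n) := fun i =>
    memLp_one_iff_integrable.mp ((T1_memLp hψ 1).2 i)
  have hint0 : Integrable ψ (nu n) := memLp_one_iff_integrable.mp (T1_memLp hψ 1).1
  constructor
  · rw [nu_fubini (hint 0), ← integral_neg]
    refine integral_congr_ae ?_
    filter_upwards [(nu_int (hint 0)).prod_left_ae] with z hz
    have hcons : Continuous (fun t : ℝ => cons t z) := by
      have : (fun t : ℝ => cons t z) = fun t => bd z + t • ei 0 := by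
        funext t; exact cons_eq t z
      rw [this]
      fun_prop
    have hcont : ContinuousWithinAt (fun t : ℝ => ψ (cons t z)) (Ici 0) 0 := by
      have h1 : ContinuousOn (fun t : ℝ => ψ (cons t z)) (Ici 0) :=
        hψ.1.continuousOn.comp hcons.continuousOn (fun t ht => cons_mem_Hs ht z)
      exact h1 0 (mem_Ici.mpr le_rfl)
    have hderiv : ∀ t ∈ Ioi (0 : ℝ), HasDerivAt (fun t : ℝ => ψ (cons t z))
        (pd (Hs n) 0 ψ (cons t z)) t := by
      intro t ht
      have h1 := T1_fderiv hψ (cons_mem_Ho ht z)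
      have h2 : HasDerivAt (fun t : ℝ => cons t z) (ei 0) t := by
        have h3 : (fun t : ℝ => cons t z) = fun t => bd z + t • ei 0 := by
          funext t; exact cons_eq t z
        rw [h3]
        have h4 := ((hasDerivAt_id t).smul_const (ei (0 : Fin (n + 1)))).const_add (bd z)
        simpa using h4
      exact h1.comp_hasDerivAt t h2
    have htend : Tendsto (fun t : ℝ => ψ (cons t z)) atTop (𝓝 0) := by
      obtain ⟨R, hR⟩ := hψ.2.isCompact.isBounded.subset_closedBall 0
      have h1 : ∀ᶠ t : ℝ in atTop, ψ (cons t z) = 0 := by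
        filter_upwards [eventually_gt_atTop (max R 0)] with t ht
        by_contra h2
        have h3 := hR (subset_tsupport ψ h2)
        rw [mem_closedBall_zero_iff] at h3
        have h4 : ‖(cons t z) 0‖ ≤ ‖cons t z‖ := PiLp.norm_apply_le _ _
        have h5 : (cons t z) 0 = t := rfl
        rw [h5, Real.norm_eq_abs] at h4
        have h6 := le_abs_self t
        have h7 := le_max_left R 0
        linarith
      exact (tendsto_congr' h1).mpr tendsto_const_nhds
    have h8 := integral_Ioi_of_hasDerivAt_of_tendsto hcont hderiv hz htend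
    rw [h8]
    simp [bd]
  · intro a
    rw [nu_fubini' (hint a.succ)]
    have h0 : ∀ᵐ t ∂((volume : Measure ℝ).restrict (Ioi 0)),
        ∫ z : V n, pd (Hs n) a.succ ψ (cons t z) = 0 := by
      filter_upwards [(nu_int (hint a.succ)).prod_right_ae, (nu_int hint0).prod_right_ae,
        ae_restrict_mem measurableSet_Ioi] with t h1 h2 ht
      have hl : ∀ z : V n, HasLineDerivAt ℝ (fun z : V n => ψ (cons t z))
          (pd (Hs n) a.succ ψ (cons t z)) z (ei a) := by
        intro z
        have h3 := (T1_fderiv hψ (cons_mem_Ho ht z)).hasLineDerivAt (ei a.succ)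
        unfold HasLineDerivAt at h3 ⊢
        have h4 : (fun s : ℝ => ψ (cons t (z + s • ei a))) =
            fun s : ℝ => ψ (cons t z + s • ei a.succ) := by
          funext s
          rw [cons_add]
        rw [h4]
        exact h3
      have h5 := integral_bilinear_hasLineDerivAt_right_eq_neg_left_of_integrable
        (μ := (volume : Measure (V n))) (f := fun z : V n => ψ (cons t z))
        (f' := fun z => pd (Hs n) a.succ ψ (cons t z))
        (g := fun _ => (1 : ℝ)) (g' := fun _ => (0 : ℝ)) (v := ei a)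
        (B := ContinuousLinearMap.mul ℝ ℝ) (by simpa using h1) (by simp) (by simpa using h2)
        (fun z _ => hl z) (fun z _ => by
          unfold HasLineDerivAt
          exact hasDerivAt_const _ _)
      simp only [ContinuousLinearMap.mul_apply', mul_zero, mul_one, integral_zero] at h5
      linarith
    rw [integral_congr_ae h0, integral_zero]

end

end Pool.Agent.CY.S4
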