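import Pool.Agent.CY.S4.L0
import Pool.Agent.CY.S4.L2

/-!
# CY-S4-L3a: trace inequality

`trace_le`: `div_half` for `ψ² ∈ T1`: `∫ ψ(0,z)² dz = -∫ 2 ψ ∂_0 ψ ≤ 2 |ψ| |∂_0 ψ|` (`l2_cs`); `2 a b ≤ a² + b²`.
-/

set_option autoImplicit false

open scoped Manifold ContDiff ENNReal
open MeasureTheory Set Filter Topology

namespace Pool.Agent.CY.S4

noncomputable section

variable {n : ℕ}


theorem trace_le {ψ : V (n + 1) → ℝ} (hψ : ψ ∈ T1 n) :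
    ∫ z : V n, ψ (bd z) ^ 2 ≤ 2 * Real.sqrt (sq ψ) * Real.sqrt (sq (pd (Hs n) 0 ψ)) := by
  have h1 := (div_half (T1_mul hψ.1 hψ)).1
  have hL := T1_memLp hψ 2
  have h2 : ∫ x, pd (Hs n) 0 (fun x => ψ x * ψ x) x ∂(nu n) =
      2 * ∫ x, ψ x * pd (Hs n) 0 ψ x ∂(nu n) := by
    rw [← integral_const_mul]
    apply integral_congr_ae
    filter_upwards [ae_restrict_mem Ho_open.measurableSet] with x hx
    have hx' := Ho_sub_Hs hx
    rw [pd_mul (T1_diff hψ hx') (T1_diff hψ hx') hx']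
    ring
  have h3 : ∫ z : V n, ψ (bd z) ^ 2 = -(2 * ∫ x, ψ x * pd (Hs n) 0 ψ x ∂(nu n)) := by
    rw [← h2, h1, neg_neg]
    refine integral_congr_ae (Eventually.of_forall fun z => ?_)
    simp only []
    ring
  have h4 := l2_cs hL.1 (hL.2 0)
  have h5 := neg_abs_le (∫ x, ψ x * pd (Hs n) 0 ψ x ∂(nu n))
  rw [h3]
  unfold sq
  linarith

theorem trace_le_H1n {ψ : V (n + 1) → ℝ} (hψ : ψ ∈ T1 n) : ∫ z : V n, ψ (bd z) ^ 2 ≤ H1n ψ := by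
  have h1 := trace_le hψ
  have hnn : ∀ f : V (n + 1) → ℝ, 0 ≤ sq f := fun f => integral_nonneg fun x => sq_nonneg _
  have h2 : sq (pd (Hs n) 0 ψ) ≤ ∑ i, sq (pd (Hs n) i ψ) :=
    Finset.single_le_sum (f := fun i => sq (pd (Hs n) i ψ)) (fun i _ => hnn _)
      (Finset.mem_univ (0 : Fin (n + 1)))
  have h3 := Real.sq_sqrt (hnn ψ)
  have h4 := Real.sq_sqrt (hnn (pd (Hs n) 0 ψ))
  unfold H1n
  nlinarith [sq_nonneg (Real.sqrt (sq ψ) - Real.sqrt (sq (pd (Hs n) 0 ψ)))]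

end

end Pool.Agent.CY.S4
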