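import Pool.Agent.CY.S3.IntChart
import Pool.Agent.CY.S3.NormD
import Pool.Agent.CY.S4.G2
import Pool.Agent.CY.S4.Iface
import Pool.Agent.CY.S4.L3a

/-!
# CY-S4-G3a: bounds for functions supported in a chart (first order)

`int_vol_chart`, `int_bvol_chart` (S3/IntChart.lean) for `Ψ = (ext e U)²`, support in `pt e '' K ⊆ e.source`:
`∫ (ext e U)² d(vol) = ∫_{Ho} indicator (dom e) (U² rhoS) ≤ C sq U`.  `‖D (ext e U)‖² = gipX = ∑ g^{ij} ∂_i U ∂_j U`
(`norm_D`, `gip_eq`, `pd_loc_ext`) `≤ C ∑ (∂_i U)²`.  Boundary: `∫ (ext e U)² d(bvol) = ∫ U(bd z)² rhoB ≤ C ∫ U(bd z)²`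
and `trace_le_H1n`.
-/

set_option autoImplicit false

open scoped Manifold ContDiff ENNReal
open MeasureTheory Set Filter Topology

namespace Pool.Agent.CY.S4

noncomputable section

set_option linter.unusedSectionVars false

variable {n : ℕ} {X : Type} [TopologicalSpace X] [ChartedSpace (EuclideanHalfSpace (n + 1)) X]
  [IsManifold (𝓡∂ (n + 1)) ∞ X] [CompactSpace X] [T2Space X] [MeasurableSpace X] [BorelSpace X]
  {g : Metric n X} {e : OpenPartialHomeomorph X (EuclideanHalfSpace (n + 1))}

/-- The gradient vanishes where the function vanishes locally. -/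
theorem D_zero_near (f : Frame g) {u : X → ℝ} {p : X} (h : ∀ᶠ q in 𝓝 p, u q = 0) : f.D u p = 0 := by
  refine f.D_ext (fun i j hp => ?_) (fun _ _ _ => rfl)
  have hy := co_mem_dom (f.e i) hp
  have h1 : ∀ k, pd (Hs n) k (loc (f.e i) u) (co (f.e i) p) = 0 := by
    intro k
    have h2 : loc (f.e i) u =ᶠ[𝓝[Hs n] (co (f.e i) p)] fun _ => 0 := by
      rw [(dom_chart (f.e i)).nhds_eq hy]
      have h3 := continuousOn_pt (f.e i) _ hy
      rw [ContinuousWithinAt, pt_co (f.e i) hp] at h3
      exact h3.eventually h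
    have h4 : loc (f.e i) u (co (f.e i) p) = 0 := by
      show u (pt (f.e i) (co (f.e i) p)) = 0
      rw [pt_co (f.e i) hp]
      exact h.self_of_nhds
    rw [pd, h2.fderivWithin_eq h4]
    simp
  simp only [h1, mul_zero, Finset.sum_const_zero]
  rfl

/-- The extension by zero vanishes near the points outside `pt e '' K`. -/
theorem ext_zero_near {K : Set (V (n + 1))} (hK : IsCompact K) (hKd : K ⊆ dom e) {U : V (n + 1) → ℝ}
    (hU : Supp U K) {p : X} (hp : p ∉ pt e '' K) : ∀ᶠ q in 𝓝 p, ext e U q = 0 := by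
  have hc : IsClosed (pt e '' K) := (hK.image_of_continuousOn ((continuousOn_pt e).mono hKd)).isClosed
  filter_upwards [hc.isOpen_compl.mem_nhds hp] with q hq
  by_cases hqs : q ∈ e.source
  · rw [ext_co hqs]
    refine hU _ (co_mem_Hs e q) ?_
    intro hk
    exact hq ⟨co e q, hk, pt_co e hqs⟩
  · exact ext_not hqs

/-- Partial derivatives vanish outside the support. -/
theorem pd_zero_supp {K : Set (V (n + 1))} (hK : IsCompact K) {U : V (n + 1) → ℝ}
    (hU : Supp U K) {y : V (n + 1)} (hy : y ∈ Hs n) (hyK : y ∉ K) (i : Fin (n + 1)) :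
    pd (Hs n) i U y = 0 := by
  have h2 : U =ᶠ[𝓝[Hs n] y] fun _ => 0 := by
    filter_upwards [self_mem_nhdsWithin,
      mem_nhdsWithin_of_mem_nhds (hK.isClosed.isOpen_compl.mem_nhds hyK)] with z hz hzK
    exact hU z hz hzK
  rw [pd, h2.fderivWithin_eq (hU y hy hyK)]
  simp

theorem op_L2 (he : e ∈ atlas (EuclideanHalfSpace (n + 1)) X) (g : Metric n X) (f : Frame g)
    {K : Set (V (n + 1))} (hK : IsCompact K) (hKd : K ⊆ dom e) :
    ∃ C : ℝ, 0 ≤ C ∧ ∀ U : V (n + 1) → ℝ, SU1 K U →
      ∫ p, (ext e U p) ^ 2 ∂(vol g) ≤ C * H1n U ∧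
      ∫ p, ‖f.D (ext e U) p‖ ^ 2 ∂(vol g) ≤ C * H1n U ∧
      ∫ p, (ext e U p) ^ 2 ∂(bvol g) ≤ C * H1n U := by
  obtain ⟨c, C, hc, hrho, hell, -, hB⟩ := met_bounds g he hK hKd
  set C0 : ℝ := max C 0 with hC0
  have hC0n : 0 ≤ C0 := le_max_right _ _
  have hCC : C ≤ C0 := le_max_left _ _
  refine ⟨C0 + C0 * C0, by positivity, ?_⟩
  intro U hU
  have hT : U ∈ T1 n := ⟨hU.smooth, hU.cpt⟩
  have hsq0 : ∀ φ : V (n + 1) → ℝ, 0 ≤ sq φ := fun φ => integral_nonneg fun x => sq_nonneg _
  have hsum0 : 0 ≤ ∑ i, sq (pd (Hs n) i U) := Finset.sum_nonneg fun i _ => hsq0 _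
  have hH : 0 ≤ H1n U := add_nonneg (hsq0 _) hsum0
  have hHo : ∀ᵐ y ∂(nu n), y ∈ Ho n := ae_restrict_mem isOpen_Ho.measurableSet
  have hUK : ∀ y ∈ Hs n, y ∉ K → U y = 0 := hU.supp
  have hsupp : Function.support (fun p => (ext e U p) ^ 2) ⊆ e.source := by
    intro p hp
    by_contra h
    apply hp
    show (ext e U p) ^ 2 = 0
    rw [ext_not h]; ring
  have hCu : ext e U ∈ C1 n X := by
    have := ext_contMDiff (k := 1) he (by exact_mod_cast hU.smooth) hK hKd hU.supp
    exact_mod_cast this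
  refine ⟨?_, ?_, ?_⟩
  · rw [int_vol_chart g he _ hsupp]
    have h1 : ∫ y in Ho n, (dom e).indicator (fun y => (ext e U (pt e y)) ^ 2 * rhoS g e y) y
        ≤ ∫ y in Ho n, C0 * U y ^ 2 := by
      refine integral_mono_of_nonneg ?_ ?_ ?_
      · filter_upwards with y
        refine indicator_nonneg (fun y hy => ?_) y
        exact mul_nonneg (sq_nonneg _) (rhoS_pos g he hy).le
      · exact (l2_int_sq (T1_memLp hT 2).1).const_mul C0
      · filter_upwards [hHo] with y hy
        by_cases hyd : y ∈ dom e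
        · rw [indicator_of_mem hyd, ext_pt hyd]
          by_cases hyK : y ∈ K
          · have h2 := (hrho y hyK).2
            nlinarith [sq_nonneg (U y)]
          · rw [hUK y (Ho_subset_Hs hy) hyK]
            simp
        · rw [indicator_of_notMem hyd]
          positivity
    have h2 : ∫ y in Ho n, C0 * U y ^ 2 = C0 * sq U := integral_const_mul _ _
    rw [h2] at h1
    refine h1.trans ?_
    have h3 : sq U ≤ H1n U := le_add_of_nonneg_right hsum0
    nlinarith [mul_nonneg hC0n (sub_nonneg.2 h3), mul_nonneg (mul_nonneg hC0n hC0n) hH]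
  · have hsupp2 : Function.support (fun p => ‖f.D (ext e U) p‖ ^ 2) ⊆ e.source := by
      intro p hp
      by_contra h
      apply hp
      show ‖f.D (ext e U) p‖ ^ 2 = 0
      rw [D_zero_near f (ext_zero_near hK hKd hU.supp (p := p) ?_)]
      · simp
      · rintro ⟨y, hy, rfl⟩
        exact h (pt_mem_source e (hKd hy))
    rw [int_vol_chart g he _ hsupp2]
    have h1 : ∫ y in Ho n, (dom e).indicator (fun y => ‖f.D (ext e U) (pt e y)‖ ^ 2 * rhoS g e y) y
        ≤ ∫ y in Ho n, C0 * C0 * ∑ i, pd (Hs n) i U y ^ 2 := by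
      refine integral_mono_of_nonneg ?_ ?_ ?_
      · filter_upwards with y
        refine indicator_nonneg (fun y hy => ?_) y
        exact mul_nonneg (sq_nonneg _) (rhoS_pos g he hy).le
      · refine Integrable.const_mul ?_ _
        exact integrable_finsetSum _ fun i _ => l2_int_sq ((T1_memLp hT 2).2 i)
      · filter_upwards [hHo] with y hy
        have hs0 : 0 ≤ ∑ i, pd (Hs n) i U y ^ 2 := Finset.sum_nonneg fun i _ => sq_nonneg _
        by_cases hyd : y ∈ dom e
        · rw [indicator_of_mem hyd, norm_D g f _ hCu, ← gip_chart g he (pt_mem_source e hyd) hCu hCu,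
            co_pt e hyd, gip]
          simp only [pd_loc_ext U hyd]
          by_cases hyK : y ∈ K
          · have h2 := (hell y hyK (fun i => pd (Hs n) i U y)).2
            have h3 : ∑ i, ∑ j, (g.G e y)⁻¹ i j * (pd (Hs n) i U y * pd (Hs n) j U y) =
                ∑ i, ∑ j, (g.G e y)⁻¹ i j * pd (Hs n) i U y * pd (Hs n) j U y := by
              refine Finset.sum_congr rfl fun i _ => Finset.sum_congr rfl fun j _ => ?_
              ring
            rw [h3]
            have h4 := (hrho y hyK).2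
            have h5 := (rhoS_pos g he hyd).le
            calc _ ≤ (C0 * ∑ i, pd (Hs n) i U y ^ 2) * rhoS g e y := by
                  refine mul_le_mul_of_nonneg_right (h2.trans ?_) h5
                  exact mul_le_mul_of_nonneg_right hCC hs0
              _ ≤ (C0 * ∑ i, pd (Hs n) i U y ^ 2) * C0 :=
                  mul_le_mul_of_nonneg_left (h4.trans hCC) (mul_nonneg hC0n hs0)
              _ = _ := by ring
          · simp only [pd_zero_supp hK hU.supp (Ho_subset_Hs hy) hyK]
            simp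
        · rw [indicator_of_notMem hyd]
          exact mul_nonneg (mul_nonneg hC0n hC0n) hs0
    have h2 : ∫ y in Ho n, C0 * C0 * ∑ i, pd (Hs n) i U y ^ 2 = C0 * C0 * ∑ i, sq (pd (Hs n) i U) := by
      rw [integral_const_mul, integral_finsetSum _ fun i _ => l2_int_sq ((T1_memLp hT 2).2 i)]
      rfl
    rw [h2] at h1
    refine h1.trans ?_
    have h3 : ∑ i, sq (pd (Hs n) i U) ≤ H1n U := le_add_of_nonneg_left (hsq0 _)
    nlinarith [mul_nonneg (mul_nonneg hC0n hC0n) (sub_nonneg.2 h3), mul_nonneg hC0n hH]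
  · rw [int_bvol_chart g he _ hsupp]
    have h1 : ∫ z, (bdom e).indicator (fun z => (ext e U (pt e (bd z))) ^ 2 * rhoB g e z) z
        ≤ ∫ z : V n, C0 * U (bd z) ^ 2 := by
      refine integral_mono_of_nonneg ?_ ?_ ?_
      · filter_upwards with z
        refine indicator_nonneg (fun z hz => ?_) z
        exact mul_nonneg (sq_nonneg _) (rhoB_pos g he hz).le
      · exact (l2_int_sq (T1_bdry hT 2)).const_mul C0
      · filter_upwards with z
        by_cases hyd : z ∈ bdom e
        · rw [indicator_of_mem hyd, ext_pt hyd]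
          by_cases hyK : bd z ∈ K
          · have h2 := (hB z hyK).2.1
            nlinarith [sq_nonneg (U (bd z))]
          · rw [hUK _ (bd_mem_Hs z) hyK]
            simp
        · rw [indicator_of_notMem hyd]
          positivity
    rw [integral_const_mul] at h1
    refine h1.trans ?_
    have h3 := trace_le_H1n hT
    nlinarith [mul_nonneg hC0n (sub_nonneg.2 h3), mul_nonneg (mul_nonneg hC0n hC0n) hH]

end

end Pool.Agent.CY.S4
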