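import Pool.Agent.CY.S4.G9
import Pool.Agent.CY.S4.G3a

/-!
# CY-S4-G10a: gluing: smoothness, bounds, convergence in `H^1(X)`

`glue f U p = ∑_i ext (f.e i) (U i) p`.  `K_i = co (f.e i) '' tsupport (f.η i)` is compact and contained in `dom (f.e i)`.
* smooth: `ext_contMDiff` and a finite sum.
* bounds: at `p`, the `i`-th term lies between `c η_i(p)²` and `C η_i(p)²` (`p ∉ source`: both sides are `0`, `Frame.η_zero`),
  `∑ η_i² = 1`.
* `glue_sub`: `u p = ∑_i ext (f.e i) (indicator (η_i² u)) p` for every `u : X → ℝ`.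
* `glue_tendH`: `glue f (U · k) - u k = ∑_i ext (f.e i) (U i k - indicator (η_i² u_k))`, `op_L2` (the arguments are `SU1`),
  `Frame.D_add`, so the differences tend to zero in `L²(vol)`, `L²(bvol)` and their gradients in `L²(vol)`; add `hT`.
-/

set_option autoImplicit false

open scoped Manifold ContDiff ENNReal
open MeasureTheory Set Filter Topology

namespace Pool.Agent.CY.S4

noncomputable section

set_option linter.unusedSectionVars false

variable {n : ℕ} {X : Type} [TopologicalSpace X] [ChartedSpace (EuclideanHalfSpace (n + 1)) X]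
  [IsManifold (𝓡∂ (n + 1)) ∞ X] [CompactSpace X] [T2Space X] [MeasurableSpace X] [BorelSpace X]
  {g : Metric n X} {e : OpenPartialHomeomorph X (EuclideanHalfSpace (n + 1))}

/-- Gluing of functions in the charts of the frame. -/
def glue (f : Frame g) (U : Fin f.N → V (n + 1) → ℝ) (p : X) : ℝ := ∑ i, ext (f.e i) (U i) p

theorem K_compact (f : Frame g) (i : Fin f.N) :
    IsCompact (co (f.e i) '' tsupport (f.η i)) ∧ co (f.e i) '' tsupport (f.η i) ⊆ dom (f.e i) := by
  constructor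
  · have h1 : IsCompact (tsupport (f.η i)) := (isClosed_tsupport _).isCompact
    exact h1.image_of_continuousOn ((continuousOn_co _).mono (f.η_supp i))
  · rintro _ ⟨p, hp, rfl⟩
    exact co_mem_dom _ (f.η_supp i hp)

theorem g10_sum_smooth {N : ℕ} {k : ℕ∞} {v : Fin N → X → ℝ} (s : Finset (Fin N))
    (h : ∀ i, ContMDiff (𝓡∂ (n + 1)) 𝓘(ℝ) k (v i)) :
    ContMDiff (𝓡∂ (n + 1)) 𝓘(ℝ) k (fun p => ∑ i ∈ s, v i p) := by
  classical
  induction s using Finset.induction_on with
  | empty => simpa using contMDiff_const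
  | insert a s ha ih =>
    simp only [Finset.sum_insert ha]
    exact (h a).add ih

theorem glue_smooth (f : Frame g) {U : Fin f.N → V (n + 1) → ℝ}
    (hU : ∀ i, SU (co (f.e i) '' tsupport (f.η i)) (U i)) :
    ContMDiff (𝓡∂ (n + 1)) 𝓘(ℝ) ∞ (glue f U) := by
  refine g10_sum_smooth (k := ⊤) Finset.univ fun i => ?_
  exact ext_contMDiff (f.e_mem i) (hU i).smooth (K_compact f i).1 (K_compact f i).2 (hU i).supp

theorem glue_bounds (f : Frame g) {U : Fin f.N → V (n + 1) → ℝ} {c C : ℝ}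
    (hb : ∀ i, ∀ y ∈ dom (f.e i), c * f.η i (pt (f.e i) y) ^ 2 ≤ U i y ∧ U i y ≤ C * f.η i (pt (f.e i) y) ^ 2)
    (p : X) : c ≤ glue f U p ∧ glue f U p ≤ C := by
  have h1 : ∀ i, c * f.η i p ^ 2 ≤ ext (f.e i) (U i) p ∧ ext (f.e i) (U i) p ≤ C * f.η i p ^ 2 := by
    intro i
    by_cases hp : p ∈ (f.e i).source
    · have h2 := hb i (co (f.e i) p) (co_mem_dom _ hp)
      rw [pt_co _ hp] at h2
      rw [ext_co hp]
      exact h2
    · rw [ext_not hp, f.η_zero hp]
      simp
  have h3 := f.η_sum p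
  constructor
  · calc c = ∑ i, c * f.η i p ^ 2 := by rw [← Finset.mul_sum, h3, mul_one]
      _ ≤ _ := Finset.sum_le_sum fun i _ => (h1 i).1
  · calc glue f U p ≤ ∑ i, C * f.η i p ^ 2 := Finset.sum_le_sum fun i _ => (h1 i).2
      _ = C := by rw [← Finset.mul_sum, h3, mul_one]

theorem g10_ext_self (f : Frame g) (u : X → ℝ) (i : Fin f.N) (p : X) :
    ext (f.e i) ((dom (f.e i)).indicator fun y => f.η i (pt (f.e i) y) ^ 2 * u (pt (f.e i) y)) p =
      f.η i p ^ 2 * u p := by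
  by_cases hp : p ∈ (f.e i).source
  · rw [ext_co hp, indicator_of_mem (co_mem_dom _ hp), pt_co _ hp]
  · rw [ext_not hp, f.η_zero hp]
    simp

theorem glue_self (f : Frame g) (u : X → ℝ) (p : X) :
    glue f (fun i => (dom (f.e i)).indicator fun y => f.η i (pt (f.e i) y) ^ 2 * u (pt (f.e i) y)) p = u p := by
  unfold glue
  simp only [g10_ext_self]
  rw [← Finset.sum_mul, f.η_sum, one_mul]

theorem g10_add {α E : Type} [MeasurableSpace α] [NormedAddCommGroup E] {μ : Measure α}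
    {a b : ℕ → α → E} {w : α → E} (ha : ∀ k, MemLp (a k) 2 μ) (hb : ∀ k, MemLp (b k) 2 μ) (hw : MemLp w 2 μ)
    (h1 : Tendsto (fun k => ∫ x, ‖a k x - w x‖ ^ 2 ∂μ) atTop (𝓝 0))
    (h2 : Tendsto (fun k => ∫ x, ‖b k x‖ ^ 2 ∂μ) atTop (𝓝 0)) :
    Tendsto (fun k => ∫ x, ‖a k x + b k x - w x‖ ^ 2 ∂μ) atTop (𝓝 0) := by
  have h3 : Tendsto (fun k => 2 * ∫ x, ‖a k x - w x‖ ^ 2 ∂μ + 2 * ∫ x, ‖b k x‖ ^ 2 ∂μ) atTop (𝓝 0) := by
    simpa using (h1.const_mul 2).add (h2.const_mul 2)
  refine squeeze_zero (fun k => integral_nonneg fun x => sq_nonneg _) (fun k => ?_) h3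
  have i1 : Integrable (fun x => ‖a k x - w x‖ ^ 2) μ := ((ha k).sub hw).integrable_norm_pow two_ne_zero
  have i2 : Integrable (fun x => ‖b k x‖ ^ 2) μ := (hb k).integrable_norm_pow two_ne_zero
  have i3 : Integrable (fun x => ‖a k x + b k x - w x‖ ^ 2) μ :=
    (((ha k).add (hb k)).sub hw).integrable_norm_pow two_ne_zero
  rw [← integral_const_mul, ← integral_const_mul, ← integral_add (i1.const_mul 2) (i2.const_mul 2)]
  refine integral_mono i3 ((i1.const_mul 2).add (i2.const_mul 2)) fun x => ?_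
  have h4 : ‖a k x + b k x - w x‖ ≤ ‖a k x - w x‖ + ‖b k x‖ := by
    have : a k x + b k x - w x = (a k x - w x) + b k x := by abel
    rw [this]
    exact norm_add_le _ _
  have h5 : 0 ≤ ‖a k x + b k x - w x‖ := norm_nonneg _
  change ‖a k x + b k x - w x‖ ^ 2 ≤ 2 * ‖a k x - w x‖ ^ 2 + 2 * ‖b k x‖ ^ 2
  nlinarith [sq_nonneg (‖a k x - w x‖ - ‖b k x‖)]

theorem g10_sum {α E : Type} [MeasurableSpace α] [NormedAddCommGroup E] {μ : Measure α} {N : ℕ}
    {b : Fin N → ℕ → α → E} (s : Finset (Fin N)) (hb : ∀ i k, MemLp (b i k) 2 μ)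
    (h2 : ∀ i, Tendsto (fun k => ∫ x, ‖b i k x‖ ^ 2 ∂μ) atTop (𝓝 0)) :
    (∀ k, MemLp (fun x => ∑ i ∈ s, b i k x) 2 μ) ∧
      Tendsto (fun k => ∫ x, ‖∑ i ∈ s, b i k x‖ ^ 2 ∂μ) atTop (𝓝 0) := by
  classical
  induction s using Finset.induction_on with
  | empty => simp
  | insert a s ha ih =>
    simp only [Finset.sum_insert ha]
    refine ⟨fun k => (hb a k).add (ih.1 k), ?_⟩
    have h3 := g10_add (w := fun _ => (0 : E)) (hb a) ih.1 (by simp) (by simpa using h2 a) ih.2
    simpa using h3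

theorem g10_memLp {E : Type} [NormedAddCommGroup E] [SecondCountableTopology E] (μ : Measure X)
    (hμ : μ univ < ⊤) {u : X → E} (hu : Continuous u) : MemLp u 2 μ := by
  have hf : IsFiniteMeasure μ := ⟨hμ⟩
  obtain ⟨C, hC⟩ := isCompact_univ.exists_bound_of_continuousOn (f := u) hu.continuousOn
  have h1 : AEStronglyMeasurable u μ := by
    borelize E
    exact hu.measurable.aestronglyMeasurable
  exact MemLp.of_bound h1 C (Eventually.of_forall fun x => hC x (mem_univ x))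

theorem g10_D_sum (f : Frame g) {N : ℕ} {v : Fin N → X → ℝ} (s : Finset (Fin N)) (h : ∀ i, v i ∈ C1 n X) :
    f.D (fun p => ∑ i ∈ s, v i p) = fun p => ∑ i ∈ s, f.D (v i) p := by
  classical
  induction s using Finset.induction_on with
  | empty =>
    simp only [Finset.sum_empty]
    rw [f.D_const]; rfl
  | insert a s ha ih =>
    simp only [Finset.sum_insert ha]
    have h1 : (fun p => ∑ i ∈ s, v i p) ∈ C1 n X := g10_sum_smooth (k := 1) s h
    rw [f.D_add (h a) h1, ih]
    rfl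

theorem g10_SU1 (f : Frame g) (i : Fin f.N) {U : V (n + 1) → ℝ}
    (hU : SU (co (f.e i) '' tsupport (f.η i)) U) {u : X → ℝ} (hu : u ∈ C1 n X) :
    SU1 (co (f.e i) '' tsupport (f.η i)) (fun y => U y -
      (dom (f.e i)).indicator (fun y => f.η i (pt (f.e i) y) ^ 2 * u (pt (f.e i) y)) y) := by
  have hz : ∀ x, x ∉ co (f.e i) '' tsupport (f.η i) →
      (dom (f.e i)).indicator (fun y => f.η i (pt (f.e i) y) ^ 2 * u (pt (f.e i) y)) x = 0 := by
    intro x hx
    by_cases hd : x ∈ dom (f.e i)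
    · rw [indicator_of_mem hd]
      have h1 : pt (f.e i) x ∉ tsupport (f.η i) := by
        intro h
        exact hx ⟨_, h, co_pt _ hd⟩
      rw [image_eq_zero_of_notMem_tsupport h1]
      simp
    · exact indicator_of_notMem hd _
  have h1 : ContDiffOn ℝ 1 ((dom (f.e i)).indicator
      (fun y => f.η i (pt (f.e i) y) ^ 2 * u (pt (f.e i) y))) (Hs n) := by
    refine contDiffOn_of_supp ?_ (K_compact f i).1 (K_compact f i).2 (fun x _ hx => hz x hx)
    have h2 := contDiffOn_loc1 (f.e_mem i) (C1.of_smooth (f.η_smooth i))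
    have h3 := contDiffOn_loc1 (f.e_mem i) hu
    refine ((h2.pow 2).mul h3).congr fun y hy => ?_
    rw [indicator_of_mem hy]
    rfl
  have h4 : HasCompactSupport ((dom (f.e i)).indicator
      (fun y => f.η i (pt (f.e i) y) ^ 2 * u (pt (f.e i) y))) :=
    HasCompactSupport.intro (K_compact f i).1 hz
  refine ⟨?_, ?_, ?_⟩
  · exact (hU.smooth.of_le (by exact_mod_cast le_top)).sub h1
  · exact hU.cpt.sub h4
  · intro x hx hxK
    change U x - _ = 0
    rw [hU.supp x hx hxK, hz x hxK, sub_zero]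

theorem glue_tendH (f : Frame g) {w : X → ℝ} {ζ : X → f.F} {τ : X → ℝ}
    (hwm : MemLp w 2 (vol g)) (hζ : MemLp ζ 2 (vol g)) (hτm : MemLp τ 2 (bvol g))
    {u : ℕ → X → ℝ} (hu : ∀ k, u k ∈ C1 n X) (hT : TendH (vol g) (bvol g) f.D u w ζ τ)
    {U : Fin f.N → ℕ → V (n + 1) → ℝ} (hU : ∀ i k, SU (co (f.e i) '' tsupport (f.η i)) (U i k))
    (hUt : ∀ i, Tendsto (fun k => H1n (fun y => U i k y -
      (dom (f.e i)).indicator (fun y => f.η i (pt (f.e i) y) ^ 2 * u k (pt (f.e i) y)) y)) atTop (𝓝 0)) :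
    TendH (vol g) (bvol g) f.D (fun k => glue f (fun i => U i k)) w ζ τ := by
  -- the differences
  let W : Fin f.N → ℕ → V (n + 1) → ℝ := fun i k y => U i k y -
      (dom (f.e i)).indicator (fun y => f.η i (pt (f.e i) y) ^ 2 * u k (pt (f.e i) y)) y
  have hW : ∀ i k, SU1 (co (f.e i) '' tsupport (f.η i)) (W i k) := fun i k => g10_SU1 f i (hU i k) (hu k)
  have hWt : ∀ i, Tendsto (fun k => H1n (W i k)) atTop (𝓝 0) := hUt
  let E : Fin f.N → ℕ → X → ℝ := fun i k => ext (f.e i) (W i k)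
  have hE : ∀ i k, E i k ∈ C1 n X := by
    intro i k
    exact ext_contMDiff (k := 1) (f.e_mem i) (by exact_mod_cast (hW i k).smooth) (K_compact f i).1
      (K_compact f i).2 (hW i k).supp
  have hglue : ∀ k p, glue f (fun i => U i k) p = u k p + ∑ i, E i k p := by
    intro k p
    have h1 : ∑ i, E i k p = glue f (fun i => U i k) p - u k p := by
      have h2 : ∀ i, E i k p = ext (f.e i) (U i k) p - f.η i p ^ 2 * u k p := by
        intro i
        change ext (f.e i) (fun y => U i k y - _) p = _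
        rw [ext_sub]
        congr 1
        exact g10_ext_self f (u k) i p
      simp only [h2, Finset.sum_sub_distrib]
      rw [← Finset.sum_mul, f.η_sum, one_mul]
      rfl
    rw [h1]; ring
  have hES : ∀ k, (fun p => ∑ i, E i k p) ∈ C1 n X := fun k => g10_sum_smooth (k := 1) _ (fun i => hE i k)
  have hop : ∀ i, ∃ C : ℝ, 0 ≤ C ∧ ∀ k, ∫ p, (E i k p) ^ 2 ∂(vol g) ≤ C * H1n (W i k) ∧
      ∫ p, ‖f.D (E i k) p‖ ^ 2 ∂(vol g) ≤ C * H1n (W i k) ∧
      ∫ p, (E i k p) ^ 2 ∂(bvol g) ≤ C * H1n (W i k) := by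
    intro i
    obtain ⟨C, hC, h⟩ := op_L2 (f.e_mem i) g f (K_compact f i).1 (K_compact f i).2
    exact ⟨C, hC, fun k => h _ (hW i k)⟩
  have hsq : ∀ i (I : ℕ → ℝ) (C : ℝ), (∀ k, 0 ≤ I k) → (∀ k, I k ≤ C * H1n (W i k)) → Tendsto I atTop (𝓝 0) := by
    intro i I C h0 h1
    refine squeeze_zero h0 h1 ?_
    simpa using (hWt i).const_mul C
  have hv := vol_lt_top g
  have hb := bvol_lt_top g
  have e1 : ∀ i, Tendsto (fun k => ∫ p, ‖E i k p‖ ^ 2 ∂(vol g)) atTop (𝓝 0) := by
    intro i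
    obtain ⟨C, hC, h⟩ := hop i
    refine hsq i _ C (fun k => integral_nonneg fun x => sq_nonneg _) fun k => ?_
    simpa only [Real.norm_eq_abs, sq_abs] using (h k).1
  have e2 : ∀ i, Tendsto (fun k => ∫ p, ‖f.D (E i k) p‖ ^ 2 ∂(vol g)) atTop (𝓝 0) := by
    intro i
    obtain ⟨C, hC, h⟩ := hop i
    exact hsq i _ C (fun k => integral_nonneg fun x => sq_nonneg _) fun k => (h k).2.1
  have e3 : ∀ i, Tendsto (fun k => ∫ p, ‖E i k p‖ ^ 2 ∂(bvol g)) atTop (𝓝 0) := by
    intro i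
    obtain ⟨C, hC, h⟩ := hop i
    refine hsq i _ C (fun k => integral_nonneg fun x => sq_nonneg _) fun k => ?_
    simpa only [Real.norm_eq_abs, sq_abs] using (h k).2.2
  have m1 : ∀ i k, MemLp (E i k) 2 (vol g) := fun i k => g10_memLp _ hv (C1.continuous (hE i k))
  have m2 : ∀ i k, MemLp (f.D (E i k)) 2 (vol g) := fun i k => g10_memLp _ hv (f.continuous_D (hE i k))
  have m3 : ∀ i k, MemLp (E i k) 2 (bvol g) := fun i k => g10_memLp _ hb (C1.continuous (hE i k))
  obtain ⟨s1, t1⟩ := g10_sum Finset.univ m1 e1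
  obtain ⟨s2, t2⟩ := g10_sum Finset.univ m2 e2
  obtain ⟨s3, t3⟩ := g10_sum Finset.univ m3 e3
  obtain ⟨hT1, hT2, hT3⟩ := hT
  refine ⟨?_, ?_, ?_⟩
  · have h := g10_add (a := u) (fun k => g10_memLp _ hv (C1.continuous (hu k))) s1 hwm
      (by simpa only [Real.norm_eq_abs, sq_abs] using hT1) t1
    refine h.congr fun k => integral_congr_ae (Eventually.of_forall fun p => ?_)
    simp only [Real.norm_eq_abs, sq_abs, hglue]
  · have h := g10_add (a := fun k => f.D (u k)) (fun k => g10_memLp _ hv (f.continuous_D (hu k))) s2 hζ hT2 t2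
    refine h.congr fun k => integral_congr_ae (Eventually.of_forall fun p => ?_)
    have h1 : f.D (glue f (fun i => U i k)) = f.D (u k) + f.D (fun p => ∑ i, E i k p) := by
      rw [← f.D_add (hu k) (hES k)]
      congr 1
      funext p
      exact hglue k p
    have h2 := g10_D_sum f Finset.univ (fun i => hE i k)
    simp only [h1, h2, Pi.add_apply]
  · have h := g10_add (a := u) (fun k => g10_memLp _ hb (C1.continuous (hu k))) s3 hτm
      (by simpa only [Real.norm_eq_abs, sq_abs] using hT3) t3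
    refine h.congr fun k => integral_congr_ae (Eventually.of_forall fun p => ?_)
    simp only [Real.norm_eq_abs, sq_abs, hglue]

end

end Pool.Agent.CY.S4
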