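import Pool.Agent.CY.S4.L0
import Pool.Agent.CY.S4.L2

/-!
# CY-S4-L3b: gradient interpolation

`gn`: `div_half` for `ψ (∂_i ψ)³ ∈ T1`: `∂_i (ψ (∂_i ψ)³) = (∂_i ψ)⁴ + 3 ψ (∂_i ψ)² ∂_i ∂_i ψ`.  For `i ≥ 1`:
`∫ (∂_i ψ)⁴ ≤ 3 M ∫ (∂_i ψ)² |∂_i∂_i ψ|`.  For `i = 0` the boundary term is at most `M ∫ |∂_0 ψ (0, z)|³ dz`, and
`div_half` for `|∂_0 ψ|³` (`s ↦ |s|³` is `C^1`, derivative `3 s |s|`) bounds it by `3 M ∫ (∂_0 ψ)² |∂_0 ∂_0 ψ|`.
So `I = ∫ (∂_i ψ)⁴ ≤ 6 M I^{1/2} (∫ (∂_i ∂_i ψ)²)^{1/2}`, hence `I ≤ 36 M² ∫ (∂_i∂_i ψ)²`.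
-/

set_option autoImplicit false

open scoped Manifold ContDiff ENNReal
open MeasureTheory Set Filter Topology

namespace Pool.Agent.CY.S4

noncomputable section

variable {n : ℕ}


private theorem cube_deriv (s : ℝ) : HasDerivAt (fun s : ℝ => |s| ^ 3) (3 * |s| * s) s := by
  have h := hasDerivAt_abs_rpow s (p := 3) (by norm_num)
  have h1 : (fun x : ℝ => |x| ^ (3 : ℝ)) = fun x : ℝ => |x| ^ 3 := by
    funext x
    exact_mod_cast Real.rpow_natCast |x| 3
  have h2 : |s| ^ ((3 : ℝ) - 2) = |s| := by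
    rw [show ((3 : ℝ) - 2) = 1 by norm_num, Real.rpow_one]
  rw [h1, h2] at h
  exact h

private theorem cube_contDiff : ContDiff ℝ 1 (fun s : ℝ => |s| ^ 3) := by
  rw [contDiff_one_iff_deriv]
  refine ⟨fun s => (cube_deriv s).differentiableAt, ?_⟩
  have : deriv (fun s : ℝ => |s| ^ 3) = fun s => 3 * |s| * s := by
    funext s
    exact (cube_deriv s).deriv
  rw [this]
  fun_prop

theorem gn {ψ : V (n + 1) → ℝ} (hψ : ψ ∈ T2 n) {M : ℝ} (hM : ∀ x ∈ Hs n, |ψ x| ≤ M) (i : Fin (n + 1)) :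
    ∫ x, pd (Hs n) i ψ x ^ 4 ∂(nu n) ≤ 36 * M ^ 2 * sq (pd (Hs n) i (pd (Hs n) i ψ)) := by
  set P : V (n + 1) → ℝ := pd (Hs n) i ψ with hPdef
  set Q : V (n + 1) → ℝ := pd (Hs n) i P with hQdef
  have hψ1 : ψ ∈ T1 n := T2_sub hψ
  have hP : P ∈ T1 n := T2_pd hψ i
  have hQ : ∀ p : ℝ≥0∞, MemLp Q p (nu n) := fun p => (T1_memLp hP p).2 i
  have hM0 : 0 ≤ M := (abs_nonneg _).trans (hM (bd 0) (bd_mem 0))
  have hP2 : (fun x => P x ^ 2) ∈ T1 n := T1_comp (F := fun s => s ^ 2) (by fun_prop) (by norm_num) hP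
  have hP3 : (fun x => P x ^ 3) ∈ T1 n := T1_comp (F := fun s => s ^ 3) (by fun_prop) (by norm_num) hP
  have hP4 : (fun x => P x ^ 4) ∈ T1 n := T1_comp (F := fun s => s ^ 4) (by fun_prop) (by norm_num) hP
  have hC : (fun x => |P x| ^ 3) ∈ T1 n := T1_comp (F := fun s => |s| ^ 3) cube_contDiff (by norm_num) hP
  have hψP3 : (fun x => ψ x * P x ^ 3) ∈ T1 n := T1_mul hψ1.1 hP3
  have hψP2 : (fun x => ψ x * P x ^ 2) ∈ T1 n := T1_mul hψ1.1 hP2
  have hQa : MemLp (fun x => |Q x|) 2 (nu n) := (hQ 2).norm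
  have iB : Integrable (fun x => P x ^ 2 * |Q x|) (nu n) := l2_int_mul (T1_memLp hP2 2).1 hQa
  have i4 : Integrable (fun x => P x ^ 4) (nu n) := memLp_one_iff_integrable.1 (T1_memLp hP4 1).1
  have iψ : Integrable (fun x => (ψ x * P x ^ 2) * Q x) (nu n) :=
    l2_int_mul (T1_memLp hψP2 2).1 (hQ 2)
  set B : ℝ := ∫ x, P x ^ 2 * |Q x| ∂(nu n) with hB
  set I : ℝ := ∫ x, P x ^ 4 ∂(nu n) with hI
  have hB0 : 0 ≤ B := integral_nonneg fun x => by positivity
  have hI0 : 0 ≤ I := integral_nonneg fun x => by positivity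
  have hmem : ∀ᵐ x ∂(nu n), x ∈ Hs n := by
    filter_upwards [ae_restrict_mem Ho_open.measurableSet] with x hx
    exact Ho_sub_Hs hx
  -- the derivatives
  have d1 : ∀ x ∈ Hs n, pd (Hs n) i (fun x => ψ x * P x ^ 3) x = 3 * ((ψ x * P x ^ 2) * Q x) + P x ^ 4 := by
    intro x hx
    rw [pd_mul (T1_diff hψ1 hx) (T1_diff hP3 hx) hx i]
    rw [pd_comp (F := fun s => s ^ 3) (by fun_prop) (T1_diff hP hx) hx i]
    have : deriv (fun s : ℝ => s ^ 3) (P x) = 3 * P x ^ 2 := by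
      simp
    rw [this]
    change ψ x * (3 * P x ^ 2 * Q x) + P x * P x ^ 3 = _
    ring
  have d2 : ∀ x ∈ Hs n, pd (Hs n) i (fun x => |P x| ^ 3) x = 3 * |P x| * P x * Q x := by
    intro x hx
    rw [pd_comp (F := fun s => |s| ^ 3) (cube_deriv _).differentiableAt (T1_diff hP hx) hx i,
      (cube_deriv _).deriv]
  have e1 : ∫ x, pd (Hs n) i (fun x => ψ x * P x ^ 3) x ∂(nu n) =
      3 * ∫ x, (ψ x * P x ^ 2) * Q x ∂(nu n) + I := by
    rw [← integral_const_mul, hI, ← integral_add (iψ.const_mul 3) i4]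
    refine integral_congr_ae ?_
    filter_upwards [hmem] with x hx
    exact d1 x hx
  have b1 : |∫ x, (ψ x * P x ^ 2) * Q x ∂(nu n)| ≤ M * B := by
    rw [hB, ← integral_const_mul]
    refine (abs_integral_le_integral_abs).trans ?_
    refine integral_mono_ae iψ.abs (iB.const_mul M) ?_
    filter_upwards [hmem] with x hx
    change |(ψ x * P x ^ 2) * Q x| ≤ M * (P x ^ 2 * |Q x|)
    rw [abs_mul, abs_mul, abs_of_nonneg (sq_nonneg (P x)), mul_assoc]
    exact mul_le_mul_of_nonneg_right (hM x hx) (by positivity)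
  have b2 : |∫ x, pd (Hs n) i (fun x => ψ x * P x ^ 3) x ∂(nu n)| ≤ 3 * M * B := by
    rcases Fin.eq_zero_or_eq_succ i with h0 | ⟨a, ha⟩
    · have hbd : ∫ x, pd (Hs n) i (fun x => ψ x * P x ^ 3) x ∂(nu n) =
          -∫ z : V n, ψ (bd z) * P (bd z) ^ 3 := by
        rw [h0]
        rw [h0] at hPdef
        exact (div_half hψP3).1
      have hbd2 : ∫ x, pd (Hs n) i (fun x => |P x| ^ 3) x ∂(nu n) = -∫ z : V n, |P (bd z)| ^ 3 := by
        rw [h0]
        exact (div_half hC).1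
      have j1 : Integrable (fun z : V n => ψ (bd z) * P (bd z) ^ 3) :=
        memLp_one_iff_integrable.1 (T1_bdry hψP3 1)
      have j2 : Integrable (fun z : V n => |P (bd z)| ^ 3) :=
        memLp_one_iff_integrable.1 (T1_bdry hC 1)
      have c1 : |∫ z : V n, ψ (bd z) * P (bd z) ^ 3| ≤ M * ∫ z : V n, |P (bd z)| ^ 3 := by
        rw [← integral_const_mul]
        refine (abs_integral_le_integral_abs).trans ?_
        refine integral_mono j1.abs (j2.const_mul M) ?_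
        intro z
        change |ψ (bd z) * P (bd z) ^ 3| ≤ M * |P (bd z)| ^ 3
        rw [abs_mul, abs_pow]
        exact mul_le_mul_of_nonneg_right (hM _ (bd_mem z)) (by positivity)
      have c2 : ∫ z : V n, |P (bd z)| ^ 3 ≤ 3 * B := by
        have : ∫ z : V n, |P (bd z)| ^ 3 = -∫ x, pd (Hs n) i (fun x => |P x| ^ 3) x ∂(nu n) := by
          rw [hbd2, neg_neg]
        rw [this, ← integral_neg, hB, ← integral_const_mul]
        refine integral_mono_ae ?_ (iB.const_mul 3) ?_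
        · exact (memLp_one_iff_integrable.1 ((T1_memLp hC 1).2 i)).neg
        · filter_upwards [hmem] with x hx
          change -pd (Hs n) i (fun x => |P x| ^ 3) x ≤ 3 * (P x ^ 2 * |Q x|)
          rw [d2 x hx]
          have h5 : |3 * |P x| * P x * Q x| = 3 * (P x ^ 2 * |Q x|) := by
            rw [abs_mul, abs_mul, abs_mul, abs_abs, abs_of_pos (by norm_num : (0 : ℝ) < 3)]
            rw [← sq_abs (P x)]
            ring
          rw [← h5]
          exact neg_le_abs _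
      rw [hbd, abs_neg]
      refine c1.trans ?_
      calc M * ∫ z : V n, |P (bd z)| ^ 3 ≤ M * (3 * B) := mul_le_mul_of_nonneg_left c2 hM0
        _ = 3 * M * B := by ring
    · have : ∫ x, pd (Hs n) i (fun x => ψ x * P x ^ 3) x ∂(nu n) = 0 := by
        rw [ha]
        have := (div_half hψP3).2 a
        exact this
      rw [this, abs_zero]
      positivity
  have b3 : I ≤ 6 * M * B := by
    have h1 := abs_le.1 b1
    have h2 := abs_le.1 b2
    rw [e1] at h2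
    linarith [h1.1, h1.2, h2.1, h2.2]
  have b4 : B ≤ Real.sqrt I * Real.sqrt (sq Q) := by
    have h := l2_cs (T1_memLp hP2 2).1 hQa
    have h1 : ∫ x, (P x ^ 2) ^ 2 ∂(nu n) = I := by
      rw [hI]
      refine integral_congr_ae (Eventually.of_forall fun x => ?_)
      change (P x ^ 2) ^ 2 = P x ^ 4
      ring
    have h2 : ∫ x, |Q x| ^ 2 ∂(nu n) = sq Q := by
      unfold sq
      refine integral_congr_ae (Eventually.of_forall fun x => ?_)
      change |Q x| ^ 2 = Q x ^ 2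
      exact sq_abs _
    rw [h1, h2] at h
    exact (le_abs_self _).trans h
  have hJ0 : 0 ≤ sq Q := integral_nonneg fun x => sq_nonneg _
  rcases eq_or_lt_of_le hI0 with h | h
  · rw [← h]
    positivity
  · have h1 : 0 < Real.sqrt I := Real.sqrt_pos.2 h
    have h2 : Real.sqrt I * Real.sqrt I ≤ Real.sqrt I * (6 * M * Real.sqrt (sq Q)) := by
      rw [Real.mul_self_sqrt hI0]
      calc I ≤ 6 * M * B := b3
        _ ≤ 6 * M * (Real.sqrt I * Real.sqrt (sq Q)) := mul_le_mul_of_nonneg_left b4 (by positivity)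
        _ = _ := by ring
    have h3 : Real.sqrt I ≤ 6 * M * Real.sqrt (sq Q) := le_of_mul_le_mul_left h2 h1
    calc I = Real.sqrt I ^ 2 := (Real.sq_sqrt hI0).symm
      _ ≤ (6 * M * Real.sqrt (sq Q)) ^ 2 := pow_le_pow_left₀ h1.le h3 2
      _ = 36 * M ^ 2 * Real.sqrt (sq Q) ^ 2 := by ring
      _ = 36 * M ^ 2 * sq Q := by rw [Real.sq_sqrt hJ0]

end

end Pool.Agent.CY.S4
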