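import Pool.Agent.CY.S3.IntChart
import Pool.Agent.CY.S3.NormD
import Pool.Agent.CY.S4.G2
import Pool.Agent.CY.S4.Iface
import Pool.Agent.CY.S4.L3b

/-!
# CY-S4-G3b: bounds for functions supported in a chart (interior, second order)

`u = ext e U` is smooth (`ext_contMDiff`).  `Lop g u` vanishes outside `e.source` (there `u = 0` near `p`; use
`lap_eq` with the chart `ch p`, whose coordinate expression vanishes near `co (ch p) p`; more precisely outside the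
closed set `pt e '' K`), and on `e.source`:
`Lop g u p = -cn (∑ g^{ij} (∂_i∂_j U - Γ^k_ij ∂_k U)) + scal U` at `co e p` (`lap_eq`, `scal_eq`, `pd_loc_ext`,
`pd2_loc_ext`), bounded by `C (|U| + ∑ |∂_i U| + ∑ |∂_i∂_j U|)` on `K` and zero off `K` (the derivatives of `U` vanish on
`Hs n \ K`, `K` closed).  `int_vol_chart` for its square.  `(gipX u u)² ≤ C (∑ (∂_i U)²)² ≤ C' ∑ (∂_i U)⁴`, then `gn`
(`U ∈ T2 n`).
-/

set_option autoImplicit false

open scoped Manifold ContDiff ENNReal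
open MeasureTheory Set Filter Topology

namespace Pool.Agent.CY.S4

noncomputable section

set_option linter.unusedSectionVars false

variable {n : ℕ} {X : Type} [TopologicalSpace X] [ChartedSpace (EuclideanHalfSpace (n + 1)) X]
  [IsManifold (𝓡∂ (n + 1)) ∞ X] [CompactSpace X] [T2Space X] [MeasurableSpace X] [BorelSpace X]
  {g : Metric n X} {e : OpenPartialHomeomorph X (EuclideanHalfSpace (n + 1))}

/-- Off the compact set the extension vanishes near the point. -/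
private theorem ext_zero_near {K : Set (V (n + 1))} (hK : IsCompact K) (hKd : K ⊆ dom e)
    {U : V (n + 1) → ℝ} (hs : Supp U K) {p : X} (hp : p ∉ pt e '' K) :
    ∀ᶠ q in 𝓝 p, ext e U q = 0 := by
  have hc : IsClosed (pt e '' K) := (hK.image_of_continuousOn ((continuousOn_pt e).mono hKd)).isClosed
  filter_upwards [hc.isOpen_compl.mem_nhds hp] with q hq
  by_cases hqe : q ∈ e.source
  · rw [ext_co hqe]
    refine hs _ (co_mem_Hs e q) fun hqK => hq ⟨co e q, hqK, pt_co e hqe⟩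
  · exact ext_not hqe

private theorem loc_zero_near {u : X → ℝ} {p : X} (hp : ∀ᶠ q in 𝓝 p, u q = 0) :
    ∀ᶠ y in 𝓝[Hs n] (co (ch (n := n) p) p), loc (ch (n := n) p) u y = 0 := by
  have hmem : co (ch (n := n) p) p ∈ dom (ch (n := n) p) := co_mem_dom _ (mem_chart_source _ p)
  have hcont : ContinuousWithinAt (pt (ch (n := n) p)) (dom (ch (n := n) p)) (co (ch (n := n) p) p) := continuousOn_pt _ _ hmem
  rw [(dom_chart (ch (n := n) p)).nhds_eq hmem]
  have h1 : Tendsto (pt (ch (n := n) p)) (𝓝[dom (ch (n := n) p)] (co (ch (n := n) p) p)) (𝓝 (pt (ch (n := n) p) (co (ch (n := n) p) p))) := hcont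
  rw [pt_co (ch (n := n) p) (mem_chart_source _ p)] at h1
  exact h1.eventually hp

private theorem pd_zero_near {f : V (n + 1) → ℝ} {y : V (n + 1)}
    (h : ∀ᶠ z in 𝓝[Hs n] y, f z = 0) (i : Fin (n + 1)) :
    ∀ᶠ z in 𝓝[Hs n] y, pd (Hs n) i f z = 0 := by
  have h1 := eventually_eventually_nhdsWithin.2 h
  filter_upwards [h1, self_mem_nhdsWithin] with z hz hzH
  rw [pd_congr (g := fun _ => (0 : ℝ)) hz hzH, pd_const]

private theorem Lop_zero {u : X → ℝ} {p : X} (hp : ∀ᶠ q in 𝓝 p, u q = 0) : Lop g u p = 0 := by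
  have h0 := loc_zero_near (n := n) hp
  have hH : co (ch (n := n) p) p ∈ Hs n := co_mem_Hs _ _
  have h1 : ∀ i, pd (Hs n) i (loc (ch (n := n) p) u) (co (ch (n := n) p) p) = 0 := fun i =>
    (pd_zero_near h0 i).self_of_nhdsWithin hH
  have h2 : ∀ i j, pd (Hs n) i (pd (Hs n) j (loc (ch (n := n) p) u)) (co (ch (n := n) p) p) = 0 := fun i j =>
    (pd_zero_near (pd_zero_near h0 j) i).self_of_nhdsWithin hH
  have h3 : u p = 0 := hp.self_of_nhds
  simp [Lop, lapX, lap, hess, h1, h2, h3]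

private theorem gipX_zero {u : X → ℝ} {p : X} (hp : ∀ᶠ q in 𝓝 p, u q = 0) : gipX g u u p = 0 := by
  have h0 := loc_zero_near (n := n) hp
  have hH : co (ch (n := n) p) p ∈ Hs n := co_mem_Hs _ _
  have h1 : ∀ i, pd (Hs n) i (loc (ch (n := n) p) u) (co (ch (n := n) p) p) = 0 := fun i =>
    (pd_zero_near h0 i).self_of_nhdsWithin hH
  simp [gipX, gip, h1]

/-- Estimate of an integral over `X` by an integral over the half space. -/
private theorem int_le (he : e ∈ atlas (EuclideanHalfSpace (n + 1)) X) (g : Metric n X)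
    {K : Set (V (n + 1))} (hKd : K ⊆ dom e) {C : ℝ}
    (hC : ∀ y ∈ K, rhoS g e y ≤ C) (Ψ : X → ℝ) (F : V (n + 1) → ℝ) (hΨ0 : ∀ p ∉ pt e '' K, Ψ p = 0)
    (hΨ : ∀ p, 0 ≤ Ψ p) (hF : Integrable F (nu n)) (hF0 : ∀ y, 0 ≤ F y)
    (hle : ∀ y ∈ K, Ψ (pt e y) ≤ F y) : ∫ p, Ψ p ∂(vol g) ≤ max C 0 * ∫ y, F y ∂(nu n) := by
  have hs : Function.support Ψ ⊆ e.source := by
    intro p hp
    by_contra hpe
    apply hp
    refine hΨ0 p ?_
    rintro ⟨y, hy, rfl⟩
    exact hpe (pt_mem_source e (hKd hy))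
  rw [int_vol_chart g he Ψ hs, ← integral_const_mul]
  refine integral_mono_of_nonneg (Eventually.of_forall fun y => ?_) (hF.const_mul _)
    (Eventually.of_forall fun y => ?_)
  · refine indicator_nonneg (fun y _ => mul_nonneg (hΨ _) (Real.sqrt_nonneg _)) y
  · show (dom e).indicator (fun y => Ψ (pt e y) * rhoS g e y) y ≤ max C 0 * F y
    have hr : 0 ≤ max C 0 * F y := mul_nonneg (le_max_right _ _) (hF0 y)
    by_cases hy : y ∈ dom e
    · rw [indicator_of_mem hy]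
      by_cases hyK : y ∈ K
      · rw [mul_comm]
        exact mul_le_mul ((hC y hyK).trans (le_max_left _ _)) (hle y hyK) (hΨ _) (le_max_right _ _)
      · have h0 : Ψ (pt e y) = 0 := by
          refine hΨ0 _ ?_
          rintro ⟨z, hz, hzy⟩
          apply hyK
          have h1 := congrArg (co e) hzy
          rw [co_pt e (hKd hz), co_pt e hy] at h1
          rw [← h1]; exact hz
        rw [h0, zero_mul]; exact hr
    · rw [indicator_of_notMem hy]; exact hr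

private theorem sq_sum3 (a : ℝ) (b : Fin (n + 1) → ℝ) (c : Fin (n + 1) → Fin (n + 1) → ℝ) :
    (|a| + ∑ i, |b i| + ∑ i, ∑ j, |c i j|) ^ 2 ≤
      3 * ((n : ℝ) + 1) ^ 2 * (a ^ 2 + ∑ i, b i ^ 2 + ∑ i, ∑ j, c i j ^ 2) := by
  have h1 : (∑ i, |b i|) ^ 2 ≤ ((n : ℝ) + 1) * ∑ i, b i ^ 2 := by
    have := sq_sum_le_card_mul_sum_sq (s := Finset.univ) (f := fun i => |b i|)
    simpa using this
  have h2 : (∑ i, ∑ j, |c i j|) ^ 2 ≤ ((n : ℝ) + 1) ^ 2 * ∑ i, ∑ j, c i j ^ 2 := by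
    have h3 := sq_sum_le_card_mul_sum_sq (s := Finset.univ) (f := fun i => ∑ j, |c i j|)
    have h4 : ∀ i, (∑ j, |c i j|) ^ 2 ≤ ((n : ℝ) + 1) * ∑ j, c i j ^ 2 := fun i => by
      have := sq_sum_le_card_mul_sum_sq (s := Finset.univ) (f := fun j => |c i j|)
      simpa using this
    have h5 : ∑ i, (∑ j, |c i j|) ^ 2 ≤ ∑ i, ((n : ℝ) + 1) * ∑ j, c i j ^ 2 :=
      Finset.sum_le_sum fun i _ => h4 i
    rw [← Finset.mul_sum] at h5
    have h6 : (∑ i, ∑ j, |c i j|) ^ 2 ≤ ((n : ℝ) + 1) * ∑ i, (∑ j, |c i j|) ^ 2 := by simpa using h3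
    have hn : (0 : ℝ) ≤ (n : ℝ) + 1 := by positivity
    calc _ ≤ ((n : ℝ) + 1) * ∑ i, (∑ j, |c i j|) ^ 2 := h6
      _ ≤ ((n : ℝ) + 1) * (((n : ℝ) + 1) * ∑ i, ∑ j, c i j ^ 2) := mul_le_mul_of_nonneg_left h5 hn
      _ = _ := by ring
  have hb : 0 ≤ ∑ i, b i ^ 2 := Finset.sum_nonneg fun i _ => sq_nonneg _
  have hc : 0 ≤ ∑ i, ∑ j, c i j ^ 2 := Finset.sum_nonneg fun i _ => Finset.sum_nonneg fun j _ => sq_nonneg _
  have hn : (1 : ℝ) ≤ (n : ℝ) + 1 := by
    have : (0 : ℝ) ≤ n := Nat.cast_nonneg n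
    linarith
  have hn2 : (1 : ℝ) ≤ ((n : ℝ) + 1) ^ 2 := by nlinarith
  have h7 : (|a| + ∑ i, |b i| + ∑ i, ∑ j, |c i j|) ^ 2 ≤
      3 * (|a| ^ 2 + (∑ i, |b i|) ^ 2 + (∑ i, ∑ j, |c i j|) ^ 2) := by
    nlinarith [sq_nonneg (|a| - ∑ i, |b i|), sq_nonneg (|a| - ∑ i, ∑ j, |c i j|),
      sq_nonneg ((∑ i, |b i|) - ∑ i, ∑ j, |c i j|)]
  have h8 : ((n : ℝ) + 1) * ∑ i, b i ^ 2 ≤ ((n : ℝ) + 1) ^ 2 * ∑ i, b i ^ 2 := by
    refine mul_le_mul_of_nonneg_right ?_ hb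
    nlinarith
  have h9 : |a| ^ 2 ≤ ((n : ℝ) + 1) ^ 2 * a ^ 2 := by
    rw [sq_abs]
    nlinarith [sq_nonneg a]
  nlinarith

private theorem lin_bd (k s a C : ℝ) (G : Fin (n + 1) → Fin (n + 1) → ℝ)
    (Γ : Fin (n + 1) → Fin (n + 1) → Fin (n + 1) → ℝ) (b : Fin (n + 1) → ℝ)
    (c : Fin (n + 1) → Fin (n + 1) → ℝ) (hC : 0 ≤ C) (hG : ∀ i j, |G i j| ≤ C)
    (hΓ : ∀ k i j, |Γ k i j| ≤ C) (hs : |s| ≤ C) :
    |-k * (∑ i, ∑ j, G i j * (c i j - ∑ l, Γ l i j * b l)) + s * a| ≤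
      (|k| * (C + ((n : ℝ) + 1) ^ 2 * C ^ 2) + C) * (|a| + ∑ i, |b i| + ∑ i, ∑ j, |c i j|) := by
  set B : ℝ := ∑ i, |b i| with hB
  have hB0 : 0 ≤ B := Finset.sum_nonneg fun i _ => abs_nonneg _
  set D : ℝ := ∑ i, ∑ j, |c i j| with hD
  have hD0 : 0 ≤ D := Finset.sum_nonneg fun i _ => Finset.sum_nonneg fun j _ => abs_nonneg _
  have h1 : ∀ i j, |G i j * (c i j - ∑ l, Γ l i j * b l)| ≤ C * |c i j| + C ^ 2 * B := by
    intro i j
    rw [abs_mul]
    have h2 : |∑ l, Γ l i j * b l| ≤ C * B := by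
      refine (Finset.abs_sum_le_sum_abs _ _).trans ?_
      rw [hB, Finset.mul_sum]
      refine Finset.sum_le_sum fun l _ => ?_
      rw [abs_mul]
      exact mul_le_mul_of_nonneg_right (hΓ _ _ _) (abs_nonneg _)
    have h3 : |c i j - ∑ l, Γ l i j * b l| ≤ |c i j| + C * B := (abs_sub _ _).trans (by linarith)
    calc |G i j| * |c i j - ∑ l, Γ l i j * b l| ≤ C * (|c i j| + C * B) :=
          mul_le_mul (hG i j) h3 (abs_nonneg _) hC
      _ = _ := by ring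
  have h4 : |∑ i, ∑ j, G i j * (c i j - ∑ l, Γ l i j * b l)| ≤ C * D + ((n : ℝ) + 1) ^ 2 * C ^ 2 * B := by
    refine (Finset.abs_sum_le_sum_abs _ _).trans ?_
    have h5 : ∀ i : Fin (n + 1), |∑ j, G i j * (c i j - ∑ l, Γ l i j * b l)| ≤
        C * (∑ j, |c i j|) + ((n : ℝ) + 1) * (C ^ 2 * B) := by
      intro i
      refine (Finset.abs_sum_le_sum_abs _ _).trans ?_
      refine (Finset.sum_le_sum fun j _ => h1 i j).trans ?_
      rw [Finset.sum_add_distrib, ← Finset.mul_sum]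
      simp
    refine (Finset.sum_le_sum fun i _ => h5 i).trans ?_
    rw [Finset.sum_add_distrib, ← Finset.mul_sum]
    simp only [Finset.sum_const, Finset.card_univ, Fintype.card_fin, nsmul_eq_mul, Nat.cast_add, Nat.cast_one]
    rw [hD]
    have : ((n : ℝ) + 1) * (((n : ℝ) + 1) * (C ^ 2 * B)) = ((n : ℝ) + 1) ^ 2 * C ^ 2 * B := by ring
    rw [this]
  have h6 : |-k * (∑ i, ∑ j, G i j * (c i j - ∑ l, Γ l i j * b l)) + s * a| ≤
      |k| * (C * D + ((n : ℝ) + 1) ^ 2 * C ^ 2 * B) + C * |a| := by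
    refine (abs_add_le _ _).trans (add_le_add ?_ ?_)
    · rw [abs_mul, abs_neg]
      exact mul_le_mul_of_nonneg_left h4 (abs_nonneg _)
    · rw [abs_mul]
      exact mul_le_mul_of_nonneg_right hs (abs_nonneg _)
  refine h6.trans ?_
  have hk := abs_nonneg k
  have ha := abs_nonneg a
  have e1 : 0 ≤ |k| * C * B := by positivity
  have e2 : 0 ≤ |k| * C * |a| := by positivity
  have e3 : 0 ≤ |k| * (((n : ℝ) + 1) ^ 2 * C ^ 2) * D := by positivity
  have e4 : 0 ≤ |k| * (((n : ℝ) + 1) ^ 2 * C ^ 2) * |a| := by positivity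
  have e5 : 0 ≤ C * B := by positivity
  have e6 : 0 ≤ C * D := by positivity
  nlinarith

private theorem SU_T2 {K : Set (V (n + 1))} {U : V (n + 1) → ℝ} (h : SU K U) : U ∈ T2 n :=
  ⟨h.smooth.of_le (WithTop.coe_le_coe.2 (le_top : (2 : ℕ∞) ≤ ⊤)), h.cpt⟩

theorem op_Lop (he : e ∈ atlas (EuclideanHalfSpace (n + 1)) X) (g : Metric n X)
    {K : Set (V (n + 1))} (hK : IsCompact K) (hKd : K ⊆ dom e) :
    ∃ C : ℝ, 0 ≤ C ∧ ∀ U : V (n + 1) → ℝ, SU K U → ∫ p, (Lop g (ext e U) p) ^ 2 ∂(vol g) ≤ C * H2n U := by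
  obtain ⟨c0, C0, hc0, hrho, -, hinv, -⟩ := met_bounds g he hK hKd
  obtain ⟨C1, hGam, hscal, -⟩ := curv_bounds g he hK hKd
  set C : ℝ := max (max C0 C1) 0 with hC
  have hCn : 0 ≤ C := le_max_right _ _
  have hC0 : C0 ≤ C := (le_max_left _ _).trans (le_max_left _ _)
  have hC1 : C1 ≤ C := (le_max_right _ _).trans (le_max_left _ _)
  set M : ℝ := |cn n| * (C + ((n : ℝ) + 1) ^ 2 * C ^ 2) + C with hM
  have hM0 : 0 ≤ M := by positivity
  refine ⟨max C0 0 * (M ^ 2 * (3 * ((n : ℝ) + 1) ^ 2)), by positivity, fun U hU => ?_⟩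
  have hT2 : U ∈ T2 n := SU_T2 hU
  have hT1 : U ∈ T1 n := T2_sub hT2
  have hu : ContMDiff (𝓡∂ (n + 1)) 𝓘(ℝ) ∞ (ext e U) :=
    ext_contMDiff he hU.smooth hK hKd hU.supp
  -- the majorant
  have i0 : Integrable (fun y => U y ^ 2) (nu n) := l2_int_sq (T1_memLp hT1 2).1
  have i1 : ∀ i, Integrable (fun y => pd (Hs n) i U y ^ 2) (nu n) := fun i => l2_int_sq ((T1_memLp hT1 2).2 i)
  have i2 : ∀ i j, Integrable (fun y => pd (Hs n) i (pd (Hs n) j U) y ^ 2) (nu n) := fun i j =>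
    l2_int_sq ((T1_memLp (T2_pd hT2 j) 2).2 i)
  have iF : Integrable (fun y => M ^ 2 * (3 * ((n : ℝ) + 1) ^ 2) *
      (U y ^ 2 + ∑ i, pd (Hs n) i U y ^ 2 + ∑ i, ∑ j, pd (Hs n) i (pd (Hs n) j U) y ^ 2)) (nu n) := by
    refine Integrable.const_mul ((i0.add (integrable_finsetSum _ fun i _ => i1 i)).add ?_) _
    exact integrable_finsetSum _ fun i _ => integrable_finsetSum _ fun j _ => i2 i j
  have hkey := int_le he g hKd (fun y hy => (hrho y hy).2) (fun p => (Lop g (ext e U) p) ^ 2) _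
    (fun p hp => by
      show (Lop g (ext e U) p) ^ 2 = 0
      rw [Lop_zero (ext_zero_near hK hKd hU.supp hp)]
      norm_num) (fun p => sq_nonneg _) iF (fun y => by positivity) (fun y hy => by
      have hyd : y ∈ dom e := hKd hy
      have hsrc : pt e y ∈ e.source := pt_mem_source e hyd
      have h1 : Lop g (ext e U) (pt e y) = -cn n * (∑ i, ∑ j, (g.G e y)⁻¹ i j *
          (pd (Hs n) i (pd (Hs n) j U) y - ∑ l, Gam (Hs n) (g.G e) l i j y * pd (Hs n) l U y)) +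
          scal (Hs n) (g.G e) y * U y := by
        rw [Lop, lap_eq he hsrc hu, scal_eq he hsrc, co_pt e hyd, ext_pt hyd]
        simp only [lap, hess]
        congr 2
        refine Finset.sum_congr rfl fun i _ => Finset.sum_congr rfl fun j _ => ?_
        rw [pd2_loc_ext U hyd]
        congr 2
        refine Finset.sum_congr rfl fun l _ => ?_
        rw [pd_loc_ext U hyd]
      have h2 := lin_bd (cn n) (scal (Hs n) (g.G e) y) (U y) C (fun i j => (g.G e y)⁻¹ i j)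
        (fun l i j => Gam (Hs n) (g.G e) l i j y) (fun i => pd (Hs n) i U y)
        (fun i j => pd (Hs n) i (pd (Hs n) j U) y) hCn (fun i j => (hinv y hy i j).trans hC0)
        (fun k i j => (hGam y hy k i j).trans hC1) ((hscal y hy).trans hC1)
      have h3 := sq_sum3 (U y) (fun i => pd (Hs n) i U y) (fun i j => pd (Hs n) i (pd (Hs n) j U) y)
      show (Lop g (ext e U) (pt e y)) ^ 2 ≤ _
      rw [h1, ← sq_abs]
      refine (pow_le_pow_left₀ (abs_nonneg _) h2 2).trans ?_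
      rw [mul_pow, mul_assoc]
      refine mul_le_mul_of_nonneg_left ?_ (sq_nonneg _)
      exact h3)
  refine hkey.trans (le_of_eq ?_)
  rw [integral_const_mul, integral_add, integral_add, integral_finsetSum, integral_finsetSum, H2n, H1n]
  · have h4 : ∀ i : Fin (n + 1), ∫ y, ∑ j, pd (Hs n) i (pd (Hs n) j U) y ^ 2 ∂(nu n) =
        ∑ j, sq (pd (Hs n) i (pd (Hs n) j U)) := fun i => by
      rw [integral_finsetSum _ fun j _ => i2 i j]
      rfl
    simp only [h4]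
    simp only [sq]
    ring
  · exact fun i _ => integrable_finsetSum _ fun j _ => i2 i j
  · exact fun i _ => i1 i
  · exact i0
  · exact integrable_finsetSum _ fun i _ => i1 i
  · exact i0.add (integrable_finsetSum _ fun i _ => i1 i)
  · exact integrable_finsetSum _ fun i _ => integrable_finsetSum _ fun j _ => i2 i j

private theorem gip_bd (C : ℝ) (hC : 0 ≤ C) (G : Fin (n + 1) → Fin (n + 1) → ℝ) (b : Fin (n + 1) → ℝ)
    (hG : ∀ i j, |G i j| ≤ C) :
    (∑ i, ∑ j, G i j * (b i * b j)) ^ 2 ≤ (C ^ 2 * ((n : ℝ) + 1) ^ 3) * ∑ i, b i ^ 4 := by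
  have h1 : |∑ i, ∑ j, G i j * (b i * b j)| ≤ C * (∑ i, |b i|) ^ 2 := by
    have h2 : (∑ i, |b i|) ^ 2 = ∑ i, ∑ j, |b i| * |b j| := by
      rw [pow_two, Finset.sum_mul_sum]
    rw [h2, Finset.mul_sum]
    refine (Finset.abs_sum_le_sum_abs _ _).trans (Finset.sum_le_sum fun i _ => ?_)
    rw [Finset.mul_sum]
    refine (Finset.abs_sum_le_sum_abs _ _).trans (Finset.sum_le_sum fun j _ => ?_)
    rw [abs_mul, abs_mul]
    exact mul_le_mul_of_nonneg_right (hG i j) (by positivity)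
  have h3 : (∑ i, |b i|) ^ 2 ≤ ((n : ℝ) + 1) * ∑ i, b i ^ 2 := by
    have := sq_sum_le_card_mul_sum_sq (s := Finset.univ) (f := fun i => |b i|)
    simpa using this
  have h4 : (∑ i, b i ^ 2) ^ 2 ≤ ((n : ℝ) + 1) * ∑ i, b i ^ 4 := by
    have := sq_sum_le_card_mul_sum_sq (s := Finset.univ) (f := fun i => b i ^ 2)
    have e : ∀ i, (b i ^ 2) ^ 2 = b i ^ 4 := fun i => by ring
    simp only [e] at this
    simpa using this
  have hn : (0 : ℝ) ≤ (n : ℝ) + 1 := by positivity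
  calc (∑ i, ∑ j, G i j * (b i * b j)) ^ 2 = |∑ i, ∑ j, G i j * (b i * b j)| ^ 2 := (sq_abs _).symm
    _ ≤ (C * (((n : ℝ) + 1) * ∑ i, b i ^ 2)) ^ 2 :=
        pow_le_pow_left₀ (abs_nonneg _) (h1.trans (mul_le_mul_of_nonneg_left h3 hC)) 2
    _ = C ^ 2 * ((n : ℝ) + 1) ^ 2 * (∑ i, b i ^ 2) ^ 2 := by ring
    _ ≤ C ^ 2 * ((n : ℝ) + 1) ^ 2 * (((n : ℝ) + 1) * ∑ i, b i ^ 4) :=
        mul_le_mul_of_nonneg_left h4 (by positivity)
    _ = _ := by ring

theorem op_gip (he : e ∈ atlas (EuclideanHalfSpace (n + 1)) X) (g : Metric n X)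
    {K : Set (V (n + 1))} (hK : IsCompact K) (hKd : K ⊆ dom e) :
    ∃ C : ℝ, 0 ≤ C ∧ ∀ (U : V (n + 1) → ℝ) (M : ℝ), SU K U → (∀ x ∈ Hs n, |U x| ≤ M) →
      ∫ p, (gipX g (ext e U) (ext e U) p) ^ 2 ∂(vol g) ≤ C * M ^ 2 * H2n U := by
  obtain ⟨c0, C0, hc0, hrho, -, hinv, -⟩ := met_bounds g he hK hKd
  set C : ℝ := max C0 0 with hC
  have hCn : 0 ≤ C := le_max_right _ _
  have hC0 : C0 ≤ C := le_max_left _ _
  refine ⟨C * (C ^ 2 * ((n : ℝ) + 1) ^ 3) * 36 * ((n : ℝ) + 1), by positivity, fun U M hU hM => ?_⟩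
  have hT2 : U ∈ T2 n := SU_T2 hU
  have hT1 : U ∈ T1 n := T2_sub hT2
  have hu : ContMDiff (𝓡∂ (n + 1)) 𝓘(ℝ) ∞ (ext e U) :=
    ext_contMDiff he hU.smooth hK hKd hU.supp
  have hu1 : ext e U ∈ C1 n X := hu.of_le (WithTop.coe_le_coe.2 (le_top : (1 : ℕ∞) ≤ ⊤))
  have i1 : ∀ i, Integrable (fun y => pd (Hs n) i U y ^ 4) (nu n) := fun i => by
    have h1 : MemLp (pd (Hs n) i U) 4 (nu n) := (T1_memLp (T2_pd hT2 i) 4).1
    have h2 := h1.integrable_norm_pow (by norm_num)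
    refine h2.congr (Eventually.of_forall fun y => ?_)
    show ‖pd (Hs n) i U y‖ ^ 4 = pd (Hs n) i U y ^ 4
    rw [Real.norm_eq_abs]
    exact Even.pow_abs (by decide) _
  have iF : Integrable (fun y => (C ^ 2 * ((n : ℝ) + 1) ^ 3) * ∑ i, pd (Hs n) i U y ^ 4) (nu n) :=
    (integrable_finsetSum _ fun i _ => i1 i).const_mul _
  have hkey := int_le he g hKd (fun y hy => (hrho y hy).2) (fun p => (gipX g (ext e U) (ext e U) p) ^ 2) _
    (fun p hp => by
      show (gipX g (ext e U) (ext e U) p) ^ 2 = 0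
      rw [gipX_zero (ext_zero_near hK hKd hU.supp hp)]
      norm_num) (fun p => sq_nonneg _) iF
      (fun y => mul_nonneg (by positivity) (Finset.sum_nonneg fun i _ => by positivity)) (fun y hy => by
      have hyd : y ∈ dom e := hKd hy
      have hsrc : pt e y ∈ e.source := pt_mem_source e hyd
      have h1 : gipX g (ext e U) (ext e U) (pt e y) =
          ∑ i, ∑ j, (g.G e y)⁻¹ i j * (pd (Hs n) i U y * pd (Hs n) j U y) := by
        rw [gip_eq he hsrc hu1 hu1, co_pt e hyd, gip]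
        refine Finset.sum_congr rfl fun i _ => Finset.sum_congr rfl fun j _ => ?_
        rw [pd_loc_ext U hyd, pd_loc_ext U hyd]
      show (gipX g (ext e U) (ext e U) (pt e y)) ^ 2 ≤ _
      rw [h1]
      exact gip_bd C hCn _ _ fun i j => (hinv y hy i j).trans hC0)
  refine hkey.trans ?_
  rw [integral_const_mul, integral_finsetSum _ fun i _ => i1 i]
  have hH : ∀ i, sq (pd (Hs n) i (pd (Hs n) i U)) ≤ H2n U := by
    intro i
    have nn : ∀ f : V (n + 1) → ℝ, 0 ≤ sq f := fun f => integral_nonneg fun x => sq_nonneg _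
    have h1 : sq (pd (Hs n) i (pd (Hs n) i U)) ≤ ∑ j, sq (pd (Hs n) i (pd (Hs n) j U)) :=
      Finset.single_le_sum (f := fun j => sq (pd (Hs n) i (pd (Hs n) j U))) (fun j _ => nn _) (Finset.mem_univ i)
    have h2 : ∑ j, sq (pd (Hs n) i (pd (Hs n) j U)) ≤ ∑ i, ∑ j, sq (pd (Hs n) i (pd (Hs n) j U)) :=
      Finset.single_le_sum (f := fun i => ∑ j, sq (pd (Hs n) i (pd (Hs n) j U)))
        (fun i _ => Finset.sum_nonneg fun j _ => nn _) (Finset.mem_univ i)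
    have h3 : 0 ≤ H1n U := add_nonneg (nn _) (Finset.sum_nonneg fun i _ => nn _)
    rw [H2n]
    linarith
  have hsum : ∑ i, ∫ y, pd (Hs n) i U y ^ 4 ∂(nu n) ≤ ((n : ℝ) + 1) * (36 * M ^ 2 * H2n U) := by
    have h1 : ∀ i, ∫ y, pd (Hs n) i U y ^ 4 ∂(nu n) ≤ 36 * M ^ 2 * H2n U := fun i =>
      (gn hT2 hM i).trans (mul_le_mul_of_nonneg_left (hH i) (by positivity))
    refine (Finset.sum_le_sum fun i _ => h1 i).trans ?_
    simp
  calc C * ((C ^ 2 * ((n : ℝ) + 1) ^ 3) * ∑ i, ∫ y, pd (Hs n) i U y ^ 4 ∂(nu n))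
      ≤ C * ((C ^ 2 * ((n : ℝ) + 1) ^ 3) * (((n : ℝ) + 1) * (36 * M ^ 2 * H2n U))) :=
        mul_le_mul_of_nonneg_left (mul_le_mul_of_nonneg_left hsum (by positivity)) hCn
    _ = _ := by ring

end

end Pool.Agent.CY.S4
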