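import Pool.Agent.CY.S3.IntChart
import Pool.Agent.CY.S3.Fin
import Pool.Agent.CY.S4.G2
import Pool.Agent.CY.S4.Iface
import Pool.Agent.CY.S4.L3a

/-!
# CY-S4-G3c: bounds for functions supported in a chart (boundary operator)

`u = ext e U` is smooth.  For `σ`-almost every `p` (`ae_bvol_boundary`) `p` is a boundary point; if `p ∈ e.source` then
`Bop g u p = cn * nder (g.G e) U (tl (co e p)) + 2 meanCurv * U` (`nder_eq`, `mean_eq`, `pd_loc_ext`; `co e p = bd (tl (co e p))`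
by `mem_boundary_iff`, `bd_tl`), otherwise `u = 0` near `p` and `Bop g u p = 0`.  `|Bop|² ≤ C (U² + ∑ (∂_j U)²)` at `bd z`,
`int_bvol_chart`, and `trace_le_H1n` for `U ∈ T1` and `∂_j U ∈ T1` (`T2_pd`).  (`Bop` itself need not be measurable a
priori: use `int_bvol_chart` for the function `(Bop g u)²` times the indicator of `e.source`, a.e. equal to `(Bop g u)²`.)
-/

set_option autoImplicit false

open scoped Manifold ContDiff ENNReal
open MeasureTheory Set Filter Topology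

namespace Pool.Agent.CY.S4

noncomputable section

set_option linter.unusedSectionVars false

variable {n : ℕ} {X : Type} [TopologicalSpace X] [ChartedSpace (EuclideanHalfSpace (n + 1)) X]
  [IsManifold (𝓡∂ (n + 1)) ∞ X] [CompactSpace X] [T2Space X] [MeasurableSpace X] [BorelSpace X]
  {g : Metric n X} {e : OpenPartialHomeomorph X (EuclideanHalfSpace (n + 1))}

private theorem G3c_ext_zero {K : Set (V (n + 1))} {U : V (n + 1) → ℝ} (hs : Supp U K) {q : X}
    (hq : q ∉ pt e '' K) : ext e U q = 0 := by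
  by_cases h : q ∈ e.source
  · rw [ext_co h]
    refine hs _ (co_mem_Hs e q) (fun hK => hq ⟨co e q, hK, pt_co e h⟩)
  · exact ext_not h

private theorem G3c_Bop_zero {K : Set (V (n + 1))} (hK : IsCompact K) (hKd : K ⊆ dom e)
    (g : Metric n X) {U : V (n + 1) → ℝ} (hs : Supp U K) {p : X}
    (hb : p ∈ (𝓡∂ (n + 1)).boundary X) (hp : p ∉ pt e '' K) : Bop g (ext e U) p = 0 := by
  have hcl : IsClosed (pt e '' K) := (hK.image_of_continuousOn ((continuousOn_pt e).mono hKd)).isClosed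
  have hpc : p ∈ (ch (n := n) p).source := mem_chart_source _ p
  have hca : ch (n := n) p ∈ atlas (EuclideanHalfSpace (n + 1)) X := chart_mem_atlas _ p
  have hz : co (ch (n := n) p) p 0 = 0 := (mem_boundary_iff hca hpc).1 hb
  have hy : co (ch (n := n) p) p ∈ dom (ch (n := n) p) := co_mem_dom _ hpc
  have hev : loc (ch (n := n) p) (ext e U) =ᶠ[𝓝[Hs n] (co (ch (n := n) p) p)] fun _ => (0 : ℝ) := by
    rw [(dom_chart (ch (n := n) p)).nhds_eq hy]
    have hc : ContinuousWithinAt (pt (ch (n := n) p)) (dom (ch (n := n) p)) (co (ch (n := n) p) p) :=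
      (continuousOn_pt (ch (n := n) p)) _ hy
    have hmem : (pt e '' K)ᶜ ∈ 𝓝 (pt (ch (n := n) p) (co (ch (n := n) p) p)) := by
      rw [pt_co _ hpc]
      exact hcl.isOpen_compl.mem_nhds hp
    filter_upwards [hc hmem] with y hy'
    exact G3c_ext_zero hs hy'
  have hpd : ∀ j, pd (Hs n) j (loc (ch (n := n) p) (ext e U)) (co (ch (n := n) p) p) = 0 := by
    intro j
    unfold pd
    rw [hev.fderivWithin_eq_of_mem (co_mem_Hs _ p)]
    simp
  have h0 : ext e U p = 0 := G3c_ext_zero hs hp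
  unfold Bop nderX nder
  rw [bd_tl hz, h0]
  simp [hpd]

private theorem G3c_cs (a b : Fin (n + 1) → ℝ) {C : ℝ} (ha : ∀ j, |a j| ≤ C) :
    (∑ j, a j * b j) ^ 2 ≤ ((n : ℝ) + 1) * C ^ 2 * ∑ j, b j ^ 2 := by
  have h1 := Finset.sum_mul_sq_le_sq_mul_sq Finset.univ a b
  have h2 : ∑ j, a j ^ 2 ≤ ((n : ℝ) + 1) * C ^ 2 := by
    calc ∑ j, a j ^ 2 ≤ ∑ _j : Fin (n + 1), C ^ 2 := by
          apply Finset.sum_le_sum
          intro j _
          have := ha j
          rw [← sq_abs]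
          exact pow_le_pow_left₀ (abs_nonneg _) this 2
      _ = ((n : ℝ) + 1) * C ^ 2 := by simp
  have h3 : 0 ≤ ∑ j, b j ^ 2 := Finset.sum_nonneg fun j _ => sq_nonneg _
  nlinarith [mul_le_mul_of_nonneg_right h2 h3]

theorem op_Bop (he : e ∈ atlas (EuclideanHalfSpace (n + 1)) X) (g : Metric n X)
    {K : Set (V (n + 1))} (hK : IsCompact K) (hKd : K ⊆ dom e) :
    ∃ C : ℝ, 0 ≤ C ∧ ∀ U : V (n + 1) → ℝ, SU K U → ∫ p, (Bop g (ext e U) p) ^ 2 ∂(bvol g) ≤ C * H2n U := by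
  classical
  obtain ⟨c, C1, hc, -, -, hinv, hbdry⟩ := met_bounds g he hK hKd
  obtain ⟨C2, -, -, hmean⟩ := curv_bounds g he hK hKd
  set M : ℝ := 2 * (cn n ^ 2 * (((n : ℝ) + 1) * C1 ^ 2 / c)) + 8 * C2 ^ 2 with hM
  have hM0 : 0 ≤ M := by positivity
  refine ⟨2 * (M * |C1|), by positivity, ?_⟩
  intro U hU
  have hT2 : U ∈ T2 n := ⟨hU.smooth.of_le (WithTop.coe_le_coe.2 le_top : ((2 : ℕ∞) : WithTop ℕ∞) ≤ ((⊤ : ℕ∞) : WithTop ℕ∞)), hU.cpt⟩
  have hT1 : U ∈ T1 n := T2_sub hT2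
  have hpdT : ∀ j, pd (Hs n) j U ∈ T1 n := fun j => T2_pd hT2 j
  have hsm : ContMDiff (𝓡∂ (n + 1)) 𝓘(ℝ) ∞ (ext e U) := ext_contMDiff he hU.smooth hK hKd hU.supp
  -- the pointwise bound
  have hpt : ∀ z : V n, bd z ∈ K → (Bop g (ext e U) (pt e (bd z))) ^ 2 ≤
      M * (U (bd z) ^ 2 + ∑ j, pd (Hs n) j U (bd z) ^ 2) := by
    intro z hz
    have hd : bd z ∈ dom e := hKd hz
    have hsrc : pt e (bd z) ∈ e.source := pt_mem_source e hd
    have hbdp : pt e (bd z) ∈ (𝓡∂ (n + 1)).boundary X := pt_bd_mem_boundary he hd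
    have h1 := nder_eq (g := g) he hsrc hbdp hsm
    have h2 := mean_eq (g := g) he hsrc hbdp
    rw [co_pt e hd, tl_bd] at h1 h2
    have h3 : Bop g (ext e U) (pt e (bd z)) =
        cn n * nder (g.G e) (loc e (ext e U)) z + 2 * meanCurv (g.G e) z * U (bd z) := by
      unfold Bop
      rw [h1, h2, ext_pt hd]
    have h4 : nder (g.G e) (loc e (ext e U)) z =
        -(∑ j, (g.G e (bd z))⁻¹ 0 j * pd (Hs n) j U (bd z)) / Real.sqrt ((g.G e (bd z))⁻¹ 0 0) := by
      unfold nder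
      have : ∀ j, pd (Hs n) j (loc e (ext e U)) (bd z) = pd (Hs n) j U (bd z) :=
        fun j => pd_loc_ext U hd j
      simp only [this]
    obtain ⟨-, -, hc0⟩ := hbdry z hz
    have hpos : 0 < (g.G e (bd z))⁻¹ 0 0 := lt_of_lt_of_le hc hc0
    have h5 : (nder (g.G e) (loc e (ext e U)) z) ^ 2 ≤
        (((n : ℝ) + 1) * C1 ^ 2 / c) * ∑ j, pd (Hs n) j U (bd z) ^ 2 := by
      rw [h4, div_pow, neg_sq, Real.sq_sqrt hpos.le, div_le_iff₀ hpos]
      have h6 := G3c_cs (fun j => (g.G e (bd z))⁻¹ 0 j) (fun j => pd (Hs n) j U (bd z))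
        (C := C1) (fun j => hinv _ hz 0 j)
      have h7 : 0 ≤ ∑ j, pd (Hs n) j U (bd z) ^ 2 := Finset.sum_nonneg fun j _ => sq_nonneg _
      have h8 : ((n : ℝ) + 1) * C1 ^ 2 ≤ (((n : ℝ) + 1) * C1 ^ 2 / c) * (g.G e (bd z))⁻¹ 0 0 := by
        rw [div_mul_eq_mul_div, le_div_iff₀ hc]
        exact mul_le_mul_of_nonneg_left hc0 (by positivity)
      calc _ ≤ ((n : ℝ) + 1) * C1 ^ 2 * ∑ j, pd (Hs n) j U (bd z) ^ 2 := h6
        _ ≤ (((n : ℝ) + 1) * C1 ^ 2 / c) * (g.G e (bd z))⁻¹ 0 0 * ∑ j, pd (Hs n) j U (bd z) ^ 2 :=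
            mul_le_mul_of_nonneg_right h8 h7
        _ = _ := by ring
    have h9 : (meanCurv (g.G e) z) ^ 2 ≤ C2 ^ 2 := by
      rw [← sq_abs]
      exact pow_le_pow_left₀ (abs_nonneg _) (hmean z hz) 2
    have h10 : 0 ≤ ∑ j, pd (Hs n) j U (bd z) ^ 2 := Finset.sum_nonneg fun j _ => sq_nonneg _
    have hD : 0 ≤ ((n : ℝ) + 1) * C1 ^ 2 / c := by positivity
    rw [h3]
    generalize nder (g.G e) (loc e (ext e U)) z = N at *
    generalize meanCurv (g.G e) z = H at *
    generalize ∑ j, pd (Hs n) j U (bd z) ^ 2 = S at *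
    generalize ((n : ℝ) + 1) * C1 ^ 2 / c = D at *
    have h11 : (cn n * N + 2 * H * U (bd z)) ^ 2 ≤ 2 * (cn n ^ 2 * N ^ 2) + 8 * (H ^ 2 * U (bd z) ^ 2) := by
      nlinarith [sq_nonneg (cn n * N - 2 * H * U (bd z))]
    have h12 : cn n ^ 2 * N ^ 2 ≤ cn n ^ 2 * (D * S) := mul_le_mul_of_nonneg_left h5 (sq_nonneg _)
    have h13 : H ^ 2 * U (bd z) ^ 2 ≤ C2 ^ 2 * U (bd z) ^ 2 := mul_le_mul_of_nonneg_right h9 (sq_nonneg _)
    have h14 : 0 ≤ cn n ^ 2 * D := mul_nonneg (sq_nonneg _) hD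
    rw [hM]
    nlinarith [sq_nonneg (U (bd z)), mul_nonneg h14 (sq_nonneg (U (bd z))), mul_nonneg (sq_nonneg C2) h10]
  -- the function on the boundary chart
  set T : Set X := pt e '' K ∩ (𝓡∂ (n + 1)).boundary X with hT
  set Ψ : X → ℝ := T.indicator (fun p => (Bop g (ext e U) p) ^ 2) with hΨ
  have hae : (fun p => (Bop g (ext e U) p) ^ 2) =ᵐ[bvol g] Ψ := by
    filter_upwards [ae_bvol_boundary g] with p hp
    by_cases hpK : p ∈ pt e '' K
    · rw [hΨ, Set.indicator_of_mem (show p ∈ T from ⟨hpK, hp⟩)]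
    · rw [hΨ, Set.indicator_of_notMem (fun h => hpK h.1), G3c_Bop_zero hK hKd g hU.supp hp hpK]
      simp
  have hsupp : Function.support Ψ ⊆ e.source := by
    intro p hp
    have : p ∈ T := by
      by_contra h
      exact hp (Set.indicator_of_notMem h _)
    obtain ⟨x, hx, rfl⟩ := this.1
    exact pt_mem_source e (hKd hx)
  rw [integral_congr_ae hae, int_bvol_chart g he Ψ hsupp]
  have hint : Integrable (fun z : V n => M * |C1| * (U (bd z) ^ 2 + ∑ j, pd (Hs n) j U (bd z) ^ 2)) := by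
    apply Integrable.const_mul
    apply Integrable.add
    · exact (T1_bdry hT1 2).integrable_sq
    · exact integrable_finsetSum _ fun j _ => (T1_bdry (hpdT j) 2).integrable_sq
  have hle : ∀ z : V n, (bdom e).indicator (fun z => Ψ (pt e (bd z)) * rhoB g e z) z ≤
      M * |C1| * (U (bd z) ^ 2 + ∑ j, pd (Hs n) j U (bd z) ^ 2) := by
    intro z
    have h0 : 0 ≤ U (bd z) ^ 2 + ∑ j, pd (Hs n) j U (bd z) ^ 2 :=
      add_nonneg (sq_nonneg _) (Finset.sum_nonneg fun j _ => sq_nonneg _)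
    have h1 : 0 ≤ M * |C1| * (U (bd z) ^ 2 + ∑ j, pd (Hs n) j U (bd z) ^ 2) := by positivity
    by_cases hz : z ∈ bdom e
    · rw [Set.indicator_of_mem hz]
      by_cases hzT : pt e (bd z) ∈ T
      · rw [hΨ, Set.indicator_of_mem hzT]
        obtain ⟨x, hx, hxz⟩ := hzT.1
        have hxe : x = bd z := by
          have := congrArg (co e) hxz
          rwa [co_pt e (hKd hx), co_pt e hz] at this
        rw [hxe] at hx
        obtain ⟨hr1, hr2, -⟩ := hbdry z hx
        have hr0 : 0 ≤ rhoB g e z := le_trans hc.le hr1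
        calc (Bop g (ext e U) (pt e (bd z))) ^ 2 * rhoB g e z
            ≤ (M * (U (bd z) ^ 2 + ∑ j, pd (Hs n) j U (bd z) ^ 2)) * rhoB g e z :=
              mul_le_mul_of_nonneg_right (hpt z hx) hr0
          _ ≤ (M * (U (bd z) ^ 2 + ∑ j, pd (Hs n) j U (bd z) ^ 2)) * |C1| :=
              mul_le_mul_of_nonneg_left (le_trans hr2 (le_abs_self _)) (mul_nonneg hM0 h0)
          _ = _ := by ring
      · rw [hΨ, Set.indicator_of_notMem hzT, zero_mul]
        exact h1
    · rw [Set.indicator_of_notMem hz]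
      exact h1
  have hnn : ∀ z : V n, 0 ≤ (bdom e).indicator (fun z => Ψ (pt e (bd z)) * rhoB g e z) z := by
    intro z
    by_cases hz : z ∈ bdom e
    · rw [Set.indicator_of_mem hz]
      by_cases hzT : pt e (bd z) ∈ T
      · rw [hΨ, Set.indicator_of_mem hzT]
        obtain ⟨x, hx, hxz⟩ := hzT.1
        have hxe : x = bd z := by
          have := congrArg (co e) hxz
          rwa [co_pt e (hKd hx), co_pt e hz] at this
        rw [hxe] at hx
        obtain ⟨hr1, hr2, -⟩ := hbdry z hx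
        exact mul_nonneg (sq_nonneg _) (le_trans hc.le hr1)
      · rw [hΨ, Set.indicator_of_notMem hzT, zero_mul]
    · rw [Set.indicator_of_notMem hz]
  have hsq : ∀ f : V (n + 1) → ℝ, 0 ≤ sq f := fun f => integral_nonneg fun x => sq_nonneg _
  calc ∫ z, (bdom e).indicator (fun z => Ψ (pt e (bd z)) * rhoB g e z) z
      ≤ ∫ z : V n, M * |C1| * (U (bd z) ^ 2 + ∑ j, pd (Hs n) j U (bd z) ^ 2) :=
        integral_mono_of_nonneg (Filter.Eventually.of_forall hnn) hint (Filter.Eventually.of_forall hle)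
    _ = M * |C1| * ((∫ z : V n, U (bd z) ^ 2) + ∑ j, ∫ z : V n, pd (Hs n) j U (bd z) ^ 2) := by
        rw [integral_const_mul, integral_add (T1_bdry hT1 2).integrable_sq
          (integrable_finsetSum _ fun j _ => (T1_bdry (hpdT j) 2).integrable_sq),
          integral_finsetSum _ fun j _ => (T1_bdry (hpdT j) 2).integrable_sq]
    _ ≤ M * |C1| * (H1n U + ∑ j, H1n (pd (Hs n) j U)) := by
        apply mul_le_mul_of_nonneg_left _ (mul_nonneg hM0 (abs_nonneg _))
        exact add_le_add (trace_le_H1n hT1) (Finset.sum_le_sum fun j _ => trace_le_H1n (hpdT j))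
    _ ≤ M * |C1| * (2 * H2n U) := by
        apply mul_le_mul_of_nonneg_left _ (mul_nonneg hM0 (abs_nonneg _))
        have e1 : ∑ j, H1n (pd (Hs n) j U) = ∑ j, sq (pd (Hs n) j U) +
            ∑ i, ∑ j, sq (pd (Hs n) i (pd (Hs n) j U)) := by
          unfold H1n
          rw [Finset.sum_add_distrib, Finset.sum_comm (f := fun j i => sq (pd (Hs n) i (pd (Hs n) j U)))]
        have e2 : H2n U = H1n U + ∑ i, ∑ j, sq (pd (Hs n) i (pd (Hs n) j U)) := rfl
        have e3 : H1n U = sq U + ∑ j, sq (pd (Hs n) j U) := rfl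
        have e4 : 0 ≤ ∑ i, ∑ j, sq (pd (Hs n) i (pd (Hs n) j U)) :=
          Finset.sum_nonneg fun i _ => Finset.sum_nonneg fun j _ => hsq _
        have e5 := hsq U
        linarith
    _ = 2 * (M * |C1|) * H2n U := by ring

end

end Pool.Agent.CY.S4
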