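import Pool.Agent.CY.S4.G10a
import Pool.Agent.CY.S4.G3b
import Pool.Agent.CY.S4.G3c

/-!
# CY-S4-G10b: gluing: second order bounds

`Lop g (glue f U - glue f U') = ∑_i Lop g (ext (f.e i) (U_i - U'_i))` (`Lop_add`, finite sums; `U_i - U'_i` is `SU`), so
`∫ (Lop (glue U) - Lop (glue U'))² ≤ N ∑ C_i H2n (U_i - U'_i)` (`op_Lop`); the same for `Bop`.  `hgip`:
`gipX u u = ‖D u‖²`, `‖D (∑ u_i)‖⁴ ≤ N³ ∑ ‖D u_i‖⁴ = N³ ∑ (gipX u_i u_i)²` (`norm_D`, `Frame.D_add`), `op_gip` with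
`|U_i| ≤ M`, and `H2n (U i k)` is bounded (Cauchy sequence).
-/

set_option autoImplicit false

open scoped Manifold ContDiff ENNReal
open MeasureTheory Set Filter Topology

namespace Pool.Agent.CY.S4

noncomputable section

set_option linter.unusedSectionVars false

variable {n : ℕ} {X : Type} [TopologicalSpace X] [ChartedSpace (EuclideanHalfSpace (n + 1)) X]
  [IsManifold (𝓡∂ (n + 1)) ∞ X] [CompactSpace X] [T2Space X] [MeasurableSpace X] [BorelSpace X]
  {g : Metric n X} {e : OpenPartialHomeomorph X (EuclideanHalfSpace (n + 1))}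

private theorem cauchy_of {N : ℕ} {E : Fin N → ℕ → ℕ → ℝ} {Φ : ℕ → ℕ → ℝ} {C : Fin N → ℝ}
    (hC0 : ∀ i, 0 ≤ C i) (hE : ∀ i, ∀ ε > 0, ∃ M, ∀ j ≥ M, ∀ k ≥ M, E i j k ≤ ε)
    (hΦ : ∀ j k, Φ j k ≤ N * ∑ i, C i * E i j k) :
    ∀ ε > 0, ∃ M, ∀ j ≥ M, ∀ k ≥ M, Φ j k ≤ ε := by
  intro ε hε
  have hS : 0 ≤ ∑ i, C i := Finset.sum_nonneg fun i _ => hC0 i
  set δ : ℝ := ε / (N * ∑ i, C i + 1) with hδ
  have hpos : 0 < (N : ℝ) * ∑ i, C i + 1 := by positivity
  have hδ0 : 0 < δ := div_pos hε hpos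
  choose M hM using fun i => hE i δ hδ0
  refine ⟨Finset.univ.sup M, fun j hj k hk => ?_⟩
  have h1 : ∀ i, E i j k ≤ δ := fun i =>
    hM i j ((Finset.le_sup (Finset.mem_univ i)).trans hj) k ((Finset.le_sup (Finset.mem_univ i)).trans hk)
  calc Φ j k ≤ N * ∑ i, C i * E i j k := hΦ j k
    _ ≤ N * ∑ i, C i * δ := by
        refine mul_le_mul_of_nonneg_left (Finset.sum_le_sum fun i _ => ?_) (Nat.cast_nonneg _)
        exact mul_le_mul_of_nonneg_left (h1 i) (hC0 i)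
    _ = (N * ∑ i, C i) * δ := by rw [← Finset.sum_mul]; ring
    _ ≤ (N * ∑ i, C i + 1) * δ := by nlinarith
    _ = ε := by
        rw [hδ]
        field_simp

private theorem SU_T2 {K : Set (V (n + 1))} {U : V (n + 1) → ℝ} (h : SU K U) : U ∈ T2 n :=
  ⟨by exact_mod_cast contDiffOn_infty.1 h.smooth 2, h.cpt⟩

private theorem SU_T1 {K : Set (V (n + 1))} {U : V (n + 1) → ℝ} (h : SU K U) : U ∈ T1 n :=
  T2_sub (SU_T2 h)

private theorem SU_sub {K : Set (V (n + 1))} {U U' : V (n + 1) → ℝ} (h : SU K U) (h' : SU K U') :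
    SU K (fun y => U y - U' y) where
  smooth := h.smooth.sub h'.smooth
  cpt := (T1_sub (SU_T1 h) (SU_T1 h')).2
  supp := fun x hx hn => by
    change U x - U' x = 0
    rw [h.supp x hx hn, h'.supp x hx hn, sub_zero]

private theorem ext_smooth (f : Frame g) (i : Fin f.N) {U : V (n + 1) → ℝ}
    (hU : SU (co (f.e i) '' tsupport (f.η i)) U) :
    ContMDiff (𝓡∂ (n + 1)) 𝓘(ℝ) ∞ (ext (f.e i) U) :=
  ext_contMDiff (f.e_mem i) hU.smooth (K_compact f i).1 (K_compact f i).2 hU.supp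

private theorem sum_smooth {ι : Type} (s : Finset ι) (u : ι → X → ℝ)
    (hu : ∀ i, ContMDiff (𝓡∂ (n + 1)) 𝓘(ℝ) ∞ (u i)) :
    ContMDiff (𝓡∂ (n + 1)) 𝓘(ℝ) ∞ (fun p => ∑ i ∈ s, u i p) := by
  classical
  induction s using Finset.induction_on with
  | empty =>
    simp only [Finset.sum_empty]
    exact contMDiff_const
  | insert a s ha ih =>
    simp only [Finset.sum_insert ha]
    exact (hu a).add ih

private theorem Lop_zero (g : Metric n X) (p : X) : Lop g (fun _ => 0) p = 0 := by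
  have h0 : ContMDiff (𝓡∂ (n + 1)) 𝓘(ℝ) ∞ (fun _ : X => (0 : ℝ)) := contMDiff_const
  have h := Lop_add g h0 h0 p
  simp only [add_zero] at h
  linarith

private theorem Bop_zero (g : Metric n X) (p : X) (hp : p ∈ (𝓡∂ (n + 1)).boundary X) :
    Bop g (fun _ => 0) p = 0 := by
  have h0 : ContMDiff (𝓡∂ (n + 1)) 𝓘(ℝ) ∞ (fun _ : X => (0 : ℝ)) := contMDiff_const
  have h := Bop_add g h0 h0 hp
  simp only [add_zero] at h
  linarith

private theorem Lop_sum (g : Metric n X) {ι : Type} (s : Finset ι) (u : ι → X → ℝ)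
    (hu : ∀ i, ContMDiff (𝓡∂ (n + 1)) 𝓘(ℝ) ∞ (u i)) (p : X) :
    Lop g (fun q => ∑ i ∈ s, u i q) p = ∑ i ∈ s, Lop g (u i) p := by
  classical
  induction s using Finset.induction_on with
  | empty =>
    simp only [Finset.sum_empty]
    exact Lop_zero g p
  | insert a s ha ih =>
    simp only [Finset.sum_insert ha]
    rw [Lop_add g (hu a) (sum_smooth s u hu) p, ih]

private theorem Bop_sum (g : Metric n X) {ι : Type} (s : Finset ι) (u : ι → X → ℝ)
    (hu : ∀ i, ContMDiff (𝓡∂ (n + 1)) 𝓘(ℝ) ∞ (u i)) (p : X) (hp : p ∈ (𝓡∂ (n + 1)).boundary X) :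
    Bop g (fun q => ∑ i ∈ s, u i q) p = ∑ i ∈ s, Bop g (u i) p := by
  classical
  induction s using Finset.induction_on with
  | empty =>
    simp only [Finset.sum_empty]
    exact Bop_zero g p hp
  | insert a s ha ih =>
    simp only [Finset.sum_insert ha]
    rw [Bop_add g (hu a) (sum_smooth s u hu) hp, ih]

private theorem glue_diff (f : Frame g) (U U' : Fin f.N → V (n + 1) → ℝ) :
    glue f U = fun p => glue f U' p + glue f (fun i y => U i y - U' i y) p := by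
  funext p
  unfold glue
  rw [← Finset.sum_add_distrib]
  refine Finset.sum_congr rfl fun i _ => ?_
  rw [ext_sub]
  ring

private theorem Lop_glue_sub (f : Frame g) {U U' : Fin f.N → V (n + 1) → ℝ}
    (hU : ∀ i, SU (co (f.e i) '' tsupport (f.η i)) (U i))
    (hU' : ∀ i, SU (co (f.e i) '' tsupport (f.η i)) (U' i)) (p : X) :
    Lop g (glue f U) p - Lop g (glue f U') p =
      ∑ i, Lop g (ext (f.e i) (fun y => U i y - U' i y)) p := by
  have h1 := Lop_add g (glue_smooth f hU') (glue_smooth f fun i => SU_sub (hU i) (hU' i)) p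
  rw [← glue_diff f U U'] at h1
  rw [h1, add_sub_cancel_left]
  exact Lop_sum g Finset.univ (fun i => ext (f.e i) (fun y => U i y - U' i y))
    (fun i => ext_smooth f i (SU_sub (hU i) (hU' i))) p

private theorem Bop_glue_sub (f : Frame g) {U U' : Fin f.N → V (n + 1) → ℝ}
    (hU : ∀ i, SU (co (f.e i) '' tsupport (f.η i)) (U i))
    (hU' : ∀ i, SU (co (f.e i) '' tsupport (f.η i)) (U' i)) (p : X) (hp : p ∈ (𝓡∂ (n + 1)).boundary X) :
    Bop g (glue f U) p - Bop g (glue f U') p =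
      ∑ i, Bop g (ext (f.e i) (fun y => U i y - U' i y)) p := by
  have h1 := Bop_add g (glue_smooth f hU') (glue_smooth f fun i => SU_sub (hU i) (hU' i)) hp
  rw [← glue_diff f U U'] at h1
  rw [h1, add_sub_cancel_left]
  exact Bop_sum g Finset.univ (fun i => ext (f.e i) (fun y => U i y - U' i y))
    (fun i => ext_smooth f i (SU_sub (hU i) (hU' i))) p hp

theorem glue_L_cauchy (f : Frame g) {U : Fin f.N → ℕ → V (n + 1) → ℝ}
    (hU : ∀ i k, SU (co (f.e i) '' tsupport (f.η i)) (U i k))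
    (hC : ∀ i, ∀ ε > 0, ∃ N, ∀ j ≥ N, ∀ k ≥ N, H2n (fun y => U i j y - U i k y) ≤ ε) :
    ∀ ε > 0, ∃ N, ∀ j ≥ N, ∀ k ≥ N,
      ∫ p, (Lop g (glue f fun i => U i j) p - Lop g (glue f fun i => U i k) p) ^ 2 ∂(vol g) ≤ ε := by
  choose C hC0 hCb using fun i => op_Lop (f.e_mem i) g (K_compact f i).1 (K_compact f i).2
  refine cauchy_of (E := fun i j k => H2n (fun y => U i j y - U i k y)) hC0 hC ?_
  intro j k
  have hmem : ∀ i ∈ (Finset.univ : Finset (Fin f.N)),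
      MemLp (fun p => Lop g (ext (f.e i) (fun y => U i j y - U i k y)) p) 2 (vol g) := fun i _ =>
    (Lop_memLp g (ext_smooth f i (SU_sub (hU i j) (hU i k)))).mono_exponent le_top
  have h1 := l2_sum_le Finset.univ
    (fun i p => Lop g (ext (f.e i) (fun y => U i j y - U i k y)) p) hmem
  have h2 : ∀ p, Lop g (glue f fun i => U i j) p - Lop g (glue f fun i => U i k) p =
      ∑ i, Lop g (ext (f.e i) (fun y => U i j y - U i k y)) p := fun p =>
    Lop_glue_sub f (fun i => hU i j) (fun i => hU i k) p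
  simp only [h2]
  rw [Finset.card_univ, Fintype.card_fin] at h1
  refine h1.trans ?_
  refine mul_le_mul_of_nonneg_left (Finset.sum_le_sum fun i _ => ?_) (Nat.cast_nonneg _)
  exact hCb i _ (SU_sub (hU i j) (hU i k))

theorem glue_B_cauchy (f : Frame g) {U : Fin f.N → ℕ → V (n + 1) → ℝ}
    (hU : ∀ i k, SU (co (f.e i) '' tsupport (f.η i)) (U i k))
    (hC : ∀ i, ∀ ε > 0, ∃ N, ∀ j ≥ N, ∀ k ≥ N, H2n (fun y => U i j y - U i k y) ≤ ε) :
    ∀ ε > 0, ∃ N, ∀ j ≥ N, ∀ k ≥ N,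
      ∫ p, (Bop g (glue f fun i => U i j) p - Bop g (glue f fun i => U i k) p) ^ 2 ∂(bvol g) ≤ ε := by
  choose C hC0 hCb using fun i => op_Bop (f.e_mem i) g (K_compact f i).1 (K_compact f i).2
  refine cauchy_of (E := fun i j k => H2n (fun y => U i j y - U i k y)) hC0 hC ?_
  intro j k
  have hmem : ∀ i ∈ (Finset.univ : Finset (Fin f.N)),
      MemLp (fun p => Bop g (ext (f.e i) (fun y => U i j y - U i k y)) p) 2 (bvol g) := fun i _ =>
    (Bop_memLp g (ext_smooth f i (SU_sub (hU i j) (hU i k)))).mono_exponent le_top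
  have h1 := l2_sum_le Finset.univ
    (fun i p => Bop g (ext (f.e i) (fun y => U i j y - U i k y)) p) hmem
  have h2 : ∀ p ∈ (𝓡∂ (n + 1)).boundary X,
      Bop g (glue f fun i => U i j) p - Bop g (glue f fun i => U i k) p =
      ∑ i, Bop g (ext (f.e i) (fun y => U i j y - U i k y)) p := fun p hp =>
    Bop_glue_sub f (fun i => hU i j) (fun i => hU i k) p hp
  have h3 : ∫ p, (Bop g (glue f fun i => U i j) p - Bop g (glue f fun i => U i k) p) ^ 2 ∂(bvol g) =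
      ∫ p, (∑ i, Bop g (ext (f.e i) (fun y => U i j y - U i k y)) p) ^ 2 ∂(bvol g) := by
    refine integral_congr_ae ?_
    filter_upwards [ae_bvol_boundary g] with p hp
    rw [h2 p hp]
  rw [h3]
  rw [Finset.card_univ, Fintype.card_fin] at h1
  refine h1.trans ?_
  refine mul_le_mul_of_nonneg_left (Finset.sum_le_sum fun i _ => ?_) (Nat.cast_nonneg _)
  exact hCb i _ (SU_sub (hU i j) (hU i k))

private theorem sq_split {a b c : V (n + 1) → ℝ} (hb : MemLp b 2 (nu n)) (hc : MemLp c 2 (nu n))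
    (h : ∀ x ∈ Hs n, a x = b x + c x) : sq a ≤ 2 * sq b + 2 * sq c := by
  have h1 : sq a = ∫ x, (b x + c x) ^ 2 ∂(nu n) := by
    refine integral_congr_ae ?_
    filter_upwards [ae_restrict_mem Ho_open.measurableSet] with x hx
    rw [h x (Ho_sub_Hs hx)]
  rw [h1]
  exact l2_add_le hb hc

private theorem H2n_split {a b : V (n + 1) → ℝ} (ha : a ∈ T2 n) (hb : b ∈ T2 n)
    (hab : (fun y => a y - b y) ∈ T2 n) :
    H2n a ≤ 2 * H2n (fun y => a y - b y) + 2 * H2n b := by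
  have ha1 := T2_sub ha
  have hb1 := T2_sub hb
  have hab1 := T2_sub hab
  have e0 : ∀ x ∈ Hs n, a x = (a x - b x) + b x := fun x _ => by ring
  have e1 : ∀ i, ∀ x ∈ Hs n, pd (Hs n) i a x = pd (Hs n) i (fun y => a y - b y) x + pd (Hs n) i b x := by
    intro i x hx
    rw [pd_sub (T1_diff ha1 hx) (T1_diff hb1 hx) hx]
    ring
  have e2 : ∀ i j, ∀ x ∈ Hs n, pd (Hs n) i (pd (Hs n) j a) x =
      pd (Hs n) i (pd (Hs n) j (fun y => a y - b y)) x + pd (Hs n) i (pd (Hs n) j b) x := by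
    intro i j x hx
    rw [← pd_add (T1_diff (T2_pd hab j) hx) (T1_diff (T2_pd hb j) hx) hx]
    exact pd_eqOn (fun y hy => e1 j y hy) i hx
  have s0 := sq_split (T1_memLp hab1 2).1 (T1_memLp hb1 2).1 e0
  have s1 : ∀ i, sq (pd (Hs n) i a) ≤ 2 * sq (pd (Hs n) i (fun y => a y - b y)) +
      2 * sq (pd (Hs n) i b) := fun i =>
    sq_split ((T1_memLp hab1 2).2 i) ((T1_memLp hb1 2).2 i) (e1 i)
  have s2 : ∀ i j, sq (pd (Hs n) i (pd (Hs n) j a)) ≤
      2 * sq (pd (Hs n) i (pd (Hs n) j (fun y => a y - b y))) +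
      2 * sq (pd (Hs n) i (pd (Hs n) j b)) := fun i j =>
    sq_split ((T1_memLp (T2_pd hab j) 2).2 i) ((T1_memLp (T2_pd hb j) 2).2 i) (e2 i j)
  unfold H2n H1n
  have t1 := Finset.sum_le_sum (s := Finset.univ) fun i _ => s1 i
  have t2 := Finset.sum_le_sum (s := Finset.univ) fun i _ =>
    Finset.sum_le_sum (s := Finset.univ) fun j _ => s2 i j
  simp only [Finset.sum_add_distrib, ← Finset.mul_sum] at t1 t2
  linarith

private theorem H2n_nonneg (a : V (n + 1) → ℝ) : 0 ≤ H2n a := by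
  unfold H2n H1n
  have h : ∀ b : V (n + 1) → ℝ, 0 ≤ sq b := fun b => integral_nonneg fun x => sq_nonneg _
  have h1 := Finset.sum_nonneg (s := Finset.univ) fun i _ => h (pd (Hs n) i a)
  have h2 := Finset.sum_nonneg (s := Finset.univ) fun i _ =>
    Finset.sum_nonneg (s := Finset.univ) fun j _ => h (pd (Hs n) i (pd (Hs n) j a))
  have := h a
  linarith

private theorem H2n_bdd {K : Set (V (n + 1))} {U : ℕ → V (n + 1) → ℝ} (hU : ∀ k, SU K (U k))
    (hC : ∀ ε > 0, ∃ N, ∀ j ≥ N, ∀ k ≥ N, H2n (fun y => U j y - U k y) ≤ ε) :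
    ∃ B : ℝ, ∀ k, H2n (U k) ≤ B := by
  obtain ⟨N, hN⟩ := hC 1 one_pos
  refine ⟨(∑ j ∈ Finset.range N, H2n (U j)) + (2 + 2 * H2n (U N)), fun k => ?_⟩
  have hs : 0 ≤ ∑ j ∈ Finset.range N, H2n (U j) := Finset.sum_nonneg fun j _ => H2n_nonneg _
  have hN0 := H2n_nonneg (U N)
  rcases lt_or_ge k N with hk | hk
  · have := Finset.single_le_sum (f := fun j => H2n (U j)) (fun j _ => H2n_nonneg _)
      (Finset.mem_range.2 hk)
    linarith
  · have h1 := hN k hk N le_rfl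
    have h2 := H2n_split (SU_T2 (hU k)) (SU_T2 (hU N)) (SU_T2 (SU_sub (hU k) (hU N)))
    linarith

private theorem D_sum (f : Frame g) {ι : Type} (s : Finset ι) (u : ι → X → ℝ)
    (hu : ∀ i, u i ∈ C1 n X) : (fun p => ∑ i ∈ s, u i p) ∈ C1 n X ∧
      f.D (fun p => ∑ i ∈ s, u i p) = ∑ i ∈ s, f.D (u i) := by
  classical
  induction s using Finset.induction_on with
  | empty =>
    simp only [Finset.sum_empty]
    exact ⟨C1.const 0, f.D_const 0⟩
  | insert a s ha ih =>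
    simp only [Finset.sum_insert ha]
    exact ⟨C1.add (hu a) ih.1, by rw [f.D_add (hu a) ih.1, ih.2]⟩

theorem glue_gip (f : Frame g) {U : Fin f.N → ℕ → V (n + 1) → ℝ}
    (hU : ∀ i k, SU (co (f.e i) '' tsupport (f.η i)) (U i k)) {M : ℝ}
    (hM : ∀ i k, ∀ y ∈ Hs n, |U i k y| ≤ M)
    (hC : ∀ i, ∀ ε > 0, ∃ N, ∀ j ≥ N, ∀ k ≥ N, H2n (fun y => U i j y - U i k y) ≤ ε) :
    ∃ K : ℝ, ∀ k, ∫ p, (gipX g (glue f fun i => U i k) (glue f fun i => U i k) p) ^ 2 ∂(vol g) ≤ K := by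
  choose C hC0 hCb using fun i => op_gip (f.e_mem i) g (K_compact f i).1 (K_compact f i).2
  choose B hB using fun i => H2n_bdd (hU i) (hC i)
  refine ⟨(f.N : ℝ) ^ 3 * ∑ i, C i * M ^ 2 * B i, fun k => ?_⟩
  set u : Fin f.N → X → ℝ := fun i => ext (f.e i) (U i k) with hu
  have hu1 : ∀ i, u i ∈ C1 n X := fun i => C1.of_smooth (ext_smooth f i (hU i k))
  have hglue : (glue f fun i => U i k) = fun p => ∑ i, u i p := rfl
  obtain ⟨hm, hD⟩ := D_sum f Finset.univ u hu1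
  have hpt : ∀ p, (gipX g (glue f fun i => U i k) (glue f fun i => U i k) p) ^ 2 ≤
      (f.N : ℝ) ^ 3 * ∑ i, (gipX g (u i) (u i) p) ^ 2 := by
    intro p
    rw [hglue, ← norm_D g f _ hm p, hD, Finset.sum_apply]
    have h1 : ‖∑ i, f.D (u i) p‖ ≤ ∑ i, ‖f.D (u i) p‖ := norm_sum_le _ _
    have h2 : (∑ i, ‖f.D (u i) p‖) ^ 2 ≤ f.N * ∑ i, ‖f.D (u i) p‖ ^ 2 := by
      have := sq_sum_le_card_mul_sum_sq (s := (Finset.univ : Finset (Fin f.N)))
        (f := fun i => ‖f.D (u i) p‖)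
      rwa [Finset.card_univ, Fintype.card_fin] at this
    have h3 : (∑ i, ‖f.D (u i) p‖ ^ 2) ^ 2 ≤ f.N * ∑ i, (‖f.D (u i) p‖ ^ 2) ^ 2 := by
      have := sq_sum_le_card_mul_sum_sq (s := (Finset.univ : Finset (Fin f.N)))
        (f := fun i => ‖f.D (u i) p‖ ^ 2)
      rwa [Finset.card_univ, Fintype.card_fin] at this
    have h4 : ∀ i, ‖f.D (u i) p‖ ^ 2 = gipX g (u i) (u i) p := fun i => norm_D g f _ (hu1 i) p
    simp only [h4] at h2 h3
    have h5 : ‖∑ i, f.D (u i) p‖ ^ 2 ≤ f.N * ∑ i, gipX g (u i) (u i) p :=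
      (pow_le_pow_left₀ (norm_nonneg _) h1 2).trans h2
    calc (‖∑ i, f.D (u i) p‖ ^ 2) ^ 2 ≤ (f.N * ∑ i, gipX g (u i) (u i) p) ^ 2 :=
          pow_le_pow_left₀ (sq_nonneg _) h5 2
      _ = (f.N : ℝ) ^ 2 * (∑ i, gipX g (u i) (u i) p) ^ 2 := by ring
      _ ≤ (f.N : ℝ) ^ 2 * (f.N * ∑ i, (gipX g (u i) (u i) p) ^ 2) :=
          mul_le_mul_of_nonneg_left h3 (by positivity)
      _ = _ := by ring
  have hint : ∀ i, Integrable (fun p => (gipX g (u i) (u i) p) ^ 2) (vol g) := fun i =>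
    l2_int_sq ((gipX_memLp g (hu1 i) (hu1 i)).mono_exponent le_top)
  calc ∫ p, (gipX g (glue f fun i => U i k) (glue f fun i => U i k) p) ^ 2 ∂(vol g)
      ≤ ∫ p, (f.N : ℝ) ^ 3 * ∑ i, (gipX g (u i) (u i) p) ^ 2 ∂(vol g) := by
        refine integral_mono_of_nonneg (Eventually.of_forall fun p => sq_nonneg _) ?_
          (Eventually.of_forall hpt)
        exact (integrable_finsetSum _ fun i _ => hint i).const_mul _
    _ = (f.N : ℝ) ^ 3 * ∑ i, ∫ p, (gipX g (u i) (u i) p) ^ 2 ∂(vol g) := by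
        rw [integral_const_mul, integral_finsetSum _ fun i _ => hint i]
    _ ≤ (f.N : ℝ) ^ 3 * ∑ i, C i * M ^ 2 * B i := by
        refine mul_le_mul_of_nonneg_left (Finset.sum_le_sum fun i _ => ?_) (by positivity)
        refine (hCb i (U i k) M (hU i k) (hM i k)).trans ?_
        exact mul_le_mul_of_nonneg_left (hB i k) (mul_nonneg (hC0 i) (sq_nonneg _))

end

end Pool.Agent.CY.S4
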