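import Pool.Agent.CY.S4.L1t
import Pool.Agent.CY.S4.GD

/-!
# CY-S4-G1a: extension by zero: elementary facts

Tools (S5/Doms.lean): `dom_chart e : Dom (Hs n) (dom e)`, `pt_co`, `co_pt`, `pt_mem_source`, `co_mem_dom`, `Dom.pd_congr`,
`Dom.nhds`.  `loc e (ext e ψ) = ψ` on `dom e`, a neighbourhood within `Hs n` of its points.
-/

set_option autoImplicit false

open scoped Manifold ContDiff ENNReal
open MeasureTheory Set Filter Topology

namespace Pool.Agent.CY.S4

noncomputable section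

set_option linter.unusedSectionVars false

variable {n : ℕ} {X : Type} [TopologicalSpace X] [ChartedSpace (EuclideanHalfSpace (n + 1)) X]
  {e : OpenPartialHomeomorph X (EuclideanHalfSpace (n + 1))}

theorem ext_pt {ψ : V (n + 1) → ℝ} {y : V (n + 1)} (hy : y ∈ dom e) : ext e ψ (pt e y) = ψ y := by
  unfold ext
  rw [if_pos (pt_mem_source e hy), co_pt e hy]

theorem ext_co {ψ : V (n + 1) → ℝ} {p : X} (hp : p ∈ e.source) : ext e ψ p = ψ (co e p) := by
  unfold ext
  rw [if_pos hp]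

theorem ext_not {ψ : V (n + 1) → ℝ} {p : X} (hp : p ∉ e.source) : ext e ψ p = 0 := by
  unfold ext
  rw [if_neg hp]

theorem ext_add (ψ φ : V (n + 1) → ℝ) (p : X) : ext e (fun y => ψ y + φ y) p = ext e ψ p + ext e φ p := by
  unfold ext
  split_ifs
  · rfl
  · ring

theorem ext_sub (ψ φ : V (n + 1) → ℝ) (p : X) : ext e (fun y => ψ y - φ y) p = ext e ψ p - ext e φ p := by
  unfold ext
  split_ifs
  · rfl
  · ring

theorem loc_ext_eqOn (ψ : V (n + 1) → ℝ) : EqOn (loc e (ext e ψ)) ψ (dom e) := by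
  intro y hy
  exact ext_pt hy

theorem pd_loc_ext (ψ : V (n + 1) → ℝ) {y : V (n + 1)} (hy : y ∈ dom e) (i : Fin (n + 1)) :
    pd (Hs n) i (loc e (ext e ψ)) y = pd (Hs n) i ψ y := by
  exact (dom_chart e).pd_congr i (fun z hz => loc_ext_eqOn ψ hz) hy

theorem pd2_loc_ext (ψ : V (n + 1) → ℝ) {y : V (n + 1)} (hy : y ∈ dom e) (i j : Fin (n + 1)) :
    pd (Hs n) i (pd (Hs n) j (loc e (ext e ψ))) y = pd (Hs n) i (pd (Hs n) j ψ) y := by
  exact (dom_chart e).pd_congr i (fun z hz => pd_loc_ext ψ hz j) hy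

end

end Pool.Agent.CY.S4
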