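import Pool.Agent.CY.S3.IntChart
import Pool.Agent.CY.S3.NormD
import Pool.Agent.CY.S3.Fin
import Pool.Agent.CY.S4.G2
import Pool.Agent.CY.S4.Iface
import Pool.Agent.CY.S4.L0

/-!
# CY-S4-G6: an element of `H^1(X)` in a chart

`lf e χ (u k) ∈ T1` (`lf_T1`).  On the compact set `K = tsupport χ ∩ Hs n` the bounds `met_bounds` give, with
`int_vol_chart` (applied to functions multiplied by the indicator of `pt e '' K`), for `u, v ∈ C1 n X`:
`sq (lf e χ u - lf e χ v) ≤ C ∫ (u - v)² d(vol)`, `∑ sq (pd i (lf e χ u) - pd i (lf e χ v)) ≤ C (∫ ‖D u - D v‖² + ∫ (u - v)²)`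
(`pd_mul`, `norm_D`, `gip_eq`, `Frame.D_add`), and the boundary version.  So the sequences are Cauchy in `L²`, with limits
`lf e χ w` (directly from `∫ (u_k - w)² → 0`; measurability by `ae_vol_source` / the measurable embedding `ptS`),
`Vv i` (`l2_complete`) and `lb e χ τ`.
-/

set_option autoImplicit false

open scoped Manifold ContDiff ENNReal
open MeasureTheory Set Filter Topology

namespace Pool.Agent.CY.S4

noncomputable section

set_option linter.unusedSectionVars false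

variable {n : ℕ} {X : Type} [TopologicalSpace X] [ChartedSpace (EuclideanHalfSpace (n + 1)) X]
  [IsManifold (𝓡∂ (n + 1)) ∞ X] [CompactSpace X] [T2Space X] [MeasurableSpace X] [BorelSpace X]
  {g : Metric n X} {e : OpenPartialHomeomorph X (EuclideanHalfSpace (n + 1))}

private theorem nu_eq : nu n = (volume : Measure (V (n + 1))).restrict (Hs n) := restrict_Hs.symm

private theorem ae_Hs : ∀ᵐ x ∂(nu n), x ∈ Hs n := by
  rw [nu_eq]
  exact ae_restrict_mem measurableSet_Hs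

private theorem rhoS_nonneg (g : Metric n X) (e : OpenPartialHomeomorph X (EuclideanHalfSpace (n + 1)))
    (y : V (n + 1)) : 0 ≤ rhoS g e y := Real.sqrt_nonneg _

private theorem rhoB_nonneg (g : Metric n X) (e : OpenPartialHomeomorph X (EuclideanHalfSpace (n + 1)))
    (z : V n) : 0 ≤ rhoB g e z := Real.sqrt_nonneg _

private theorem restrict_dom (e : OpenPartialHomeomorph X (EuclideanHalfSpace (n + 1))) :
    (nu n).restrict (dom e) = (volume : Measure (V (n + 1))).restrict (dom e) := by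
  rw [nu_eq, Measure.restrict_restrict (measurableSet_dom e), inter_eq_left.mpr (dom_subset e)]

/-- Domination: interior. -/
private theorem dom_int (he : e ∈ atlas (EuclideanHalfSpace (n + 1)) X) {K : Set (V (n + 1))}
    (hKd : K ⊆ dom e) {c : ℝ} (hc : 0 < c) (hcK : ∀ y ∈ K, c ≤ rhoS g e y) {Φ : V (n + 1) → ℝ} {Ψ : X → ℝ}
    (hΨ0 : ∀ p, 0 ≤ Ψ p) (hΨ : Integrable Ψ (vol g)) {B : ℝ} (hB : 0 ≤ B) (hΦ0 : ∀ y, 0 ≤ Φ y)
    (hle : ∀ y ∈ K, Φ y ≤ B * Ψ (pt e y)) (hz : ∀ y ∈ Hs n, y ∉ K → Φ y = 0) :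
    (∀ᵐ y ∂(nu n), Φ y ≤ (dom e).indicator (fun y => B / c * (Ψ (pt e y) * rhoS g e y)) y) ∧
    Integrable ((dom e).indicator (fun y => B / c * (Ψ (pt e y) * rhoS g e y))) (nu n) ∧
    ∫ y, Φ y ∂(nu n) ≤ B / c * ∫ p, Ψ p ∂(vol g) := by
  have h1 : ∀ᵐ y ∂(nu n), Φ y ≤ (dom e).indicator (fun y => B / c * (Ψ (pt e y) * rhoS g e y)) y := by
    filter_upwards [ae_Hs] with y hy
    by_cases hyK : y ∈ K
    · rw [indicator_of_mem (hKd hyK)]
      refine (hle y hyK).trans ?_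
      have h2 : 1 ≤ rhoS g e y / c := by
        rw [le_div_iff₀ hc, one_mul]; exact hcK y hyK
      have h3 : 0 ≤ B * Ψ (pt e y) := mul_nonneg hB (hΨ0 _)
      calc B * Ψ (pt e y) = B * Ψ (pt e y) * 1 := by ring
        _ ≤ B * Ψ (pt e y) * (rhoS g e y / c) := mul_le_mul_of_nonneg_left h2 h3
        _ = B / c * (Ψ (pt e y) * rhoS g e y) := by ring
    · rw [hz y hy hyK]
      refine indicator_nonneg (fun y _ => ?_) y
      exact mul_nonneg (div_nonneg hB hc.le) (mul_nonneg (hΨ0 _) (rhoS_nonneg _ _ _))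
  have h2 : IntegrableOn (fun y => Ψ (pt e y) * rhoS g e y) (dom e) :=
    (integrableOn_vol_source g he Ψ).mp hΨ.integrableOn
  have h3 : Integrable ((dom e).indicator (fun y => B / c * (Ψ (pt e y) * rhoS g e y))) (nu n) := by
    rw [integrable_indicator_iff (measurableSet_dom e), IntegrableOn, restrict_dom]
    exact h2.const_mul (B / c)
  refine ⟨h1, h3, ?_⟩
  refine (integral_mono_of_nonneg (Eventually.of_forall hΦ0) h3 h1).trans ?_
  rw [integral_indicator (measurableSet_dom e), restrict_dom, integral_const_mul, ← int_vol_source g he Ψ]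
  exact mul_le_mul_of_nonneg_left (setIntegral_le_integral hΨ (Eventually.of_forall hΨ0)) (div_nonneg hB hc.le)

/-- Domination: boundary. -/
private theorem dom_bd (he : e ∈ atlas (EuclideanHalfSpace (n + 1)) X) {K : Set (V (n + 1))}
    (hKd : K ⊆ dom e) {c : ℝ} (hc : 0 < c) (hcK : ∀ z : V n, bd z ∈ K → c ≤ rhoB g e z) {Φ : V n → ℝ} {Ψ : X → ℝ}
    (hΨ0 : ∀ p, 0 ≤ Ψ p) (hΨ : Integrable Ψ (bvol g)) {B : ℝ} (hB : 0 ≤ B) (hΦ0 : ∀ z, 0 ≤ Φ z)
    (hle : ∀ z : V n, bd z ∈ K → Φ z ≤ B * Ψ (pt e (bd z))) (hz : ∀ z : V n, bd z ∉ K → Φ z = 0) :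
    (∀ᵐ z : V n, Φ z ≤ (bdom e).indicator (fun z => B / c * (Ψ (pt e (bd z)) * rhoB g e z)) z) ∧
    Integrable ((bdom e).indicator (fun z => B / c * (Ψ (pt e (bd z)) * rhoB g e z))) (volume : Measure (V n)) ∧
    ∫ z, Φ z ≤ B / c * ∫ p, Ψ p ∂(bvol g) := by
  have h1 : ∀ᵐ z : V n, Φ z ≤ (bdom e).indicator (fun z => B / c * (Ψ (pt e (bd z)) * rhoB g e z)) z := by
    refine Eventually.of_forall fun z => ?_
    by_cases hyK : bd z ∈ K
    · have hzb : z ∈ bdom e := hKd hyK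
      rw [indicator_of_mem hzb]
      refine (hle z hyK).trans ?_
      have h2 : 1 ≤ rhoB g e z / c := by
        rw [le_div_iff₀ hc, one_mul]; exact hcK z hyK
      have h3 : 0 ≤ B * Ψ (pt e (bd z)) := mul_nonneg hB (hΨ0 _)
      calc B * Ψ (pt e (bd z)) = B * Ψ (pt e (bd z)) * 1 := by ring
        _ ≤ B * Ψ (pt e (bd z)) * (rhoB g e z / c) := mul_le_mul_of_nonneg_left h2 h3
        _ = B / c * (Ψ (pt e (bd z)) * rhoB g e z) := by ring
    · rw [hz z hyK]
      refine indicator_nonneg (fun y _ => ?_) z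
      exact mul_nonneg (div_nonneg hB hc.le) (mul_nonneg (hΨ0 _) (rhoB_nonneg _ _ _))
  have hm : MeasurableSet (bdom e) := (isOpen_bdom e).measurableSet
  have h2 : IntegrableOn (fun z => Ψ (pt e (bd z)) * rhoB g e z) (bdom e) :=
    (integrableOn_bvol_source g he Ψ).mp hΨ.integrableOn
  have h3 : Integrable ((bdom e).indicator (fun z => B / c * (Ψ (pt e (bd z)) * rhoB g e z)))
      (volume : Measure (V n)) := by
    rw [integrable_indicator_iff hm]
    exact h2.const_mul (B / c)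
  refine ⟨h1, h3, ?_⟩
  refine (integral_mono_of_nonneg (Eventually.of_forall hΦ0) h3 h1).trans ?_
  rw [integral_indicator hm, integral_const_mul, ← int_bvol_source g he Ψ]
  exact mul_le_mul_of_nonneg_left (setIntegral_le_integral hΨ (Eventually.of_forall hΨ0)) (div_nonneg hB hc.le)

private theorem cut_bd {χ : V (n + 1) → ℝ} (h : Cut e χ) (y : V (n + 1)) : χ y ^ 2 ≤ 1 := by
  have h0 := h.nonneg y
  have h1 := h.le_one y
  nlinarith

private theorem cut_zero {χ : V (n + 1) → ℝ} {y : V (n + 1)} (hy : y ∈ Hs n) (hyK : y ∉ tsupport χ ∩ Hs n) :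
    χ y = 0 := image_eq_zero_of_notMem_tsupport fun h1 => hyK ⟨h1, hy⟩

private theorem lf_sq_le {χ : V (n + 1) → ℝ} (h : Cut e χ) (w : X → ℝ) (y : V (n + 1)) (hy : y ∈ dom e) :
    lf e χ w y ^ 2 ≤ 1 * w (pt e y) ^ 2 := by
  rw [lf, indicator_of_mem hy, mul_pow]
  exact mul_le_mul_of_nonneg_right (cut_bd h y) (sq_nonneg _)

private theorem lf_zero {χ : V (n + 1) → ℝ} (w : X → ℝ) {y : V (n + 1)} (hy : y ∈ Hs n)
    (hyK : y ∉ tsupport χ ∩ Hs n) : lf e χ w y = 0 := by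
  rw [lf]
  by_cases hd : y ∈ dom e
  · rw [indicator_of_mem hd, cut_zero hy hyK, zero_mul]
  · exact indicator_of_notMem hd _

private theorem lf_sub (χ : V (n + 1) → ℝ) (u v : X → ℝ) (y : V (n + 1)) :
    lf e χ (fun p => u p - v p) y = lf e χ u y - lf e χ v y := by
  unfold lf
  by_cases hd : y ∈ dom e
  · simp only [indicator_of_mem hd]; ring
  · simp only [indicator_of_notMem hd]; ring

private theorem lb_eq (χ : V (n + 1) → ℝ) (u : X → ℝ) (z : V n) : lb e χ u z = lf e χ u (bd z) := by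
  unfold lb lf
  by_cases hd : bd z ∈ dom e
  · have hz : z ∈ bdom e := hd
    rw [indicator_of_mem hd, indicator_of_mem hz]
  · have hz : z ∉ bdom e := hd
    rw [indicator_of_notMem hd, indicator_of_notMem hz]

private theorem lf_meas (he : e ∈ atlas (EuclideanHalfSpace (n + 1)) X) {χ : V (n + 1) → ℝ} (h : Cut e χ) {w : X → ℝ}
    (hw : AEStronglyMeasurable w (vol g)) : AEStronglyMeasurable (lf e χ w) (nu n) := by
  obtain ⟨w', hw', hae⟩ := hw
  have h1 : AEMeasurable (pt e) ((volume : Measure (V (n + 1))).restrict (dom e)) :=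
    (continuousOn_pt e).aemeasurable (measurableSet_dom e)
  have h2 : AEStronglyMeasurable (fun y => w' (pt e y)) ((volume : Measure (V (n + 1))).restrict (dom e)) :=
    (hw'.measurable.comp_aemeasurable h1).aestronglyMeasurable
  have h3 : ∀ᵐ y ∂((volume : Measure (V (n + 1))).restrict (dom e)), w' (pt e y) = w (pt e y) := by
    rw [ae_restrict_iff' (measurableSet_dom e)]
    refine (ae_vol_source g he (fun p => w' p = w p)).mp ?_
    filter_upwards [hae] with p hp _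
    exact hp.symm
  have h4 : AEStronglyMeasurable (fun y => χ y * w (pt e y)) ((volume : Measure (V (n + 1))).restrict (dom e)) :=
    (h.smooth.continuous.aestronglyMeasurable).mul (h2.congr h3)
  unfold lf
  rw [aestronglyMeasurable_indicator_iff (measurableSet_dom e), restrict_dom]
  exact h4

private theorem lb_meas (he : e ∈ atlas (EuclideanHalfSpace (n + 1)) X) {χ : V (n + 1) → ℝ} (h : Cut e χ) {w : X → ℝ}
    (hw : AEStronglyMeasurable w (bvol g)) : AEStronglyMeasurable (lb e χ w) (volume : Measure (V n)) := by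
  obtain ⟨w', hw', hae⟩ := hw
  have hm : MeasurableSet (bdom e) := (isOpen_bdom e).measurableSet
  have h0 : ContinuousOn (fun z : V n => pt e (bd z)) (bdom e) :=
    (continuousOn_pt e).comp continuous_bd.continuousOn fun z hz => hz
  have h1 : AEMeasurable (fun z : V n => pt e (bd z)) ((volume : Measure (V n)).restrict (bdom e)) :=
    h0.aemeasurable hm
  have h2 : AEStronglyMeasurable (fun z : V n => w' (pt e (bd z))) ((volume : Measure (V n)).restrict (bdom e)) :=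
    (hw'.measurable.comp_aemeasurable h1).aestronglyMeasurable
  have h3 : ∀ᵐ z ∂((volume : Measure (V n)).restrict (bdom e)), w' (pt e (bd z)) = w (pt e (bd z)) := by
    rw [ae_restrict_iff' hm]
    refine (ae_bvol_source g he (fun p => w' p = w p)).mp ?_
    filter_upwards [hae] with p hp _
    exact hp.symm
  have hχ : Continuous (fun z : V n => χ (bd z)) := h.smooth.continuous.comp continuous_bd
  have h4 : AEStronglyMeasurable (fun z : V n => χ (bd z) * w (pt e (bd z)))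
      ((volume : Measure (V n)).restrict (bdom e)) :=
    hχ.aestronglyMeasurable.mul (h2.congr h3)
  unfold lb
  rw [aestronglyMeasurable_indicator_iff hm]
  exact h4

theorem lf_memLp (he : e ∈ atlas (EuclideanHalfSpace (n + 1)) X) {χ : V (n + 1) → ℝ} (h : Cut e χ) {w : X → ℝ}
    (hw : MemLp w 2 (vol g)) : MemLp (lf e χ w) 2 (nu n) := by
  obtain ⟨c, C, hc, hS, -⟩ := met_bounds g he h.compact h.sub
  have hm := lf_meas he h hw.1
  rw [memLp_two_iff_integrable_sq hm]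
  have hd := dom_int (g := g) he h.sub hc (fun y hy => (hS y hy).1) (Φ := fun y => lf e χ w y ^ 2)
    (Ψ := fun p => w p ^ 2) (fun p => sq_nonneg _) hw.integrable_sq zero_le_one (fun y => sq_nonneg _)
    (fun y hy => lf_sq_le h w y (h.sub hy)) (fun y hy hyK => by
      show lf e χ w y ^ 2 = 0
      rw [lf_zero w hy hyK]; simp)
  refine Integrable.mono' hd.2.1 (hm.pow 2) ?_
  filter_upwards [hd.1] with y hy
  rw [Real.norm_eq_abs, abs_of_nonneg (sq_nonneg _)]
  exact hy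

private theorem lb_sq_le {χ : V (n + 1) → ℝ} (h : Cut e χ) (w : X → ℝ) (z : V n) (hz : bd z ∈ dom e) :
    lb e χ w z ^ 2 ≤ 1 * w (pt e (bd z)) ^ 2 := by
  rw [lb_eq]
  exact lf_sq_le h w _ hz

theorem lb_memLp (he : e ∈ atlas (EuclideanHalfSpace (n + 1)) X) {χ : V (n + 1) → ℝ} (h : Cut e χ) {t : X → ℝ}
    (ht : MemLp t 2 (bvol g)) : MemLp (lb e χ t) 2 (volume : Measure (V n)) := by
  obtain ⟨c, C, hc, -, -, -, hB⟩ := met_bounds g he h.compact h.sub
  have hm := lb_meas he h ht.1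
  rw [memLp_two_iff_integrable_sq hm]
  have hd := dom_bd (g := g) he h.sub hc (fun y hy => (hB y hy).1) (Φ := fun y => lb e χ t y ^ 2)
    (Ψ := fun p => t p ^ 2) (fun p => sq_nonneg _) ht.integrable_sq zero_le_one (fun y => sq_nonneg _)
    (fun y hy => lb_sq_le h t y (h.sub hy)) (fun y hyK => by
      show lb e χ t y ^ 2 = 0
      rw [lb_eq, lf_zero t (bd_mem y) hyK]; simp)
  refine Integrable.mono' hd.2.1 (hm.pow 2) ?_
  filter_upwards [hd.1] with y hy
  rw [Real.norm_eq_abs, abs_of_nonneg (sq_nonneg _)]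
  exact hy

private theorem cut_T1 {χ : V (n + 1) → ℝ} (h : Cut e χ) : χ ∈ T1 n :=
  ⟨(h.smooth.of_le (by exact_mod_cast le_top)).contDiffOn, h.cpt⟩

private theorem dom_nhds {y : V (n + 1)} (hy : y ∈ dom e) : dom e ∈ 𝓝[Hs n] y := by
  obtain ⟨O, hO, hOe⟩ := dom_open e
  rw [hOe] at hy ⊢
  exact inter_mem (mem_nhdsWithin_of_mem_nhds (hO.mem_nhds hy.1)) self_mem_nhdsWithin

private theorem pd_lf (he : e ∈ atlas (EuclideanHalfSpace (n + 1)) X) {χ : V (n + 1) → ℝ} (h : Cut e χ) {d : X → ℝ}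
    (hd : d ∈ C1 n X) {y : V (n + 1)} (hy : y ∈ dom e) (i : Fin (n + 1)) :
    pd (Hs n) i (lf e χ d) y = χ y * pd (Hs n) i (loc e d) y + pd (Hs n) i χ y * loc e d y := by
  have hyH := dom_subset e hy
  have h1 : lf e χ d =ᶠ[𝓝[Hs n] y] fun y => χ y * loc e d y := by
    filter_upwards [dom_nhds hy] with x hx
    rw [lf, indicator_of_mem hx]
    rfl
  rw [pd_congr h1 hyH]
  have hl : DifferentiableWithinAt ℝ (loc e d) (Hs n) y := by
    have hk : ContMDiff (𝓡∂ (n + 1)) 𝓘(ℝ) ((1 : ℕ∞) : WithTop ℕ∞) d := hd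
    have h2 := (contDiffOn_loc he hk).differentiableOn (by norm_num) y hy
    exact h2.mono_of_mem_nhdsWithin (dom_nhds hy)
  have hχ : DifferentiableWithinAt ℝ χ (Hs n) y := T1_diff (cut_T1 h) hyH
  exact pd_mul hχ hl hyH i

private theorem pd_lf_zero {χ : V (n + 1) → ℝ} (d : X → ℝ) {y : V (n + 1)} (hy : y ∈ Hs n)
    (hyK : y ∉ tsupport χ ∩ Hs n) (i : Fin (n + 1)) : pd (Hs n) i (lf e χ d) y = 0 := by
  have hyt : y ∉ tsupport χ := fun h1 => hyK ⟨h1, hy⟩
  have h0 : ∀ᶠ x in 𝓝 y, χ x = 0 := by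
    have : (tsupport χ)ᶜ ∈ 𝓝 y := (isClosed_tsupport χ).isOpen_compl.mem_nhds hyt
    filter_upwards [this] with x hx
    exact image_eq_zero_of_notMem_tsupport hx
  have h1 : lf e χ d =ᶠ[𝓝[Hs n] y] fun _ => (0 : ℝ) := by
    filter_upwards [mem_nhdsWithin_of_mem_nhds h0] with x hx
    have hx' : χ x = 0 := hx
    rw [lf]
    by_cases hd : x ∈ dom e
    · rw [indicator_of_mem hd, hx', zero_mul]
    · exact indicator_of_notMem hd _
  rw [pd_congr h1 hy, pd_const]

private theorem C1_sub {u v : X → ℝ} (hu : u ∈ C1 n X) (hv : v ∈ C1 n X) : (fun p => u p - v p) ∈ C1 n X := by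
  have h1 := C1.add hu (C1.smul (-1) hv)
  have e1 : (fun x => u x + -1 * v x) = fun p => u p - v p := by
    ext p; ring
  rw [e1] at h1
  exact h1

private theorem D_sub (f : Frame g) {u v : X → ℝ} (hu : u ∈ C1 n X) (hv : v ∈ C1 n X) (p : X) :
    f.D (fun p => u p - v p) p = f.D u p - f.D v p := by
  have e1 : (fun p => u p - v p) = fun x => u x + -1 * v x := by
    ext p; ring
  rw [e1, f.D_add hu (C1.smul (-1) hv), f.D_smul (-1) hv]
  simp [sub_eq_add_neg]

private theorem D_memLp (f : Frame g) {u : X → ℝ} (hu : u ∈ C1 n X) : MemLp (f.D u) 2 (vol g) := by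
  have hc := f.continuous_D hu
  obtain ⟨C, hC⟩ := (isCompact_range hc).isBounded.exists_norm_le
  exact MemLp.of_bound hc.aestronglyMeasurable C (Eventually.of_forall fun x => hC _ (mem_range_self x))

private theorem C1_memLp {u : X → ℝ} (hu : u ∈ C1 n X) : MemLp u 2 (vol g) := by
  have hc := C1.continuous hu
  obtain ⟨C, hC⟩ := (isCompact_range hc).isBounded.exists_norm_le
  exact MemLp.of_bound hc.aestronglyMeasurable C (Eventually.of_forall fun x => hC _ (mem_range_self x))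

private theorem C1_memLpb {u : X → ℝ} (hu : u ∈ C1 n X) : MemLp u 2 (bvol g) := by
  have hc := C1.continuous hu
  obtain ⟨C, hC⟩ := (isCompact_range hc).isBounded.exists_norm_le
  exact MemLp.of_bound hc.aestronglyMeasurable C (Eventually.of_forall fun x => hC _ (mem_range_self x))

private theorem grad_bd (he : e ∈ atlas (EuclideanHalfSpace (n + 1)) X) (f : Frame g) {χ : V (n + 1) → ℝ}
    (h : Cut e χ) : ∃ B : ℝ, 0 ≤ B ∧ ∀ d ∈ C1 n X, ∀ i, sq (pd (Hs n) i (lf e χ d)) ≤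
      B * ∫ p, (‖f.D d p‖ ^ 2 + d p ^ 2) ∂(vol g) := by
  obtain ⟨c, C, hc, hS, hG, -⟩ := met_bounds g he h.compact h.sub
  obtain ⟨M, hM, hMp⟩ := T1_bdd (cut_T1 h)
  refine ⟨(2 / c + 2 * M ^ 2) / c, by positivity, fun d hd i => ?_⟩
  have hΨ : Integrable (fun p => ‖f.D d p‖ ^ 2 + d p ^ 2) (vol g) :=
    (D_memLp f hd).norm.integrable_sq.add (C1_memLp hd).integrable_sq
  refine (dom_int (g := g) he h.sub hc (fun y hy => (hS y hy).1)
    (Φ := fun y => pd (Hs n) i (lf e χ d) y ^ 2) (Ψ := fun p => ‖f.D d p‖ ^ 2 + d p ^ 2)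
    (fun p => by positivity) hΨ (B := 2 / c + 2 * M ^ 2) (by positivity) (fun y => sq_nonneg _)
    (fun y hy => ?_) (fun y hy hyK => ?_)).2.2
  · have hyd := h.sub hy
    show pd (Hs n) i (lf e χ d) y ^ 2 ≤ (2 / c + 2 * M ^ 2) * (‖f.D d (pt e y)‖ ^ 2 + d (pt e y) ^ 2)
    rw [pd_lf he h hd hyd i]
    have h1 : ‖f.D d (pt e y)‖ ^ 2 = gip (Hs n) (g.G e) (loc e d) (loc e d) y := by
      rw [norm_D g f d hd, ← gip_chart g he (pt_mem_source e hyd) hd hd, co_pt e hyd]
    have h2 : c * ∑ j, pd (Hs n) j (loc e d) y ^ 2 ≤ ‖f.D d (pt e y)‖ ^ 2 := by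
      rw [h1]
      refine ((hG y hy) (fun j => pd (Hs n) j (loc e d) y)).1.trans (le_of_eq ?_)
      unfold gip
      exact Finset.sum_congr rfl fun i _ => Finset.sum_congr rfl fun j _ => by ring
    have h3 : pd (Hs n) i (loc e d) y ^ 2 ≤ ∑ j, pd (Hs n) j (loc e d) y ^ 2 :=
      Finset.single_le_sum (f := fun j => pd (Hs n) j (loc e d) y ^ 2) (fun j _ => sq_nonneg _) (Finset.mem_univ i)
    have h4 : pd (Hs n) i (loc e d) y ^ 2 ≤ ‖f.D d (pt e y)‖ ^ 2 / c := by
      rw [le_div_iff₀ hc]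
      nlinarith
    have h5 : pd (Hs n) i χ y ^ 2 ≤ M ^ 2 := by
      rw [← sq_abs]
      exact pow_le_pow_left₀ (abs_nonneg _) (hMp y hy.2 i) 2
    have h6 := cut_bd h y
    have h7 : loc e d y = d (pt e y) := rfl
    have h8 : (χ y * pd (Hs n) i (loc e d) y) ^ 2 ≤ ‖f.D d (pt e y)‖ ^ 2 / c := by
      rw [mul_pow]
      calc χ y ^ 2 * pd (Hs n) i (loc e d) y ^ 2 ≤ 1 * pd (Hs n) i (loc e d) y ^ 2 :=
            mul_le_mul_of_nonneg_right h6 (sq_nonneg _)
        _ ≤ _ := by rw [one_mul]; exact h4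
    have h9 : (pd (Hs n) i χ y * loc e d y) ^ 2 ≤ M ^ 2 * d (pt e y) ^ 2 := by
      rw [mul_pow, h7]
      exact mul_le_mul_of_nonneg_right h5 (sq_nonneg _)
    have h10 : (χ y * pd (Hs n) i (loc e d) y + pd (Hs n) i χ y * loc e d y) ^ 2 ≤
        2 * (‖f.D d (pt e y)‖ ^ 2 / c) + 2 * (M ^ 2 * d (pt e y) ^ 2) := by
      have := add_sq_le (a := χ y * pd (Hs n) i (loc e d) y) (b := pd (Hs n) i χ y * loc e d y)
      linarith
    refine h10.trans ?_
    have h11 : 0 ≤ 2 / c * d (pt e y) ^ 2 := by positivity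
    have h12 : 0 ≤ 2 * M ^ 2 * ‖f.D d (pt e y)‖ ^ 2 := by positivity
    have h13 : (2 / c + 2 * M ^ 2) * (‖f.D d (pt e y)‖ ^ 2 + d (pt e y) ^ 2) =
        2 * (‖f.D d (pt e y)‖ ^ 2 / c) + 2 * (M ^ 2 * d (pt e y) ^ 2) + 2 / c * d (pt e y) ^ 2 +
        2 * M ^ 2 * ‖f.D d (pt e y)‖ ^ 2 := by ring
    rw [h13]
    linarith
  · show pd (Hs n) i (lf e χ d) y ^ 2 = 0
    rw [pd_lf_zero d hy hyK i]
    simp

theorem chart_HH (he : e ∈ atlas (EuclideanHalfSpace (n + 1)) X) (f : Frame g) {χ : V (n + 1) → ℝ} (h : Cut e χ)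
    {w : X → ℝ} {ζ : X → f.F} {τ : X → ℝ} (hw : MemLp w 2 (vol g)) (hζ : MemLp ζ 2 (vol g))
    (hτ : MemLp τ 2 (bvol g)) {u : ℕ → X → ℝ} (hu : ∀ k, u k ∈ C1 n X)
    (hT : TendH (vol g) (bvol g) f.D u w ζ τ) :
    ∃ Vv : Fin (n + 1) → V (n + 1) → ℝ, HH (lf e χ w) Vv (lb e χ τ) ∧
      Tendsto (fun k => sq (fun y => lf e χ (u k) y - lf e χ w y)) atTop (𝓝 0) ∧
      ∀ i, Tendsto (fun k => sq (fun y => pd (Hs n) i (lf e χ (u k)) y - Vv i y)) atTop (𝓝 0) := by
  obtain ⟨hT1, hT2, hT3⟩ := hT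
  obtain ⟨c, C, hc, hS, -, -, hBd⟩ := met_bounds g he h.compact h.sub
  obtain ⟨B, hB0, hB⟩ := grad_bd (g := g) he f h
  have hT1' : ∀ k, lf e χ (u k) ∈ T1 n := fun k => lf_T1 he h (hu k)
  -- convergence of the functions
  have A1 : Tendsto (fun k => sq (fun y => lf e χ (u k) y - lf e χ w y)) atTop (𝓝 0) := by
    have hb : ∀ k, sq (fun y => lf e χ (u k) y - lf e χ w y) ≤ 1 / c * ∫ p, (u k p - w p) ^ 2 ∂(vol g) := by
      intro k
      refine (dom_int (g := g) he h.sub hc (fun y hy => (hS y hy).1)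
        (Φ := fun y => (lf e χ (u k) y - lf e χ w y) ^ 2) (Ψ := fun p => (u k p - w p) ^ 2)
        (fun p => sq_nonneg _) ((C1_memLp (hu k)).sub hw).integrable_sq zero_le_one (fun y => sq_nonneg _)
        (fun y hy => ?_) (fun y hy hyK => ?_)).2.2
      · have := lf_sq_le h (fun p => u k p - w p) y (h.sub hy)
        rw [lf_sub] at this
        exact this
      · show (lf e χ (u k) y - lf e χ w y) ^ 2 = 0
        rw [lf_zero _ hy hyK, lf_zero _ hy hyK]; simp
    have h0 : Tendsto (fun k => 1 / c * ∫ p, (u k p - w p) ^ 2 ∂(vol g)) atTop (𝓝 0) := by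
      simpa using hT1.const_mul (1 / c)
    exact squeeze_zero (fun k => integral_nonneg fun _ => sq_nonneg _) hb h0
  -- the gradients are Cauchy sequences
  have hpm : ∀ i k, MemLp (pd (Hs n) i (lf e χ (u k))) 2 (nu n) := fun i k => (T1_memLp (hT1' k) 2).2 i
  have A2 : ∀ i, ∀ ε > 0, ∃ N, ∀ j ≥ N, ∀ k ≥ N,
      ∫ x, (pd (Hs n) i (lf e χ (u j)) x - pd (Hs n) i (lf e χ (u k)) x) ^ 2 ∂(nu n) ≤ ε := by
    intro i ε hε
    have hB1 : 0 < B + 1 := by linarith
    have e1 : ∀ᶠ k in atTop, ∫ p, (u k p - w p) ^ 2 ∂(vol g) < ε / (8 * (B + 1)) :=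
      hT1.eventually (gt_mem_nhds (by positivity))
    have e2 : ∀ᶠ k in atTop, ∫ p, ‖f.D (u k) p - ζ p‖ ^ 2 ∂(vol g) < ε / (8 * (B + 1)) :=
      hT2.eventually (gt_mem_nhds (by positivity))
    obtain ⟨N, hN⟩ := eventually_atTop.mp (e1.and e2)
    refine ⟨N, fun j hj k hk => ?_⟩
    have hd : (fun p => u j p - u k p) ∈ C1 n X := C1_sub (hu j) (hu k)
    have e3 : ∫ x, (pd (Hs n) i (lf e χ (u j)) x - pd (Hs n) i (lf e χ (u k)) x) ^ 2 ∂(nu n) =
        sq (pd (Hs n) i (lf e χ (fun p => u j p - u k p))) := by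
      unfold sq
      refine integral_congr_ae ?_
      filter_upwards [ae_Hs] with x hx
      have e4 : lf e χ (fun p => u j p - u k p) = fun y => lf e χ (u j) y - lf e χ (u k) y := by
        ext y
        exact lf_sub χ (u j) (u k) y
      rw [e4, pd_sub (T1_diff (hT1' j) hx) (T1_diff (hT1' k) hx) hx i]
    rw [e3]
    refine (hB _ hd i).trans ?_
    have mj := (D_memLp f (hu j)).sub hζ
    have mk := (D_memLp f (hu k)).sub hζ
    have i1 : ∫ p, ‖f.D (fun p => u j p - u k p) p‖ ^ 2 ∂(vol g) ≤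
        2 * ∫ p, ‖f.D (u j) p - ζ p‖ ^ 2 ∂(vol g) + 2 * ∫ p, ‖f.D (u k) p - ζ p‖ ^ 2 ∂(vol g) := by
      have ij : Integrable (fun p => ‖f.D (u j) p - ζ p‖ ^ 2) (vol g) := mj.norm.integrable_sq
      have ik : Integrable (fun p => ‖f.D (u k) p - ζ p‖ ^ 2) (vol g) := mk.norm.integrable_sq
      rw [← integral_const_mul, ← integral_const_mul, ← integral_add (ij.const_mul 2) (ik.const_mul 2)]
      refine integral_mono_of_nonneg (Eventually.of_forall fun p => sq_nonneg _)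
        ((ij.const_mul 2).add (ik.const_mul 2)) (Eventually.of_forall fun p => ?_)
      show ‖f.D (fun p => u j p - u k p) p‖ ^ 2 ≤ 2 * ‖f.D (u j) p - ζ p‖ ^ 2 + 2 * ‖f.D (u k) p - ζ p‖ ^ 2
      rw [D_sub f (hu j) (hu k)]
      have t1 : ‖f.D (u j) p - f.D (u k) p‖ ≤ ‖f.D (u j) p - ζ p‖ + ‖f.D (u k) p - ζ p‖ := by
        have := norm_sub_le (f.D (u j) p - ζ p) (f.D (u k) p - ζ p)
        simpa using this
      have t2 := pow_le_pow_left₀ (norm_nonneg _) t1 2
      have t3 := add_sq_le (a := ‖f.D (u j) p - ζ p‖) (b := ‖f.D (u k) p - ζ p‖)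
      linarith
    have i2 : ∫ p, (u j p - u k p) ^ 2 ∂(vol g) ≤
        2 * ∫ p, (u j p - w p) ^ 2 ∂(vol g) + 2 * ∫ p, (u k p - w p) ^ 2 ∂(vol g) := by
      have e5 : (fun p => (u j p - u k p) ^ 2) = fun p => ((u j p - w p) - (u k p - w p)) ^ 2 := by
        ext p; ring
      rw [e5]
      exact l2_sub_le ((C1_memLp (hu j)).sub hw) ((C1_memLp (hu k)).sub hw)
    have i3 : ∫ p, (‖f.D (fun p => u j p - u k p) p‖ ^ 2 + (u j p - u k p) ^ 2) ∂(vol g) ≤ ε / (B + 1) := by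
      rw [integral_add (D_memLp f hd).norm.integrable_sq (C1_memLp hd).integrable_sq]
      have a1 := hN j hj
      have a2 := hN k hk
      have a3 : 8 * (ε / (8 * (B + 1))) = ε / (B + 1) := by
        field_simp
      linarith [a1.1, a1.2, a2.1, a2.2]
    calc B * ∫ p, (‖f.D (fun p => u j p - u k p) p‖ ^ 2 + (u j p - u k p) ^ 2) ∂(vol g)
        ≤ B * (ε / (B + 1)) := mul_le_mul_of_nonneg_left i3 hB0
      _ = B / (B + 1) * ε := by ring
      _ ≤ 1 * ε := by
          refine mul_le_mul_of_nonneg_right ?_ hε.le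
          rw [div_le_one hB1]
          linarith
      _ = ε := one_mul ε
  choose Vv hVm hVt using fun i => l2_complete (hpm i) (A2 i)
  -- the traces
  have A3 : Tendsto (fun k => ∫ z : V n, (lf e χ (u k) (bd z) - lb e χ τ z) ^ 2) atTop (𝓝 0) := by
    have hb : ∀ k, ∫ z : V n, (lf e χ (u k) (bd z) - lb e χ τ z) ^ 2 ≤
        1 / c * ∫ p, (u k p - τ p) ^ 2 ∂(bvol g) := by
      intro k
      refine (dom_bd (g := g) he h.sub hc (fun y hy => (hBd y hy).1)
        (Φ := fun z => (lf e χ (u k) (bd z) - lb e χ τ z) ^ 2) (Ψ := fun p => (u k p - τ p) ^ 2)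
        (fun p => sq_nonneg _) ((C1_memLpb (hu k)).sub hτ).integrable_sq zero_le_one (fun y => sq_nonneg _)
        (fun y hy => ?_) (fun y hyK => ?_)).2.2
      · have := lf_sq_le h (fun p => u k p - τ p) (bd y) (h.sub hy)
        rw [lf_sub] at this
        show (lf e χ (u k) (bd y) - lb e χ τ y) ^ 2 ≤ 1 * (u k (pt e (bd y)) - τ (pt e (bd y))) ^ 2
        rw [lb_eq]
        exact this
      · show (lf e χ (u k) (bd y) - lb e χ τ y) ^ 2 = 0
        rw [lb_eq, lf_zero _ (bd_mem y) hyK, lf_zero _ (bd_mem y) hyK]; simp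
    have h0 : Tendsto (fun k => 1 / c * ∫ p, (u k p - τ p) ^ 2 ∂(bvol g)) atTop (𝓝 0) := by
      simpa using hT3.const_mul (1 / c)
    exact squeeze_zero (fun k => integral_nonneg fun _ => sq_nonneg _) hb h0
  exact ⟨Vv, ⟨lf_memLp he h hw, hVm, lb_memLp he h hτ, fun k => lf e χ (u k), hT1', A1, hVt, A3⟩, A1, hVt⟩

end

end Pool.Agent.CY.S4
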