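import Pool.Agent.CY.S4.G6

/-!
# CY-S4-G7: the Dirichlet form in a chart

`χ1 = 1` on the open set `O ⊇ tsupport χ ∩ Hs n` (only points of `Hs n` matter).  `Φ = ext e (χ φ) ∈ C1 n X` (`ext_contMDiff`).
`∫ ⟨ζ, D Φ⟩ = lim ∫ ⟨D u_k, D Φ⟩` (`hT`, Cauchy-Schwarz; `D Φ` is continuous) `= lim ∫ gipX g (u_k) Φ` (`inner_D`)
`= lim ∫_{Ho} indicator (dom e) (∑ g^{ij} ∂_i (u_k ∘ pt e) ∂_j (χ φ) rhoS)` (`int_vol_chart`, `gip_eq`, `pd_loc_ext`), and on
the points where `∂_j (χ φ) ≠ 0` (in `tsupport χ`), `∂_i (u_k ∘ pt e) = ∂_i (lf e χ1 (u_k))`, which tends to `Vv i` in `L²`;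
`cn rhoS g^{ij} = Aco = A` there (`hA`; symmetry of `g^{ij}`).
-/

set_option autoImplicit false

open scoped Manifold ContDiff ENNReal
open MeasureTheory Set Filter Topology

namespace Pool.Agent.CY.S4

noncomputable section

set_option linter.unusedSectionVars false

variable {n : ℕ} {X : Type} [TopologicalSpace X] [ChartedSpace (EuclideanHalfSpace (n + 1)) X]
  [IsManifold (𝓡∂ (n + 1)) ∞ X] [CompactSpace X] [T2Space X] [MeasurableSpace X] [BorelSpace X]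
  {g : Metric n X} {e : OpenPartialHomeomorph X (EuclideanHalfSpace (n + 1))}

theorem tendsto_inner_D (f : Frame g) {ζ : X → f.F} (hζ : MemLp ζ 2 (vol g)) {u : ℕ → X → ℝ}
    (hu : ∀ k, u k ∈ C1 n X)
    (hT : Tendsto (fun k => ∫ x, ‖f.D (u k) x - ζ x‖ ^ 2 ∂(vol g)) atTop (𝓝 0))
    {Φ : X → ℝ} (hΦ : Φ ∈ C1 n X) :
    Tendsto (fun k => ∫ p, inner ℝ (f.D (u k) p) (f.D Φ p) ∂(vol g)) atTop
      (𝓝 (∫ p, inner ℝ (ζ p) (f.D Φ p) ∂(vol g))) := by
  have hmem : ∀ v : X → ℝ, v ∈ C1 n X → MemLp (f.D v) 2 (vol g) := by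
    intro v hv
    have hc := f.continuous_D hv
    obtain ⟨C, hC⟩ := isCompact_univ.exists_bound_of_continuousOn (f := f.D v) hc.continuousOn
    exact MemLp.of_bound hc.aestronglyMeasurable C (Eventually.of_forall fun p => hC p (mem_univ p))
  have h1 : ∀ k, |∫ p, inner ℝ (f.D (u k) p) (f.D Φ p) ∂(vol g) - ∫ p, inner ℝ (ζ p) (f.D Φ p) ∂(vol g)| ≤
      Real.sqrt (∫ x, ‖f.D (u k) x - ζ x‖ ^ 2 ∂(vol g)) * Real.sqrt (∫ x, ‖f.D Φ x‖ ^ 2 ∂(vol g)) := by
    intro k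
    have h2 : MemLp (fun p => ‖f.D (u k) p - ζ p‖) 2 (vol g) := ((hmem _ (hu k)).sub hζ).norm
    have h3 : MemLp (fun p => ‖f.D Φ p‖) 2 (vol g) := (hmem _ hΦ).norm
    have hi : ∀ G : X → f.F, MemLp G 2 (vol g) → Integrable (fun p => inner ℝ (G p) (f.D Φ p)) (vol g) := by
      intro G hG
      refine (l2_int_mul hG.norm h3).mono' (hG.1.inner (hmem _ hΦ).1) (Eventually.of_forall fun p => ?_)
      exact norm_inner_le_norm _ _
    rw [← integral_sub (hi _ (hmem _ (hu k))) (hi _ hζ)]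
    have h4 : (∫ p, (inner ℝ (f.D (u k) p) (f.D Φ p) - inner ℝ (ζ p) (f.D Φ p)) ∂(vol g)) =
        ∫ p, inner ℝ (f.D (u k) p - ζ p) (f.D Φ p) ∂(vol g) := by
      refine integral_congr_ae (Eventually.of_forall fun p => ?_)
      exact (inner_sub_left _ _ _).symm
    rw [h4]
    have h5 : ‖∫ p, inner ℝ (f.D (u k) p - ζ p) (f.D Φ p) ∂(vol g)‖ ≤
        ∫ p, ‖f.D (u k) p - ζ p‖ * ‖f.D Φ p‖ ∂(vol g) :=
      norm_integral_le_of_norm_le (l2_int_mul h2 h3) (Eventually.of_forall fun p => norm_inner_le_norm _ _)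
    exact (h5.trans (le_abs_self _)).trans (l2_cs h2 h3)
  rw [← tendsto_sub_nhds_zero_iff]
  refine squeeze_zero_norm h1 ?_
  have h6 := (hT.sqrt).mul_const (Real.sqrt (∫ x, ‖f.D Φ x‖ ^ 2 ∂(vol g)))
  rwa [Real.sqrt_zero, zero_mul] at h6

theorem gipX_ext_zero {K : Set (V (n + 1))} (hK : IsCompact K) (hKd : K ⊆ dom e) {ψ : V (n + 1) → ℝ}
    (hs : Supp ψ K) (u : X → ℝ) {p : X} (hp : p ∉ e.source) : gipX g u (ext e ψ) p = 0 := by
  have h1 : IsClosed (pt e '' K) := (hK.image_of_continuousOn ((continuousOn_pt e).mono hKd)).isClosed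
  have h2 : p ∈ (pt e '' K)ᶜ := by
    rintro ⟨y, hy, rfl⟩
    exact hp (pt_mem_source e (hKd hy))
  have h3 : ∀ q ∈ (pt e '' K)ᶜ, ext e ψ q = 0 := by
    intro q hq
    by_cases hqs : q ∈ e.source
    · rw [ext_co hqs]
      refine hs _ (dom_subset e (co_mem_dom e hqs)) fun hk => hq ⟨co e q, hk, pt_co e hqs⟩
    · exact ext_not hqs
  have hps : p ∈ (ch (n := n) p).source := mem_chart_source _ p
  have hcd : co (ch (n := n) p) p ∈ dom (ch (n := n) p) := co_mem_dom _ hps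
  have h4 : loc (ch (n := n) p) (ext e ψ) =ᶠ[𝓝[Hs n] (co (ch p) p)] fun _ => (0 : ℝ) := by
    rw [(dom_chart (ch (n := n) p)).nhds_eq hcd]
    have h5 := continuousOn_pt (ch (n := n) p) _ hcd
    have h6 : pt (ch (n := n) p) (co (ch (n := n) p) p) = p := pt_co _ hps
    have h7 : pt (ch (n := n) p) ⁻¹' (pt e '' K)ᶜ ∈ 𝓝[dom (ch (n := n) p)] (co (ch (n := n) p) p) := by
      apply h5
      rw [h6]
      exact h1.isOpen_compl.mem_nhds h2
    filter_upwards [h7] with y hy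
    exact h3 _ hy
  have h8 : ∀ j, pd (Hs n) j (loc (ch (n := n) p) (ext e ψ)) (co (ch p) p) = 0 := by
    intro j
    rw [pd_congr h4 (dom_subset _ hcd) j, pd_const]
  unfold gipX gip
  refine Finset.sum_eq_zero fun i _ => Finset.sum_eq_zero fun j _ => ?_
  rw [h8 j, mul_zero, mul_zero]

theorem pd_prod_zero {χ φ : V (n + 1) → ℝ} {y : V (n + 1)} (hy : y ∉ tsupport χ) (i : Fin (n + 1)) :
    pd (Hs n) i (fun y => χ y * φ y) y = 0 := by
  by_contra h
  exact hy (tsupport_mul_subset_left (pd_support (fun y => χ y * φ y) i h))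

theorem pd_loc_lf {χ1 : V (n + 1) → ℝ} {O : Set (V (n + 1))} (hO : IsOpen O) (hO2 : ∀ y ∈ O, χ1 y = 1)
    (u : X → ℝ) {y : V (n + 1)} (hy : y ∈ dom e) (hyO : y ∈ O) (i : Fin (n + 1)) :
    pd (Hs n) i (loc e u) y = pd (Hs n) i (lf e χ1 u) y := by
  refine pd_congr ?_ (dom_subset e hy) i
  rw [(dom_chart e).nhds_eq hy]
  filter_upwards [self_mem_nhdsWithin, mem_nhdsWithin_of_mem_nhds (hO.mem_nhds hyO)] with z hz hzO
  show u (pt e z) = (dom e).indicator (fun y => χ1 y * u (pt e y)) z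
  rw [indicator_of_mem hz, hO2 z hzO, one_mul]

theorem form_smooth (he : e ∈ atlas (EuclideanHalfSpace (n + 1)) X) (f : Frame g) {χ χ1 : V (n + 1) → ℝ}
    (h : Cut e χ) {O : Set (V (n + 1))} (hO : IsOpen O) (hO1 : tsupport χ ∩ Hs n ⊆ O)
    (hO2 : ∀ y ∈ O, χ1 y = 1) {A : MF (n + 1)}
    (hA1 : ∀ y ∈ tsupport χ ∩ Hs n, ∀ i j, A y i j = Aco (g.G e) y i j)
    {u : X → ℝ} (hu : u ∈ C1 n X) {φ : V (n + 1) → ℝ}
    (hΦ : ext e (fun y => χ y * φ y) ∈ C1 n X) (hs : Supp (fun y => χ y * φ y) (tsupport χ ∩ Hs n)) :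
    cn n * ∫ p, inner ℝ (f.D u p) (f.D (ext e (fun y => χ y * φ y)) p) ∂(vol g) =
      ∫ x, ∑ i, ∑ j, A x i j * pd (Hs n) j (lf e χ1 u) x * pd (Hs n) i (fun y => χ y * φ y) x ∂(nu n) := by
  have h1 : ∀ p, inner ℝ (f.D u p) (f.D (ext e (fun y => χ y * φ y)) p) = gipX g u (ext e (fun y => χ y * φ y)) p :=
    fun p => inner_D f hu hΦ p
  simp only [h1]
  have h2 : Function.support (fun p => gipX g u (ext e (fun y => χ y * φ y)) p) ⊆ e.source := by
    intro p hp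
    by_contra hps
    exact hp (gipX_ext_zero h.compact h.sub hs u hps)
  rw [int_vol_chart g he _ h2, ← integral_const_mul]
  have hHm : MeasurableSet (Ho n) := Ho_open.measurableSet
  refine setIntegral_congr_fun hHm fun y hy => ?_
  have hyH : y ∈ Hs n := Ho_sub_Hs hy
  by_cases hyt : y ∈ tsupport χ
  · have hyK : y ∈ tsupport χ ∩ Hs n := ⟨hyt, hyH⟩
    have hyd : y ∈ dom e := h.sub hyK
    have hyO : y ∈ O := hO1 hyK
    have hps : pt e y ∈ e.source := pt_mem_source e hyd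
    have hM : MetOn (dom e) (g.G e) 3 := ⟨g.posDef e he, g.smooth e he⟩
    show cn n * (dom e).indicator (fun y => gipX g u (ext e (fun y => χ y * φ y)) (pt e y) * rhoS g e y) y = _
    rw [indicator_of_mem hyd]
    rw [gip_eq he hps hu hΦ, co_pt e hyd]
    unfold gip
    simp only [pd_loc_ext (fun y => χ y * φ y) hyd, pd_loc_lf hO hO2 u hyd hyO, hA1 y hyK]
    rw [Finset.sum_comm, Finset.sum_mul, Finset.mul_sum]
    refine Finset.sum_congr rfl fun i _ => ?_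
    rw [Finset.sum_mul, Finset.mul_sum]
    refine Finset.sum_congr rfl fun j _ => ?_
    rw [hM.inv_symm hyd j i]
    simp only [Aco, Matrix.of_apply, rhoS]
    ring
  · have h3 : ∀ i, pd (Hs n) i (fun y => χ y * φ y) y = 0 := fun i => pd_prod_zero hyt i
    have h4 : ∑ i, ∑ j, A y i j * pd (Hs n) j (lf e χ1 u) y * pd (Hs n) i (fun y => χ y * φ y) y = 0 :=
      Finset.sum_eq_zero fun i _ => Finset.sum_eq_zero fun j _ => by rw [h3 i, mul_zero]
    show cn n * (dom e).indicator (fun y => gipX g u (ext e (fun y => χ y * φ y)) (pt e y) * rhoS g e y) y =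
      ∑ i, ∑ j, A y i j * pd (Hs n) j (lf e χ1 u) y * pd (Hs n) i (fun y => χ y * φ y) y
    rw [h4]
    by_cases hyd : y ∈ dom e
    · rw [indicator_of_mem hyd, gip_eq he (pt_mem_source e hyd) hu hΦ, co_pt e hyd]
      unfold gip
      simp only [pd_loc_ext (fun y => χ y * φ y) hyd, h3, mul_zero, Finset.sum_const_zero, zero_mul]
    · rw [indicator_of_notMem hyd, mul_zero]

theorem form_chart (he : e ∈ atlas (EuclideanHalfSpace (n + 1)) X) (f : Frame g) {χ χ1 : V (n + 1) → ℝ}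
    (h : Cut e χ) (h1 : Cut e χ1) {O : Set (V (n + 1))} (hO : IsOpen O) (hO1 : tsupport χ ∩ Hs n ⊆ O)
    (hO2 : ∀ y ∈ O, χ1 y = 1) {A : MF (n + 1)} {l L : ℝ} (hA : Ell A l L)
    (hA1 : ∀ y ∈ tsupport χ ∩ Hs n, ∀ i j, A y i j = Aco (g.G e) y i j)
    {w : X → ℝ} {ζ : X → f.F} {τ : X → ℝ} (hζ : MemLp ζ 2 (vol g))
    {u : ℕ → X → ℝ} (hu : ∀ k, u k ∈ C1 n X) (hT : TendH (vol g) (bvol g) f.D u w ζ τ)
    {Vv : Fin (n + 1) → V (n + 1) → ℝ} (hV : ∀ i, MemLp (Vv i) 2 (nu n))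
    (hVt : ∀ i, Tendsto (fun k => sq (fun y => pd (Hs n) i (lf e χ1 (u k)) y - Vv i y)) atTop (𝓝 0))
    {φ : V (n + 1) → ℝ} (hφ : φ ∈ T1 n) :
    cn n * ∫ p, inner ℝ (ζ p) (f.D (ext e (fun y => χ y * φ y)) p) ∂(vol g) =
      ∫ x, ∑ i, ∑ j, A x i j * Vv j x * pd (Hs n) i (fun y => χ y * φ y) x ∂(nu n) := by
  have hψ : (fun y => χ y * φ y) ∈ T1 n := T1_mul ((h.smooth.of_le (by simp)).contDiffOn) hφ
  have hs : Supp (fun y => χ y * φ y) (tsupport χ ∩ Hs n) := by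
    intro y hy hyK
    have h2 : χ y = 0 := by
      by_contra h3
      exact hyK ⟨subset_tsupport χ h3, hy⟩
    show χ y * φ y = 0
    rw [h2, zero_mul]
  have hΦ : ext e (fun y => χ y * φ y) ∈ C1 n X :=
    ext_contMDiff (k := 1) he hψ.1 h.compact h.sub hs
  have hpd : ∀ i, ContinuousOn (pd (Hs n) i (fun y => χ y * φ y)) (Hs n) := by
    intro i
    exact (pd_contDiffOn (k := 0) (by simpa using hψ.1) i).continuousOn
  have hcs : ∀ i, HasCompactSupport (pd (Hs n) i (fun y => χ y * φ y)) := by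
    intro i
    exact hψ.2.mono' (pd_support _ i)
  have hG : ∀ i j, MemLp (fun x => A x i j * pd (Hs n) i (fun y => χ y * φ y) x) 2 (nu n) := by
    intro i j
    exact memLp_of_cont ((hA.smooth i j).continuousOn.mul (hpd i)) (hcs i).mul_left
  have hU : ∀ k j, MemLp (pd (Hs n) j (lf e χ1 (u k))) 2 (nu n) := fun k j =>
    (T1_memLp (lf_T1 he h1 (hu k)) 2).2 j
  have hsum : ∀ W : Fin (n + 1) → V (n + 1) → ℝ, (∀ j, MemLp (W j) 2 (nu n)) →
      ∫ x, ∑ i, ∑ j, A x i j * W j x * pd (Hs n) i (fun y => χ y * φ y) x ∂(nu n) =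
      ∑ i, ∑ j, ∫ x, W j x * (A x i j * pd (Hs n) i (fun y => χ y * φ y) x) ∂(nu n) := by
    intro W hW
    have hint : ∀ i j, Integrable (fun x => W j x * (A x i j * pd (Hs n) i (fun y => χ y * φ y) x)) (nu n) :=
      fun i j => l2_int_mul (hW j) (hG i j)
    have h2 : (fun x => ∑ i, ∑ j, A x i j * W j x * pd (Hs n) i (fun y => χ y * φ y) x) =
        fun x => ∑ i, ∑ j, W j x * (A x i j * pd (Hs n) i (fun y => χ y * φ y) x) := by
      funext x
      exact Finset.sum_congr rfl fun i _ => Finset.sum_congr rfl fun j _ => by ring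
    rw [h2, integral_finset_sum _ fun i _ => integrable_finset_sum _ fun j _ => hint i j]
    exact Finset.sum_congr rfl fun i _ => integral_finset_sum _ fun j _ => hint i j
  have hL : Tendsto (fun k => cn n * ∫ p, inner ℝ (f.D (u k) p) (f.D (ext e (fun y => χ y * φ y)) p) ∂(vol g))
      atTop (𝓝 (cn n * ∫ p, inner ℝ (ζ p) (f.D (ext e (fun y => χ y * φ y)) p) ∂(vol g))) :=
    (tendsto_inner_D f hζ hu hT.2.1 hΦ).const_mul _
  have hR : Tendsto (fun k => cn n * ∫ p, inner ℝ (f.D (u k) p) (f.D (ext e (fun y => χ y * φ y)) p) ∂(vol g))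
      atTop (𝓝 (∫ x, ∑ i, ∑ j, A x i j * Vv j x * pd (Hs n) i (fun y => χ y * φ y) x ∂(nu n))) := by
    have h2 : ∀ k, cn n * ∫ p, inner ℝ (f.D (u k) p) (f.D (ext e (fun y => χ y * φ y)) p) ∂(vol g) =
        ∑ i, ∑ j, ∫ x, pd (Hs n) j (lf e χ1 (u k)) x * (A x i j * pd (Hs n) i (fun y => χ y * φ y) x) ∂(nu n) := by
      intro k
      rw [form_smooth he f h hO hO1 hO2 hA1 (hu k) hΦ hs,
        hsum (fun j => pd (Hs n) j (lf e χ1 (u k))) (hU k)]
    simp only [h2]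
    rw [hsum Vv hV]
    refine tendsto_finset_sum _ fun i _ => tendsto_finset_sum _ fun j _ => ?_
    exact l2_tend_int (fun k => hU k j) (hV j) (hG i j) (hVt j)
  exact tendsto_nhds_unique hL hR

end

end Pool.Agent.CY.S4
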