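import Pool.Agent.CY.S3.IntChart
import Pool.Agent.CY.S4.G2
import Pool.Agent.CY.S4.Iface
import Pool.Agent.CY.S4.L0

/-!
# CY-S4-G8a: the interior terms of the weak equation in a chart

`Φ = ext e (χ φ)`, support in `e.source`; `int_vol_chart`:
`F = (dom e).indicator (χ rhoS (lam |w∘pt|^(pp-1) - scalX (w∘pt)))`, almost everywhere bounded (on the compact set
`tsupport χ ∩ Hs n`, `met_bounds`, `ae_vol_source`), zero outside this compact set, measurable (`w` is a.e.
strongly measurable for `vol g`, transport by `ae_vol_source` / the measurable embedding `ptS`).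
-/

set_option autoImplicit false

open scoped Manifold ContDiff ENNReal
open MeasureTheory Set Filter Topology

namespace Pool.Agent.CY.S4

noncomputable section

set_option linter.unusedSectionVars false

variable {n : ℕ} {X : Type} [TopologicalSpace X] [ChartedSpace (EuclideanHalfSpace (n + 1)) X]
  [IsManifold (𝓡∂ (n + 1)) ∞ X] [CompactSpace X] [T2Space X] [MeasurableSpace X] [BorelSpace X]
  {g : Metric n X} {e : OpenPartialHomeomorph X (EuclideanHalfSpace (n + 1))}

/-- Measurability of the coordinate expression of an a.e. measurable function. -/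
private theorem aem_pt (he : e ∈ atlas (EuclideanHalfSpace (n + 1)) X) {G : X → ℝ}
    (hG : AEStronglyMeasurable G (vol g)) :
    AEMeasurable (fun y => G (pt e y)) (volume.restrict (dom e)) := by
  have h1 : AEMeasurable (fun y => (hG.mk G) (pt e y)) (volume.restrict (dom e)) := by
    refine aemeasurable_restrict_of_measurable_subtype (measurableSet_dom e) ?_
    exact hG.stronglyMeasurable_mk.measurable.comp (measurableEmbedding_ptS e).measurable
  refine h1.congr ?_
  have h2 : ∀ᵐ p ∂(vol g), p ∈ e.source → G p = (hG.mk G) p := by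
    filter_upwards [hG.ae_eq_mk] with p hp _ using hp
  rw [ae_vol_source g he] at h2
  refine (ae_restrict_iff' (measurableSet_dom e)).2 ?_
  filter_upwards [h2] with y hy hyd
  exact (hy hyd).symm

private theorem chart_L2 (he : e ∈ atlas (EuclideanHalfSpace (n + 1)) X) {χ : V (n + 1) → ℝ} (h : Cut e χ)
    {G : X → ℝ} (hG : AEStronglyMeasurable G (vol g)) {M : ℝ} (hM : ∀ᵐ p ∂(vol g), |G p| ≤ M) :
    MemLp ((dom e).indicator fun y => χ y * (G (pt e y) * rhoS g e y)) 2 (nu n) := by
  obtain ⟨c, C, hc, hb, -⟩ := met_bounds g he h.compact h.sub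
  set K := tsupport χ ∩ Hs n with hKdef
  have hKc : IsCompact K := h.compact
  have hKm : MeasurableSet K := hKc.measurableSet
  set F := (dom e).indicator fun y => χ y * (G (pt e y) * rhoS g e y) with hF
  have hFm : AEStronglyMeasurable F (nu n) := by
    have h1 : AEMeasurable F (volume : Measure (V (n + 1))) := by
      rw [hF, aemeasurable_indicator_iff (measurableSet_dom e)]
      refine (h.smooth.continuous.measurable.aemeasurable).mul ((aem_pt he hG).mul ?_)
      exact (continuousOn_rhoS g he).aemeasurable (measurableSet_dom e)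
    exact h1.aestronglyMeasurable.restrict
  have hind : F =ᵐ[nu n] K.indicator F := by
    filter_upwards [ae_restrict_mem (Ho_open (n := n)).measurableSet] with y hy
    by_cases hyK : y ∈ K
    · rw [indicator_of_mem hyK]
    · rw [indicator_of_notMem hyK, hF]
      by_cases hyd : y ∈ dom e
      · rw [indicator_of_mem hyd]
        have h1 : y ∉ tsupport χ := fun hyt => hyK ⟨hyt, Ho_sub_Hs hy⟩
        rw [image_eq_zero_of_notMem_tsupport h1, zero_mul]
      · rw [indicator_of_notMem hyd]
  rw [memLp_congr_ae hind, memLp_indicator_iff_restrict hKm]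
  have hfin : IsFiniteMeasure ((nu n).restrict K) := by
    constructor
    rw [Measure.restrict_apply_univ]
    exact lt_of_le_of_lt (Measure.restrict_apply_le _ _) hKc.measure_lt_top
  refine MemLp.of_bound hFm.restrict (M * C) ?_
  have h2 : ∀ᵐ p ∂(vol g), p ∈ e.source → |G p| ≤ M := by
    filter_upwards [hM] with p hp _ using hp
  rw [ae_vol_source g he] at h2
  rw [ae_restrict_iff' hKm]
  refine ae_restrict_of_ae ?_
  filter_upwards [h2] with y hy hyK
  have hyd := h.sub hyK
  have hGy := hy hyd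
  have hr := hb y hyK
  have hr0 : 0 ≤ rhoS g e y := hc.le.trans hr.1
  have hM0 : 0 ≤ M := (abs_nonneg _).trans hGy
  rw [hF, indicator_of_mem hyd, Real.norm_eq_abs, abs_mul, abs_mul, abs_of_nonneg hr0,
    abs_of_nonneg (h.nonneg y)]
  calc χ y * (|G (pt e y)| * rhoS g e y) ≤ 1 * (|G (pt e y)| * rhoS g e y) :=
        mul_le_mul_of_nonneg_right (h.le_one y) (mul_nonneg (abs_nonneg _) hr0)
    _ = |G (pt e y)| * rhoS g e y := one_mul _
    _ ≤ M * C := mul_le_mul hGy hr.2 hr0 hM0

private theorem chart_int (he : e ∈ atlas (EuclideanHalfSpace (n + 1)) X) {χ : V (n + 1) → ℝ}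
    (G : X → ℝ) (φ : V (n + 1) → ℝ) :
    ∫ p, G p * ext e (fun y => χ y * φ y) p ∂(vol g) =
      ∫ x, ((dom e).indicator fun y => χ y * (G (pt e y) * rhoS g e y)) x * φ x ∂(nu n) := by
  rw [int_vol_chart g he]
  · refine integral_congr_ae (Filter.Eventually.of_forall fun y => ?_)
    by_cases hyd : y ∈ dom e
    · simp only [indicator_of_mem hyd, ext_pt hyd]
      ring
    · simp only [indicator_of_notMem hyd, zero_mul]
  · intro p hp
    by_contra hpe
    apply hp
    simp only [ext_not hpe, mul_zero]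

theorem vol_term (he : e ∈ atlas (EuclideanHalfSpace (n + 1)) X) {χ : V (n + 1) → ℝ} (h : Cut e χ) {w : X → ℝ}
    (lam : ℝ) {c C : ℝ} (hc : 0 < c) (hwm : MemLp w 2 (vol g)) (hw : ∀ᵐ x ∂(vol g), c ≤ w x ∧ w x ≤ C) :
    ∃ F : V (n + 1) → ℝ, MemLp F 2 (nu n) ∧ ∀ φ ∈ T1 n,
      lam * ∫ p, |w p| ^ (pp n - 1) * ext e (fun y => χ y * φ y) p ∂(vol g) -
        ∫ p, scalX g p * w p * ext e (fun y => χ y * φ y) p ∂(vol g) = ∫ x, F x * φ x ∂(nu n) := by
  -- bounds
  have hwM : ∃ M : ℝ, ∀ x : ℝ, c ≤ x ∧ x ≤ C → |x| ≤ M ∧ |(|x| ^ (pp n - 1))| ≤ M := by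
    have h1 : ContinuousOn (fun x : ℝ => x) (Icc c C) := continuousOn_id
    have h2 : ContinuousOn (fun x : ℝ => |x| ^ (pp n - 1)) (Icc c C) := by
      refine ContinuousOn.rpow_const continuous_abs.continuousOn ?_
      intro x hx
      left
      exact abs_ne_zero.2 (ne_of_gt (hc.trans_le hx.1))
    obtain ⟨M1, hM1⟩ := isCompact_Icc.exists_bound_of_continuousOn h1
    obtain ⟨M2, hM2⟩ := isCompact_Icc.exists_bound_of_continuousOn h2
    exact ⟨max M1 M2, fun x hx => ⟨(hM1 x hx).trans (le_max_left _ _), (hM2 x hx).trans (le_max_right _ _)⟩⟩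
  obtain ⟨M, hM⟩ := hwM
  have hPm : AEStronglyMeasurable (fun p => |w p| ^ (pp n - 1)) (vol g) := by
    have h1 : AEMeasurable (fun p => |w p| ^ (pp n - 1)) (vol g) :=
      (hwm.1.aemeasurable.norm).pow_const (pp n - 1)
    exact h1.aestronglyMeasurable
  obtain ⟨S, hS⟩ : ∃ S : ℝ, ∀ᵐ p ∂(vol g), |scalX g p| ≤ S := by
    have h1 := scalX_memLp g
    refine ⟨(eLpNorm (scalX g) ⊤ (vol g)).toReal, ?_⟩
    have h2 : eLpNorm (scalX g) ⊤ (vol g) ≠ ⊤ := h1.2.ne
    rw [eLpNorm_exponent_top] at h2 ⊢
    filter_upwards [ae_le_eLpNormEssSup (f := scalX g) (μ := vol g)] with p hp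
    have h3 := ENNReal.toReal_mono h2 hp
    rwa [toReal_enorm] at h3
  have hSm : AEStronglyMeasurable (fun p => scalX g p * w p) (vol g) := (scalX_memLp g).1.mul hwm.1
  -- the function G
  set G : X → ℝ := fun p => lam * |w p| ^ (pp n - 1) - scalX g p * w p with hGdef
  have hGm : AEStronglyMeasurable G (vol g) := (hPm.const_mul lam).sub hSm
  have hGb : ∀ᵐ p ∂(vol g), |G p| ≤ |lam| * M + S * M := by
    filter_upwards [hw, hS] with p hp1 hp2
    have h3 := hM _ hp1
    have h4 : 0 ≤ S := (abs_nonneg _).trans hp2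
    calc |G p| ≤ |lam * |w p| ^ (pp n - 1)| + |scalX g p * w p| := abs_sub _ _
      _ = |lam| * |(|w p| ^ (pp n - 1))| + |scalX g p| * |w p| := by rw [abs_mul, abs_mul]
      _ ≤ |lam| * M + S * M := add_le_add (mul_le_mul_of_nonneg_left h3.2 (abs_nonneg _))
          (mul_le_mul hp2 h3.1 (abs_nonneg _) h4)
  refine ⟨_, chart_L2 he h hGm hGb, ?_⟩
  intro φ hφ
  rw [← chart_int (g := g) he G φ]
  -- the extension is bounded and continuous
  have hψ : (fun y => χ y * φ y) ∈ T1 n :=
    T1_mul (h.smooth.of_le (by exact_mod_cast le_top)).contDiffOn hφ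
  have hsupp : Supp (fun y => χ y * φ y) (tsupport χ ∩ Hs n) := by
    intro x hx hxK
    have h1 : x ∉ tsupport χ := fun hyt => hxK ⟨hyt, hx⟩
    show χ x * φ x = 0
    rw [image_eq_zero_of_notMem_tsupport h1, zero_mul]
  have hcont : Continuous (ext e (fun y => χ y * φ y)) := by
    have := ext_contMDiff (k := 1) he (ψ := fun y => χ y * φ y) hψ.1 h.compact h.sub hsupp
    exact this.continuous
  obtain ⟨B, hB⟩ := (isCompact_univ (X := X)).exists_bound_of_continuousOn hcont.continuousOn
  have hint1 : Integrable (fun p => |w p| ^ (pp n - 1) * ext e (fun y => χ y * φ y) p) (vol g) := by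
    refine Integrable.of_bound (hPm.mul hcont.aestronglyMeasurable) (M * B) ?_
    filter_upwards [hw] with p hp
    rw [norm_mul]
    exact mul_le_mul (hM _ hp).2 (hB p (mem_univ p)) (norm_nonneg _) ((abs_nonneg _).trans (hM _ hp).2)
  have hint2 : Integrable (fun p => scalX g p * w p * ext e (fun y => χ y * φ y) p) (vol g) := by
    refine Integrable.of_bound (hSm.mul hcont.aestronglyMeasurable) (S * M * B) ?_
    filter_upwards [hw, hS] with p hp1 hp2
    have h4 : 0 ≤ S := (abs_nonneg _).trans hp2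
    have h5 : 0 ≤ M := (abs_nonneg _).trans (hM _ hp1).1
    rw [norm_mul, norm_mul]
    exact mul_le_mul (mul_le_mul hp2 (hM _ hp1).1 (norm_nonneg _) h4) (hB p (mem_univ p)) (norm_nonneg _)
      (mul_nonneg h4 h5)
  rw [← integral_const_mul, ← integral_sub (hint1.const_mul lam) hint2]
  refine integral_congr_ae (Filter.Eventually.of_forall fun p => ?_)
  simp only [hGdef]
  ring

end

end Pool.Agent.CY.S4
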