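import Pool.Agent.CY.S3.IntChart
import Pool.Agent.CY.S3.Fin
import Pool.Agent.CY.S4.G2
import Pool.Agent.CY.S4.Iface
import Pool.Agent.CY.S4.L0

/-!
# CY-S4-G8b: the boundary terms of the weak equation in a chart

`exists_f`: `f(s) = κ(s) |s|^r` with `κ` a smooth cutoff function with compact support equal to `1` on `[c, C]`; `|s|^r` is
`C^1` for `r > 1` with derivative `r s |s|^(r-2)` (`0` at `0`).
`bvol_term`: `int_bvol_chart`, `mean_eq` (`ae_bvol_boundary`): `b1 = kap (bdom e).indicator (χ(bd z) rhoB)`,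
`b2 = -2 (bdom e).indicator (χ(bd z) rhoB meanCurv)` (`bcoef_smooth`); where `χ (bd z) ≠ 0`, `lb e χ1 τ z = τ (pt e (bd z))`,
in `[c, C]` for almost every such `z` (`ae_bvol_source`), so `f (lb e χ1 τ z) = |τ|^(qq-1)`.  `qq n - 1 = (n+1)/(n-1) > 1`.
-/

set_option autoImplicit false

open scoped Manifold ContDiff ENNReal
open MeasureTheory Set Filter Topology

namespace Pool.Agent.CY.S4

noncomputable section

set_option linter.unusedSectionVars false

variable {n : ℕ} {X : Type} [TopologicalSpace X] [ChartedSpace (EuclideanHalfSpace (n + 1)) X]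
  [IsManifold (𝓡∂ (n + 1)) ∞ X] [CompactSpace X] [T2Space X] [MeasurableSpace X] [BorelSpace X]
  {g : Metric n X} {e : OpenPartialHomeomorph X (EuclideanHalfSpace (n + 1))}

theorem exists_f {c C r : ℝ} (hc : 0 < c) (hr : 1 < r) :
    ∃ (f : ℝ → ℝ) (L : ℝ), ContDiff ℝ 1 f ∧ f 0 = 0 ∧ (∀ s, |deriv f s| ≤ L) ∧
      ∀ s : ℝ, c ≤ s → s ≤ C → f s = |s| ^ r := by
  rcases lt_or_ge C c with hCc | hcC
  · refine ⟨fun _ => 0, 0, contDiff_const, rfl, by simp, ?_⟩
    intro s h1 h2
    exact absurd (h1.trans h2) (not_le.2 hCc)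
  let κ : ContDiffBump ((c + C) / 2 : ℝ) :=
    ⟨(C - c) / 2 + c / 4, (C - c) / 2 + c / 2, by linarith, by linarith⟩
  let f : ℝ → ℝ := fun s => κ s * s ^ r
  have hts : tsupport κ = Metric.closedBall ((c + C) / 2 : ℝ) ((C - c) / 2 + c / 2) :=
    κ.tsupport_eq
  have hout : ∀ s : ℝ, s ≤ 0 → s ∉ tsupport κ := by
    intro s hs hm
    rw [hts, Metric.mem_closedBall, Real.dist_eq] at hm
    have := (abs_le.1 hm).1
    linarith
  have hf1 : ContDiff ℝ 1 f := by
    rw [contDiff_iff_contDiffAt]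
    intro s
    rcases le_or_gt s 0 with hs | hs
    · have h0 : f =ᶠ[𝓝 s] fun _ => 0 := by
        have h1 : ∀ᶠ t in 𝓝 s, t ∉ tsupport κ :=
          (isClosed_tsupport κ).isOpen_compl.mem_nhds (hout s hs)
        filter_upwards [h1] with t ht
        have : κ t = 0 := image_eq_zero_of_notMem_tsupport ht
        simp [f, this]
      exact contDiffAt_const.congr_of_eventuallyEq h0
    · exact κ.contDiff.contDiffAt.mul (Real.contDiffAt_rpow_const_of_ne hs.ne')
  have hf0 : f 0 = 0 := by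
    have : κ (0 : ℝ) = 0 := image_eq_zero_of_notMem_tsupport (hout 0 le_rfl)
    simp [f, this]
  have hcs : HasCompactSupport f := κ.hasCompactSupport.mul_right
  have hd : HasCompactSupport (deriv f) := hcs.deriv
  have hdc : Continuous (deriv f) := hf1.continuous_deriv le_rfl
  obtain ⟨L, hL⟩ := hd.exists_bound_of_continuous hdc
  refine ⟨f, L, hf1, hf0, fun s => by simpa using hL s, ?_⟩
  intro s h1 h2
  have hs : 0 < s := hc.trans_le h1
  have hk : κ s = 1 := by
    apply κ.one_of_mem_closedBall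
    rw [Metric.mem_closedBall, Real.dist_eq, abs_le]
    constructor
    · change -((C - c) / 2 + c / 4) ≤ _
      linarith
    · change _ ≤ (C - c) / 2 + c / 4
      linarith
  simp [f, hk, abs_of_pos hs]

private theorem qq_gt {n : ℕ} (hn : 3 ≤ n) : 1 < qq n - 1 := by
  have h3 : (3 : ℝ) ≤ n := by exact_mod_cast hn
  have h1 : (0 : ℝ) < (n : ℝ) - 1 := by linarith
  unfold qq
  have : (1 : ℝ) + 1 < 2 * (n : ℝ) / ((n : ℝ) - 1) := by
    rw [lt_div_iff₀ h1]
    linarith
  linarith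

theorem bvol_term (hn : 3 ≤ n) (he : e ∈ atlas (EuclideanHalfSpace (n + 1)) X) {χ χ1 : V (n + 1) → ℝ}
    (h : Cut e χ) (h1 : Cut e χ1) {O : Set (V (n + 1))} (hO : IsOpen O) (hO1 : tsupport χ ∩ Hs n ⊆ O)
    (hO2 : ∀ y ∈ O, χ1 y = 1) {τ : X → ℝ} (kap : ℝ) {c C : ℝ} (hc : 0 < c) (hτm : MemLp τ 2 (bvol g))
    (hτ : ∀ᵐ x ∂(bvol g), c ≤ τ x ∧ τ x ≤ C) :
    ∃ (b1 b2 : V n → ℝ) (f : ℝ → ℝ) (L : ℝ), ContDiff ℝ 1 b1 ∧ HasCompactSupport b1 ∧ ContDiff ℝ 1 b2 ∧
      HasCompactSupport b2 ∧ ContDiff ℝ 1 f ∧ f 0 = 0 ∧ (∀ s, |deriv f s| ≤ L) ∧ ∀ φ ∈ T1 n,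
      kap * ∫ p, |τ p| ^ (qq n - 1) * ext e (fun y => χ y * φ y) p ∂(bvol g) -
        2 * ∫ p, meanX g p * τ p * ext e (fun y => χ y * φ y) p ∂(bvol g) =
        ∫ z : V n, (b1 z * f (lb e χ1 τ z) + b2 z * lb e χ1 τ z) * φ (bd z) := by
  obtain ⟨f, L, hf1, hf0, hfL, hfr⟩ := exists_f (c := c) (C := C) hc (qq_gt hn)
  obtain ⟨⟨hb1, hb1c⟩, ⟨hb2, hb2c⟩⟩ := bcoef_smooth g he h
  refine ⟨fun z => kap * (bdom e).indicator (fun z : V n => χ (bd z) * rhoB g e z) z,
    fun z => (-2) * (bdom e).indicator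
      (fun z : V n => χ (bd z) * (rhoB g e z * meanCurv (g.G e) z)) z, f, L,
    contDiff_const.mul hb1, hb1c.mul_left, contDiff_const.mul hb2, hb2c.mul_left, hf1, hf0, hfL, ?_⟩
  intro φ hφ
  -- the extension is continuous
  have hK : IsCompact (tsupport χ ∩ Hs n) := h.compact
  have hψ : ContDiffOn ℝ ((1 : ℕ∞) : WithTop ℕ∞) (fun y => χ y * φ y) (Hs n) := by
    have h2 : ContDiffOn ℝ ((1 : ℕ∞) : WithTop ℕ∞) χ (Hs n) :=
      (h.smooth.of_le (by exact_mod_cast le_top)).contDiffOn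
    exact h2.mul (by exact_mod_cast hφ.1)
  have hsupp : Supp (fun y => χ y * φ y) (tsupport χ ∩ Hs n) := by
    intro y hy hyK
    have : y ∉ tsupport χ := fun h' => hyK ⟨h', hy⟩
    simp [image_eq_zero_of_notMem_tsupport this]
  have hE : Continuous (ext e (fun y => χ y * φ y)) :=
    (ext_contMDiff he hψ hK h.sub hsupp).continuous
  obtain ⟨M, hM⟩ := (isCompact_univ (X := X)).exists_bound_of_continuousOn hE.continuousOn
  have hEm : MemLp (ext e (fun y => χ y * φ y)) ⊤ (bvol g) :=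
    memLp_top_of_bound hE.aestronglyMeasurable M (Eventually.of_forall fun x => hM x (mem_univ x))
  -- integrability
  have hT : MemLp (fun p => |τ p| ^ (qq n - 1)) ⊤ (bvol g) := by
    refine memLp_top_of_bound ?_ (|C| ^ (qq n - 1)) ?_
    · have h2 : AEMeasurable (fun p => |τ p| ^ (qq n - 1)) (bvol g) :=
        (hτm.1.aemeasurable.norm).pow_const _
      exact h2.aestronglyMeasurable
    · filter_upwards [hτ] with x hx
      rw [Real.norm_of_nonneg (by positivity)]
      have hx0 : 0 < τ x := hc.trans_le hx.1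
      apply Real.rpow_le_rpow (abs_nonneg _)
      · rw [abs_of_pos hx0]
        exact hx.2.trans (le_abs_self C)
      · have := qq_gt hn
        linarith
  have hi1 : Integrable (fun p => |τ p| ^ (qq n - 1) * ext e (fun y => χ y * φ y) p) (bvol g) := by
    have h3 : MemLp (fun p => |τ p| ^ (qq n - 1) * ext e (fun y => χ y * φ y) p) ⊤ (bvol g) :=
      MemLp.mul' (p := ⊤) (q := ⊤) hEm hT
    exact h3.integrable le_top
  have hi2 : Integrable (fun p => meanX g p * τ p * ext e (fun y => χ y * φ y) p) (bvol g) := by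
    have h3 : MemLp (fun p => meanX g p * τ p) 2 (bvol g) :=
      MemLp.mul' (p := ⊤) (q := 2) hτm (meanX_memLp g)
    have h4 : MemLp (fun p => meanX g p * τ p * ext e (fun y => χ y * φ y) p) 2 (bvol g) :=
      MemLp.mul' (p := 2) (q := ⊤) hEm h3
    exact h4.integrable (by norm_num)
  rw [← integral_const_mul, ← integral_const_mul, ← integral_sub (hi1.const_mul _) (hi2.const_mul _)]
  have hs : Function.support (fun p => kap * (|τ p| ^ (qq n - 1) * ext e (fun y => χ y * φ y) p) -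
      2 * (meanX g p * τ p * ext e (fun y => χ y * φ y) p)) ⊆ e.source := by
    intro p hp
    by_contra hpe
    apply hp
    simp [ext_not hpe]
  rw [int_bvol_chart g he _ hs]
  have hae : ∀ᵐ z : V n, z ∈ bdom e → c ≤ τ (pt e (bd z)) ∧ τ (pt e (bd z)) ≤ C := by
    rw [← ae_bvol_source g he (fun p => c ≤ τ p ∧ τ p ≤ C)]
    filter_upwards [hτ] with p hp _ using hp
  apply integral_congr_ae
  filter_upwards [hae] with z hz
  by_cases hzb : z ∈ bdom e
  · have hz' : bd z ∈ dom e := hzb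
    simp only [indicator_of_mem hzb, ext_pt hz']
    by_cases hχ : χ (bd z) = 0
    · simp [hχ]
    · have hO3 : bd z ∈ O := hO1 ⟨subset_tsupport _ hχ, bd_mem_Hs z⟩
      have hlb : lb e χ1 τ z = τ (pt e (bd z)) := by
        simp [lb, indicator_of_mem hzb, hO2 _ hO3]
      have hmean : meanX g (pt e (bd z)) = meanCurv (g.G e) z := by
        rw [mean_eq he (pt_mem_source e hz') (pt_bd_mem_boundary he hzb), co_pt e hz', tl_bd]
      rw [hlb, hfr _ (hz hzb).1 (hz hzb).2, hmean]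
      ring
  · simp [indicator_of_notMem hzb]

end

end Pool.Agent.CY.S4
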