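import Pool.Agent.CY.S4.D

/-!
# CY-S4-L0r: Riesz representation for functionals on spaces of square integrable functions
-/

set_option autoImplicit false

open scoped Manifold ContDiff ENNReal
open MeasureTheory Set Filter Topology

namespace Pool.Agent.CY.S4

noncomputable section

variable {α : Type} [MeasurableSpace α] {μ : Measure α}

private theorem l2_norm_sq (f : Lp ℝ 2 μ) : ‖f‖ ^ 2 = ∫ x, (f x) ^ 2 ∂μ := by
  rw [← real_inner_self_eq_norm_sq, L2.inner_def]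
  refine integral_congr_ae (Eventually.of_forall fun x => ?_)
  simp [pow_two]

private theorem l2_norm_toLp {φ : α → ℝ} (h : MemLp φ 2 μ) :
    ‖h.toLp φ‖ = Real.sqrt (∫ x, φ x ^ 2 ∂μ) := by
  have h1 : ∫ x, φ x ^ 2 ∂μ = ‖h.toLp φ‖ ^ 2 := by
    rw [l2_norm_sq]
    refine integral_congr_ae ?_
    filter_upwards [h.coeFn_toLp] with x hx
    rw [hx]
  rw [h1, Real.sqrt_sq (norm_nonneg _)]

/-- Riesz: a bounded linear functional on a vector space of square integrable functions is represented by a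
square integrable function.  Proof: `T` defines a subspace of `Lp ℝ 2 μ` on which `ℓ` induces a well defined
bounded functional (a function of `T` which vanishes a.e. has `ℓ = 0` by the bound); extend it by Hahn-Banach
(`exists_extension_norm_eq`) and represent it by `InnerProductSpace.toDual`. -/
theorem l2_riesz (T : Set (α → ℝ)) (hT : ∀ φ ∈ T, MemLp φ 2 μ) (hT0 : (fun _ => (0 : ℝ)) ∈ T)
    (hadd : ∀ φ ∈ T, ∀ ψ ∈ T, (fun x => φ x + ψ x) ∈ T) (hsmul : ∀ (c : ℝ), ∀ φ ∈ T, (fun x => c * φ x) ∈ T)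
    (l : (α → ℝ) → ℝ) (ladd : ∀ φ ∈ T, ∀ ψ ∈ T, l (fun x => φ x + ψ x) = l φ + l ψ)
    (lsmul : ∀ (c : ℝ), ∀ φ ∈ T, l (fun x => c * φ x) = c * l φ)
    (C : ℝ) (hC : 0 ≤ C) (hl : ∀ φ ∈ T, |l φ| ≤ C * Real.sqrt (∫ x, φ x ^ 2 ∂μ)) :
    ∃ Q : α → ℝ, MemLp Q 2 μ ∧ ∫ x, Q x ^ 2 ∂μ ≤ C ^ 2 ∧ ∀ φ ∈ T, l φ = ∫ x, Q x * φ x ∂μ := by
  classical
  -- well defined
  have hwd : ∀ φ ∈ T, ∀ ψ ∈ T, φ =ᵐ[μ] ψ → l φ = l ψ := by
    intro φ hφ ψ hψ hae
    have h1 : l (fun x => φ x + (-1) * ψ x) = l φ - l ψ := by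
      rw [ladd φ hφ _ (hsmul (-1) ψ hψ), lsmul (-1) ψ hψ]
      ring
    have h2 := hl _ (hadd φ hφ _ (hsmul (-1) ψ hψ))
    have h3 : ∫ x, (φ x + (-1) * ψ x) ^ 2 ∂μ = 0 := by
      rw [← integral_zero α ℝ (μ := μ)]
      refine integral_congr_ae ?_
      filter_upwards [hae] with x hx
      rw [hx]
      ring
    rw [h3, Real.sqrt_zero, mul_zero, h1] at h2
    have h4 : l φ - l ψ = 0 := abs_nonpos_iff.1 h2
    linarith
  -- the subspace
  let M : Submodule ℝ (Lp ℝ 2 μ) :=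
    { carrier := {g | ∃ φ ∈ T, (g : α → ℝ) =ᵐ[μ] φ}
      add_mem' := by
        rintro g g' ⟨φ, hφ, h1⟩ ⟨ψ, hψ, h2⟩
        refine ⟨_, hadd φ hφ ψ hψ, ?_⟩
        filter_upwards [Lp.coeFn_add g g', h1, h2] with x e1 e2 e3
        rw [e1, Pi.add_apply, e2, e3]
      zero_mem' := by
        refine ⟨_, hT0, ?_⟩
        filter_upwards [Lp.coeFn_zero ℝ 2 μ] with x e1
        rw [e1]
        rfl
      smul_mem' := by
        rintro c g ⟨φ, hφ, h1⟩
        refine ⟨_, hsmul c φ hφ, ?_⟩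
        filter_upwards [Lp.coeFn_smul c g, h1] with x e1 e2
        rw [e1, Pi.smul_apply, e2, smul_eq_mul] }
  have hM : ∀ g : M, ∃ φ ∈ T, ((g : Lp ℝ 2 μ) : α → ℝ) =ᵐ[μ] φ := fun g => g.2
  choose rep hrep1 hrep2 using hM
  let f0 : M →ₗ[ℝ] ℝ :=
    { toFun := fun g => l (rep g)
      map_add' := by
        intro g g'
        rw [← ladd _ (hrep1 g) _ (hrep1 g')]
        refine hwd _ (hrep1 _) _ (hadd _ (hrep1 g) _ (hrep1 g')) ?_
        filter_upwards [Lp.coeFn_add (g : Lp ℝ 2 μ) (g' : Lp ℝ 2 μ), hrep2 g, hrep2 g',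
          hrep2 (g + g')] with x e1 e2 e3 e4
        rw [← e4, Submodule.coe_add, e1, Pi.add_apply, e2, e3]
      map_smul' := by
        intro c g
        rw [RingHom.id_apply, smul_eq_mul, ← lsmul c _ (hrep1 g)]
        refine hwd _ (hrep1 _) _ (hsmul c _ (hrep1 g)) ?_
        filter_upwards [Lp.coeFn_smul c (g : Lp ℝ 2 μ), hrep2 g, hrep2 (c • g)] with x e1 e2 e4
        rw [← e4, Submodule.coe_smul, e1, Pi.smul_apply, e2, smul_eq_mul] }
  have hf0 : ∀ g : M, ‖f0 g‖ ≤ C * ‖g‖ := by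
    intro g
    have h1 := hl _ (hrep1 g)
    have h2 : Real.sqrt (∫ x, rep g x ^ 2 ∂μ) = ‖g‖ := by
      have : ∫ x, rep g x ^ 2 ∂μ = ‖(g : Lp ℝ 2 μ)‖ ^ 2 := by
        rw [l2_norm_sq]
        refine integral_congr_ae ?_
        filter_upwards [hrep2 g] with x hx
        rw [hx]
      rw [this, Real.sqrt_sq (norm_nonneg _)]
      rfl
    rw [h2] at h1
    exact h1
  let f1 : M →L[ℝ] ℝ := f0.mkContinuous C hf0
  have hf1 : ‖f1‖ ≤ C := LinearMap.mkContinuous_norm_le _ hC _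
  obtain ⟨g, hg1, hg2⟩ := exists_extension_norm_eq (𝕜 := ℝ) M f1
  set Q : Lp ℝ 2 μ := (InnerProductSpace.toDual ℝ (Lp ℝ 2 μ)).symm g with hQ
  have hQn : ‖Q‖ ≤ C := by
    rw [hQ, LinearIsometryEquiv.norm_map, hg2]
    exact hf1
  refine ⟨Q, Lp.memLp Q, ?_, ?_⟩
  · rw [← l2_norm_sq]
    exact pow_le_pow_left₀ (norm_nonneg _) hQn 2
  · intro φ hφ
    have hmem : (hT φ hφ).toLp φ ∈ M := ⟨φ, hφ, (hT φ hφ).coeFn_toLp⟩
    have h1 : g ((hT φ hφ).toLp φ) = l φ := by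
      have := hg1 ⟨_, hmem⟩
      rw [this]
      show l (rep ⟨_, hmem⟩) = l φ
      refine hwd _ (hrep1 _) _ hφ ?_
      exact (hrep2 ⟨_, hmem⟩).symm.trans (hT φ hφ).coeFn_toLp
    have h2 : inner ℝ Q ((hT φ hφ).toLp φ) = g ((hT φ hφ).toLp φ) := by
      rw [hQ, InnerProductSpace.toDual_symm_apply]
    rw [← h1, ← h2, L2.inner_def]
    refine integral_congr_ae ?_
    filter_upwards [(hT φ hφ).coeFn_toLp] with x hx
    rw [hx]
    simp [mul_comm]

end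

end Pool.Agent.CY.S4
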