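import Pool.Agent.CY.S4.L0

/-!
# CY-S4-L4: translations of the half space

`Ho n` is invariant under the tangential translations and mapped into itself by `x ↦ x + h e_0`, `h ≥ 0`;
Lebesgue measure is translation invariant.
-/

set_option autoImplicit false

open scoped Manifold ContDiff ENNReal
open MeasureTheory Set Filter Topology

namespace Pool.Agent.CY.S4

noncomputable section

variable {n : ℕ}


private theorem add_ei_zero (a : Fin n) (h : ℝ) (x : V (n + 1)) : (x + h • ei a.succ) 0 = x 0 := by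
  simp [ei, (Fin.succ_ne_zero a).symm]

private theorem add_ei_nonneg (i : Fin (n + 1)) {h : ℝ} (hh : 0 ≤ h) (x : V (n + 1)) :
    x 0 ≤ (x + h • ei i) 0 := by
  have : (x + h • ei i) 0 = x 0 + h * (if (0 : Fin (n + 1)) = i then 1 else 0) := by
    simp [ei]
  rw [this]
  split_ifs
  · linarith
  · linarith

private theorem Ho_meas : MeasurableSet (Ho n) := by
  have hc : Continuous (fun x : V (n + 1) => x 0) := by fun_prop
  exact (isOpen_lt continuous_const hc).measurableSet

private theorem emb (i : Fin (n + 1)) (h : ℝ) :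
    MeasurableEmbedding (fun x : V (n + 1) => x + h • ei i) :=
  (Homeomorph.addRight (h • (ei i : V (n + 1)))).measurableEmbedding

theorem shift_tan (a : Fin n) (h : ℝ) :
    MeasurePreserving (fun x : V (n + 1) => x + h • ei a.succ) (nu n) (nu n) := by
  have h1 := (measurePreserving_add_right (volume : Measure (V (n + 1)))
    (h • ei a.succ)).restrict_preimage (Ho_meas (n := n))
  have h2 : (fun x : V (n + 1) => x + h • ei a.succ) ⁻¹' (Ho n) = Ho n := by
    ext x
    show 0 < (x + h • ei a.succ) 0 ↔ 0 < x 0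
    rw [add_ei_zero]
  rw [h2] at h1
  exact h1

theorem shift_le (i : Fin (n + 1)) {h : ℝ} (hh : 0 ≤ h) :
    Measure.map (fun x : V (n + 1) => x + h • ei i) (nu n) ≤ nu n := by
  rw [Measure.le_iff]
  intro s hs
  have hm : Measurable (fun x : V (n + 1) => x + h • ei i) := (emb i h).measurable
  rw [Measure.map_apply hm hs, Measure.restrict_apply (hm hs), Measure.restrict_apply hs]
  have h1 := (measurePreserving_add_right (volume : Measure (V (n + 1))) (h • ei i)).measure_preimage
    (hs.inter (Ho_meas (n := n))).nullMeasurableSet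
  rw [← h1]
  refine measure_mono ?_
  rintro x ⟨hx1, hx2⟩
  exact ⟨hx1, lt_of_lt_of_le hx2 (add_ei_nonneg i hh x)⟩

theorem int_shift_tan (a : Fin n) (h : ℝ) (f : V (n + 1) → ℝ) :
    ∫ x, f (x + h • ei a.succ) ∂(nu n) = ∫ x, f x ∂(nu n) :=
  (shift_tan a h).integral_comp (emb a.succ h) f

theorem memLp_shift (i : Fin (n + 1)) {h : ℝ} (hh : 0 ≤ h) {f : V (n + 1) → ℝ} (hf : MemLp f 2 (nu n)) :
    MemLp (fun x => f (x + h • ei i)) 2 (nu n) := by
  have h1 := hf.mono_measure (shift_le i hh)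
  exact h1.comp_of_map (emb i h).measurable.aemeasurable

theorem memLp_shift_tan (a : Fin n) (h : ℝ) {f : V (n + 1) → ℝ} (hf : MemLp f 2 (nu n)) :
    MemLp (fun x => f (x + h • ei a.succ)) 2 (nu n) :=
  hf.comp_measurePreserving (shift_tan a h)

theorem sq_shift_le (i : Fin (n + 1)) {h : ℝ} (hh : 0 ≤ h) {f : V (n + 1) → ℝ} (hf : MemLp f 2 (nu n)) :
    sq (fun x => f (x + h • ei i)) ≤ sq f := by
  unfold sq
  have h1 : ∫ x, f (x + h • ei i) ^ 2 ∂(nu n) =
      ∫ y, f y ^ 2 ∂(Measure.map (fun x : V (n + 1) => x + h • ei i) (nu n)) :=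
    ((emb i h).integral_map (fun y => f y ^ 2)).symm
  rw [h1]
  exact integral_mono_measure (shift_le i hh) (Eventually.of_forall fun _ => sq_nonneg _) hf.integrable_sq

theorem sq_shift_tan (a : Fin n) (h : ℝ) (f : V (n + 1) → ℝ) :
    sq (fun x => f (x + h • ei a.succ)) = sq f :=
  int_shift_tan a h (fun x => f x ^ 2)

theorem memLp_dq (i : Fin (n + 1)) {h : ℝ} (hh : 0 ≤ h) {f : V (n + 1) → ℝ} (hf : MemLp f 2 (nu n)) :
    MemLp (dq i h f) 2 (nu n) := by
  have h1 := ((memLp_shift i hh hf).sub hf).const_mul h⁻¹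
  refine h1.ae_eq (Eventually.of_forall fun x => ?_)
  simp only [dq, Pi.sub_apply]
  ring

theorem memLp_dq_tan (a : Fin n) (h : ℝ) {f : V (n + 1) → ℝ} (hf : MemLp f 2 (nu n)) :
    MemLp (dq a.succ h f) 2 (nu n) := by
  have h1 := ((memLp_shift_tan a h hf).sub hf).const_mul h⁻¹
  refine h1.ae_eq (Eventually.of_forall fun x => ?_)
  simp only [dq, Pi.sub_apply]
  ring

/-- `dq (-h) f = dq h f` translated by `-h`. -/
theorem dq_neg (i : Fin (n + 1)) (h : ℝ) (f : V (n + 1) → ℝ) (x : V (n + 1)) :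
    dq i (-h) f x = dq i h f (x - h • ei i) := by
  simp only [dq]
  rw [sub_add_cancel, neg_smul, ← sub_eq_add_neg, div_neg, ← neg_div, neg_sub]

theorem sq_dq_neg (a : Fin n) (h : ℝ) (f : V (n + 1) → ℝ) :
    sq (dq a.succ (-h) f) = sq (dq a.succ h f) := by
  rw [← sq_shift_tan a (-h) (dq a.succ h f)]
  congr 1
  ext x
  rw [dq_neg, neg_smul, ← sub_eq_add_neg]

/-- Summation by parts for difference quotients. -/
theorem dq_adj (a : Fin n) (h : ℝ) {f g : V (n + 1) → ℝ} (hf : MemLp f 2 (nu n)) (hg : MemLp g 2 (nu n)) :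
    ∫ x, dq a.succ h f x * g x ∂(nu n) = -∫ x, f x * dq a.succ (-h) g x ∂(nu n) := by
  have e1 : ∫ x, dq a.succ h f x * g x ∂(nu n) =
      h⁻¹ * (∫ x, f (x + h • ei a.succ) * g x ∂(nu n) - ∫ x, f x * g x ∂(nu n)) := by
    rw [← integral_sub (l2_int_mul (memLp_shift_tan a h hf) hg) (l2_int_mul hf hg), ← integral_const_mul]
    congr 1
    ext x
    simp only [dq]
    ring
  have e2 : ∫ x, f x * dq a.succ (-h) g x ∂(nu n) =
      (-h)⁻¹ * (∫ x, f x * g (x + (-h) • ei a.succ) ∂(nu n) - ∫ x, f x * g x ∂(nu n)) := by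
    rw [← integral_sub (l2_int_mul hf (memLp_shift_tan a (-h) hg)) (l2_int_mul hf hg), ← integral_const_mul]
    congr 1
    ext x
    simp only [dq]
    ring
  have e3 : ∫ x, f (x + h • ei a.succ) * g x ∂(nu n) = ∫ x, f x * g (x + (-h) • ei a.succ) ∂(nu n) := by
    rw [← int_shift_tan a h (fun x => f x * g (x + (-h) • ei a.succ))]
    congr 1
    ext x
    rw [add_assoc, neg_smul, add_neg_cancel, add_zero]
  rw [e1, e2, e3, inv_neg]
  ring

/-- `D_h (f g) (x) = f (x + h e) D_h g (x) + D_h f (x) g (x)`. -/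
theorem dq_mul (i : Fin (n + 1)) (h : ℝ) (f g : V (n + 1) → ℝ) (x : V (n + 1)) :
    dq i h (fun y => f y * g y) x = f (x + h • ei i) * dq i h g x + dq i h f x * g x := by
  simp only [dq]
  ring

end

end Pool.Agent.CY.S4
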