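import Pool.Agent.CY.S4.L3a
import Pool.Agent.CY.S4.L4

/-!
# CY-S4-L5b: `HH`: products, weak derivatives, extension of weak equations

By approximation: `u_k ∈ T1`, `u_k → v`, `∂_i u_k → W_i` in `L²(nu)`, `u_k(0, ·) → t` in `L²`.
* `mul`: `b u_k ∈ T1`, `b` and its derivatives are bounded on `Hs n` (`T1_bdd`).
* `wd`: `∫ u_k ∂_i φ = -∫ ∂_i u_k φ` for `φ ∈ T0` (`div_half` for `u_k φ ∈ T1`, which vanishes on the boundary
  since `tsupport φ ⊆ Ho n`).
* `weak_ext`: both sides are continuous for the `L²` convergence (`l2_tend_int`); `A_ij V_j ∈ L²` since `A` is bounded.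
-/

set_option autoImplicit false

open scoped Manifold ContDiff ENNReal
open MeasureTheory Set Filter Topology

namespace Pool.Agent.CY.S4

noncomputable section

variable {n : ℕ}


variable {v : V (n + 1) → ℝ} {W : Fin (n + 1) → V (n + 1) → ℝ} {t : V n → ℝ}


private theorem ae_Hs : ∀ᵐ x ∂(nu n), x ∈ Hs n := by
  have : ∀ᵐ x ∂(nu n), x ∈ Ho n := ae_restrict_mem Ho_open.measurableSet
  filter_upwards [this] with x hx
  exact Ho_sub_Hs hx

private theorem meas_of_cont {b : V (n + 1) → ℝ} (hb : ContinuousOn b (Hs n)) :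
    AEStronglyMeasurable b (nu n) :=
  (hb.mono Ho_sub_Hs).aestronglyMeasurable Ho_open.measurableSet

private theorem memLp_bmul {b f : V (n + 1) → ℝ} {L : ℝ} (hb : AEStronglyMeasurable b (nu n))
    (hL : ∀ x ∈ Hs n, |b x| ≤ L) (hf : MemLp f 2 (nu n)) : MemLp (fun x => b x * f x) 2 (nu n) := by
  refine MemLp.of_le_mul (c := L) hf (hb.mul hf.1) ?_
  filter_upwards [ae_Hs] with x hx
  rw [norm_mul, Real.norm_eq_abs]
  exact mul_le_mul_of_nonneg_right (hL x hx) (norm_nonneg _)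

private theorem sq_bmul {b f : V (n + 1) → ℝ} {L : ℝ} (hL : ∀ x ∈ Hs n, |b x| ≤ L) (hf : MemLp f 2 (nu n)) :
    sq (fun x => b x * f x) ≤ L ^ 2 * sq f := by
  refine l2_mono hf ?_
  filter_upwards [ae_Hs] with x hx
  rw [abs_mul]
  exact mul_le_mul_of_nonneg_right (hL x hx) (abs_nonneg _)

private theorem sq_nonneg' (f : V (n + 1) → ℝ) : 0 ≤ sq f := integral_nonneg fun _ => sq_nonneg _

theorem HH.mul (H : HH v W t) {b : V (n + 1) → ℝ} (hb : b ∈ T1 n) :
    HH (fun x => b x * v x) (fun j x => b x * W j x + pd (Hs n) j b x * v x) (fun z => b (bd z) * t z) := by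
  obtain ⟨u, hu, h1, h2, h3⟩ := H.ex
  obtain ⟨M, hM, hMp⟩ := T1_bdd hb
  have hum : ∀ k, MemLp (u k) 2 (nu n) := fun k => (T1_memLp (hu k) 2).1
  have hup : ∀ k i, MemLp (pd (Hs n) i (u k)) 2 (nu n) := fun k i => (T1_memLp (hu k) 2).2 i
  have hbm : AEStronglyMeasurable b (nu n) := (T1_memLp hb 2).1.1
  have hbp : ∀ i, AEStronglyMeasurable (pd (Hs n) i b) (nu n) := fun i => ((T1_memLp hb 2).2 i).1
  have hbd : MemLp (fun z : V n => b (bd z)) 2 (volume : Measure (V n)) := T1_bdry hb 2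
  have hbdM : ∀ f : V n → ℝ, MemLp f 2 (volume : Measure (V n)) →
      ∫ z : V n, (b (bd z) * f z) ^ 2 ≤ M ^ 2 * ∫ z : V n, f z ^ 2 := by
    intro f hf
    refine l2_mono hf (Eventually.of_forall fun z => ?_)
    rw [abs_mul]
    exact mul_le_mul_of_nonneg_right (hM _ (bd_mem z)) (abs_nonneg _)
  refine ⟨memLp_bmul hbm hM H.memv, fun i => (memLp_bmul hbm hM (H.memW i)).add
    (memLp_bmul (hbp i) (fun x hx => hMp x hx i) H.memv), ?_, fun k x => b x * u k x,
    fun k => T1_mul hb.1 (hu k), ?_, ?_, ?_⟩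
  · refine MemLp.of_le_mul (c := M) H.memt (hbd.1.mul H.memt.1) (Eventually.of_forall fun z => ?_)
    rw [norm_mul, Real.norm_eq_abs]
    exact mul_le_mul_of_nonneg_right (hM _ (bd_mem z)) (norm_nonneg _)
  · have hk : ∀ k, sq (fun x => b x * u k x - b x * v x) ≤ M ^ 2 * sq (fun x => u k x - v x) := by
      intro k
      have e : (fun x => b x * u k x - b x * v x) = fun x => b x * (u k x - v x) := by
        ext x; ring
      rw [e]
      exact sq_bmul hM ((hum k).sub H.memv)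
    have h0 : Tendsto (fun k => M ^ 2 * sq (fun x => u k x - v x)) atTop (𝓝 0) := by
      simpa using h1.const_mul (M ^ 2)
    exact squeeze_zero (fun k => sq_nonneg' _) hk h0
  · intro i
    have hk : ∀ k, sq (fun x => pd (Hs n) i (fun x => b x * u k x) x - (b x * W i x + pd (Hs n) i b x * v x)) ≤
        2 * (M ^ 2 * sq (fun x => pd (Hs n) i (u k) x - W i x)) +
        2 * (M ^ 2 * sq (fun x => u k x - v x)) := by
      intro k
      have e : sq (fun x => pd (Hs n) i (fun x => b x * u k x) x - (b x * W i x + pd (Hs n) i b x * v x)) =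
          ∫ x, (b x * (pd (Hs n) i (u k) x - W i x) + pd (Hs n) i b x * (u k x - v x)) ^ 2 ∂(nu n) := by
        unfold sq
        refine integral_congr_ae ?_
        filter_upwards [ae_Hs] with x hx
        rw [pd_mul (T1_diff hb hx) (T1_diff (hu k) hx) hx i]
        ring
      rw [e]
      have m1 : MemLp (fun x => pd (Hs n) i (u k) x - W i x) 2 (nu n) := (hup k i).sub (H.memW i)
      have m2 : MemLp (fun x => u k x - v x) 2 (nu n) := (hum k).sub H.memv
      refine (l2_add_le (memLp_bmul hbm hM m1) (memLp_bmul (hbp i) (fun x hx => hMp x hx i) m2)).trans ?_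
      have s1 := sq_bmul hM m1
      have s2 := sq_bmul (fun x hx => hMp x hx i) m2
      unfold sq at s1 s2 ⊢
      linarith
    have h0 : Tendsto (fun k => 2 * (M ^ 2 * sq (fun x => pd (Hs n) i (u k) x - W i x)) +
        2 * (M ^ 2 * sq (fun x => u k x - v x))) atTop (𝓝 0) := by
      simpa using (((h2 i).const_mul (M ^ 2)).const_mul 2).add ((h1.const_mul (M ^ 2)).const_mul 2)
    exact squeeze_zero (fun k => sq_nonneg' _) hk h0
  · have hk : ∀ k, ∫ z : V n, (b (bd z) * u k (bd z) - b (bd z) * t z) ^ 2 ≤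
        M ^ 2 * ∫ z : V n, (u k (bd z) - t z) ^ 2 := by
      intro k
      have e : (fun z : V n => (b (bd z) * u k (bd z) - b (bd z) * t z) ^ 2) =
          fun z => (b (bd z) * (u k (bd z) - t z)) ^ 2 := by
        ext z; ring
      rw [e]
      exact hbdM _ ((T1_bdry (hu k) 2).sub H.memt)
    have h0 : Tendsto (fun k => M ^ 2 * ∫ z : V n, (u k (bd z) - t z) ^ 2) atTop (𝓝 0) := by
      simpa using h3.const_mul (M ^ 2)
    exact squeeze_zero (fun k => integral_nonneg fun _ => sq_nonneg _) hk h0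

private theorem T0_bd {φ : V (n + 1) → ℝ} (hφ : φ ∈ T0 n) (z : V n) : φ (bd z) = 0 := by
  by_contra h
  have h1 : bd z ∈ tsupport φ := subset_tsupport _ h
  have h2 : 0 < (bd z : V (n + 1)) 0 := hφ.2.2 h1
  simp [bd, cons] at h2

private theorem ibp {u φ : V (n + 1) → ℝ} (hu : u ∈ T1 n) (hφ : φ ∈ T0 n) (i : Fin (n + 1)) :
    ∫ x, u x * pd (Hs n) i φ x ∂(nu n) = -∫ x, pd (Hs n) i u x * φ x ∂(nu n) := by
  have hφ1 := T0_sub hφ
  have hψ : (fun x => u x * φ x) ∈ T1 n := T1_mul hu.1 hφ1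
  have hd := div_half hψ
  have h0 : ∫ x, pd (Hs n) i (fun x => u x * φ x) x ∂(nu n) = 0 := by
    refine Fin.cases ?_ (fun a => ?_) i
    · rw [hd.1]
      simp [T0_bd hφ]
    · exact hd.2 a
  have e : ∫ x, pd (Hs n) i (fun x => u x * φ x) x ∂(nu n) =
      ∫ x, (u x * pd (Hs n) i φ x + pd (Hs n) i u x * φ x) ∂(nu n) := by
    refine integral_congr_ae ?_
    filter_upwards [ae_Hs] with x hx
    exact pd_mul (T1_diff hu hx) (T1_diff hφ1 hx) hx i
  rw [e, integral_add (l2_int_mul (T1_memLp hu 2).1 ((T1_memLp hφ1 2).2 i))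
    (l2_int_mul ((T1_memLp hu 2).2 i) (T1_memLp hφ1 2).1)] at h0
  linarith

theorem HH.wd (H : HH v W t) (i : Fin (n + 1)) : WD i v (W i) := by
  intro φ hφ
  obtain ⟨u, hu, h1, h2, -⟩ := H.ex
  have hum : ∀ k, MemLp (u k) 2 (nu n) := fun k => (T1_memLp (hu k) 2).1
  have hup : ∀ k, MemLp (pd (Hs n) i (u k)) 2 (nu n) := fun k => (T1_memLp (hu k) 2).2 i
  have hφ1 := T0_sub hφ
  have a1 := l2_tend_int hum H.memv ((T1_memLp hφ1 2).2 i) h1
  have a2 := (l2_tend_int hup (H.memW i) (T1_memLp hφ1 2).1 (h2 i)).neg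
  refine tendsto_nhds_unique a1 ?_
  refine a2.congr fun k => ?_
  exact (ibp (hu k) hφ i).symm

/-- Extension of a weak equation from `T1` to `HH`. -/
theorem weak_ext {A : MF (n + 1)} {l L : ℝ} (hA : Ell A l L) {Vv : Fin (n + 1) → V (n + 1) → ℝ}
    (hV : ∀ i, MemLp (Vv i) 2 (nu n)) {F : V (n + 1) → ℝ} (hF : MemLp F 2 (nu n))
    {G : Fin (n + 1) → V (n + 1) → ℝ} (hG : ∀ i, MemLp (G i) 2 (nu n))
    (hE : ∀ φ ∈ T1 n, ∫ x, ∑ i, ∑ j, A x i j * Vv j x * pd (Hs n) i φ x ∂(nu n) =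
      ∫ x, F x * φ x ∂(nu n) + ∑ i, ∫ x, G i x * pd (Hs n) i φ x ∂(nu n)) (H : HH v W t) :
    ∫ x, ∑ i, ∑ j, A x i j * Vv j x * W i x ∂(nu n) =
      ∫ x, F x * v x ∂(nu n) + ∑ i, ∫ x, G i x * W i x ∂(nu n) := by
  obtain ⟨u, hu, h1, h2, -⟩ := H.ex
  have hum : ∀ k, MemLp (u k) 2 (nu n) := fun k => (T1_memLp (hu k) 2).1
  have hup : ∀ i k, MemLp (pd (Hs n) i (u k)) 2 (nu n) := fun i k => (T1_memLp (hu k) 2).2 i
  have hP : ∀ i, MemLp (fun x => ∑ j, A x i j * Vv j x) 2 (nu n) := fun i =>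
    memLp_finsetSum _ fun j _ => memLp_bmul (meas_of_cont (hA.smooth i j).continuousOn)
      (fun x hx => hA.bd x hx i j) (hV j)
  have key : ∀ U : Fin (n + 1) → V (n + 1) → ℝ, (∀ i, MemLp (U i) 2 (nu n)) →
      ∫ x, ∑ i, ∑ j, A x i j * Vv j x * U i x ∂(nu n) =
      ∑ i, ∫ x, U i x * (∑ j, A x i j * Vv j x) ∂(nu n) := by
    intro U hU
    rw [← integral_finsetSum _ (fun i _ => l2_int_mul (hU i) (hP i))]
    congr 1
    ext x
    refine Finset.sum_congr rfl fun i _ => ?_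
    rw [Finset.mul_sum]
    exact Finset.sum_congr rfl fun j _ => by ring
  have L1 : Tendsto (fun k => ∑ i, ∫ x, pd (Hs n) i (u k) x * (∑ j, A x i j * Vv j x) ∂(nu n)) atTop
      (𝓝 (∑ i, ∫ x, W i x * (∑ j, A x i j * Vv j x) ∂(nu n))) :=
    tendsto_finsetSum _ fun i _ => l2_tend_int (hup i) (H.memW i) (hP i) (h2 i)
  have R1 : Tendsto (fun k => ∫ x, u k x * F x ∂(nu n)) atTop (𝓝 (∫ x, v x * F x ∂(nu n))) :=
    l2_tend_int hum H.memv hF h1
  have R2 : Tendsto (fun k => ∑ i, ∫ x, pd (Hs n) i (u k) x * G i x ∂(nu n)) atTop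
      (𝓝 (∑ i, ∫ x, W i x * G i x ∂(nu n))) :=
    tendsto_finsetSum _ fun i _ => l2_tend_int (hup i) (H.memW i) (hG i) (h2 i)
  have e1 : ∀ f g : V (n + 1) → ℝ, ∫ x, f x * g x ∂(nu n) = ∫ x, g x * f x ∂(nu n) := fun f g => by
    congr 1; ext x; ring
  rw [key W H.memW]
  have hfin : ∑ i, ∫ x, W i x * (∑ j, A x i j * Vv j x) ∂(nu n) =
      ∫ x, v x * F x ∂(nu n) + ∑ i, ∫ x, W i x * G i x ∂(nu n) := by
    refine tendsto_nhds_unique L1 ((R1.add R2).congr fun k => ?_)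
    have := hE (u k) (hu k)
    rw [key (fun i => pd (Hs n) i (u k)) (fun i => hup i k)] at this
    rw [this, e1 F (u k)]
    congr 1
    exact Finset.sum_congr rfl fun i _ => e1 _ _
  rw [hfin, e1 v F]
  congr 1
  exact Finset.sum_congr rfl fun i _ => e1 _ _

end

end Pool.Agent.CY.S4
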