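import Pool.Agent.CY.S4.L1

/-!
# CY-S4-L1t: the classes `T0`, `T1`, `T2`

A function of `T1` is continuous on the closed set `Hs n` with compact support, hence bounded on `Hs n` and square
integrable for `nu n` (`ContinuousOn.aestronglyMeasurable`, the measure of a compact set is finite;
`nu n` is the restriction to `Ho n ⊆ Hs n`).  `pd_contDiffOn` and `pd_support` for the derivatives.
-/

set_option autoImplicit false

open scoped Manifold ContDiff ENNReal
open MeasureTheory Set Filter Topology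

namespace Pool.Agent.CY.S4

noncomputable section

variable {n : ℕ}


theorem T0_sub : T0 n ⊆ T1 n := fun _ hφ => ⟨hφ.1.contDiffOn, hφ.2.1⟩

theorem T2_sub : T2 n ⊆ T1 n := fun _ hφ => ⟨hφ.1.of_le (by norm_num), hφ.2⟩

theorem T1_add {φ ψ : V (n + 1) → ℝ} (hφ : φ ∈ T1 n) (hψ : ψ ∈ T1 n) : (fun x => φ x + ψ x) ∈ T1 n :=
  ⟨hφ.1.add hψ.1, hφ.2.add hψ.2⟩

theorem T1_smul (c : ℝ) {φ : V (n + 1) → ℝ} (hφ : φ ∈ T1 n) : (fun x => c * φ x) ∈ T1 n :=
  ⟨contDiffOn_const.mul hφ.1, hφ.2.mul_left⟩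

theorem T1_sub {φ ψ : V (n + 1) → ℝ} (hφ : φ ∈ T1 n) (hψ : ψ ∈ T1 n) : (fun x => φ x - ψ x) ∈ T1 n := by
  have h := T1_add hφ (T1_smul (-1) hψ)
  have e : (fun x => φ x + -1 * ψ x) = fun x => φ x - ψ x := by funext x; ring
  rwa [e] at h

theorem T1_zero : (fun _ => (0 : ℝ)) ∈ T1 n := ⟨contDiffOn_const, HasCompactSupport.zero⟩

theorem T1_mul {b φ : V (n + 1) → ℝ} (hb : ContDiffOn ℝ 1 b (Hs n)) (hφ : φ ∈ T1 n) :
    (fun x => b x * φ x) ∈ T1 n := ⟨hb.mul hφ.1, hφ.2.mul_left⟩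

theorem T1_comp {F : ℝ → ℝ} (hF : ContDiff ℝ 1 F) (h0 : F 0 = 0) {φ : V (n + 1) → ℝ} (hφ : φ ∈ T1 n) :
    (fun x => F (φ x)) ∈ T1 n := ⟨hF.comp_contDiffOn hφ.1, hφ.2.comp_left h0⟩

theorem T0_add {φ ψ : V (n + 1) → ℝ} (hφ : φ ∈ T0 n) (hψ : ψ ∈ T0 n) : (fun x => φ x + ψ x) ∈ T0 n :=
  ⟨hφ.1.add hψ.1, hφ.2.1.add hψ.2.1, by
    intro x hx
    have h : tsupport (φ + ψ) ⊆ tsupport φ ∪ tsupport ψ := tsupport_add φ ψ
    rcases h hx with h | h
    · exact hφ.2.2 h
    · exact hψ.2.2 h⟩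

theorem T0_smul (c : ℝ) {φ : V (n + 1) → ℝ} (hφ : φ ∈ T0 n) : (fun x => c * φ x) ∈ T0 n :=
  ⟨contDiff_const.mul hφ.1, hφ.2.1.mul_left, by
    refine subset_trans (closure_mono ?_) hφ.2.2
    intro x hx h
    apply hx
    show c * φ x = 0
    rw [h, mul_zero]⟩

theorem T0_zero : (fun _ => (0 : ℝ)) ∈ T0 n :=
  ⟨contDiff_const, HasCompactSupport.zero, by
    intro x hx
    have h : (fun _ : V (n + 1) => (0 : ℝ)) = 0 := rfl
    rw [h, tsupport, Function.support_zero, closure_empty] at hx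
    exact absurd hx (notMem_empty x)⟩

/-- `b φ` vanishes near the points outside `tsupport φ ⊆ Ho n`, and `b` is `C^1` on the open set `Ho n`. -/
theorem T0_mul {b φ : V (n + 1) → ℝ} (hb : ContDiffOn ℝ 1 b (Hs n)) (hφ : φ ∈ T0 n) :
    (fun x => b x * φ x) ∈ T0 n := by
  refine ⟨?_, hφ.2.1.mul_left, ?_⟩
  · rw [contDiff_iff_contDiffAt]
    intro x
    by_cases hx : x ∈ tsupport φ
    · have hxo := hφ.2.2 hx
      have hb' : ContDiffAt ℝ 1 b x :=
        hb.contDiffAt (Filter.mem_of_superset (Ho_open.mem_nhds hxo) Ho_sub_Hs)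
      exact hb'.mul hφ.1.contDiffAt
    · have h0 : (fun y => b y * φ y) =ᶠ[𝓝 x] fun _ => 0 := by
        have h1 := (isClosed_tsupport φ).isOpen_compl.mem_nhds hx
        filter_upwards [h1] with y hy
        rw [image_eq_zero_of_notMem_tsupport hy, mul_zero]
      exact contDiffAt_const.congr_of_eventuallyEq h0
  · refine subset_trans (closure_mono ?_) hφ.2.2
    intro x hx h
    apply hx
    show b x * φ x = 0
    rw [h, mul_zero]

/-- Functions of `T1` are differentiable within `Hs n`. -/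
theorem T1_diff {φ : V (n + 1) → ℝ} (hφ : φ ∈ T1 n) {x : V (n + 1)} (hx : x ∈ Hs n) :
    DifferentiableWithinAt ℝ φ (Hs n) x := hφ.1.differentiableOn (by norm_num) x hx

private theorem cont_bdd {f : V (n + 1) → ℝ} (hf : ContinuousOn f (Hs n)) {K : Set (V (n + 1))}
    (hK : IsCompact K) (hs : Function.support f ⊆ K) : ∃ M : ℝ, 0 ≤ M ∧ ∀ x ∈ Hs n, |f x| ≤ M := by
  have hKc : IsCompact (K ∩ Hs n) := hK.inter_right Hs_closed
  obtain ⟨M, hM⟩ := hKc.exists_bound_of_continuousOn (hf.mono inter_subset_right)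
  refine ⟨max M 0, le_max_right _ _, ?_⟩
  intro x hx
  by_cases hxK : x ∈ K
  · exact (hM x ⟨hxK, hx⟩).trans (le_max_left _ _)
  · have h0 : f x = 0 := by
      by_contra h
      exact hxK (hs h)
    rw [h0, abs_zero]
    exact le_max_right _ _

private theorem T1_pd_cont {φ : V (n + 1) → ℝ} (hφ : φ ∈ T1 n) (i : Fin (n + 1)) :
    ContinuousOn (pd (Hs n) i φ) (Hs n) := by
  have h : ContDiffOn ℝ ((0 + 1 : ℕ) : WithTop ℕ∞) φ (Hs n) := by simpa using hφ.1
  exact (pd_contDiffOn (k := 0) h i).continuousOn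

private theorem T1_pd_supp {φ : V (n + 1) → ℝ} (hφ : HasCompactSupport φ) (i : Fin (n + 1)) :
    HasCompactSupport (pd (Hs n) i φ) :=
  HasCompactSupport.of_support_subset_isCompact hφ (pd_support φ i)

theorem T1_bdd {φ : V (n + 1) → ℝ} (hφ : φ ∈ T1 n) :
    ∃ M : ℝ, (∀ x ∈ Hs n, |φ x| ≤ M) ∧ ∀ x ∈ Hs n, ∀ i, |pd (Hs n) i φ x| ≤ M := by
  obtain ⟨M0, h00, h0⟩ := cont_bdd hφ.1.continuousOn hφ.2 (subset_tsupport φ)
  have h1 : ∀ i, ∃ M : ℝ, 0 ≤ M ∧ ∀ x ∈ Hs n, |pd (Hs n) i φ x| ≤ M := fun i =>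
    cont_bdd (T1_pd_cont hφ i) hφ.2 (pd_support φ i)
  choose M hM0 hM using h1
  refine ⟨M0 + ∑ i, M i, ?_, ?_⟩
  · intro x hx
    exact (h0 x hx).trans (le_add_of_nonneg_right (Finset.sum_nonneg fun i _ => hM0 i))
  · intro x hx i
    have h2 : M i ≤ ∑ i, M i := Finset.single_le_sum (fun i _ => hM0 i) (Finset.mem_univ i)
    exact (hM i x hx).trans (h2.trans (le_add_of_nonneg_left h00))

/-- Continuous functions on `Hs n` with compact support belong to every `L^p (nu n)`. -/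
theorem memLp_of_cont {p : ℝ≥0∞} {φ : V (n + 1) → ℝ} (hφ : ContinuousOn φ (Hs n)) (hc : HasCompactSupport φ) :
    MemLp φ p (nu n) := by
  obtain ⟨M, -, hM⟩ := cont_bdd hφ hc (subset_tsupport φ)
  have hm : AEStronglyMeasurable φ (nu n) :=
    (hφ.mono Ho_sub_Hs).aestronglyMeasurable Ho_open.measurableSet
  have hK : MeasurableSet (tsupport φ) := (isClosed_tsupport φ).measurableSet
  have hind : (tsupport φ).indicator φ = φ :=
    indicator_eq_self.2 (subset_tsupport φ)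
  rw [← hind, memLp_indicator_iff_restrict hK]
  have hfin : IsFiniteMeasure ((nu n).restrict (tsupport φ)) := by
    constructor
    rw [Measure.restrict_apply_univ]
    exact lt_of_le_of_lt (Measure.restrict_apply_le _ _) hc.measure_lt_top
  refine MemLp.of_bound hm.restrict M ?_
  apply ae_restrict_of_ae
  filter_upwards [ae_restrict_mem Ho_open.measurableSet] with x hx
  exact hM x (Ho_sub_Hs hx)

theorem T1_memLp {φ : V (n + 1) → ℝ} (hφ : φ ∈ T1 n) (p : ℝ≥0∞) :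
    MemLp φ p (nu n) ∧ ∀ i, MemLp (pd (Hs n) i φ) p (nu n) :=
  ⟨memLp_of_cont hφ.1.continuousOn hφ.2, fun i =>
    memLp_of_cont (T1_pd_cont hφ i) (T1_pd_supp hφ.2 i)⟩

theorem T1_bdry {φ : V (n + 1) → ℝ} (hφ : φ ∈ T1 n) (p : ℝ≥0∞) :
    MemLp (fun z : V n => φ (bd z)) p (volume : Measure (V n)) := by
  have hc : Continuous (fun z : V n => φ (bd z)) :=
    hφ.1.continuousOn.comp_continuous contDiff_bd.continuous bd_mem
  have hs : HasCompactSupport (fun z : V n => φ (bd z)) := by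
    have hK : IsCompact (tl '' tsupport φ) := hφ.2.isCompact.image contDiff_tl.continuous
    refine HasCompactSupport.of_support_subset_isCompact hK ?_
    intro z hz
    exact ⟨bd z, subset_tsupport φ hz, tl_bd z⟩
  exact hc.memLp_of_hasCompactSupport hs

theorem T2_pd {φ : V (n + 1) → ℝ} (hφ : φ ∈ T2 n) (i : Fin (n + 1)) : pd (Hs n) i φ ∈ T1 n := by
  have h : ContDiffOn ℝ ((1 + 1 : ℕ) : WithTop ℕ∞) φ (Hs n) := by
    have := hφ.1
    norm_num
    exact this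
  refine ⟨?_, T1_pd_supp hφ.2 i⟩
  have h2 := pd_contDiffOn (k := 1) h i
  simpa using h2

end

end Pool.Agent.CY.S4
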