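import Pool.Agent.CY.S4.L6a
import Pool.Agent.CY.S4.L1t

/-!
# CY-S4-L6b: the class `BDQ`

`D_h (b f) = b(x + h e) D_h f + (D_h b) f`, with `b` bounded and Lipschitz on the convex set `Hs n` (mean value
inequality: `Convex.norm_image_sub_le_of_norm_fderivWithin_le` or along the segment `x + s h e_i`, whose derivative is
`h pd i b`); `|D_h (F ∘ f)| ≤ L |D_h f|`; `(a + b)² ≤ 2a² + 2b²`.  Measurability of `F ∘ f`: `F` is continuous.
-/

set_option autoImplicit false

open scoped Manifold ContDiff ENNReal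
open MeasureTheory Set Filter Topology

namespace Pool.Agent.CY.S4

noncomputable section

variable {n : ℕ}


theorem l6b_dq_bound {G : V (n + 1) → ℝ} (h : BDQ G) :
    ∃ C : ℝ, 0 ≤ C ∧ ∀ (i : Fin (n + 1)) (t : ℝ), 0 < t → sq (dq i t G) ≤ C := by
  obtain ⟨C, hC⟩ := h.bd
  refine ⟨C, ?_, hC⟩
  refine le_trans ?_ (hC 0 1 one_pos)
  exact integral_nonneg fun x => sq_nonneg _

theorem BDQ.add {G G' : V (n + 1) → ℝ} (h : BDQ G) (h' : BDQ G') : BDQ (fun x => G x + G' x) := by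
  obtain ⟨C, hC⟩ := h.bd
  obtain ⟨C', hC'⟩ := h'.bd
  refine ⟨h.mem.add h'.mem, 2 * C + 2 * C', fun i t ht => ?_⟩
  have h1 : sq (dq i t (fun x => G x + G' x)) = ∫ x, (dq i t G x + dq i t G' x) ^ 2 ∂(nu n) := by
    unfold sq
    congr 1
    ext x
    simp only [dq]
    ring
  rw [h1]
  refine (l2_add_le (memLp_dq i ht.le h.mem) (memLp_dq i ht.le h'.mem)).trans ?_
  have h2 := hC i t ht
  have h3 := hC' i t ht
  unfold sq at h2 h3
  linarith

theorem BDQ.smul (c : ℝ) {G : V (n + 1) → ℝ} (h : BDQ G) : BDQ (fun x => c * G x) := by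
  obtain ⟨C, hC⟩ := h.bd
  refine ⟨h.mem.const_mul c, c ^ 2 * C, fun i t ht => ?_⟩
  have h1 : sq (dq i t (fun x => c * G x)) = c ^ 2 * sq (dq i t G) := by
    unfold sq
    rw [← integral_const_mul]
    congr 1
    ext x
    simp only [dq]
    ring
  rw [h1]
  exact mul_le_mul_of_nonneg_left (hC i t ht) (sq_nonneg c)

theorem l6b_zero : BDQ (fun _ : V (n + 1) => (0 : ℝ)) := by
  refine ⟨MemLp.zero', 0, fun i t _ => ?_⟩
  have : dq i t (fun _ : V (n + 1) => (0 : ℝ)) = fun _ => 0 := by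
    ext x; simp [dq]
  rw [this]
  simp [sq]

theorem BDQ.sum {ι : Type} (s : Finset ι) {G : ι → V (n + 1) → ℝ} (h : ∀ i ∈ s, BDQ (G i)) :
    BDQ (fun x => ∑ i ∈ s, G i x) := by
  classical
  induction s using Finset.induction_on with
  | empty => simpa using (l6b_zero (n := n))
  | insert a s ha ih =>
    have h1 := ih fun i hi => h i (Finset.mem_insert_of_mem hi)
    have h2 := h a (Finset.mem_insert_self a s)
    have h3 := h2.add h1
    convert h3 using 1
    ext x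
    exact Finset.sum_insert ha

theorem l6b_lip {F : ℝ → ℝ} (hF : ContDiff ℝ 1 F) {L : ℝ} (hL : ∀ s, |deriv F s| ≤ L) (a b : ℝ) :
    |F a - F b| ≤ L * |a - b| := by
  have h := Convex.norm_image_sub_le_of_norm_deriv_le (f := F) (s := univ) (x := b) (y := a)
    (fun x _ => (hF.differentiable one_ne_zero) x) (fun x _ => hL x) convex_univ (mem_univ _)
    (mem_univ _)
  simpa [Real.norm_eq_abs] using h

theorem BDQ.comp {G : V (n + 1) → ℝ} (h : BDQ G) {F : ℝ → ℝ} (hF : ContDiff ℝ 1 F) (h0 : F 0 = 0) {L : ℝ}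
    (hL : ∀ s, |deriv F s| ≤ L) : BDQ (fun x => F (G x)) := by
  obtain ⟨C, hC⟩ := h.bd
  refine ⟨?_, L ^ 2 * C, fun i t ht => ?_⟩
  · refine MemLp.of_le_mul (c := L) h.mem (hF.continuous.comp_aestronglyMeasurable h.mem.1)
      (Eventually.of_forall fun x => ?_)
    have := l6b_lip hF hL (G x) 0
    rw [h0, sub_zero, sub_zero] at this
    exact this
  · refine (l2_mono (c := L) (memLp_dq i ht.le h.mem) (Eventually.of_forall fun x => ?_)).trans ?_
    · simp only [dq]
      rw [abs_div, abs_div, abs_of_pos ht, ← mul_div_assoc]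
      exact div_le_div_of_nonneg_right (l6b_lip hF hL _ _) ht.le
    · exact mul_le_mul_of_nonneg_left (hC i t ht) (sq_nonneg L)

theorem l6b_shift {x : V (n + 1)} (hx : x ∈ Hs n) (i : Fin (n + 1)) {s : ℝ} (hs : 0 ≤ s) :
    x + s • ei i ∈ Hs n := by
  have h1 : 0 ≤ x 0 := hx
  change 0 ≤ (x + s • ei i) 0
  have h2 : (x + s • ei i) 0 = x 0 + s * (ei i : V (n + 1)) 0 := rfl
  rw [h2]
  have h3 : 0 ≤ (ei i : V (n + 1)) 0 := by
    rw [ei, EuclideanSpace.single_apply]
    split_ifs <;> norm_num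
  positivity

theorem l6b_mv {b : V (n + 1) → ℝ} (hb : ContDiffOn ℝ 1 b (Hs n)) {L : ℝ}
    (h2 : ∀ x ∈ Hs n, ∀ i, |pd (Hs n) i b x| ≤ L) {x : V (n + 1)} (hx : x ∈ Hs n)
    (i : Fin (n + 1)) {t : ℝ} (ht : 0 < t) : |dq i t b x| ≤ L := by
  have hder : ∀ s ∈ Icc (0 : ℝ) t, HasDerivWithinAt (fun s : ℝ => b (x + s • ei i))
      (pd (Hs n) i b (x + s • ei i)) (Icc 0 t) s := by
    intro s hs
    have h3 := ((hb.differentiableOn one_ne_zero) _ (l6b_shift hx i hs.1)).hasFDerivWithinAt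
    have h4 : HasDerivWithinAt (fun s : ℝ => x + s • ei i) (ei i) (Icc 0 t) s := by
      have := ((hasDerivWithinAt_id s (Icc 0 t)).smul_const (ei i : V (n + 1))).const_add x
      simpa using this
    exact h3.comp_hasDerivWithinAt s h4 fun r hr => l6b_shift hx i hr.1
  have h5 := Convex.norm_image_sub_le_of_norm_hasDerivWithin_le (f := fun s : ℝ => b (x + s • ei i))
    (C := L) hder (fun s hs => h2 _ (l6b_shift hx i hs.1) i) (convex_Icc 0 t)
    (left_mem_Icc.2 ht.le) (right_mem_Icc.2 ht.le)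
  simp only [zero_smul, add_zero, sub_zero, Real.norm_eq_abs, abs_of_pos ht] at h5
  rw [dq, abs_div, abs_of_pos ht, div_le_iff₀ ht]
  exact h5

/-- `b` bounded with bounded derivatives. -/
theorem BDQ.mul {G : V (n + 1) → ℝ} (h : BDQ G) {b : V (n + 1) → ℝ} (hb : ContDiffOn ℝ 1 b (Hs n)) {L : ℝ}
    (h1 : ∀ x ∈ Hs n, |b x| ≤ L) (h2 : ∀ x ∈ Hs n, ∀ i, |pd (Hs n) i b x| ≤ L) :
    BDQ (fun x => b x * G x) := by
  obtain ⟨C, hC⟩ := h.bd
  have hmHo : MeasurableSet (Ho n) := Ho_open.measurableSet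
  have hae : ∀ᵐ x ∂(nu n), x ∈ Ho n := ae_restrict_mem hmHo
  refine ⟨?_, L ^ 2 * (2 * C + 2 * sq G), fun i t ht => ?_⟩
  · have hbm : AEStronglyMeasurable b (nu n) :=
      (hb.continuousOn.mono Ho_sub_Hs).aestronglyMeasurable hmHo
    refine MemLp.of_le_mul (c := L) h.mem (hbm.mul h.mem.1) ?_
    filter_upwards [hae] with x hx
    rw [norm_mul]
    exact mul_le_mul_of_nonneg_right (h1 x (Ho_sub_Hs hx)) (norm_nonneg _)
  · have hm1 : MemLp (fun x => |dq i t G x|) 2 (nu n) := (memLp_dq i ht.le h.mem).abs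
    have hm2 : MemLp (fun x => |G x|) 2 (nu n) := h.mem.abs
    have h3 : sq (dq i t (fun x => b x * G x)) ≤
        L ^ 2 * ∫ x, (|dq i t G x| + |G x|) ^ 2 ∂(nu n) := by
      refine l2_mono (c := L) (hm1.add hm2) ?_
      filter_upwards [hae] with x hx
      rw [dq_mul]
      have h4 : |b (x + t • ei i)| ≤ L := h1 _ (l6b_shift (Ho_sub_Hs hx) i ht.le)
      have h5 : |dq i t b x| ≤ L := l6b_mv hb h2 (Ho_sub_Hs hx) i ht
      have h6 : 0 ≤ |dq i t G x| + |G x| := by positivity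
      change _ ≤ L * |(|dq i t G x| + |G x|)|
      rw [abs_of_nonneg h6]
      calc |b (x + t • ei i) * dq i t G x + dq i t b x * G x|
          ≤ |b (x + t • ei i) * dq i t G x| + |dq i t b x * G x| := abs_add_le _ _
        _ = |b (x + t • ei i)| * |dq i t G x| + |dq i t b x| * |G x| := by rw [abs_mul, abs_mul]
        _ ≤ L * |dq i t G x| + L * |G x| :=
            add_le_add (mul_le_mul_of_nonneg_right h4 (abs_nonneg _))
              (mul_le_mul_of_nonneg_right h5 (abs_nonneg _))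
        _ = L * (|dq i t G x| + |G x|) := by ring
    refine h3.trans (mul_le_mul_of_nonneg_left ?_ (sq_nonneg L))
    refine (l2_add_le hm1 hm2).trans ?_
    have h7 : ∫ x, |dq i t G x| ^ 2 ∂(nu n) = sq (dq i t G) := by
      unfold sq; simp only [sq_abs]
    have h8 : ∫ x, |G x| ^ 2 ∂(nu n) = sq G := by
      unfold sq; simp only [sq_abs]
    rw [h7, h8]
    have := hC i t ht
    linarith

end

end Pool.Agent.CY.S4
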