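import Pool.Agent.CY.S4.L5a
import Pool.Agent.CY.S4.L5b
import Pool.Agent.CY.S4.L6b
import Pool.Agent.CY.S4.L0r

/-!
# CY-S4-L10: moving a boundary term into the half space

`b : V n → ℝ` is `C^1` with compact support (so bounded with bounded derivative), `f` is `C^1` with `f 0 = 0`,
`|f'| ≤ L`.  With `u_k ∈ T1` as in `HH`: `Ψ = b (tl x) f (u_k x) φ x ∈ T1`; `div_half`:
`∫ b f(u_k(0,z)) φ(0,z) dz = -∫ b(tl x) f'(u_k) ∂_0 u_k φ - ∫ b(tl x) f(u_k) ∂_0 φ`.
The left side tends to `∫ b f(t) φ(0, ·)` (`|f(s) - f(s')| ≤ L |s - s'|`, `T1_bdry`), the last term to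
`-∫ b f(v) ∂_0 φ`.  So `ℓ(φ) = ∫ b f(t) φ(0, ·) + ∫ b f(v) ∂_0 φ` is the limit of `-∫ b f'(u_k) ∂_0 u_k φ`, hence
`|ℓ(φ)| ≤ sup|b| L sup_k √(sq ∂_0 u_k) √(sq φ)`; `l2_riesz` with `T = T1 n`.
-/

set_option autoImplicit false

open scoped Manifold ContDiff ENNReal
open MeasureTheory Set Filter Topology

namespace Pool.Agent.CY.S4

noncomputable section

variable {n : ℕ}


private theorem lip_of_deriv {f : ℝ → ℝ} (hf : ContDiff ℝ 1 f) {L : ℝ}
    (hL : ∀ s, |deriv f s| ≤ L) (s s' : ℝ) : |f s - f s'| ≤ L * |s - s'| := by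
  have := Convex.norm_image_sub_le_of_norm_deriv_le (f := f) (s := Set.univ) (x := s') (y := s)
    (C := L) (fun x _ => hf.differentiable (by norm_num) x) (fun x _ => hL x) convex_univ
    (mem_univ _) (mem_univ _)
  simpa [Real.norm_eq_abs] using this

private theorem comp_memLp {α : Type} [MeasurableSpace α] {μ : Measure α} {f : ℝ → ℝ}
    (hf : ContDiff ℝ 1 f) (h0 : f 0 = 0) {L : ℝ} (hL : ∀ s, |deriv f s| ≤ L) {g : α → ℝ}
    (hg : MemLp g 2 μ) : MemLp (fun x => f (g x)) 2 μ := by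
  refine MemLp.of_le_mul (c := L) hg (hf.continuous.comp_aestronglyMeasurable hg.1) ?_
  refine Eventually.of_forall fun x => ?_
  have := lip_of_deriv hf hL (g x) 0
  rw [h0, sub_zero, sub_zero] at this
  exact this

private theorem mulL2 {b f : V (n + 1) → ℝ} (hb : ContinuousOn b (Hs n)) {L : ℝ}
    (h1 : ∀ x ∈ Hs n, |b x| ≤ L) (hf : MemLp f 2 (nu n)) : MemLp (fun x => b x * f x) 2 (nu n) := by
  have hbm : AEStronglyMeasurable b (nu n) :=
    (hb.mono Ho_sub_Hs).aestronglyMeasurable Ho_open.measurableSet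
  refine MemLp.of_le_mul (c := L) hf (hbm.mul hf.1) ?_
  filter_upwards [ae_restrict_mem Ho_open.measurableSet] with x hx
  rw [norm_mul]
  exact mul_le_mul_of_nonneg_right (h1 x (Ho_sub_Hs hx)) (norm_nonneg _)

/-- the limit of `∫ f(u_k) g` -/
private theorem tend_comp {α : Type} [MeasurableSpace α] {μ : Measure α} {f : ℝ → ℝ}
    (hf : ContDiff ℝ 1 f) (h0 : f 0 = 0) {L : ℝ} (hL : ∀ s, |deriv f s| ≤ L) {u : ℕ → α → ℝ}
    {v g : α → ℝ} (hu : ∀ k, MemLp (u k) 2 μ) (hv : MemLp v 2 μ) (hg : MemLp g 2 μ)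
    (h : Tendsto (fun k => ∫ x, (u k x - v x) ^ 2 ∂μ) atTop (𝓝 0)) :
    Tendsto (fun k => ∫ x, f (u k x) * g x ∂μ) atTop (𝓝 (∫ x, f (v x) * g x ∂μ)) := by
  refine l2_tend_int (F := fun k x => f (u k x)) (f := fun x => f (v x))
    (fun k => comp_memLp hf h0 hL (hu k)) (comp_memLp hf h0 hL hv) hg ?_
  have h2 : Tendsto (fun k => L ^ 2 * ∫ x, (u k x - v x) ^ 2 ∂μ) atTop (𝓝 0) := by
    simpa using h.const_mul (L ^ 2)
  refine squeeze_zero (fun k => integral_nonneg fun x => sq_nonneg _) (fun k => ?_) h2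
  exact l2_mono (f := fun x => f (u k x) - f (v x)) ((hu k).sub hv)
    (Eventually.of_forall fun x => lip_of_deriv hf hL _ _)

theorem bdry_term {v : V (n + 1) → ℝ} {W : Fin (n + 1) → V (n + 1) → ℝ} {t : V n → ℝ} (H : HH v W t)
    {b : V n → ℝ} (hb : ContDiff ℝ 1 b) (hbc : HasCompactSupport b) {f : ℝ → ℝ} (hf : ContDiff ℝ 1 f)
    (h0 : f 0 = 0) {L : ℝ} (hL : ∀ s, |deriv f s| ≤ L) :
    ∃ Q : V (n + 1) → ℝ, MemLp Q 2 (nu n) ∧ ∀ φ ∈ T1 n,
      ∫ z : V n, b z * f (t z) * φ (bd z) =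
        ∫ x, Q x * φ x ∂(nu n) - ∫ x, b (tl x) * f (v x) * pd (Hs n) 0 φ x ∂(nu n) := by
  obtain ⟨u, hu, hu1, hu2, hu3⟩ := H.ex
  obtain ⟨Mb, hMb⟩ := hb.continuous.bounded_above_of_compact_support hbc
  have hMb0 : 0 ≤ Mb := (norm_nonneg _).trans (hMb 0)
  have hL0 : 0 ≤ L := (abs_nonneg _).trans (hL 0)
  have hbt : ContDiff ℝ 1 (fun x : V (n + 1) => b (tl x)) :=
    hb.comp (contDiff_tl.of_le (by exact_mod_cast le_top))
  have hbto : ContDiffOn ℝ 1 (fun x : V (n + 1) => b (tl x)) (Hs n) := hbt.contDiffOn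
  have hbtb : ∀ x ∈ Hs n, |b (tl x)| ≤ Mb := fun x _ => hMb _
  have hum : ∀ k, MemLp (u k) 2 (nu n) := fun k => (T1_memLp (hu k) 2).1
  have hudm : ∀ k i, MemLp (pd (Hs n) i (u k)) 2 (nu n) := fun k => (T1_memLp (hu k) 2).2
  have hubm : ∀ k, MemLp (fun z : V n => u k (bd z)) 2 (volume : Measure (V n)) :=
    fun k => T1_bdry (hu k) 2
  -- MemLp facts for test functions
  have mφ : ∀ φ ∈ T1 n, MemLp φ 2 (nu n) := fun φ hφ => (T1_memLp hφ 2).1
  have mdφ : ∀ φ ∈ T1 n, MemLp (pd (Hs n) 0 φ) 2 (nu n) := fun φ hφ => (T1_memLp hφ 2).2 0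
  have mbφ : ∀ φ ∈ T1 n, MemLp (fun z : V n => b z * φ (bd z)) 2 (volume : Measure (V n)) := by
    intro φ hφ
    refine MemLp.of_le_mul (c := Mb) (T1_bdry hφ 2)
      (hb.continuous.aestronglyMeasurable.mul (T1_bdry hφ 2).1) ?_
    refine Eventually.of_forall fun z => ?_
    rw [norm_mul]
    exact mul_le_mul_of_nonneg_right (hMb z) (norm_nonneg _)
  have mbdφ : ∀ φ ∈ T1 n, MemLp (fun x => b (tl x) * pd (Hs n) 0 φ x) 2 (nu n) :=
    fun φ hφ => mulL2 hbto.continuousOn hbtb (mdφ φ hφ)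
  have mfv : MemLp (fun x => f (v x)) 2 (nu n) := comp_memLp hf h0 hL H.memv
  have mft : MemLp (fun z => f (t z)) 2 (volume : Measure (V n)) := comp_memLp hf h0 hL H.memt
  -- the functional
  set l : (V (n + 1) → ℝ) → ℝ := fun φ => (∫ z : V n, f (t z) * (b z * φ (bd z))) +
    ∫ x, f (v x) * (b (tl x) * pd (Hs n) 0 φ x) ∂(nu n) with hl
  -- the identity for the approximations
  have key : ∀ φ ∈ T1 n, ∀ k, (∫ z : V n, f (u k (bd z)) * (b z * φ (bd z))) +
      ∫ x, f (u k x) * (b (tl x) * pd (Hs n) 0 φ x) ∂(nu n) =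
      -∫ x, (b (tl x) * (deriv f (u k x) * pd (Hs n) 0 (u k) x)) * φ x ∂(nu n) := by
    intro φ hφ k
    have hfu : (fun x => f (u k x)) ∈ T1 n := T1_comp hf h0 (hu k)
    have hfuφ : (fun x => f (u k x) * φ x) ∈ T1 n := T1_mul hfu.1 hφ
    have hΨ : (fun x => b (tl x) * (f (u k x) * φ x)) ∈ T1 n := T1_mul hbto hfuφ
    have hdiv := (div_half hΨ).1
    have hpd : ∀ x ∈ Hs n, pd (Hs n) 0 (fun x => b (tl x) * (f (u k x) * φ x)) x =
        f (u k x) * (b (tl x) * pd (Hs n) 0 φ x) +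
          (b (tl x) * (deriv f (u k x) * pd (Hs n) 0 (u k) x)) * φ x := by
      intro x hx
      rw [pd_mul (hbt.differentiable (by norm_num) x).differentiableWithinAt
        (T1_diff hfuφ hx) hx 0, pd_mul (T1_diff hfu hx) (T1_diff hφ hx) hx 0,
        pd_comp (hf.differentiable (by norm_num) _) (T1_diff (hu k) hx) hx 0,
        (pd_tl (hb.differentiable (by norm_num)) hx).1]
      ring
    have i1 : Integrable (fun x => f (u k x) * (b (tl x) * pd (Hs n) 0 φ x)) (nu n) :=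
      l2_int_mul (comp_memLp hf h0 hL (hum k)) (mbdφ φ hφ)
    have m2 : MemLp (fun x => b (tl x) * (deriv f (u k x) * pd (Hs n) 0 (u k) x)) 2 (nu n) := by
      refine mulL2 hbto.continuousOn hbtb ?_
      refine mulL2 (L := L) ?_ (fun x _ => hL _) (hudm k 0)
      exact (hf.continuous_deriv (by norm_num)).comp_continuousOn (hu k).1.continuousOn
    have i2 : Integrable (fun x => (b (tl x) * (deriv f (u k x) * pd (Hs n) 0 (u k) x)) * φ x)
      (nu n) := l2_int_mul m2 (mφ φ hφ)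
    have e1 : ∫ x, pd (Hs n) 0 (fun x => b (tl x) * (f (u k x) * φ x)) x ∂(nu n) =
        ∫ x, f (u k x) * (b (tl x) * pd (Hs n) 0 φ x) ∂(nu n) +
        ∫ x, (b (tl x) * (deriv f (u k x) * pd (Hs n) 0 (u k) x)) * φ x ∂(nu n) := by
      rw [← integral_add i1 i2]
      refine integral_congr_ae ?_
      filter_upwards [ae_restrict_mem Ho_open.measurableSet] with x hx
      exact hpd x (Ho_sub_Hs hx)
    have e2 : ∫ z : V n, (fun x => b (tl x) * (f (u k x) * φ x)) (bd z) =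
        ∫ z : V n, f (u k (bd z)) * (b z * φ (bd z)) := by
      refine integral_congr_ae (Eventually.of_forall fun z => ?_)
      simp only [tl_bd]
      ring
    rw [e1, e2] at hdiv
    linarith
  have hlim : ∀ φ ∈ T1 n, Tendsto (fun k => (∫ z : V n, f (u k (bd z)) * (b z * φ (bd z))) +
      ∫ x, f (u k x) * (b (tl x) * pd (Hs n) 0 φ x) ∂(nu n)) atTop (𝓝 (l φ)) := by
    intro φ hφ
    exact (tend_comp hf h0 hL hubm H.memt (mbφ φ hφ) hu3).add
      (tend_comp hf h0 hL hum H.memv (mbdφ φ hφ) hu1)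
  have hbound : ∀ φ ∈ T1 n, |l φ| ≤ (Mb * L * Real.sqrt (sq (W 0))) *
      Real.sqrt (∫ x, φ x ^ 2 ∂(nu n)) := by
    intro φ hφ
    have hW : Tendsto (fun k => sq (pd (Hs n) 0 (u k))) atTop (𝓝 (sq (W 0))) :=
      l2_tend_sq (fun k => hudm k 0) (H.memW 0) (hu2 0)
    have hW2 : Tendsto (fun k => (Mb * L * Real.sqrt (sq (pd (Hs n) 0 (u k)))) *
        Real.sqrt (∫ x, φ x ^ 2 ∂(nu n))) atTop (𝓝 ((Mb * L * Real.sqrt (sq (W 0))) *
        Real.sqrt (∫ x, φ x ^ 2 ∂(nu n)))) :=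
      ((hW.sqrt).const_mul (Mb * L)).mul_const _
    refine le_of_tendsto_of_tendsto' (hlim φ hφ).abs hW2 fun k => ?_
    rw [key φ hφ k, abs_neg]
    have m2 : MemLp (fun x => b (tl x) * (deriv f (u k x) * pd (Hs n) 0 (u k) x)) 2 (nu n) := by
      refine mulL2 hbto.continuousOn hbtb ?_
      refine mulL2 (L := L) ?_ (fun x _ => hL _) (hudm k 0)
      exact (hf.continuous_deriv (by norm_num)).comp_continuousOn (hu k).1.continuousOn
    refine (l2_cs m2 (mφ φ hφ)).trans (mul_le_mul_of_nonneg_right ?_ (Real.sqrt_nonneg _))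
    have h3 : ∫ x, (b (tl x) * (deriv f (u k x) * pd (Hs n) 0 (u k) x)) ^ 2 ∂(nu n) ≤
        (Mb * L) ^ 2 * ∫ x, (pd (Hs n) 0 (u k) x) ^ 2 ∂(nu n) := by
      refine l2_mono (hudm k 0) (Eventually.of_forall fun x => ?_)
      rw [abs_mul, abs_mul, ← mul_assoc]
      refine mul_le_mul_of_nonneg_right ?_ (abs_nonneg _)
      exact mul_le_mul (hMb _) (hL _) (abs_nonneg _) hMb0
    calc Real.sqrt (∫ x, (b (tl x) * (deriv f (u k x) * pd (Hs n) 0 (u k) x)) ^ 2 ∂(nu n))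
        ≤ Real.sqrt ((Mb * L) ^ 2 * ∫ x, (pd (Hs n) 0 (u k) x) ^ 2 ∂(nu n)) :=
          Real.sqrt_le_sqrt h3
      _ = Mb * L * Real.sqrt (sq (pd (Hs n) 0 (u k))) := by
          rw [Real.sqrt_mul (sq_nonneg _), Real.sqrt_sq (mul_nonneg hMb0 hL0)]
          rfl
  have hladd : ∀ φ ∈ T1 n, ∀ ψ ∈ T1 n, l (fun x => φ x + ψ x) = l φ + l ψ := by
    intro φ hφ ψ hψ
    have e1 : ∫ z : V n, f (t z) * (b z * (φ (bd z) + ψ (bd z))) =
        (∫ z : V n, f (t z) * (b z * φ (bd z))) + ∫ z : V n, f (t z) * (b z * ψ (bd z)) := by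
      rw [← integral_add (l2_int_mul mft (mbφ φ hφ)) (l2_int_mul mft (mbφ ψ hψ))]
      refine integral_congr_ae (Eventually.of_forall fun z => ?_)
      simp only
      ring
    have e2 : ∫ x, f (v x) * (b (tl x) * pd (Hs n) 0 (fun x => φ x + ψ x) x) ∂(nu n) =
        ∫ x, f (v x) * (b (tl x) * pd (Hs n) 0 φ x) ∂(nu n) +
        ∫ x, f (v x) * (b (tl x) * pd (Hs n) 0 ψ x) ∂(nu n) := by
      rw [← integral_add (l2_int_mul mfv (mbdφ φ hφ)) (l2_int_mul mfv (mbdφ ψ hψ))]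
      refine integral_congr_ae ?_
      filter_upwards [ae_restrict_mem Ho_open.measurableSet] with x hx
      rw [pd_add (T1_diff hφ (Ho_sub_Hs hx)) (T1_diff hψ (Ho_sub_Hs hx)) (Ho_sub_Hs hx)]
      ring
    simp only [hl]
    rw [e1, e2]
    ring
  have hlsmul : ∀ (c : ℝ), ∀ φ ∈ T1 n, l (fun x => c * φ x) = c * l φ := by
    intro c φ hφ
    have e1 : ∫ z : V n, f (t z) * (b z * (c * φ (bd z))) =
        c * ∫ z : V n, f (t z) * (b z * φ (bd z)) := by
      rw [← integral_const_mul]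
      refine integral_congr_ae (Eventually.of_forall fun z => ?_)
      simp only
      ring
    have e2 : ∫ x, f (v x) * (b (tl x) * pd (Hs n) 0 (fun x => c * φ x) x) ∂(nu n) =
        c * ∫ x, f (v x) * (b (tl x) * pd (Hs n) 0 φ x) ∂(nu n) := by
      rw [← integral_const_mul]
      refine integral_congr_ae ?_
      filter_upwards [ae_restrict_mem Ho_open.measurableSet] with x hx
      rw [pd_smul c (T1_diff hφ (Ho_sub_Hs hx)) (Ho_sub_Hs hx)]
      ring
    simp only [hl]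
    rw [e1, e2]
    ring
  obtain ⟨Q, hQ1, -, hQ3⟩ := l2_riesz (T1 n) mφ T1_zero (fun φ hφ ψ hψ => T1_add hφ hψ)
    (fun c φ hφ => T1_smul c hφ) l hladd hlsmul (Mb * L * Real.sqrt (sq (W 0)))
    (mul_nonneg (mul_nonneg hMb0 hL0) (Real.sqrt_nonneg _)) hbound
  refine ⟨Q, hQ1, fun φ hφ => ?_⟩
  have h1 := hQ3 φ hφ
  simp only [hl] at h1
  have e1 : ∫ z : V n, b z * f (t z) * φ (bd z) = ∫ z : V n, f (t z) * (b z * φ (bd z)) := by
    refine integral_congr_ae (Eventually.of_forall fun z => ?_)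
    simp only
    ring
  have e2 : ∫ x, b (tl x) * f (v x) * pd (Hs n) 0 φ x ∂(nu n) =
      ∫ x, f (v x) * (b (tl x) * pd (Hs n) 0 φ x) ∂(nu n) := by
    refine integral_congr_ae (Eventually.of_forall fun z => ?_)
    simp only
    ring
  rw [e1, e2, ← h1]
  ring

theorem BDQ_bf {v : V (n + 1) → ℝ} {W : Fin (n + 1) → V (n + 1) → ℝ} {t : V n → ℝ} (H : HH v W t)
    {b : V n → ℝ} (hb : ContDiff ℝ 1 b) (hbc : HasCompactSupport b) {f : ℝ → ℝ} (hf : ContDiff ℝ 1 f)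
    (h0 : f 0 = 0) {L : ℝ} (hL : ∀ s, |deriv f s| ≤ L) : BDQ (fun x => b (tl x) * f (v x)) := by
  have hv : BDQ v := by
    refine ⟨H.memv, ∑ i, sq (W i), fun i h hh => (H.sq_dq_le i hh).trans ?_⟩
    exact Finset.single_le_sum (f := fun i => sq (W i))
      (fun j _ => integral_nonneg fun x => sq_nonneg _) (Finset.mem_univ i)
  obtain ⟨Mb, hMb⟩ := hb.continuous.bounded_above_of_compact_support hbc
  obtain ⟨Md, hMd⟩ := (hb.continuous_fderiv (by norm_num)).bounded_above_of_compact_support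
    (hbc.fderiv (𝕜 := ℝ))
  have hbt : ContDiff ℝ 1 (fun x : V (n + 1) => b (tl x)) :=
    hb.comp (contDiff_tl.of_le (by exact_mod_cast le_top))
  refine (hv.comp hf h0 hL).mul (L := max Mb Md) hbt.contDiffOn
    (fun x _ => (hMb _).trans (le_max_left _ _)) ?_
  intro x hx i
  have hMd0 : 0 ≤ Md := (norm_nonneg _).trans (hMd 0)
  refine le_trans ?_ (le_max_right Mb Md)
  obtain ⟨h1, h2⟩ := pd_tl (hb.differentiable (by norm_num)) hx
  refine Fin.cases ?_ (fun a => ?_) i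
  · rw [h1, abs_zero]
    exact hMd0
  · rw [h2 a]
    have h3 := (fderiv ℝ b (tl x)).le_opNorm (ei a)
    have h4 : ‖(ei a : V n)‖ = 1 := by
      rw [ei]
      simp
    rw [h4, mul_one] at h3
    exact h3.trans (hMd _)

end

end Pool.Agent.CY.S4
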