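import Pool.Agent.CY.S4.L9
import Pool.Agent.CY.S4.L10

/-!
# CY-S4-L11: regularity for the localized function `χ v`

`V_j = χ W_j + (∂_j χ) v` is the gradient of `χ v` (`HH.mul`).  For `φ ∈ T1`, `∂_i (χ φ) = χ ∂_i φ + (∂_i χ) φ`, so
`∫ A_ij V_j ∂_i φ = ∫ A_ij W_j ∂_i (χ φ) - ∫ A_ij W_j (∂_i χ) φ + ∫ A_ij (∂_j χ) v ∂_i φ`
`= ∫ (F - A_ij W_j ∂_i χ + Q1 + Q2) φ + ∑_i ∫ G_i ∂_i φ`, `Q1, Q2` from `bdry_term` (for `b1, f` and for `b2` and a
`C^1` function; note that for the term `b2 t` one takes `f = id`), `G_i = ∑_j A_ij (∂_j χ) v - [i = 0] (b1(tl x) f(v) + b2(tl x) v)`,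
which has bounded difference quotients (`BDQ.mul` with `b = A_ij ∂_j χ`, a `C^1` function with compact support on
`Hs n`, `BDQ_bf`, and `v` itself is `BDQ` by `HH.sq_dq_le`).  Apply `local_reg`.
-/

set_option autoImplicit false

open scoped Manifold ContDiff ENNReal
open MeasureTheory Set Filter Topology

namespace Pool.Agent.CY.S4

noncomputable section

variable {n : ℕ}


theorem HH.bdq {v : V (n + 1) → ℝ} {W : Fin (n + 1) → V (n + 1) → ℝ} {t : V n → ℝ} (H : HH v W t) : BDQ v := by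
  refine ⟨H.memv, ∑ i, sq (W i), ?_⟩
  intro i h hh
  refine (H.sq_dq_le i hh).trans ?_
  have hnn : ∀ i ∈ Finset.univ, 0 ≤ sq (W i) := fun i _ =>
    integral_nonneg fun x => sq_nonneg _
  exact Finset.single_le_sum hnn (Finset.mem_univ i)

private theorem memLp_bmul {b G : V (n + 1) → ℝ} {L : ℝ} (hb : ContinuousOn b (Hs n))
    (hbd : ∀ x ∈ Hs n, |b x| ≤ L) (hG : MemLp G 2 (nu n)) : MemLp (fun x => b x * G x) 2 (nu n) := by
  have hm : AEStronglyMeasurable b (nu n) :=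
    (hb.mono Ho_sub_Hs).aestronglyMeasurable Ho_open.measurableSet
  refine hG.of_le_mul (c := L) (hm.mul hG.1) ?_
  filter_upwards [ae_restrict_mem Ho_open.measurableSet] with x hx
  rw [norm_mul]
  exact mul_le_mul_of_nonneg_right (hbd x (Ho_sub_Hs hx)) (norm_nonneg _)

theorem local_reg' {A : MF (n + 1)} {l L : ℝ} (hA : Ell A l L)
    {v : V (n + 1) → ℝ} {W : Fin (n + 1) → V (n + 1) → ℝ} {t : V n → ℝ} (H : HH v W t)
    {χ : V (n + 1) → ℝ} (hχ : ContDiff ℝ ∞ χ) (hχc : HasCompactSupport χ)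
    {F : V (n + 1) → ℝ} (hF : MemLp F 2 (nu n)) {b1 b2 : V n → ℝ} (hb1 : ContDiff ℝ 1 b1)
    (hb1c : HasCompactSupport b1) (hb2 : ContDiff ℝ 1 b2) (hb2c : HasCompactSupport b2)
    {f : ℝ → ℝ} (hf : ContDiff ℝ 1 f) (h0 : f 0 = 0) {Lf : ℝ} (hL : ∀ s, |deriv f s| ≤ Lf)
    (hE : ∀ φ ∈ T1 n,
      ∫ x, ∑ i, ∑ j, A x i j * W j x * pd (Hs n) i (fun y => χ y * φ y) x ∂(nu n) =
      ∫ x, F x * φ x ∂(nu n) + ∫ z : V n, (b1 z * f (t z) + b2 z * t z) * φ (bd z)) :
    ∃ W2 : Fin (n + 1) → Fin (n + 1) → V (n + 1) → ℝ, (∀ i j, MemLp (W2 i j) 2 (nu n)) ∧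
      ∀ i j, WD i (fun x => χ x * W j x + pd (Hs n) j χ x * v x) (W2 i j) := by
  classical
  -- χ and its derivatives
  have hχT2 : χ ∈ T2 n := ⟨(by exact_mod_cast contDiff_infty.1 hχ 2 : ContDiff ℝ 2 χ).contDiffOn, hχc⟩
  have hχT : χ ∈ T1 n := T2_sub hχT2
  have hdχ : ∀ i, pd (Hs n) i χ ∈ T1 n := fun i => T2_pd hχT2 i
  have hAc : ∀ i j, ContDiffOn ℝ 1 (fun x => A x i j) (Hs n) := hA.smooth
  have hHV := H.mul hχT
  -- boundary terms
  obtain ⟨Q1, hQ1, hQ1e⟩ := bdry_term H hb1 hb1c hf h0 hL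
  obtain ⟨Q2, hQ2, hQ2e⟩ := bdry_term H hb2 hb2c (f := fun s => s) contDiff_id rfl (L := 1)
    (fun s => by simp)
  have hB1 : BDQ (fun x => b1 (tl x) * f (v x)) := BDQ_bf H hb1 hb1c hf h0 hL
  have hB2 : BDQ (fun x => b2 (tl x) * v x) := BDQ_bf H hb2 hb2c (f := fun s => s) contDiff_id rfl
    (L := 1) (fun s => by simp)
  -- the coefficient `A_ij ∂_j χ`
  have hbT : ∀ i j, (fun x => A x i j * pd (Hs n) j χ x) ∈ T1 n := fun i j =>
    T1_mul (hAc i j) (hdχ j)
  have hAdv : ∀ i j, BDQ (fun x => (A x i j * pd (Hs n) j χ x) * v x) := by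
    intro i j
    obtain ⟨M, hM1, hM2⟩ := T1_bdd (hbT i j)
    exact H.bdq.mul (hbT i j).1 hM1 hM2
  have hAW : ∀ i j, MemLp (fun x => A x i j * W j x) 2 (nu n) := fun i j =>
    memLp_bmul (hAc i j).continuousOn (fun x hx => hA.bd x hx i j) (H.memW j)
  have hAWχ : MemLp (fun x => ∑ i, ∑ j, A x i j * W j x * pd (Hs n) i χ x) 2 (nu n) := by
    apply memLp_finsetSum _ (fun i _ => ?_)
    apply memLp_finsetSum _ (fun j _ => ?_)
    obtain ⟨M, hM1, -⟩ := T1_bdd (hdχ i)
    have := memLp_bmul (hdχ i).1.continuousOn hM1 (hAW i j)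
    refine this.congr_norm ?_ ?_
    · exact ((hAW i j).1.mul
        (((hdχ i).1.continuousOn.mono Ho_sub_Hs).aestronglyMeasurable Ho_open.measurableSet))
    · exact Eventually.of_forall fun x => by simp only [norm_mul]; ring
  -- G
  let G1 : Fin (n + 1) → V (n + 1) → ℝ := fun i x => ∑ j, (A x i j * pd (Hs n) j χ x) * v x
  have hG1 : ∀ i, BDQ (G1 i) := fun i => BDQ.sum _ (fun j _ => hAdv i j)
  let G0 : V (n + 1) → ℝ := fun x => b1 (tl x) * f (v x) + b2 (tl x) * v x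
  have hG0 : BDQ G0 := hB1.add hB2
  let G : Fin (n + 1) → V (n + 1) → ℝ := fun i x => G1 i x + (if i = 0 then -1 else 0) * G0 x
  have hG : ∀ i, BDQ (G i) := fun i => (hG1 i).add (hG0.smul _)
  let F' : V (n + 1) → ℝ := fun x => F x - (∑ i, ∑ j, A x i j * W j x * pd (Hs n) i χ x) +
    (Q1 x + Q2 x)
  have hF' : MemLp F' 2 (nu n) := (hF.sub hAWχ).add (hQ1.add hQ2)
  refine local_reg hA hHV hF' hG ?_
  intro φ hφ
  have hχφ : (fun y => χ y * φ y) ∈ T1 n := T1_mul hχT.1 hφ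
  have hφL := T1_memLp hφ 2
  have hχφL := T1_memLp hχφ 2
  -- pointwise identity
  have hpt : ∀ x ∈ Hs n, ∑ i, ∑ j, A x i j * (χ x * W j x + pd (Hs n) j χ x * v x) * pd (Hs n) i φ x =
      (∑ i, ∑ j, A x i j * W j x * pd (Hs n) i (fun y => χ y * φ y) x) -
      (∑ i, ∑ j, A x i j * W j x * pd (Hs n) i χ x) * φ x + ∑ i, G1 i x * pd (Hs n) i φ x := by
    intro x hx
    simp only [G1, Finset.sum_mul]
    rw [← Finset.sum_sub_distrib, ← Finset.sum_add_distrib]
    refine Finset.sum_congr rfl fun i _ => ?_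
    rw [← Finset.sum_sub_distrib, ← Finset.sum_add_distrib]
    refine Finset.sum_congr rfl fun j _ => ?_
    rw [pd_mul (T1_diff hχT hx) (T1_diff hφ hx) hx i]
    ring
  -- integrability
  have i1 : Integrable (fun x => ∑ i, ∑ j, A x i j * W j x * pd (Hs n) i (fun y => χ y * φ y) x)
      (nu n) := by
    apply integrable_finsetSum _ (fun i _ => ?_)
    apply integrable_finsetSum _ (fun j _ => ?_)
    exact (hAW i j).integrable_mul (hχφL.2 i)
  have i2 : Integrable (fun x => (∑ i, ∑ j, A x i j * W j x * pd (Hs n) i χ x) * φ x) (nu n) :=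
    hAWχ.integrable_mul hφL.1
  have i3' : ∀ i, Integrable (fun x => G1 i x * pd (Hs n) i φ x) (nu n) := fun i =>
    (hG1 i).mem.integrable_mul (hφL.2 i)
  have i3 : Integrable (fun x => ∑ i, G1 i x * pd (Hs n) i φ x) (nu n) :=
    integrable_finsetSum _ (fun i _ => i3' i)
  have iF : Integrable (fun x => F x * φ x) (nu n) := hF.integrable_mul hφL.1
  have iQ1 : Integrable (fun x => Q1 x * φ x) (nu n) := hQ1.integrable_mul hφL.1
  have iQ2 : Integrable (fun x => Q2 x * φ x) (nu n) := hQ2.integrable_mul hφL.1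
  have iB1 : Integrable (fun x => (b1 (tl x) * f (v x)) * pd (Hs n) 0 φ x) (nu n) :=
    hB1.mem.integrable_mul (hφL.2 0)
  have iB2 : Integrable (fun x => (b2 (tl x) * v x) * pd (Hs n) 0 φ x) (nu n) :=
    hB2.mem.integrable_mul (hφL.2 0)
  -- boundary integrability
  have hφb := T1_bdry hφ 2
  have hft : MemLp (fun z => f (t z)) 2 (volume : Measure (V n)) := by
    refine H.memt.of_le_mul (c := Lf) (hf.continuous.comp_aestronglyMeasurable H.memt.1) ?_
    refine Eventually.of_forall fun z => ?_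
    have hlip := Convex.norm_image_sub_le_of_norm_deriv_le (f := f) (s := univ) (x := 0) (y := t z)
      (fun s _ => (hf.differentiable (by norm_num)).differentiableAt)
      (fun s _ => hL s) convex_univ (mem_univ _) (mem_univ _)
    rw [h0, sub_zero, sub_zero] at hlip
    exact hlip
  have hbmul : ∀ {b : V n → ℝ} {g : V n → ℝ}, ContDiff ℝ 1 b → HasCompactSupport b →
      MemLp g 2 (volume : Measure (V n)) → MemLp (fun z => b z * g z) 2 (volume : Measure (V n)) := by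
    intro b g hb hbc hg
    obtain ⟨M, hM⟩ := hb.continuous.bounded_above_of_compact_support hbc
    refine hg.of_le_mul (c := M) (hb.continuous.aestronglyMeasurable.mul hg.1) ?_
    refine Eventually.of_forall fun z => ?_
    rw [norm_mul]
    exact mul_le_mul_of_nonneg_right (hM z) (norm_nonneg _)
  have ib1 : Integrable (fun z => b1 z * f (t z) * φ (bd z)) (volume : Measure (V n)) :=
    (hbmul hb1 hb1c hft).integrable_mul hφb
  have ib2 : Integrable (fun z => b2 z * t z * φ (bd z)) (volume : Measure (V n)) :=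
    (hbmul hb2 hb2c H.memt).integrable_mul hφb
  have e1 : ∫ z : V n, (b1 z * f (t z) + b2 z * t z) * φ (bd z) =
      (∫ z : V n, b1 z * f (t z) * φ (bd z)) + ∫ z : V n, b2 z * t z * φ (bd z) := by
    rw [← integral_add ib1 ib2]
    refine integral_congr_ae (Eventually.of_forall fun z => ?_)
    simp only []
    ring
  have e2 := hQ1e φ hφ
  have e3 := hQ2e φ hφ
  -- left side
  have e4 : ∫ x, ∑ i, ∑ j, A x i j * (χ x * W j x + pd (Hs n) j χ x * v x) * pd (Hs n) i φ x ∂(nu n) =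
      (∫ x, ∑ i, ∑ j, A x i j * W j x * pd (Hs n) i (fun y => χ y * φ y) x ∂(nu n)) -
      (∫ x, (∑ i, ∑ j, A x i j * W j x * pd (Hs n) i χ x) * φ x ∂(nu n)) +
      ∑ i, ∫ x, G1 i x * pd (Hs n) i φ x ∂(nu n) := by
    have i12 : Integrable (fun x =>
        (∑ i, ∑ j, A x i j * W j x * pd (Hs n) i (fun y => χ y * φ y) x) -
        (∑ i, ∑ j, A x i j * W j x * pd (Hs n) i χ x) * φ x) (nu n) := i1.sub i2
    rw [← integral_finsetSum _ (fun i _ => i3' i), ← integral_sub i1 i2,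
      ← integral_add i12 i3]
    apply integral_congr_ae
    filter_upwards [ae_restrict_mem Ho_open.measurableSet] with x hx
    exact hpt x (Ho_sub_Hs hx)
  rw [e4, hE φ hφ, e1, e2, e3]
  -- right side
  have e5 : ∫ x, F' x * φ x ∂(nu n) = ∫ x, F x * φ x ∂(nu n) -
      ∫ x, (∑ i, ∑ j, A x i j * W j x * pd (Hs n) i χ x) * φ x ∂(nu n) +
      (∫ x, Q1 x * φ x ∂(nu n) + ∫ x, Q2 x * φ x ∂(nu n)) := by
    have iFs : Integrable (fun x => F x * φ x -
        (∑ i, ∑ j, A x i j * W j x * pd (Hs n) i χ x) * φ x) (nu n) := iF.sub i2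
    have iQs : Integrable (fun x => Q1 x * φ x + Q2 x * φ x) (nu n) := iQ1.add iQ2
    rw [← integral_sub iF i2, ← integral_add iQ1 iQ2, ← integral_add iFs iQs]
    refine integral_congr_ae (Eventually.of_forall fun x => ?_)
    simp only [F']
    ring
  have iG0 : Integrable (fun x => G0 x * pd (Hs n) 0 φ x) (nu n) := hG0.mem.integrable_mul (hφL.2 0)
  have e6 : ∑ i, ∫ x, G i x * pd (Hs n) i φ x ∂(nu n) =
      ∑ i, ∫ x, G1 i x * pd (Hs n) i φ x ∂(nu n) - ∫ x, G0 x * pd (Hs n) 0 φ x ∂(nu n) := by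
    have h1 : ∀ i, ∫ x, G i x * pd (Hs n) i φ x ∂(nu n) =
        ∫ x, G1 i x * pd (Hs n) i φ x ∂(nu n) +
        (if i = 0 then -(∫ x, G0 x * pd (Hs n) 0 φ x ∂(nu n)) else 0) := by
      intro i
      by_cases hi : i = 0
      · subst hi
        simp only [if_true]
        have iG0n : Integrable (fun x => -(G0 x * pd (Hs n) 0 φ x)) (nu n) := iG0.neg
        rw [← integral_neg, ← integral_add (i3' 0) iG0n]
        refine integral_congr_ae (Eventually.of_forall fun x => ?_)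
        simp only [G, if_true]
        ring
      · simp only [hi, if_false, add_zero]
        refine integral_congr_ae (Eventually.of_forall fun x => ?_)
        simp only [G, hi, if_false]
        ring
    rw [Finset.sum_congr rfl (fun i _ => h1 i), Finset.sum_add_distrib, Finset.sum_ite_eq']
    simp
    ring
  have e7 : ∫ x, G0 x * pd (Hs n) 0 φ x ∂(nu n) =
      ∫ x, (b1 (tl x) * f (v x)) * pd (Hs n) 0 φ x ∂(nu n) +
      ∫ x, (b2 (tl x) * v x) * pd (Hs n) 0 φ x ∂(nu n) := by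
    rw [← integral_add iB1 iB2]
    refine integral_congr_ae (Eventually.of_forall fun x => ?_)
    simp only [G0]
    ring
  rw [e5, e6, e7]
  ring

end

end Pool.Agent.CY.S4
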