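import Pool.Agent.CY.S4.G7
import Pool.Agent.CY.S4.G8a
import Pool.Agent.CY.S4.G8b
import Pool.Agent.CY.S4.L11

/-!
# CY-S4-G8: second derivatives in a chart

`χ1`, `O` from `exists_cut` for the compact set `tsupport χ ∩ Hs n` (`Cut.compact`).  `Vv` from `chart_HH` for `χ1`, `A` from
`Aco_ext` for `tsupport χ ∩ Hs n`.  `WeakEq` for the test function `Φ = ext e (χ φ) ∈ C1 n X` (`ext_contMDiff`), with
`form_chart`, `vol_term`, `bvol_term`, is hypothesis `hE` of `local_reg'`.  On `Hs n`: `χ · lf e χ1 w = lf e χ w`, and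
`χ Vv_j + (∂_j χ) lf e χ1 w` is the limit of `pd j (χ lf e χ1 u_k) = pd j (lf e χ u_k)`: this is the gradient of
`lf e χ w` in the conclusion (use `HH.mul`, or the convergences from `chart_HH` for `χ` and uniqueness of limits `l2_unique`
and `WD.congr`).
-/

set_option autoImplicit false

open scoped Manifold ContDiff ENNReal
open MeasureTheory Set Filter Topology

namespace Pool.Agent.CY.S4

noncomputable section

set_option linter.unusedSectionVars false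

variable {n : ℕ} {X : Type} [TopologicalSpace X] [ChartedSpace (EuclideanHalfSpace (n + 1)) X]
  [IsManifold (𝓡∂ (n + 1)) ∞ X] [CompactSpace X] [T2Space X] [MeasurableSpace X] [BorelSpace X]
  {g : Metric n X} {e : OpenPartialHomeomorph X (EuclideanHalfSpace (n + 1))}

private theorem G8_lf_eq {χ χ1 : V (n + 1) → ℝ} {O : Set (V (n + 1))} (hO1 : tsupport χ ∩ Hs n ⊆ O)
    (hO2 : ∀ y ∈ O, χ1 y = 1) (u : X → ℝ) : lf e χ u = fun y => χ y * lf e χ1 u y := by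
  funext y
  by_cases hy : y ∈ dom e
  · simp only [lf, indicator_of_mem hy]
    by_cases hχ : y ∈ tsupport χ
    · rw [hO2 y (hO1 ⟨hχ, dom_subset e hy⟩), one_mul]
    · rw [image_eq_zero_of_notMem_tsupport hχ]
      simp
  · simp only [lf, indicator_of_notMem hy]
    simp

private theorem G8_tend {χ : V (n + 1) → ℝ} {M : ℝ} (hM : ∀ x ∈ Hs n, |χ x| ≤ M)
    {F : ℕ → V (n + 1) → ℝ} {f : V (n + 1) → ℝ}
    (hF : ∀ k, MemLp (F k) 2 (nu n)) (hf : MemLp f 2 (nu n))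
    (h : Tendsto (fun k => sq (fun x => F k x - f x)) atTop (𝓝 0)) :
    Tendsto (fun k => sq (fun x => χ x * F k x - χ x * f x)) atTop (𝓝 0) := by
  have h2 : Tendsto (fun k => M ^ 2 * sq (fun x => F k x - f x)) atTop (𝓝 0) := by
    simpa using h.const_mul (M ^ 2)
  refine squeeze_zero (fun k => integral_nonneg fun x => sq_nonneg _) (fun k => ?_) h2
  refine l2_mono (f := fun x => χ x * F k x - χ x * f x) (g := fun x => F k x - f x) ((hF k).sub hf) ?_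
  filter_upwards [ae_restrict_mem Ho_open.measurableSet] with x hx
  rw [← mul_sub, abs_mul]
  exact mul_le_mul_of_nonneg_right (hM x (Ho_sub_Hs hx)) (abs_nonneg _)

theorem chart_reg (hn : 3 ≤ n) (he : e ∈ atlas (EuclideanHalfSpace (n + 1)) X) (f : Frame g)
    {χ : V (n + 1) → ℝ} (h : Cut e χ) {w : X → ℝ} {ζ : X → f.F} {τ : X → ℝ} {lam kap c C : ℝ} (hc : 0 < c)
    (hwm : MemLp w 2 (vol g)) (hζ : MemLp ζ 2 (vol g)) (hτm : MemLp τ 2 (bvol g))
    (hw : ∀ᵐ x ∂(vol g), c ≤ w x ∧ w x ≤ C) (hτ : ∀ᵐ x ∂(bvol g), c ≤ τ x ∧ τ x ≤ C)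
    (hE : WeakEq n (vol g) (bvol g) (scalX g) (meanX g) (C1 n X) f.D lam kap w ζ τ)
    {u : ℕ → X → ℝ} (hu : ∀ k, u k ∈ C1 n X) (hT : TendH (vol g) (bvol g) f.D u w ζ τ) :
    ∃ (Vv : Fin (n + 1) → V (n + 1) → ℝ) (W2 : Fin (n + 1) → Fin (n + 1) → V (n + 1) → ℝ),
      HH (lf e χ w) Vv (lb e χ τ) ∧
      Tendsto (fun k => sq (fun y => lf e χ (u k) y - lf e χ w y)) atTop (𝓝 0) ∧
      (∀ i, Tendsto (fun k => sq (fun y => pd (Hs n) i (lf e χ (u k)) y - Vv i y)) atTop (𝓝 0)) ∧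
      (∀ i j, MemLp (W2 i j) 2 (nu n)) ∧ ∀ i j, WD i (Vv j) (W2 i j) := by
  have hK : IsCompact (tsupport χ ∩ Hs n) := h.compact
  obtain ⟨χ1, h1, O, hO, hO1, hO2⟩ := exists_cut (e := e) hK h.sub
  obtain ⟨V1, H1, hT1, hD1⟩ := chart_HH he f h1 hwm hζ hτm hu hT
  obtain ⟨Vv, H, hTv, hDv⟩ := chart_HH he f h hwm hζ hτm hu hT
  obtain ⟨A, l, L, hA, hA1⟩ := Aco_ext (by omega) g he hK h.sub
  obtain ⟨F, hF, hFe⟩ := vol_term he h lam hc hwm hw
  obtain ⟨b1, b2, ff, Lf, hb1, hb1c, hb2, hb2c, hff, hf0, hLf, hBe⟩ :=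
    bvol_term hn he h h1 hO hO1 hO2 kap hc hτm hτ
  have hχT2 : χ ∈ T2 n :=
    ⟨(by exact_mod_cast contDiff_infty.1 h.smooth 2 : ContDiff ℝ 2 χ).contDiffOn, h.cpt⟩
  have hχT : χ ∈ T1 n := T2_sub hχT2
  have hEq : ∀ φ ∈ T1 n,
      ∫ x, ∑ i, ∑ j, A x i j * V1 j x * pd (Hs n) i (fun y => χ y * φ y) x ∂(nu n) =
      ∫ x, F x * φ x ∂(nu n) +
        ∫ z : V n, (b1 z * ff (lb e χ1 τ z) + b2 z * lb e χ1 τ z) * φ (bd z) := by
    intro φ hφ
    have hΦ : ext e (fun y => χ y * φ y) ∈ C1 n X := by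
      have hs : Supp (fun y => χ y * φ y) (tsupport χ ∩ Hs n) := by
        intro x hx hxK
        have : x ∉ tsupport χ := fun hh => hxK ⟨hh, hx⟩
        simp [image_eq_zero_of_notMem_tsupport this]
      have hcd : ContDiffOn ℝ ((1 : ℕ∞) : WithTop ℕ∞) (fun y => χ y * φ y) (Hs n) := by
        exact_mod_cast hχT.1.mul hφ.1
      have := ext_contMDiff (k := 1) he hcd hK h.sub hs
      exact_mod_cast this
    have hform := form_chart he f h h1 hO hO1 hO2 hA hA1 hζ hu hT H1.memW hD1 hφ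
    rw [← hform, ← hFe φ hφ, ← hBe φ hφ]
    have hw2 := hE _ hΦ
    linarith
  obtain ⟨W2, hW2m, hW2⟩ := local_reg' hA H1 h.smooth h.cpt hF hb1 hb1c hb2 hb2c hff hf0 hLf hEq
  refine ⟨Vv, W2, H, hTv, hDv, hW2m, fun i j => ?_⟩
  refine (hW2 i j).congr ?_ (Filter.EventuallyEq.refl _ _)
  -- uniqueness of limits
  have hu1 : ∀ k, lf e χ1 (u k) ∈ T1 n := fun k => lf_T1 he h1 (hu k)
  have hu0 : ∀ k, lf e χ (u k) ∈ T1 n := fun k => lf_T1 he h (hu k)
  obtain ⟨M, hM, hMd⟩ := T1_bdd hχT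
  have hχm : AEStronglyMeasurable χ (nu n) := (T1_memLp hχT 2).1.1
  have hdχm : AEStronglyMeasurable (pd (Hs n) j χ) (nu n) := ((T1_memLp hχT 2).2 j).1
  have mul_mem : ∀ {b G : V (n + 1) → ℝ}, AEStronglyMeasurable b (nu n) → (∀ x ∈ Hs n, |b x| ≤ M) →
      MemLp G 2 (nu n) → MemLp (fun x => b x * G x) 2 (nu n) := by
    intro b G hb hbM hG
    refine hG.of_le_mul (c := M) (hb.mul hG.1) ?_
    filter_upwards [ae_restrict_mem Ho_open.measurableSet] with x hx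
    rw [norm_mul]
    exact mul_le_mul_of_nonneg_right (hbM x (Ho_sub_Hs hx)) (norm_nonneg _)
  have hmV1 : ∀ k, MemLp (pd (Hs n) j (lf e χ1 (u k))) 2 (nu n) := fun k => (T1_memLp (hu1 k) 2).2 j
  have hml1 : ∀ k, MemLp (lf e χ1 (u k)) 2 (nu n) := fun k => (T1_memLp (hu1 k) 2).1
  have hlim1 := G8_tend hM hmV1 (H1.memW j) (hD1 j)
  have hlim2 := G8_tend (fun x hx => hMd x hx j) hml1 H1.memv hT1
  have hA1m : ∀ k, MemLp (fun x => χ x * pd (Hs n) j (lf e χ1 (u k)) x) 2 (nu n) := fun k =>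
    mul_mem hχm hM (hmV1 k)
  have hA2m : ∀ k, MemLp (fun x => pd (Hs n) j χ x * lf e χ1 (u k) x) 2 (nu n) := fun k =>
    mul_mem hdχm (fun x hx => hMd x hx j) (hml1 k)
  have hB1m : MemLp (fun x => χ x * V1 j x) 2 (nu n) := mul_mem hχm hM (H1.memW j)
  have hB2m : MemLp (fun x => pd (Hs n) j χ x * lf e χ1 w x) 2 (nu n) :=
    mul_mem hdχm (fun x hx => hMd x hx j) H1.memv
  have hpd : ∀ k, ∀ x ∈ Hs n, pd (Hs n) j (lf e χ (u k)) x =
      χ x * pd (Hs n) j (lf e χ1 (u k)) x + pd (Hs n) j χ x * lf e χ1 (u k) x := by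
    intro k x hx
    rw [G8_lf_eq hO1 hO2 (u k), pd_mul (T1_diff hχT hx) (T1_diff (hu1 k) hx) hx j]
  have hlim : Tendsto (fun k => ∫ x, (pd (Hs n) j (lf e χ (u k)) x -
      (χ x * V1 j x + pd (Hs n) j χ x * lf e χ1 w x)) ^ 2 ∂(nu n)) atTop (𝓝 0) := by
    have hsum : Tendsto (fun k => 2 * sq (fun x => χ x * pd (Hs n) j (lf e χ1 (u k)) x - χ x * V1 j x) +
        2 * sq (fun x => pd (Hs n) j χ x * lf e χ1 (u k) x - pd (Hs n) j χ x * lf e χ1 w x)) atTop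
        (𝓝 0) := by
      simpa using (hlim1.const_mul 2).add (hlim2.const_mul 2)
    refine squeeze_zero (fun k => integral_nonneg fun x => sq_nonneg _) (fun k => ?_) hsum
    refine le_trans (le_of_eq ?_) (l2_add_le ((hA1m k).sub hB1m) ((hA2m k).sub hB2m))
    refine integral_congr_ae ?_
    filter_upwards [ae_restrict_mem Ho_open.measurableSet] with x hx
    rw [hpd k x (Ho_sub_Hs hx)]
    ring
  exact l2_unique (fun k => (T1_memLp (hu0 k) 2).2 j) (hB1m.add hB2m) (H.memW j) hlim (hDv j)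

end

end Pool.Agent.CY.S4
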