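import Pool.Agent.CY.S4.L0
import Pool.Agent.CY.S4.L1t

/-!
# CY-S4-H2m: products in `H²` of the half space

`a` is a `C^2` function on `Hs n` with compact support, so `a`, `∂a`, `∂∂a` are bounded by `M` on `Hs n`;
`∂_i (a v) = a ∂_i v + (∂_i a) v`, `∂_i ∂_j (a v) = a ∂_i∂_j v + ∂_i a ∂_j v + ∂_j a ∂_i v + (∂_i∂_j a) v` on `Hs n`
(`pd_mul`, `pd_eqOn`), and `(x + y + z + t)² ≤ 4 (x² + y² + z² + t²)`.
-/

set_option autoImplicit false

open scoped Manifold ContDiff ENNReal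
open MeasureTheory Set Filter Topology

namespace Pool.Agent.CY.S4

noncomputable section

variable {n : ℕ}

private theorem ae_Hs {P : V (n + 1) → Prop} (h : ∀ x ∈ Hs n, P x) : ∀ᵐ x ∂(nu n), P x := by
  have h1 : ∀ᵐ x ∂(nu n), x ∈ Ho n := ae_restrict_mem Ho_open.measurableSet
  filter_upwards [h1] with x hx
  exact h x (Ho_sub_Hs hx)

private theorem memLp_bmul {b v : V (n + 1) → ℝ} {M : ℝ} (hb : AEStronglyMeasurable b (nu n))
    (hM : ∀ x ∈ Hs n, |b x| ≤ M) (hv : MemLp v 2 (nu n)) : MemLp (fun x => b x * v x) 2 (nu n) := by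
  refine MemLp.of_le_mul (c := M) hv (hb.mul hv.aestronglyMeasurable) ?_
  refine ae_Hs fun x hx => ?_
  rw [norm_mul]
  exact mul_le_mul_of_nonneg_right (hM x hx) (norm_nonneg _)

private theorem sq_bmul {b v : V (n + 1) → ℝ} {M : ℝ}
    (hM : ∀ x ∈ Hs n, |b x| ≤ M) (hv : MemLp v 2 (nu n)) : sq (fun x => b x * v x) ≤ M ^ 2 * sq v := by
  refine l2_mono hv (ae_Hs fun x hx => ?_)
  rw [abs_mul]
  exact mul_le_mul_of_nonneg_right (hM x hx) (abs_nonneg _)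

private theorem sq_congr {f g : V (n + 1) → ℝ} (h : ∀ x ∈ Hs n, f x = g x) : sq f = sq g := by
  refine integral_congr_ae (ae_Hs fun x hx => ?_)
  simp only [h x hx]

private theorem sq_nonneg' (f : V (n + 1) → ℝ) : 0 ≤ sq f := integral_nonneg fun _ => sq_nonneg _

private theorem sq_le_H1n (v : V (n + 1) → ℝ) : sq v ≤ H1n v :=
  le_add_of_nonneg_right (Finset.sum_nonneg fun _ _ => sq_nonneg' _)

private theorem sqpd_le_H1n (v : V (n + 1) → ℝ) (i : Fin (n + 1)) : sq (pd (Hs n) i v) ≤ H1n v := by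
  have h1 : sq (pd (Hs n) i v) ≤ ∑ j, sq (pd (Hs n) j v) :=
    Finset.single_le_sum (f := fun j => sq (pd (Hs n) j v)) (fun _ _ => sq_nonneg' _) (Finset.mem_univ i)
  exact h1.trans (le_add_of_nonneg_left (sq_nonneg' _))

private theorem pd_mul_sq {a v : V (n + 1) → ℝ} {M : ℝ} (ha : a ∈ T1 n)
    (h1 : ∀ x ∈ Hs n, |a x| ≤ M) (h2 : ∀ x ∈ Hs n, ∀ i, |pd (Hs n) i a x| ≤ M)
    (hv : ContDiffOn ℝ 1 v (Hs n)) (hv2 : MemLp v 2 (nu n))
    (hvi : ∀ i, MemLp (pd (Hs n) i v) 2 (nu n)) (i : Fin (n + 1)) :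
    sq (pd (Hs n) i (fun y => a y * v y)) ≤ 4 * M ^ 2 * H1n v := by
  have e1 : sq (pd (Hs n) i (fun y => a y * v y)) =
      sq (fun x => a x * pd (Hs n) i v x + pd (Hs n) i a x * v x) :=
    sq_congr fun x hx => pd_mul (T1_diff ha hx) ((hv.differentiableOn (by simp)) x hx) hx i
  rw [e1]
  have hma : AEStronglyMeasurable a (nu n) := (T1_memLp ha 2).1.aestronglyMeasurable
  have hmi : AEStronglyMeasurable (pd (Hs n) i a) (nu n) := ((T1_memLp ha 2).2 i).aestronglyMeasurable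
  have h3 := l2_add_le (memLp_bmul hma h1 (hvi i)) (memLp_bmul hmi (fun x hx => h2 x hx i) hv2)
  have h4 := sq_bmul h1 (hvi i)
  have h5 := sq_bmul (fun x hx => h2 x hx i) hv2
  have h6 := sq_le_H1n v
  have h7 := sqpd_le_H1n v i
  have h8 : 0 ≤ M ^ 2 := sq_nonneg M
  unfold sq at h4 h5 ⊢
  unfold sq at h6 h7
  have h9 := mul_le_mul_of_nonneg_left h6 h8
  have h10 := mul_le_mul_of_nonneg_left h7 h8
  linarith

theorem H1_mul {a : V (n + 1) → ℝ} (ha : a ∈ T1 n) :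
    ∃ C : ℝ, 0 ≤ C ∧ ∀ v : V (n + 1) → ℝ, ContDiffOn ℝ 1 v (Hs n) → MemLp v 2 (nu n) →
      (∀ i, MemLp (pd (Hs n) i v) 2 (nu n)) → H1n (fun y => a y * v y) ≤ C * H1n v := by
  obtain ⟨M, h1, h2⟩ := T1_bdd ha
  refine ⟨M ^ 2 + (n + 1) * (4 * M ^ 2), by positivity, fun v hv hv2 hvi => ?_⟩
  have h3 := sq_bmul h1 hv2
  have h4 : ∑ i, sq (pd (Hs n) i (fun y => a y * v y)) ≤ ∑ _i : Fin (n + 1), 4 * M ^ 2 * H1n v :=
    Finset.sum_le_sum fun i _ => pd_mul_sq ha h1 h2 hv hv2 hvi i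
  rw [Finset.sum_const, Finset.card_univ, Fintype.card_fin, nsmul_eq_mul] at h4
  have h5 := mul_le_mul_of_nonneg_left (sq_le_H1n v) (sq_nonneg M)
  have h6 : H1n (fun y => a y * v y) = sq (fun y => a y * v y) + ∑ i, sq (pd (Hs n) i (fun y => a y * v y)) := rfl
  push_cast at h4
  rw [h6]
  nlinarith

private theorem H1n_le_H2n (v : V (n + 1) → ℝ) : H1n v ≤ H2n v :=
  le_add_of_nonneg_right (Finset.sum_nonneg fun _ _ => Finset.sum_nonneg fun _ _ => sq_nonneg' _)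

private theorem sqpd2_le_H2n (v : V (n + 1) → ℝ) (i j : Fin (n + 1)) :
    sq (pd (Hs n) i (pd (Hs n) j v)) ≤ H2n v := by
  have h1 : sq (pd (Hs n) i (pd (Hs n) j v)) ≤ ∑ k, sq (pd (Hs n) i (pd (Hs n) k v)) :=
    Finset.single_le_sum (f := fun k => sq (pd (Hs n) i (pd (Hs n) k v))) (fun _ _ => sq_nonneg' _)
      (Finset.mem_univ j)
  have h2 : ∑ k, sq (pd (Hs n) i (pd (Hs n) k v)) ≤ ∑ l, ∑ k, sq (pd (Hs n) l (pd (Hs n) k v)) :=
    Finset.single_le_sum (f := fun l => ∑ k, sq (pd (Hs n) l (pd (Hs n) k v)))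
      (fun _ _ => Finset.sum_nonneg fun _ _ => sq_nonneg' _) (Finset.mem_univ i)
  have h3 : 0 ≤ H1n v := add_nonneg (sq_nonneg' _) (Finset.sum_nonneg fun _ _ => sq_nonneg' _)
  exact (h1.trans h2).trans (le_add_of_nonneg_left h3)

theorem H2_mul {a : V (n + 1) → ℝ} (ha : a ∈ T2 n) :
    ∃ C : ℝ, 0 ≤ C ∧ ∀ v : V (n + 1) → ℝ, ContDiffOn ℝ 2 v (Hs n) → MemLp v 2 (nu n) →
      (∀ i, MemLp (pd (Hs n) i v) 2 (nu n)) → (∀ i j, MemLp (pd (Hs n) i (pd (Hs n) j v)) 2 (nu n)) →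
      H2n (fun y => a y * v y) ≤ C * H2n v := by
  have ha1 : a ∈ T1 n := T2_sub ha
  obtain ⟨C1, hC1, hC⟩ := H1_mul ha1
  obtain ⟨M0, h1, h2⟩ := T1_bdd ha1
  have hb := fun j => T1_bdd (T2_pd ha j)
  choose Mj hj1 hj2 using hb
  -- a common bound
  have hMj : ∀ j, 0 ≤ Mj j := fun j => (abs_nonneg _).trans (hj1 j 0 (by simp [Hs]))
  have hM0 : 0 ≤ M0 := (abs_nonneg _).trans (h1 0 (by simp [Hs]))
  set M : ℝ := M0 + ∑ j, Mj j with hM
  have hMle : ∀ j, Mj j ≤ M := fun j => by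
    have := Finset.single_le_sum (f := Mj) (fun j _ => hMj j) (Finset.mem_univ j)
    linarith
  have hM0le : M0 ≤ M := by
    have := Finset.sum_nonneg (s := Finset.univ) (fun j _ => hMj j)
    linarith
  have hMn : 0 ≤ M := hM0.trans hM0le
  refine ⟨C1 + (n + 1) * ((n + 1) * (16 * M ^ 2)), by positivity, fun v hv hv2 hvi hvij => ?_⟩
  have hv1 : ContDiffOn ℝ 1 v (Hs n) := hv.of_le (by norm_num)
  have key : ∀ i j, sq (pd (Hs n) i (pd (Hs n) j (fun y => a y * v y))) ≤ 16 * M ^ 2 * H2n v := by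
    intro i j
    have hpa : pd (Hs n) j a ∈ T1 n := T2_pd ha j
    have hpv : ContDiffOn ℝ 1 (pd (Hs n) j v) (Hs n) := pd_contDiffOn (k := 1) hv j
    have e1 : EqOn (pd (Hs n) j (fun y => a y * v y))
        (fun x => a x * pd (Hs n) j v x + pd (Hs n) j a x * v x) (Hs n) := fun x hx =>
      pd_mul (T1_diff ha1 hx) ((hv1.differentiableOn (by simp)) x hx) hx j
    have d1 : ∀ x ∈ Hs n, DifferentiableWithinAt ℝ (fun y => a y * pd (Hs n) j v y) (Hs n) x := fun x hx =>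
      (T1_diff ha1 hx).mul ((hpv.differentiableOn (by simp)) x hx)
    have d2 : ∀ x ∈ Hs n, DifferentiableWithinAt ℝ (fun y => pd (Hs n) j a y * v y) (Hs n) x := fun x hx =>
      (T1_diff hpa hx).mul ((hv1.differentiableOn (by simp)) x hx)
    have e2 : ∀ x ∈ Hs n, pd (Hs n) i (pd (Hs n) j (fun y => a y * v y)) x =
        (a x * pd (Hs n) i (pd (Hs n) j v) x + pd (Hs n) i a x * pd (Hs n) j v x) +
        (pd (Hs n) j a x * pd (Hs n) i v x + pd (Hs n) i (pd (Hs n) j a) x * v x) := by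
      intro x hx
      rw [pd_eqOn e1 i hx, pd_add (d1 x hx) (d2 x hx) hx i,
        pd_mul (T1_diff ha1 hx) ((hpv.differentiableOn (by simp)) x hx) hx i,
        pd_mul (T1_diff hpa hx) ((hv1.differentiableOn (by simp)) x hx) hx i]
    rw [sq_congr e2]
    have m1 : AEStronglyMeasurable a (nu n) := (T1_memLp ha1 2).1.aestronglyMeasurable
    have m2 : ∀ i, AEStronglyMeasurable (pd (Hs n) i a) (nu n) := fun i =>
      ((T1_memLp ha1 2).2 i).aestronglyMeasurable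
    have m3 : AEStronglyMeasurable (pd (Hs n) i (pd (Hs n) j a)) (nu n) :=
      ((T1_memLp hpa 2).2 i).aestronglyMeasurable
    have b1 : ∀ x ∈ Hs n, |a x| ≤ M := fun x hx => (h1 x hx).trans hM0le
    have b2 : ∀ i, ∀ x ∈ Hs n, |pd (Hs n) i a x| ≤ M := fun i x hx => (h2 x hx i).trans hM0le
    have b3 : ∀ x ∈ Hs n, |pd (Hs n) i (pd (Hs n) j a) x| ≤ M := fun x hx => (hj2 j x hx i).trans (hMle j)
    have f1 := memLp_bmul m1 b1 (hvij i j)
    have f2 := memLp_bmul (m2 i) (b2 i) (hvi j)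
    have f3 := memLp_bmul (m2 j) (b2 j) (hvi i)
    have f4 := memLp_bmul m3 b3 hv2
    have g1 := l2_add_le (f1.add f2) (f3.add f4)
    have g2 := l2_add_le f1 f2
    have g3 := l2_add_le f3 f4
    have k1 := sq_bmul b1 (hvij i j)
    have k2 := sq_bmul (b2 i) (hvi j)
    have k3 := sq_bmul (b2 j) (hvi i)
    have k4 := sq_bmul b3 hv2
    have q0 : 0 ≤ M ^ 2 := sq_nonneg M
    have q1 := mul_le_mul_of_nonneg_left (sqpd2_le_H2n v i j) q0
    have q2 := mul_le_mul_of_nonneg_left ((sqpd_le_H1n v j).trans (H1n_le_H2n v)) q0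
    have q3 := mul_le_mul_of_nonneg_left ((sqpd_le_H1n v i).trans (H1n_le_H2n v)) q0
    have q4 := mul_le_mul_of_nonneg_left ((sq_le_H1n v).trans (H1n_le_H2n v)) q0
    simp only [Pi.add_apply] at g1
    unfold sq at *
    linarith
  have h5 : ∑ i, ∑ j, sq (pd (Hs n) i (pd (Hs n) j (fun y => a y * v y))) ≤
      ∑ _i : Fin (n + 1), ∑ _j : Fin (n + 1), 16 * M ^ 2 * H2n v :=
    Finset.sum_le_sum fun i _ => Finset.sum_le_sum fun j _ => key i j
  simp only [Finset.sum_const, Finset.card_univ, Fintype.card_fin, nsmul_eq_mul] at h5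
  push_cast at h5
  have h6 := hC v hv1 hv2 hvi
  have h7 := mul_le_mul_of_nonneg_left (H1n_le_H2n v) hC1
  have h8 : H2n (fun y => a y * v y) = H1n (fun y => a y * v y) +
    ∑ i, ∑ j, sq (pd (Hs n) i (pd (Hs n) j (fun y => a y * v y))) := rfl
  rw [h8]
  nlinarith

end

end Pool.Agent.CY.S4
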