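import Pool.Agent.CY.S4.M1
import Pool.Agent.CY.S4.L0

/-!
# CY-S4-M2: the mollification converges in `L²`

`sq_moll_le`: Jensen / Cauchy-Schwarz for the density `bump n δ (x + 2 δ e_0 - y)` of total mass `≤ 1` and Tonelli
(see Pool/Agent/EAC/PA/AMolL2.lean).  `moll_tend`: given `ε` choose a continuous function `g` with compact support in
the whole space with `sq (v - g) ≤ ε` (`MemLp.exists_hasCompactSupport_...`, density of `C_c` in `L²`);
`moll δ v - v = moll δ (v - g) + (moll δ g - g) + (g - v)`, and for `x ∈ Ho n`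
`|moll δ g x - g x| ≤ sup_{|y - x| ≤ 3 δ} |g y - g x|` tends to `0` uniformly, with supports in a fixed compact set.
-/

set_option autoImplicit false

open scoped Manifold ContDiff ENNReal
open MeasureTheory Set Filter Topology

namespace Pool.Agent.CY.S4

noncomputable section

variable {n : ℕ}


private theorem cs_weight {α : Type*} [MeasurableSpace α] (μ : Measure α) {e g : α → ℝ≥0∞}
    (he : AEMeasurable e μ) (hg : AEMeasurable g μ) :
    (∫⁻ a, e a * g a ∂μ) ^ 2 ≤ (∫⁻ a, e a ∂μ) * ∫⁻ a, e a * g a ^ 2 ∂μ := by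
  have hsq : ∀ x : ℝ≥0∞, (x ^ (1 / 2 : ℝ)) ^ (2 : ℝ) = x := by
    intro x
    rw [← ENNReal.rpow_mul]; norm_num
  have hmul : ∀ x : ℝ≥0∞, x ^ (1 / 2 : ℝ) * x ^ (1 / 2 : ℝ) = x := by
    intro x
    have := hsq x
    rwa [ENNReal.rpow_two, pow_two] at this
  have hpq : (2 : ℝ).HolderConjugate 2 := by
    exact Real.HolderConjugate.two_two
  have h := ENNReal.lintegral_mul_le_Lp_mul_Lq μ hpq (f := fun a => e a ^ (1 / 2 : ℝ))
    (g := fun a => e a ^ (1 / 2 : ℝ) * g a) (he.pow_const _) ((he.pow_const _).mul hg)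
  have h1 : ∀ a, ((fun a => e a ^ (1 / 2 : ℝ)) * (fun a => e a ^ (1 / 2 : ℝ) * g a)) a =
      e a * g a := by
    intro a
    simp only [Pi.mul_apply]
    rw [← mul_assoc, hmul]
  have h2 : ∀ a, (e a ^ (1 / 2 : ℝ)) ^ (2 : ℝ) = e a := fun a => hsq _
  have h3 : ∀ a, (e a ^ (1 / 2 : ℝ) * g a) ^ (2 : ℝ) = e a * g a ^ 2 := by
    intro a
    rw [ENNReal.mul_rpow_of_nonneg _ _ (by norm_num), hsq, ENNReal.rpow_two]
  simp only [h1, h2, h3] at h
  calc (∫⁻ a, e a * g a ∂μ) ^ 2 ≤
      ((∫⁻ a, e a ∂μ) ^ (1 / 2 : ℝ) * (∫⁻ a, e a * g a ^ 2 ∂μ) ^ (1 / 2 : ℝ)) ^ 2 := by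
        exact pow_le_pow_left' h 2
    _ = (∫⁻ a, e a ∂μ) * ∫⁻ a, e a * g a ^ 2 ∂μ := by
        rw [mul_pow, ← ENNReal.rpow_two, ← ENNReal.rpow_two, hsq, hsq]

private theorem bump_meas (δ : ℝ) : Measurable (bump n δ) := (bump_smooth δ).continuous.measurable

private theorem bump_lint {δ : ℝ} (hδ : 0 < δ) :
    ∫⁻ z : V (n + 1), ENNReal.ofReal (bump n δ z) = 1 := by
  have hi : Integrable (bump n δ) :=
    (bump_smooth δ).continuous.integrable_of_hasCompactSupport (bump_cpt δ)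
  rw [← ofReal_integral_eq_lintegral_ofReal hi (Eventually.of_forall fun z => bump_nonneg δ z),
    bump_int hδ, ENNReal.ofReal_one]

private theorem moll_l2 {δ : ℝ} (hδ : 0 < δ) {v : V (n + 1) → ℝ} (hv : MemLp v 2 (nu n)) :
    ∫⁻ x, ‖moll δ v x‖ₑ ^ 2 ∂(nu n) ≤ ∫⁻ x, ‖v x‖ₑ ^ 2 ∂(nu n) := by
  have hgm : AEMeasurable (fun w => ‖v w‖ₑ) (nu n) := hv.1.enorm
  have hem : ∀ z : V (n + 1), Measurable (fun w : V (n + 1) => ENNReal.ofReal (bump n δ (z - w))) :=
    fun z => ((bump_meas δ).comp (measurable_const.sub measurable_id)).ennreal_ofReal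
  have key : ∀ x : V (n + 1), ‖moll δ v x‖ₑ ^ 2 ≤
      ∫⁻ w, ENNReal.ofReal (bump n δ (x + (2 * δ) • ei 0 - w)) * ‖v w‖ₑ ^ 2 ∂(nu n) := by
    intro x
    set z : V (n + 1) := x + (2 * δ) • ei 0 with hz
    have h1 : ‖moll δ v x‖ₑ ≤ ∫⁻ w, ENNReal.ofReal (bump n δ (z - w)) * ‖v w‖ₑ ∂(nu n) := by
      unfold moll
      refine (enorm_integral_le_lintegral_enorm _).trans (le_of_eq ?_)
      refine lintegral_congr fun w => ?_
      rw [enorm_mul, Real.enorm_of_nonneg (bump_nonneg δ _)]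
    have h2 : ∫⁻ w, ENNReal.ofReal (bump n δ (z - w)) ∂(nu n) ≤ 1 := by
      refine (setLIntegral_le_lintegral _ _).trans (le_of_eq ?_)
      rw [lintegral_sub_left_eq_self (fun w : V (n + 1) => ENNReal.ofReal (bump n δ w)) z]
      exact bump_lint hδ
    calc ‖moll δ v x‖ₑ ^ 2 ≤
        (∫⁻ w, ENNReal.ofReal (bump n δ (z - w)) * ‖v w‖ₑ ∂(nu n)) ^ 2 :=
          pow_le_pow_left' h1 2
      _ ≤ (∫⁻ w, ENNReal.ofReal (bump n δ (z - w)) ∂(nu n)) *
          ∫⁻ w, ENNReal.ofReal (bump n δ (z - w)) * ‖v w‖ₑ ^ 2 ∂(nu n) :=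
          cs_weight _ (hem z).aemeasurable hgm
      _ ≤ 1 * ∫⁻ w, ENNReal.ofReal (bump n δ (z - w)) * ‖v w‖ₑ ^ 2 ∂(nu n) :=
          mul_le_mul_left h2 _
      _ = _ := one_mul _
  calc ∫⁻ x, ‖moll δ v x‖ₑ ^ 2 ∂(nu n) ≤ ∫⁻ x, ‖moll δ v x‖ₑ ^ 2 := setLIntegral_le_lintegral _ _
    _ ≤ ∫⁻ x, ∫⁻ w, ENNReal.ofReal (bump n δ (x + (2 * δ) • ei 0 - w)) * ‖v w‖ₑ ^ 2 ∂(nu n) :=
        lintegral_mono key
    _ = ∫⁻ w, (∫⁻ x, ENNReal.ofReal (bump n δ (x + (2 * δ) • ei 0 - w)) * ‖v w‖ₑ ^ 2)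
        ∂(nu n) := by
        refine lintegral_lintegral_swap ?_
        have m1 : AEMeasurable (fun p : V (n + 1) × V (n + 1) =>
            ENNReal.ofReal (bump n δ (p.1 + (2 * δ) • ei 0 - p.2)))
            ((volume : Measure (V (n + 1))).prod (nu n)) :=
          (((bump_meas δ).comp ((measurable_fst.add measurable_const).sub
            measurable_snd)).ennreal_ofReal).aemeasurable
        have m2 : AEMeasurable (fun p : V (n + 1) × V (n + 1) => ‖v p.2‖ₑ ^ 2)
            ((volume : Measure (V (n + 1))).prod (nu n)) := (hgm.pow_const 2).comp_snd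
        exact m1.mul m2
    _ = ∫⁻ w, ‖v w‖ₑ ^ 2 ∂(nu n) := by
        refine lintegral_congr fun w => ?_
        have m1 : Measurable (fun z : V (n + 1) =>
            ENNReal.ofReal (bump n δ (z + (2 * δ) • ei 0 - w))) :=
          ((bump_meas δ).comp ((measurable_id.add measurable_const).sub
            measurable_const)).ennreal_ofReal
        have h1 : ∫⁻ z : V (n + 1), ENNReal.ofReal (bump n δ (z + (2 * δ) • ei 0 - w)) = 1 := by
          have h2 : ∀ z : V (n + 1), z + (2 * δ) • ei 0 - w = z + ((2 * δ) • ei 0 - w) := by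
            intro z; abel
          simp only [h2]
          rw [lintegral_add_right_eq_self (fun z : V (n + 1) => ENNReal.ofReal (bump n δ z))]
          exact bump_lint hδ
        rw [lintegral_mul_const _ m1, h1, one_mul]

theorem moll_memLp {δ : ℝ} (hδ : 0 < δ) {v : V (n + 1) → ℝ} (hv : MemLp v 2 (nu n)) :
    MemLp (moll δ v) 2 (nu n) := by
  refine ⟨(moll_smooth hδ hv).continuous.aestronglyMeasurable, ?_⟩
  have h2 := hv.2
  rw [eLpNorm_lt_top_iff_lintegral_rpow_enorm_lt_top (by norm_num) (by norm_num)] at h2 ⊢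
  have e : (2 : ℝ≥0∞).toReal = (2 : ℝ) := by norm_num
  rw [e] at h2 ⊢
  simp only [ENNReal.rpow_two] at h2 ⊢
  exact (moll_l2 hδ hv).trans_lt h2

private theorem sq_eq_lint {v : V (n + 1) → ℝ} (hv : MemLp v 2 (nu n)) :
    sq v = (∫⁻ x, ‖v x‖ₑ ^ 2 ∂(nu n)).toReal := by
  unfold sq
  rw [integral_eq_lintegral_of_nonneg_ae (Eventually.of_forall fun x => sq_nonneg _)
    (hv.1.pow 2)]
  congr 1
  refine lintegral_congr fun x => ?_
  rw [← enorm_pow, Real.enorm_of_nonneg (sq_nonneg _)]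

theorem sq_moll_le {δ : ℝ} (hδ : 0 < δ) {v : V (n + 1) → ℝ} (hv : MemLp v 2 (nu n)) :
    sq (moll δ v) ≤ sq v := by
  rw [sq_eq_lint (moll_memLp hδ hv), sq_eq_lint hv]
  refine ENNReal.toReal_mono ?_ (moll_l2 hδ hv)
  have h2 := hv.2
  rw [eLpNorm_lt_top_iff_lintegral_rpow_enorm_lt_top (by norm_num) (by norm_num)] at h2
  have e : (2 : ℝ≥0∞).toReal = (2 : ℝ) := by norm_num
  rw [e] at h2
  simp only [ENNReal.rpow_two] at h2
  exact h2.ne

private theorem moll_int {δ : ℝ} {v : V (n + 1) → ℝ} (hv : MemLp v 2 (nu n)) (x : V (n + 1)) :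
    Integrable (fun y => bump n δ (x + (2 * δ) • ei 0 - y) * v y) (nu n) := by
  refine l2_int_mul ?_ hv
  refine memLp_of_cont ?_ ?_
  · exact ((bump_smooth δ).continuous.comp (continuous_const.sub continuous_id)).continuousOn
  · exact (bump_cpt δ).comp_homeomorph (Homeomorph.subLeft (x + (2 * δ) • ei 0))

theorem moll_sub {δ : ℝ} (hδ : 0 < δ) {v w : V (n + 1) → ℝ} (hv : MemLp v 2 (nu n)) (hw : MemLp w 2 (nu n))
    (x : V (n + 1)) : moll δ (fun y => v y - w y) x = moll δ v x - moll δ w x := by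
  unfold moll
  rw [← integral_sub (moll_int hv x) (moll_int hw x)]
  simp only [mul_sub]

theorem moll_tend {v : V (n + 1) → ℝ} (hv : MemLp v 2 (nu n)) :
    Tendsto (fun δ => sq (fun x => moll δ v x - v x)) (𝓝[>] 0) (𝓝 0) := by
  rw [Metric.tendsto_nhds]
  intro ε hε
  -- a continuous approximation
  obtain ⟨g, hgc, hg1, hg2, hg3⟩ := hv.exists_hasCompactSupport_eLpNorm_sub_le (by norm_num)
    (ε := ENNReal.ofReal (Real.sqrt (ε / 16))) (by
      have : 0 < Real.sqrt (ε / 16) := Real.sqrt_pos.2 (by positivity)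
      exact (ENNReal.ofReal_pos.2 this).ne')
  have hvg : MemLp (fun x => v x - g x) 2 (nu n) := hv.sub hg3
  have hsvg : sq (fun x => v x - g x) ≤ ε / 16 := by
    rw [sq_eq_lint hvg]
    have h1 : ∫⁻ x, ‖v x - g x‖ₑ ^ 2 ∂(nu n) ≤ ENNReal.ofReal (ε / 16) := by
      have h2 : eLpNorm (v - g) 2 (nu n) = (∫⁻ x, ‖v x - g x‖ₑ ^ 2 ∂(nu n)) ^ (1 / 2 : ℝ) := by
        rw [eLpNorm_eq_lintegral_rpow_enorm_toReal (by norm_num) (by norm_num)]
        have e : (2 : ℝ≥0∞).toReal = (2 : ℝ) := by norm_num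
        rw [e]
        simp only [ENNReal.rpow_two, Pi.sub_apply]
      rw [h2] at hg1
      have h3 := pow_le_pow_left' hg1 2
      rw [← ENNReal.rpow_two, ← ENNReal.rpow_mul] at h3
      have e : (1 / 2 : ℝ) * 2 = 1 := by norm_num
      rw [e, ENNReal.rpow_one, ← ENNReal.ofReal_pow (Real.sqrt_nonneg _),
        Real.sq_sqrt (by positivity)] at h3
      exact h3
    calc (∫⁻ x, ‖v x - g x‖ₑ ^ 2 ∂(nu n)).toReal ≤ (ENNReal.ofReal (ε / 16)).toReal :=
          ENNReal.toReal_mono ENNReal.ofReal_ne_top h1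
      _ = ε / 16 := ENNReal.toReal_ofReal (by positivity)
  -- the support of `g`
  obtain ⟨R, hR⟩ := hgc.isCompact.isBounded.subset_closedBall (0 : V (n + 1))
  have hg0 : ∀ y : V (n + 1), R < ‖y‖ → g y = 0 := by
    intro y hy
    by_contra hne
    have := hR (subset_tsupport g hne)
    rw [Metric.mem_closedBall, dist_zero_right] at this
    linarith
  have hgu : UniformContinuous g := hgc.uniformContinuous_of_continuous hg2
  set Vol : ℝ := (volume : Measure (V (n + 1))).real (Metric.closedBall 0 (R + 3)) with hVol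
  have hVol0 : 0 ≤ Vol := measureReal_nonneg
  set η : ℝ := Real.sqrt (ε / (16 * (Vol + 1))) with hη
  have hηpos : 0 < η := Real.sqrt_pos.2 (by positivity)
  have hη2 : η ^ 2 * Vol ≤ ε / 16 := by
    rw [hη, Real.sq_sqrt (by positivity)]
    have : ε / (16 * (Vol + 1)) * Vol = (ε / 16) * (Vol / (Vol + 1)) := by
      field_simp
    rw [this]
    have h4 : Vol / (Vol + 1) ≤ 1 := by
      rw [div_le_one (by positivity)]
      linarith
    calc (ε / 16) * (Vol / (Vol + 1)) ≤ (ε / 16) * 1 := mul_le_mul_of_nonneg_left h4 (by positivity)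
      _ = ε / 16 := mul_one _
  obtain ⟨δ0, hδ0, hδ0'⟩ := Metric.uniformContinuous_iff.1 hgu η hηpos
  have hev : ∀ᶠ δ : ℝ in 𝓝[>] 0, 0 < δ ∧ δ < min (δ0 / 3) 1 := by
    have h1 : Ioo (0 : ℝ) (min (δ0 / 3) 1) ∈ 𝓝[>] (0 : ℝ) :=
      Ioo_mem_nhdsGT (lt_min (by positivity) one_pos)
    filter_upwards [h1] with δ hδ using hδ
  filter_upwards [hev] with δ hδ
  obtain ⟨hδp, hδm⟩ := hδ
  have hδ3 : 3 * δ < δ0 := by
    have := hδm.trans_le (min_le_left _ _)
    linarith
  have hδ1 : δ < 1 := hδm.trans_le (min_le_right _ _)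
  -- pointwise bound for the continuous function
  have hpt : ∀ x ∈ Hs n, |moll δ g x - g x| ≤ η := by
    intro x hx
    obtain ⟨h1, h2⟩ := moll_bounds hδp hg3 hx (c := g x - η) (C := g x + η)
      (Eventually.of_forall fun y hy => by
        have h3 : dist y x < δ0 := (Metric.mem_ball.1 hy).trans hδ3
        have h4 := hδ0' h3
        rw [Real.dist_eq] at h4
        have h5 := abs_lt.1 h4
        constructor <;> linarith)
    rw [abs_le]
    constructor <;> linarith
  have hzero : ∀ x ∈ Hs n, R + 3 < ‖x‖ → moll δ g x - g x = 0 := by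
    intro x hx hxR
    obtain ⟨h1, h2⟩ := moll_bounds hδp hg3 hx (c := 0) (C := 0)
      (Eventually.of_forall fun y hy => by
        have h3 : dist y x < 3 * δ := Metric.mem_ball.1 hy
        have h4 : ‖x‖ ≤ ‖y‖ + dist y x := by
          rw [dist_comm, dist_eq_norm]
          calc ‖x‖ = ‖y + (x - y)‖ := by congr 1; abel
            _ ≤ ‖y‖ + ‖x - y‖ := norm_add_le _ _
        have h5 : g y = 0 := hg0 y (by linarith)
        rw [h5]
        exact ⟨le_rfl, le_rfl⟩)
    have h3 : g x = 0 := hg0 x (by linarith)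
    rw [h3, sub_zero]
    exact le_antisymm h2 h1
  have hmg : MemLp (moll δ g) 2 (nu n) := moll_memLp hδp hg3
  have hsg : sq (fun x => moll δ g x - g x) ≤ ε / 16 := by
    refine le_trans ?_ hη2
    have h1 : sq (fun x => moll δ g x - g x) ≤
        ∫ x, (Metric.closedBall (0 : V (n + 1)) (R + 3)).indicator (fun _ => η ^ 2) x ∂(nu n) := by
      unfold sq
      refine integral_mono_ae (l2_int_sq (hmg.sub hg3)) ?_ ?_
      · refine (integrable_indicator_iff Metric.isClosed_closedBall.measurableSet).2 ?_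
        refine integrableOn_const (μ := nu n) ?_
        refine (lt_of_le_of_lt (Measure.restrict_apply_le _ _) ?_).ne
        exact (isCompact_closedBall _ _).measure_lt_top
      · filter_upwards [ae_restrict_mem Ho_open.measurableSet] with x hx
        by_cases hxR : x ∈ Metric.closedBall (0 : V (n + 1)) (R + 3)
        · rw [indicator_of_mem hxR]
          have := hpt x (Ho_sub_Hs hx)
          show (moll δ g x - g x) ^ 2 ≤ η ^ 2
          rw [← sq_abs]
          exact pow_le_pow_left₀ (abs_nonneg _) this 2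
        · rw [indicator_of_notMem hxR]
          rw [Metric.mem_closedBall, dist_zero_right, not_le] at hxR
          show (moll δ g x - g x) ^ 2 ≤ 0
          rw [hzero x (Ho_sub_Hs hx) hxR]
          norm_num
    refine h1.trans ?_
    rw [integral_indicator Metric.isClosed_closedBall.measurableSet, setIntegral_const, smul_eq_mul,
      mul_comm]
    refine mul_le_mul_of_nonneg_left ?_ (sq_nonneg _)
    rw [hVol]
    refine ENNReal.toReal_mono (isCompact_closedBall _ _).measure_lt_top.ne ?_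
    exact Measure.restrict_apply_le _ _
  -- conclusion
  have hsplit : (fun x => moll δ v x - v x) = fun x =>
      moll δ (fun y => v y - g y) x + ((moll δ g x - g x) - (v x - g x)) := by
    funext x
    rw [moll_sub hδp hv hg3 x]
    ring
  have m1 : MemLp (moll δ (fun y => v y - g y)) 2 (nu n) := moll_memLp hδp hvg
  have m2 : MemLp (fun x => moll δ g x - g x) 2 (nu n) := hmg.sub hg3
  have m3 : MemLp (fun x => (moll δ g x - g x) - (v x - g x)) 2 (nu n) := m2.sub hvg
  have f1 : sq (fun x => moll δ v x - v x) ≤ 2 * sq (moll δ (fun y => v y - g y)) +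
      2 * sq (fun x => (moll δ g x - g x) - (v x - g x)) := by
    rw [hsplit]
    exact l2_add_le m1 m3
  have f2 : sq (fun x => (moll δ g x - g x) - (v x - g x)) ≤
      2 * sq (fun x => moll δ g x - g x) + 2 * sq (fun x => v x - g x) := l2_sub_le m2 hvg
  have f3 : sq (moll δ (fun y => v y - g y)) ≤ sq (fun x => v x - g x) := sq_moll_le hδp hvg
  have f4 : 0 ≤ sq (fun x => moll δ v x - v x) := integral_nonneg fun x => sq_nonneg _
  rw [Real.dist_eq, sub_zero, abs_of_nonneg f4]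
  linarith

end

end Pool.Agent.CY.S4
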