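import Pool.Agent.CY.S4.M1d
import Pool.Agent.CY.S4.M2

/-!
# CY-S4-M3: smooth approximation in `H²` of the half space

`u k = moll (1/(k+1)) v`.  `pd_moll` gives `∂_i u_k = moll δ (V_i)` on `Hs n`, and (`pd_eqOn`)
`∂_i ∂_j u_k = ∂_i (moll δ (V_j)) = moll δ (W2_ij)` on `Hs n`; `moll_tend` and `moll_bounds`.
-/

set_option autoImplicit false

open scoped Manifold ContDiff ENNReal
open MeasureTheory Set Filter Topology

namespace Pool.Agent.CY.S4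

noncomputable section

variable {n : ℕ}


theorem sq_congr_Hs {f g : V (n + 1) → ℝ} (h : EqOn f g (Hs n)) : sq f = sq g := by
  unfold sq
  refine setIntegral_congr_fun Ho_open.measurableSet fun x hx => ?_
  simp only [h (Ho_sub_Hs hx)]

theorem memLp_congr_Hs {f g : V (n + 1) → ℝ} (h : EqOn f g (Hs n)) (hf : MemLp f 2 (nu n)) :
    MemLp g 2 (nu n) := by
  refine hf.ae_eq ?_
  filter_upwards [ae_restrict_mem Ho_open.measurableSet] with x hx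
  exact h (Ho_sub_Hs hx)

theorem local_approx {v : V (n + 1) → ℝ} {Vv : Fin (n + 1) → V (n + 1) → ℝ}
    {W2 : Fin (n + 1) → Fin (n + 1) → V (n + 1) → ℝ} (hv : MemLp v 2 (nu n)) (hV : ∀ i, MemLp (Vv i) 2 (nu n))
    (hW : ∀ i j, MemLp (W2 i j) 2 (nu n)) (h1 : ∀ i, WD i v (Vv i)) (h2 : ∀ i j, WD i (Vv j) (W2 i j)) :
    ∃ u : ℕ → V (n + 1) → ℝ, (∀ k, ContDiff ℝ ∞ (u k)) ∧
      (∀ k, MemLp (u k) 2 (nu n) ∧ (∀ i, MemLp (pd (Hs n) i (u k)) 2 (nu n)) ∧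
        ∀ i j, MemLp (pd (Hs n) i (pd (Hs n) j (u k))) 2 (nu n)) ∧
      Tendsto (fun k => sq (fun x => u k x - v x)) atTop (𝓝 0) ∧
      (∀ i, Tendsto (fun k => sq (fun x => pd (Hs n) i (u k) x - Vv i x)) atTop (𝓝 0)) ∧
      (∀ i j, Tendsto (fun k => sq (fun x => pd (Hs n) i (pd (Hs n) j (u k)) x - W2 i j x)) atTop (𝓝 0)) ∧
      ∀ ε > 0, ∃ N : ℕ, ∀ k ≥ N, ∀ x ∈ Hs n, ∀ c C : ℝ,
        (∀ᵐ y ∂(nu n), y ∈ Metric.ball x ε → c ≤ v y ∧ v y ≤ C) → c ≤ u k x ∧ u k x ≤ C := by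
  have hd : ∀ k : ℕ, (0 : ℝ) < 1 / ((k : ℝ) + 1) := fun k => by positivity
  have hlim : Tendsto (fun k : ℕ => 1 / ((k : ℝ) + 1)) atTop (𝓝[>] 0) :=
    tendsto_nhdsWithin_iff.2 ⟨tendsto_one_div_add_atTop_nhds_zero_nat, Eventually.of_forall hd⟩
  have e1 : ∀ (k : ℕ) (i : Fin (n + 1)), EqOn (pd (Hs n) i (moll (1 / ((k : ℝ) + 1)) v))
      (moll (1 / ((k : ℝ) + 1)) (Vv i)) (Hs n) := fun k i x hx =>
    pd_moll (hd k) hv (hV i) (h1 i) hx
  have e2 : ∀ (k : ℕ) (i j : Fin (n + 1)), EqOn (pd (Hs n) i (pd (Hs n) j (moll (1 / ((k : ℝ) + 1)) v)))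
      (moll (1 / ((k : ℝ) + 1)) (W2 i j)) (Hs n) := fun k i j x hx => by
    rw [pd_eqOn (e1 k j) i hx]
    exact pd_moll (hd k) (hV j) (hW i j) (h2 i j) hx
  refine ⟨fun k => moll (1 / ((k : ℝ) + 1)) v, fun k => moll_smooth (hd k) hv, fun k => ⟨moll_memLp (hd k) hv,
    fun i => memLp_congr_Hs (e1 k i).symm (moll_memLp (hd k) (hV i)),
    fun i j => memLp_congr_Hs (e2 k i j).symm (moll_memLp (hd k) (hW i j))⟩, ?_, ?_, ?_, ?_⟩
  · exact (moll_tend hv).comp hlim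
  · intro i
    refine ((moll_tend (hV i)).comp hlim).congr fun k => ?_
    refine sq_congr_Hs fun x hx => ?_
    simp only [e1 k i hx]
  · intro i j
    refine ((moll_tend (hW i j)).comp hlim).congr fun k => ?_
    refine sq_congr_Hs fun x hx => ?_
    simp only [e2 k i j hx]
  · intro ε hε
    have h3 : ∀ᶠ k : ℕ in atTop, 1 / ((k : ℝ) + 1) < ε / 3 :=
      tendsto_one_div_add_atTop_nhds_zero_nat.eventually (gt_mem_nhds (by positivity))
    obtain ⟨N, hN⟩ := eventually_atTop.1 h3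
    refine ⟨N, fun k hk x hx c C h => ?_⟩
    refine moll_bounds (hd k) hv hx ?_
    filter_upwards [h] with y hy hyb
    refine hy (Metric.ball_subset_ball ?_ hyb)
    have := hN k hk
    linarith

end

end Pool.Agent.CY.S4
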