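import Pool.Agent.CY.S3.FrameD
import Pool.Agent.CY.S4.G8
import Pool.Agent.CY.S4.M3
import Pool.Agent.CY.S4.H2m

/-!
# CY-S4-G9: smooth approximation in one chart of the frame

`e = f.e i`, `η = f.η i`, `K = co e '' tsupport η` (compact, `⊆ dom e`).  `χ` from `exists_cut` for `K`, with `χ = 1` on the
open set `O ⊇ K`; `chart_reg` for `χ`; `local_approx` for `v = lf e χ w` gives smooth `v_k` with values in `[c, C]` on
`K` for `k ≥ N` (the `ε`-neighbourhood of `K` lies in `O ∩ (open set defining dom e)`, where `v = w ∘ pt e ∈ [c, C]` a.e.,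
`ae_vol_source`); drop the first `N` terms.  `U_k = lf e (1) ...`: `U_k y = (dom e).indicator (η(pt e y)² v_k y)`, smooth on
`Hs n` (`contDiffOn_of_supp`), and `η̂ = (dom e).indicator (η² ∘ pt e)` is smooth with compact support, so
`H2n (η̂ (v_j - v_k)) ≤ C H2n-type norm of (v_j - v_k)`, which tends to `0`; in the same way
`H1n (U_k - η̂ lf e χ (u_k)) ≤ C (sq (v_k - lf e χ u_k) + ∑ sq (pd i ..)) → 0`, and `η̂ lf e χ (u_k) = lf e 1 (η² u_k)`
since `χ = 1` on `K`.
-/

set_option autoImplicit false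

open scoped Manifold ContDiff ENNReal
open MeasureTheory Set Filter Topology

namespace Pool.Agent.CY.S4

noncomputable section

set_option linter.unusedSectionVars false

variable {n : ℕ} {X : Type} [TopologicalSpace X] [ChartedSpace (EuclideanHalfSpace (n + 1)) X]
  [IsManifold (𝓡∂ (n + 1)) ∞ X] [CompactSpace X] [T2Space X] [MeasurableSpace X] [BorelSpace X]
  {g : Metric n X} {e : OpenPartialHomeomorph X (EuclideanHalfSpace (n + 1))}

private theorem g9_two : (2 : WithTop ℕ∞) ≤ ((⊤ : ℕ∞) : WithTop ℕ∞) :=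
  WithTop.coe_le_coe.2 (le_top : (2 : ℕ∞) ≤ ⊤)

private theorem g9_two' : ((1 + 1 : ℕ) : WithTop ℕ∞) ≤ ((⊤ : ℕ∞) : WithTop ℕ∞) := by
  have : ((1 + 1 : ℕ) : WithTop ℕ∞) = 2 := by norm_num
  rw [this]
  exact g9_two

private theorem g9_cau_add {a b : ℕ → ℕ → ℝ} (ha : ∀ ε > 0, ∃ N, ∀ j ≥ N, ∀ k ≥ N, a j k ≤ ε)
    (hb : ∀ ε > 0, ∃ N, ∀ j ≥ N, ∀ k ≥ N, b j k ≤ ε) :
    ∀ ε > 0, ∃ N, ∀ j ≥ N, ∀ k ≥ N, a j k + b j k ≤ ε := by
  intro ε hε
  obtain ⟨N1, h1⟩ := ha (ε / 2) (by positivity)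
  obtain ⟨N2, h2⟩ := hb (ε / 2) (by positivity)
  refine ⟨max N1 N2, fun j hj k hk => ?_⟩
  have e1 := h1 j ((le_max_left _ _).trans hj) k ((le_max_left _ _).trans hk)
  have e2 := h2 j ((le_max_right _ _).trans hj) k ((le_max_right _ _).trans hk)
  linarith

private theorem g9_cau_sum {ι : Type} (s : Finset ι) {a : ι → ℕ → ℕ → ℝ}
    (ha : ∀ i ∈ s, ∀ ε > 0, ∃ N, ∀ j ≥ N, ∀ k ≥ N, a i j k ≤ ε) :
    ∀ ε > 0, ∃ N, ∀ j ≥ N, ∀ k ≥ N, ∑ i ∈ s, a i j k ≤ ε := by
  classical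
  induction s using Finset.induction_on with
  | empty =>
    intro ε hε
    refine ⟨0, fun j _ k _ => ?_⟩
    rw [Finset.sum_empty]
    exact hε.le
  | insert i s his ih =>
    have h1 := g9_cau_add (ha i (Finset.mem_insert_self _ _))
      (ih fun j hj => ha j (Finset.mem_insert_of_mem hj))
    intro ε hε
    obtain ⟨N, hN⟩ := h1 ε hε
    refine ⟨N, fun j hj k hk => ?_⟩
    rw [Finset.sum_insert his]
    exact hN j hj k hk

private theorem g9_congr {F G : V (n + 1) → ℝ} (h : EqOn F G (Hs n)) : F =ᵐ[nu n] G := by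
  filter_upwards [ae_restrict_mem Ho_open.measurableSet] with y hy
  exact h (Ho_sub_Hs hy)

private theorem g9_sq_congr {F G : V (n + 1) → ℝ} (h : EqOn F G (Hs n)) : sq F = sq G := by
  unfold sq
  refine integral_congr_ae ?_
  filter_upwards [g9_congr h] with y hy
  rw [hy]

private theorem g9_diff {v : V (n + 1) → ℝ} (hv : ContDiffOn ℝ 1 v (Hs n)) {x : V (n + 1)}
    (hx : x ∈ Hs n) : DifferentiableWithinAt ℝ v (Hs n) x :=
  hv.differentiableOn (by norm_num) x hx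

/-- a sequence of smooth functions converging in `H²` is Cauchy in `H²` -/
private theorem g9_H2_cauchy {v : V (n + 1) → ℝ} {Vv : Fin (n + 1) → V (n + 1) → ℝ}
    {W2 : Fin (n + 1) → Fin (n + 1) → V (n + 1) → ℝ} (hv : MemLp v 2 (nu n))
    (hV : ∀ i, MemLp (Vv i) 2 (nu n)) (hW : ∀ i j, MemLp (W2 i j) 2 (nu n))
    {u : ℕ → V (n + 1) → ℝ} (hs : ∀ k, ContDiff ℝ ∞ (u k))
    (hm : ∀ k, MemLp (u k) 2 (nu n) ∧ (∀ i, MemLp (pd (Hs n) i (u k)) 2 (nu n)) ∧
        ∀ i j, MemLp (pd (Hs n) i (pd (Hs n) j (u k))) 2 (nu n))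
    (t0 : Tendsto (fun k => sq (fun x => u k x - v x)) atTop (𝓝 0))
    (t1 : ∀ i, Tendsto (fun k => sq (fun x => pd (Hs n) i (u k) x - Vv i x)) atTop (𝓝 0))
    (t2 : ∀ i j, Tendsto (fun k => sq (fun x => pd (Hs n) i (pd (Hs n) j (u k)) x - W2 i j x))
      atTop (𝓝 0)) :
    (∀ j k, ContDiffOn ℝ 2 (fun x => u j x - u k x) (Hs n) ∧
      MemLp (fun x => u j x - u k x) 2 (nu n) ∧
      (∀ i, MemLp (pd (Hs n) i (fun x => u j x - u k x)) 2 (nu n)) ∧
      ∀ i i', MemLp (pd (Hs n) i (pd (Hs n) i' (fun x => u j x - u k x))) 2 (nu n)) ∧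
    ∀ ε > 0, ∃ N, ∀ j ≥ N, ∀ k ≥ N, H2n (fun x => u j x - u k x) ≤ ε := by
  have h1 : ∀ k, ContDiffOn ℝ 1 (u k) (Hs n) := fun k => ((hs k).of_le (by exact_mod_cast le_top)).contDiffOn
  have h2 : ∀ k, ContDiffOn ℝ ((1 + 1 : ℕ) : WithTop ℕ∞) (u k) (Hs n) := fun k =>
    ((hs k).of_le g9_two').contDiffOn
  have hp1 : ∀ k i, ContDiffOn ℝ 1 (pd (Hs n) i (u k)) (Hs n) := by
    intro k i
    have := pd_contDiffOn (k := 1) (h2 k) i
    simpa using this
  have e1 : ∀ j k i, EqOn (pd (Hs n) i (fun x => u j x - u k x))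
      (fun x => pd (Hs n) i (u j) x - pd (Hs n) i (u k) x) (Hs n) := by
    intro j k i x hx
    exact pd_sub (g9_diff (h1 j) hx) (g9_diff (h1 k) hx) hx i
  have e2 : ∀ j k i i', EqOn (pd (Hs n) i (pd (Hs n) i' (fun x => u j x - u k x)))
      (fun x => pd (Hs n) i (pd (Hs n) i' (u j)) x - pd (Hs n) i (pd (Hs n) i' (u k)) x) (Hs n) := by
    intro j k i i' x hx
    rw [pd_eqOn (e1 j k i') i hx]
    exact pd_sub (g9_diff (hp1 j i') hx) (g9_diff (hp1 k i') hx) hx i
  refine ⟨fun j k => ⟨?_, ?_, ?_, ?_⟩, ?_⟩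
  · exact (((hs j).sub (hs k)).of_le g9_two).contDiffOn
  · exact (hm j).1.sub (hm k).1
  · intro i
    exact (memLp_congr_ae (g9_congr (e1 j k i))).2 (((hm j).2.1 i).sub ((hm k).2.1 i))
  · intro i i'
    exact (memLp_congr_ae (g9_congr (e2 j k i i'))).2 (((hm j).2.2 i i').sub ((hm k).2.2 i i'))
  · have c0 : ∀ ε > 0, ∃ N, ∀ j ≥ N, ∀ k ≥ N, sq (fun x => u j x - u k x) ≤ ε :=
      l2_cauchy (fun k => (hm k).1) hv t0
    have c1 : ∀ i, ∀ ε > 0, ∃ N, ∀ j ≥ N, ∀ k ≥ N,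
        sq (pd (Hs n) i (fun x => u j x - u k x)) ≤ ε := by
      intro i ε hε
      obtain ⟨N, hN⟩ := l2_cauchy (fun k => (hm k).2.1 i) (hV i) (t1 i) ε hε
      refine ⟨N, fun j hj k hk => ?_⟩
      rw [g9_sq_congr (e1 j k i)]
      exact hN j hj k hk
    have c2 : ∀ i i', ∀ ε > 0, ∃ N, ∀ j ≥ N, ∀ k ≥ N,
        sq (pd (Hs n) i (pd (Hs n) i' (fun x => u j x - u k x))) ≤ ε := by
      intro i i' ε hε
      obtain ⟨N, hN⟩ := l2_cauchy (fun k => (hm k).2.2 i i') (hW i i') (t2 i i') ε hε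
      refine ⟨N, fun j hj k hk => ?_⟩
      rw [g9_sq_congr (e2 j k i i')]
      exact hN j hj k hk
    exact g9_cau_add (g9_cau_add c0 (g9_cau_sum Finset.univ fun i _ => c1 i))
      (g9_cau_sum Finset.univ fun i _ => g9_cau_sum Finset.univ fun i' _ => c2 i i')

theorem frame_seq (hn : 3 ≤ n) (f : Frame g) (i : Fin f.N) {w : X → ℝ} {ζ : X → f.F} {τ : X → ℝ}
    {lam kap c C : ℝ} (hc : 0 < c)
    (hwm : MemLp w 2 (vol g)) (hζ : MemLp ζ 2 (vol g)) (hτm : MemLp τ 2 (bvol g))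
    (hw : ∀ᵐ x ∂(vol g), c ≤ w x ∧ w x ≤ C) (hτ : ∀ᵐ x ∂(bvol g), c ≤ τ x ∧ τ x ≤ C)
    (hE : WeakEq n (vol g) (bvol g) (scalX g) (meanX g) (C1 n X) f.D lam kap w ζ τ)
    {u : ℕ → X → ℝ} (hu : ∀ k, u k ∈ C1 n X) (hT : TendH (vol g) (bvol g) f.D u w ζ τ) :
    ∃ U : ℕ → V (n + 1) → ℝ, (∀ k, SU (co (f.e i) '' tsupport (f.η i)) (U k)) ∧
      (∀ k, ∀ y ∈ dom (f.e i), c * f.η i (pt (f.e i) y) ^ 2 ≤ U k y ∧ U k y ≤ C * f.η i (pt (f.e i) y) ^ 2) ∧
      (∀ ε > 0, ∃ N, ∀ j ≥ N, ∀ k ≥ N, H2n (fun y => U j y - U k y) ≤ ε) ∧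
      Tendsto (fun k => H1n (fun y => U k y -
        (dom (f.e i)).indicator (fun y => f.η i (pt (f.e i) y) ^ 2 * u k (pt (f.e i) y)) y)) atTop (𝓝 0) := by
  have he := f.e_mem i
  set e := f.e i with hedef
  set η := f.η i with hηdef
  have hsupp : tsupport η ⊆ e.source := f.η_supp i
  have hK : IsCompact (co e '' tsupport η) :=
    (isClosed_tsupport η).isCompact.image_of_continuousOn ((continuousOn_co e).mono hsupp)
  have hKd : co e '' tsupport η ⊆ dom e := by
    rintro _ ⟨p, hp, rfl⟩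
    exact co_mem_dom e (hsupp hp)
  set K := co e '' tsupport η with hKdef
  have hηK : ∀ y ∈ dom e, y ∉ K → η (pt e y) = 0 := by
    intro y hy hyK
    by_contra h
    exact hyK ⟨pt e y, subset_tsupport _ h, co_pt e hy⟩
  obtain ⟨χ, hχ, O, hO, hKO, hO1⟩ := exists_cut hK hKd
  obtain ⟨Vv, W2, hHH, s0, s1, hW2, hWD⟩ := chart_reg hn he f hχ hc hwm hζ hτm hw hτ hE hu hT
  obtain ⟨v, vs, vm, t0, t1, t2, vb⟩ := local_approx hHH.memv hHH.memW hW2 hHH.wd hWD
  obtain ⟨O', hO', hdO'⟩ := dom_open e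
  -- bounds on K
  have hb : ∃ N0 : ℕ, ∀ k ≥ N0, ∀ x ∈ K, c ≤ v k x ∧ v k x ≤ C := by
    have hKU : K ⊆ O ∩ O' := by
      intro x hx
      refine ⟨hKO hx, ?_⟩
      have := hKd hx
      rw [hdO'] at this
      exact this.1
    obtain ⟨δ, hδ, hth⟩ := hK.exists_thickening_subset_open (hO.inter hO') hKU
    obtain ⟨N0, hN0⟩ := vb δ hδ
    refine ⟨N0, fun k hk x hx => hN0 k hk x (dom_subset e (hKd hx)) c C ?_⟩
    have h1 : ∀ᵐ p ∂(vol g), p ∈ e.source → c ≤ w p ∧ w p ≤ C := by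
      filter_upwards [hw] with p hp _
      exact hp
    have h2 := (ae_vol_source g he (fun p => c ≤ w p ∧ w p ≤ C)).1 h1
    have h3 : ∀ᵐ y ∂(nu n), y ∈ dom e → c ≤ w (pt e y) ∧ w (pt e y) ≤ C := ae_restrict_of_ae h2
    filter_upwards [h3, ae_restrict_mem Ho_open.measurableSet] with y hy hyo hyb
    have hyU : y ∈ O ∩ O' := by
      apply hth
      rw [Metric.mem_thickening_iff]
      exact ⟨x, hx, Metric.mem_ball.1 hyb⟩
    have hyd : y ∈ dom e := by
      rw [hdO']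
      exact ⟨hyU.2, Ho_sub_Hs hyo⟩
    have h4 : lf e χ w y = w (pt e y) := by
      rw [lf, indicator_of_mem hyd, hO1 y hyU.1, one_mul]
    rw [h4]
    exact hy hyd
  obtain ⟨N0, hN0⟩ := hb
  -- the cutoff
  set ηh : V (n + 1) → ℝ := (dom e).indicator fun y => η (pt e y) ^ 2 with hηh
  have hη0 : ∀ y, y ∉ K → ηh y = 0 := by
    intro y hy
    rw [hηh]
    by_cases hyd : y ∈ dom e
    · rw [indicator_of_mem hyd, hηK y hyd hy]
      norm_num
    · rw [indicator_of_notMem hyd]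
  have hηs : ContDiffOn ℝ ∞ ηh (Hs n) := by
    refine contDiffOn_of_supp (e := e) ?_ hK hKd fun x _ hx => hη0 x hx
    have h1 : ContDiffOn ℝ ((⊤ : ℕ∞) : WithTop ℕ∞) (fun y => η (pt e y)) (dom e) :=
      contDiffOn_loc he (f.η_smooth i)
    refine (h1.pow 2).congr fun y hy => ?_
    rw [hηh, indicator_of_mem hy]
  have hηc : HasCompactSupport ηh := by
    refine HasCompactSupport.of_support_subset_isCompact hK ?_
    intro y hy
    by_contra h
    exact hy (hη0 y h)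
  have hηT2 : ηh ∈ T2 n := ⟨hηs.of_le g9_two, hηc⟩
  have hηT1 : ηh ∈ T1 n := T2_sub hηT2
  -- the sequence
  set U : ℕ → V (n + 1) → ℝ := fun k y => ηh y * v (k + N0) y with hU
  have hUK : ∀ k y, y ∉ K → U k y = 0 := by
    intro k y hy
    simp only [hU, hη0 y hy, zero_mul]
  obtain ⟨hdm, hcau⟩ := g9_H2_cauchy hHH.memv hHH.memW hW2 vs vm t0 t1 t2
  refine ⟨U, fun k => ⟨?_, ?_, fun x _ hx => hUK k x hx⟩, ?_, ?_, ?_⟩
  · exact hηs.mul (vs _).contDiffOn
  · refine HasCompactSupport.of_support_subset_isCompact hK ?_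
    intro y hy
    by_contra h
    exact hy (hUK k y h)
  · intro k y hy
    have hUy : U k y = η (pt e y) ^ 2 * v (k + N0) y := by
      simp only [hU, hηh, indicator_of_mem hy]
    rw [hUy]
    by_cases hyK : y ∈ K
    · obtain ⟨b1, b2⟩ := hN0 (k + N0) (Nat.le_add_left _ _) y hyK
      constructor
      · nlinarith [sq_nonneg (η (pt e y))]
      · nlinarith [sq_nonneg (η (pt e y))]
    · rw [hηK y hy hyK]
      norm_num
  · obtain ⟨CC, hCC, hmul⟩ := H2_mul hηT2
    intro ε hε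
    obtain ⟨N, hN⟩ := hcau (ε / (CC + 1)) (by positivity)
    refine ⟨N, fun j hj k hk => ?_⟩
    have e1 : (fun y => U j y - U k y) = fun y => ηh y * (v (j + N0) y - v (k + N0) y) := by
      funext y
      simp only [hU]
      ring
    rw [e1]
    obtain ⟨d1, d2, d3, d4⟩ := hdm (j + N0) (k + N0)
    refine (hmul _ d1 d2 d3 d4).trans ?_
    have h1 := hN (j + N0) (le_add_right hj) (k + N0) (le_add_right hk)
    have h2 : CC * H2n (fun y => v (j + N0) y - v (k + N0) y) ≤ CC * (ε / (CC + 1)) :=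
      mul_le_mul_of_nonneg_left h1 hCC
    refine h2.trans ?_
    rw [mul_div_assoc', div_le_iff₀ (by positivity)]
    nlinarith
  · obtain ⟨CC, hCC, hmul⟩ := H1_mul hηT1
    set z : ℕ → V (n + 1) → ℝ := fun k y => v (k + N0) y - lf e χ (u k) y with hz
    have e1 : ∀ k, (fun y => U k y -
        (dom e).indicator (fun y => η (pt e y) ^ 2 * u k (pt e y)) y) = fun y => ηh y * z k y := by
      intro k
      funext y
      by_cases hyd : y ∈ dom e
      · simp only [hU, hz, hηh, lf, indicator_of_mem hyd]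
        by_cases hyK : y ∈ K
        · rw [hO1 y (hKO hyK)]
          ring
        · rw [hηK y hyd hyK]
          ring
      · simp only [hU, hz, hηh, indicator_of_notMem hyd]
        ring
    have hlf : ∀ k, lf e χ (u k) ∈ T1 n := fun k => lf_T1 he hχ (hu k)
    have hv1 : ∀ k, ContDiffOn ℝ 1 (v k) (Hs n) := fun k =>
      ((vs k).of_le (by exact_mod_cast le_top)).contDiffOn
    have z1 : ∀ k, ContDiffOn ℝ 1 (z k) (Hs n) := fun k => (hv1 _).sub (hlf k).1
    have z2 : ∀ k, MemLp (z k) 2 (nu n) := fun k => (vm _).1.sub (T1_memLp (hlf k) 2).1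
    have ez : ∀ k i', EqOn (pd (Hs n) i' (z k))
        (fun x => pd (Hs n) i' (v (k + N0)) x - pd (Hs n) i' (lf e χ (u k)) x) (Hs n) := by
      intro k i' x hx
      exact pd_sub (g9_diff (hv1 _) hx) (T1_diff (hlf k) hx) hx i'
    have z3 : ∀ k i', MemLp (pd (Hs n) i' (z k)) 2 (nu n) := by
      intro k i'
      exact (memLp_congr_ae (g9_congr (ez k i'))).2 (((vm _).2.1 i').sub ((T1_memLp (hlf k) 2).2 i'))
    have hH1 : Tendsto (fun k => H1n (z k)) atTop (𝓝 0) := by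
      have a0 : Tendsto (fun k => sq (z k)) atTop (𝓝 0) := by
        have b1 : Tendsto (fun k => 2 * sq (fun x => v (k + N0) x - lf e χ w x) +
            2 * sq (fun y => lf e χ (u k) y - lf e χ w y)) atTop (𝓝 0) := by
          have := ((t0.comp (tendsto_add_atTop_nat N0)).const_mul 2).add (s0.const_mul 2)
          simpa using this
        refine squeeze_zero (fun k => integral_nonneg fun _ => sq_nonneg _) (fun k => ?_) b1
        have h1 := l2_sub_le ((vm (k + N0)).1.sub hHH.memv) ((T1_memLp (hlf k) 2).1.sub hHH.memv)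
        have h2 : sq (z k) = ∫ x, ((v (k + N0) x - lf e χ w x) -
            (lf e χ (u k) x - lf e χ w x)) ^ 2 ∂(nu n) := by
          unfold sq
          refine integral_congr_ae (Eventually.of_forall fun x => ?_)
          simp only [hz]
          ring
        rw [h2]
        exact h1
      have a1 : ∀ i', Tendsto (fun k => sq (pd (Hs n) i' (z k))) atTop (𝓝 0) := by
        intro i'
        have b1 : Tendsto (fun k => 2 * sq (fun x => pd (Hs n) i' (v (k + N0)) x - Vv i' x) +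
            2 * sq (fun y => pd (Hs n) i' (lf e χ (u k)) y - Vv i' y)) atTop (𝓝 0) := by
          have := (((t1 i').comp (tendsto_add_atTop_nat N0)).const_mul 2).add ((s1 i').const_mul 2)
          simpa using this
        refine squeeze_zero (fun k => integral_nonneg fun _ => sq_nonneg _) (fun k => ?_) b1
        have h1 := l2_sub_le (((vm (k + N0)).2.1 i').sub (hHH.memW i'))
          (((T1_memLp (hlf k) 2).2 i').sub (hHH.memW i'))
        have h2 : sq (pd (Hs n) i' (z k)) = ∫ x, ((pd (Hs n) i' (v (k + N0)) x - Vv i' x) -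
            (pd (Hs n) i' (lf e χ (u k)) x - Vv i' x)) ^ 2 ∂(nu n) := by
          rw [g9_sq_congr (ez k i')]
          unfold sq
          refine integral_congr_ae (Eventually.of_forall fun x => ?_)
          ring
        rw [h2]
        exact h1
      have a2 : Tendsto (fun k => ∑ i', sq (pd (Hs n) i' (z k))) atTop (𝓝 0) := by
        have := tendsto_finsetSum (Finset.univ : Finset (Fin (n + 1))) fun i' _ => a1 i'
        simpa using this
      have := a0.add a2
      rw [add_zero] at this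
      exact this
    have hfin : Tendsto (fun k => CC * H1n (z k)) atTop (𝓝 0) := by
      have := hH1.const_mul CC
      rwa [mul_zero] at this
    refine squeeze_zero (fun k => ?_) (fun k => ?_) hfin
    · exact add_nonneg (integral_nonneg fun _ => sq_nonneg _)
        (Finset.sum_nonneg fun _ _ => integral_nonneg fun _ => sq_nonneg _)
    · rw [e1 k]
      exact hmul _ (z1 k) (z2 k) (z3 k)

end

end Pool.Agent.CY.S4
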