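import Pool.Agent.CY.S4.D

/-!
# CY-S4-L1: calculus of `pd (Hs n)` and of the classes `T0`, `T1`, `T2`

`Hs n` is closed, convex with nonempty interior `Ho n`, hence has unique derivatives
(`Convex.uniqueDiffOn`-type lemma: `uniqueDiffOn_convex`); `pd (Hs n) i f x = fderivWithin ℝ f (Hs n) x (e_i)`.
The support of `pd (Hs n) i f` is contained in `tsupport f` (if `f = 0` near `x` then `fderivWithin = 0`).
`ContDiffOn.fderivWithin` gives the regularity of the derivatives.  A function of `T1` is continuous on the closed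
set `Hs n` with compact support, hence bounded on `Hs n` and square integrable for `nu n`
(`ContinuousOn.aestronglyMeasurable`, the measure of a compact set is finite).
-/

set_option autoImplicit false

open scoped Manifold ContDiff ENNReal
open MeasureTheory Set Filter Topology

namespace Pool.Agent.CY.S4

noncomputable section

variable {n : ℕ}


theorem Hs_closed : IsClosed (Hs n) := isClosed_Hs

theorem Ho_open : IsOpen (Ho n) := isOpen_Ho

theorem Ho_sub_Hs : Ho n ⊆ Hs n := Ho_subset_Hs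

theorem Hs_convex : Convex ℝ (Hs n) := convex_Hs

theorem Hs_udiff : UniqueDiffOn ℝ (Hs n) := uniqueDiffOn_Hs

private theorem Hs_dom : Dom (Hs n) (Hs n) where
  uniq := uniqueDiffOn_Hs
  sub := subset_rfl
  nhds := fun _ _ => self_mem_nhdsWithin
  clos := fun _ hy => Hs_subset_closure hy

theorem pd_eq_fderiv {f : V (n + 1) → ℝ} {x : V (n + 1)} (hf : DifferentiableAt ℝ f x) (hx : x ∈ Hs n)
    (i : Fin (n + 1)) : pd (Hs n) i f x = fderiv ℝ f x (ei i) := by
  rw [pd, hf.fderivWithin (Hs_udiff x hx)]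
  rfl

theorem pd_congr {f g : V (n + 1) → ℝ} {x : V (n + 1)} (h : f =ᶠ[𝓝[Hs n] x] g) (hx : x ∈ Hs n)
    (i : Fin (n + 1)) : pd (Hs n) i f x = pd (Hs n) i g x := by
  rw [pd, pd, h.fderivWithin_eq_of_mem hx]

theorem pd_eqOn {f g : V (n + 1) → ℝ} (h : EqOn f g (Hs n)) (i : Fin (n + 1)) :
    EqOn (pd (Hs n) i f) (pd (Hs n) i g) (Hs n) := fun _ hx =>
  pd_congr (eventuallyEq_nhdsWithin_of_eqOn h) hx i

theorem pd_add {f g : V (n + 1) → ℝ} {x : V (n + 1)} (hf : DifferentiableWithinAt ℝ f (Hs n) x)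
    (hg : DifferentiableWithinAt ℝ g (Hs n) x) (hx : x ∈ Hs n) (i : Fin (n + 1)) :
    pd (Hs n) i (fun y => f y + g y) x = pd (Hs n) i f x + pd (Hs n) i g x := by
  have := fderivWithin_add (Hs_udiff x hx) hf hg
  simp only [pd]
  rw [show (fun z => f z + g z) = f + g from rfl, this]; rfl

theorem pd_sub {f g : V (n + 1) → ℝ} {x : V (n + 1)} (hf : DifferentiableWithinAt ℝ f (Hs n) x)
    (hg : DifferentiableWithinAt ℝ g (Hs n) x) (hx : x ∈ Hs n) (i : Fin (n + 1)) :
    pd (Hs n) i (fun y => f y - g y) x = pd (Hs n) i f x - pd (Hs n) i g x := by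
  have := fderivWithin_sub (Hs_udiff x hx) hf hg
  simp only [pd]
  rw [show (fun z => f z - g z) = f - g from rfl, this]; rfl

theorem pd_mul {f g : V (n + 1) → ℝ} {x : V (n + 1)} (hf : DifferentiableWithinAt ℝ f (Hs n) x)
    (hg : DifferentiableWithinAt ℝ g (Hs n) x) (hx : x ∈ Hs n) (i : Fin (n + 1)) :
    pd (Hs n) i (fun y => f y * g y) x = f x * pd (Hs n) i g x + pd (Hs n) i f x * g x := by
  have := fderivWithin_mul (Hs_udiff x hx) hf hg
  simp only [pd]
  rw [show (fun z => f z * g z) = f * g from rfl, this]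
  simp [mul_comm]

theorem pd_smul {f : V (n + 1) → ℝ} {x : V (n + 1)} (c : ℝ) (hf : DifferentiableWithinAt ℝ f (Hs n) x)
    (hx : x ∈ Hs n) (i : Fin (n + 1)) : pd (Hs n) i (fun y => c * f y) x = c * pd (Hs n) i f x := by
  rw [pd_mul (differentiableWithinAt_const c) hf hx]
  simp [pd]

theorem pd_const (c : ℝ) (x : V (n + 1)) (i : Fin (n + 1)) : pd (Hs n) i (fun _ => c) x = 0 := by
  simp [pd]

theorem pd_comp {F : ℝ → ℝ} {f : V (n + 1) → ℝ} {x : V (n + 1)} (hF : DifferentiableAt ℝ F (f x))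
    (hf : DifferentiableWithinAt ℝ f (Hs n) x) (hx : x ∈ Hs n) (i : Fin (n + 1)) :
    pd (Hs n) i (fun y => F (f y)) x = deriv F (f x) * pd (Hs n) i f x := by
  have h1 : HasFDerivWithinAt (fun z => F (f z)) (deriv F (f x) • fderivWithin ℝ f (Hs n) x) (Hs n) x :=
    hF.hasDerivAt.comp_hasFDerivWithinAt x hf.hasFDerivWithinAt
  simp only [pd]
  rw [h1.fderivWithin (Hs_udiff x hx)]
  simp

/-- `tl` as a linear map -/
private def tlL (n : ℕ) : V (n + 1) →L[ℝ] V n :=
  LinearMap.toContinuousLinearMap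
    { toFun := tl
      map_add' := fun x y => by ext i; simp [tl]
      map_smul' := fun c x => by ext i; simp [tl] }

private def bdL (n : ℕ) : V n →L[ℝ] V (n + 1) :=
  LinearMap.toContinuousLinearMap
    { toFun := bd
      map_add' := fun x y => by
        ext i
        refine Fin.cases ?_ (fun j => ?_) i
        · simp [bd, cons]
        · simp [bd, cons]
      map_smul' := fun c x => by
        ext i
        refine Fin.cases ?_ (fun j => ?_) i
        · simp [bd, cons]
        · simp [bd, cons] }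

theorem contDiff_tl : ContDiff ℝ ∞ (tl : V (n + 1) → V n) := (tlL n).contDiff

theorem contDiff_bd : ContDiff ℝ ∞ (bd : V n → V (n + 1)) := (bdL n).contDiff

/-- A function of the tangential variables only. -/
theorem pd_tl {b : V n → ℝ} (hb : Differentiable ℝ b) {x : V (n + 1)} (hx : x ∈ Hs n) :
    pd (Hs n) 0 (fun y => b (tl y)) x = 0 ∧
    ∀ a : Fin n, pd (Hs n) a.succ (fun y => b (tl y)) x = fderiv ℝ b (tl x) (ei a) := by
  have h1 : HasFDerivAt (tl : V (n + 1) → V n) (tlL n) x := (tlL n).hasFDerivAt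
  have h2 : HasFDerivAt (fun y => b (tl y)) ((fderiv ℝ b (tl x)).comp (tlL n)) x :=
    (hb (tl x)).hasFDerivAt.comp x h1
  have h3 : ∀ i, pd (Hs n) i (fun y => b (tl y)) x = fderiv ℝ b (tl x) (tl (ei i)) := by
    intro i
    rw [pd_eq_fderiv h2.differentiableAt hx, h2.fderiv]
    rfl
  constructor
  · rw [h3 0]
    have : tl (ei 0 : V (n + 1)) = 0 := by
      ext j; simp [tl, ei]
    rw [this, map_zero]
  · intro a
    rw [h3 a.succ]
    have : tl (ei a.succ : V (n + 1)) = ei a := by
      ext j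
      simp [tl, ei]
    rw [this]

theorem tl_bd (z : V n) : tl (bd z) = z := by
  ext i; simp [tl, bd, cons]

theorem bd_mem (z : V n) : bd z ∈ Hs n := by
  simp [Hs, bd, cons]

theorem pd_contDiffOn {k : ℕ} {f : V (n + 1) → ℝ} (hf : ContDiffOn ℝ (k + 1 : ℕ) f (Hs n)) (i : Fin (n + 1)) :
    ContDiffOn ℝ k (pd (Hs n) i f) (Hs n) :=
  Hs_dom.contDiffOn_pd i (by push_cast; exact le_rfl) hf

theorem pd_support (f : V (n + 1) → ℝ) (i : Fin (n + 1)) :
    Function.support (pd (Hs n) i f) ⊆ tsupport f := by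
  intro x hx
  by_contra h
  apply hx
  have h0 : f =ᶠ[𝓝 x] fun _ => 0 := by
    have h1 := (isClosed_tsupport f).isOpen_compl.mem_nhds h
    filter_upwards [h1] with y hy
    exact image_eq_zero_of_notMem_tsupport hy
  rw [pd, (h0.filter_mono nhdsWithin_le_nhds).fderivWithin_eq h0.eq_of_nhds]
  simp

end

end Pool.Agent.CY.S4
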