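import Pool.Agent.CY.S4.L0
import Pool.Agent.CY.S4.L1t

/-!
# CY-S4-L3c: difference quotients of `C^1` functions

`φ (x + h e_i) - φ x = ∫_0^1 h ∂_i φ (x + s h e_i) ds` (the segment lies in the convex set `Hs n` for `x ∈ Hs n`,
`h > 0`; `intervalIntegral.integral_eq_sub_of_hasDeriv_right` or `..._of_hasDerivAt` for `x ∈ Ho n`), so
`(dq i h φ x)² ≤ ∫_0^1 (∂_i φ (x + s h e_i))² ds` (Cauchy-Schwarz), Fubini and
`∫ f (x + s h e_i) dν ≤ ∫ f dν` for `f ≥ 0` (translation of the open half space into itself).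
-/

set_option autoImplicit false

open scoped Manifold ContDiff ENNReal
open MeasureTheory Set Filter Topology

namespace Pool.Agent.CY.S4

noncomputable section

variable {n : ℕ}


private theorem ei_norm (i : Fin (n + 1)) : ‖(ei i : V (n + 1))‖ = 1 := by simp [ei]

private theorem add_mem' {x : V (n + 1)} (hx : x ∈ Hs n) (i : Fin (n + 1)) {t : ℝ} (ht : 0 ≤ t) :
    x + t • (ei i : V (n + 1)) ∈ Hs n := by
  change 0 ≤ (x + t • (ei i : V (n + 1))) 0
  rw [PiLp.add_apply, PiLp.smul_apply, smul_eq_mul]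
  have h1 : 0 ≤ (ei i : V (n + 1)) 0 := by
    unfold ei
    rw [PiLp.single_apply]
    split_ifs <;> norm_num
  have hx' : 0 ≤ x 0 := hx
  have := mul_nonneg ht h1
  linarith

private theorem seg_deriv {S : Set (V (n + 1))} (hS : Convex ℝ S) {φ : V (n + 1) → ℝ} (i : Fin (n + 1))
    {x : V (n + 1)} {h : ℝ} (hx : x ∈ S) (hx' : x + h • ei i ∈ S)
    (hd : ∀ y ∈ S, DifferentiableWithinAt ℝ φ S y) :
    (∀ s ∈ Icc (0 : ℝ) 1, x + (s * h) • ei i ∈ S) ∧
    ∀ s ∈ Icc (0 : ℝ) 1, HasDerivWithinAt (fun s : ℝ => φ (x + (s * h) • ei i))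
      (h * pd S i φ (x + (s * h) • ei i)) (Icc 0 1) s := by
  have h1 : ∀ s ∈ Icc (0 : ℝ) 1, x + (s * h) • (ei i : V (n + 1)) ∈ S := by
    intro s hs
    have := hS.add_smul_mem hx hx' hs
    rwa [smul_smul] at this
  refine ⟨h1, fun s hs => ?_⟩
  have h2 : HasDerivAt (fun s : ℝ => x + (s * h) • (ei i : V (n + 1))) (h • ei i) s := by
    have h3 : HasDerivAt (fun s : ℝ => s * h) h s := hasDerivAt_mul_const h
    exact (h3.smul_const (ei i : V (n + 1))).const_add x
  have h4 := (hd _ (h1 s hs)).hasFDerivWithinAt.comp_hasDerivWithinAt s h2.hasDerivWithinAt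
    (s := Icc (0 : ℝ) 1) (fun s hs => h1 s hs)
  rw [map_smul, smul_eq_mul] at h4
  exact h4

private theorem mvt {S : Set (V (n + 1))} (hS : Convex ℝ S) {φ : V (n + 1) → ℝ} (i : Fin (n + 1))
    {x : V (n + 1)} {h ε : ℝ} (hx : x ∈ S) (hx' : x + h • ei i ∈ S)
    (hd : ∀ y ∈ S, DifferentiableWithinAt ℝ φ S y)
    (hb : ∀ s ∈ Icc (0 : ℝ) 1, |pd S i φ (x + (s * h) • ei i) - pd S i φ x| ≤ ε) :
    |φ (x + h • ei i) - φ x - h * pd S i φ x| ≤ |h| * ε := by
  obtain ⟨-, h2⟩ := seg_deriv hS i hx hx' hd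
  have h3 : ∀ s ∈ Icc (0 : ℝ) 1, HasDerivWithinAt
      (fun s : ℝ => φ (x + (s * h) • ei i) - s * (h * pd S i φ x))
      (h * pd S i φ (x + (s * h) • ei i) - h * pd S i φ x) (Icc 0 1) s := by
    intro s hs
    exact (h2 s hs).sub (hasDerivAt_mul_const (h * pd S i φ x)).hasDerivWithinAt
  have h4 : ∀ s ∈ Icc (0 : ℝ) 1, ‖h * pd S i φ (x + (s * h) • ei i) - h * pd S i φ x‖ ≤ |h| * ε := by
    intro s hs
    rw [← mul_sub, norm_mul, Real.norm_eq_abs, Real.norm_eq_abs]
    exact mul_le_mul_of_nonneg_left (hb s hs) (abs_nonneg _)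
  have h5 := Convex.norm_image_sub_le_of_norm_hasDerivWithin_le h3 h4 (convex_Icc (0 : ℝ) 1)
    (left_mem_Icc.2 zero_le_one) (right_mem_Icc.2 zero_le_one)
  simp only [one_mul, zero_mul, zero_smul, add_zero, sub_zero, Real.norm_eq_abs, abs_one,
    mul_one] at h5
  rw [show φ (x + h • ei i) - φ x - h * pd S i φ x = φ (x + h • ei i) - h * pd S i φ x - φ x by ring]
  exact h5

private theorem P_cont {φ : V (n + 1) → ℝ} (hφ : φ ∈ T1 n) (i : Fin (n + 1)) :
    ContinuousOn (pd (Hs n) i φ) (Hs n) := by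
  have h1 : ContDiffOn ℝ ((0 + 1 : ℕ) : WithTop ℕ∞) φ (Hs n) := by
    simpa using hφ.1
  exact (pd_contDiffOn (k := 0) h1 i).continuousOn

private theorem ftc {φ : V (n + 1) → ℝ} (hφ : φ ∈ T1 n) (i : Fin (n + 1)) {h : ℝ} (hh : 0 < h)
    {x : V (n + 1)} (hx : x ∈ Hs n) :
    ContinuousOn (fun s : ℝ => pd (Hs n) i φ (x + (s * h) • ei i)) (Icc 0 1) ∧
    dq i h φ x = ∫ s in (0 : ℝ)..1, pd (Hs n) i φ (x + (s * h) • ei i) := by
  obtain ⟨h1, h2⟩ := seg_deriv Hs_convex i hx (add_mem' hx i hh.le) (fun y hy => T1_diff hφ hy)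
  have hc : ContinuousOn (fun s : ℝ => pd (Hs n) i φ (x + (s * h) • ei i)) (Icc 0 1) := by
    refine (P_cont hφ i).comp ?_ (fun s hs => h1 s hs)
    fun_prop
  refine ⟨hc, ?_⟩
  have h3 := intervalIntegral.integral_eq_sub_of_hasDerivAt_of_le (zero_le_one (α := ℝ))
    (f := fun s : ℝ => φ (x + (s * h) • ei i))
    (f' := fun s : ℝ => h * pd (Hs n) i φ (x + (s * h) • ei i))
    (fun s hs => (h2 s hs).continuousWithinAt)
    (fun s hs => (h2 s (Ioo_subset_Icc_self hs)).hasDerivAt (Icc_mem_nhds hs.1 hs.2))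
    ((continuousOn_const.mul hc).intervalIntegrable_of_Icc zero_le_one)
  rw [intervalIntegral.integral_const_mul] at h3
  simp only [one_mul, zero_mul, zero_smul, add_zero] at h3
  unfold dq
  rw [← h3]
  field_simp

private theorem dq_cont {φ : V (n + 1) → ℝ} (hφ : φ ∈ T1 n) (i : Fin (n + 1)) {h : ℝ} (hh : 0 < h) :
    ContinuousOn (dq i h φ) (Hs n) := by
  unfold dq
  refine (ContinuousOn.sub ?_ hφ.1.continuousOn).div_const h
  refine hφ.1.continuousOn.comp (by fun_prop) (fun x hx => add_mem' hx i hh.le)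

theorem dq_le {φ : V (n + 1) → ℝ} (hφ : φ ∈ T1 n) (i : Fin (n + 1)) {h : ℝ} (hh : 0 < h) :
    sq (dq i h φ) ≤ sq (pd (Hs n) i φ) := by
  classical
  set P : V (n + 1) → ℝ := pd (Hs n) i φ with hP
  set F : V (n + 1) → ℝ≥0∞ := (Hs n).piecewise (fun x => ENNReal.ofReal (P x ^ 2)) 0 with hF
  have hPc := P_cont hφ i
  have hFm : Measurable F := by
    refine ContinuousOn.measurable_piecewise ?_ continuousOn_const Hs_closed.measurableSet
    exact ENNReal.continuous_ofReal.comp_continuousOn (hPc.pow 2)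
  have hFeq : ∀ x ∈ Hs n, F x = ENNReal.ofReal (P x ^ 2) := fun x hx => by
    rw [hF, Set.piecewise_eq_of_mem _ _ _ hx]
  have hHo : MeasurableSet (Ho n) := Ho_open.measurableSet
  -- pointwise bound
  have h1 : ∀ x ∈ Ho n, ENNReal.ofReal (dq i h φ x ^ 2) ≤
      ∫⁻ s in Ioc (0 : ℝ) 1, F (x + (s * h) • ei i) := by
    intro x hx
    have hx' := Ho_sub_Hs hx
    obtain ⟨hc, he⟩ := ftc hφ i hh hx'
    set G : ℝ → ℝ := fun s => P (x + (s * h) • ei i) with hG
    set c : ℝ := ∫ s in (0 : ℝ)..1, G s with hcdef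
    have i1 : IntervalIntegrable G volume 0 1 := hc.intervalIntegrable_of_Icc zero_le_one
    have i2 : IntervalIntegrable (fun s => G s ^ 2) volume 0 1 :=
      (hc.pow 2).intervalIntegrable_of_Icc zero_le_one
    have h2 : c ^ 2 ≤ ∫ s in (0 : ℝ)..1, G s ^ 2 := by
      have h3 : 0 ≤ ∫ s in (0 : ℝ)..1, (G s - c) ^ 2 :=
        intervalIntegral.integral_nonneg zero_le_one fun s _ => sq_nonneg _
      have h4 : ∫ s in (0 : ℝ)..1, (G s - c) ^ 2 = (∫ s in (0 : ℝ)..1, G s ^ 2) - c ^ 2 := by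
        have h5 : ∀ s, (G s - c) ^ 2 = G s ^ 2 - (2 * c * G s - c ^ 2) := fun s => by ring
        simp only [h5]
        rw [intervalIntegral.integral_sub i2 ((i1.const_mul (2 * c)).sub intervalIntegrable_const),
          intervalIntegral.integral_sub (i1.const_mul (2 * c)) intervalIntegrable_const,
          intervalIntegral.integral_const_mul, intervalIntegral.integral_const, ← hcdef]
        simp only [sub_zero, smul_eq_mul, one_mul]
        ring
      linarith
    have h3 : ENNReal.ofReal (∫ s in (0 : ℝ)..1, G s ^ 2) =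
        ∫⁻ s in Ioc (0 : ℝ) 1, ENNReal.ofReal (G s ^ 2) := by
      rw [intervalIntegral.integral_of_le zero_le_one]
      refine ofReal_integral_eq_lintegral_ofReal ?_ (Eventually.of_forall fun s => sq_nonneg _)
      exact (intervalIntegrable_iff_integrableOn_Ioc_of_le zero_le_one).1 i2
    rw [he]
    refine (ENNReal.ofReal_le_ofReal h2).trans ?_
    rw [h3]
    refine le_of_eq (setLIntegral_congr_fun measurableSet_Ioc fun s hs => ?_)
    change ENNReal.ofReal (P (x + (s * h) • ei i) ^ 2) = F (x + (s * h) • ei i)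
    rw [hFeq]
    exact add_mem' hx' i (mul_nonneg hs.1.le hh.le)
  -- Tonelli
  have h2 : ∫⁻ x, ENNReal.ofReal (dq i h φ x ^ 2) ∂(nu n) ≤ ∫⁻ x, F x ∂(nu n) := by
    calc ∫⁻ x, ENNReal.ofReal (dq i h φ x ^ 2) ∂(nu n)
        ≤ ∫⁻ x, (∫⁻ s in Ioc (0 : ℝ) 1, F (x + (s * h) • ei i)) ∂(nu n) :=
          setLIntegral_mono' hHo h1
      _ = ∫⁻ s in Ioc (0 : ℝ) 1, (∫⁻ x, F (x + (s * h) • ei i) ∂(nu n)) := by
          refine lintegral_lintegral_swap (Measurable.aemeasurable ?_)
          exact hFm.comp (by fun_prop)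
      _ ≤ ∫⁻ s in Ioc (0 : ℝ) 1, (∫⁻ x, F x ∂(nu n)) := by
          refine setLIntegral_mono' measurableSet_Ioc fun s hs => ?_
          have h5 : ∀ x, (Ho n).indicator (fun x => F (x + (s * h) • ei i)) x ≤
              (Ho n).indicator F (x + (s * h) • ei i) := by
            intro x
            by_cases hx : x ∈ Ho n
            · have hx2 : x + (s * h) • (ei i : V (n + 1)) ∈ Ho n := by
                change 0 < (x + (s * h) • (ei i : V (n + 1))) 0
                rw [PiLp.add_apply, PiLp.smul_apply, smul_eq_mul]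
                have h1 : 0 ≤ (ei i : V (n + 1)) 0 := by
                  unfold ei
                  rw [PiLp.single_apply]
                  split_ifs <;> norm_num
                have hx' : 0 < x 0 := hx
                have := mul_nonneg (mul_nonneg hs.1.le hh.le) h1
                linarith
              rw [indicator_of_mem hx, indicator_of_mem hx2]
            · rw [indicator_of_notMem hx]
              exact zero_le
          rw [← lintegral_indicator hHo, ← lintegral_indicator hHo]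
          refine (lintegral_mono h5).trans ?_
          rw [lintegral_add_right_eq_self]
      _ = ∫⁻ x, F x ∂(nu n) := by
          rw [setLIntegral_const, Real.volume_Ioc]
          simp
  have h3 : ∫⁻ x, F x ∂(nu n) = ∫⁻ x, ENNReal.ofReal (P x ^ 2) ∂(nu n) :=
    setLIntegral_congr_fun hHo fun x hx => hFeq x (Ho_sub_Hs hx)
  have hint : Integrable (fun x => P x ^ 2) (nu n) := l2_int_sq ((T1_memLp hφ 2).2 i)
  unfold sq
  rw [integral_eq_lintegral_of_nonneg_ae (Eventually.of_forall fun x => sq_nonneg _)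
      (((dq_cont hφ i hh).mono Ho_sub_Hs).pow 2 |>.aestronglyMeasurable hHo),
    integral_eq_lintegral_of_nonneg_ae (Eventually.of_forall fun x => sq_nonneg _)
      hint.aestronglyMeasurable]
  refine ENNReal.toReal_mono ?_ (h2.trans h3.le)
  have := hint.lintegral_lt_top
  exact this.ne

private theorem supp_ball {φ : V (n + 1) → ℝ} (hφ : HasCompactSupport φ) :
    ∃ R : ℝ, ∀ x, R < ‖x‖ → x ∉ tsupport φ := by
  obtain ⟨R, hR⟩ := hφ.isCompact.isBounded.subset_closedBall (0 : V (n + 1))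
  refine ⟨R, fun x hx h => ?_⟩
  have := hR h
  rw [mem_closedBall_zero_iff] at this
  linarith

private theorem pd_zero {φ : V (n + 1) → ℝ} (i : Fin (n + 1)) {x : V (n + 1)} (hx : x ∉ tsupport φ) :
    pd (Hs n) i φ x = 0 := by
  by_contra h
  exact hx (pd_support φ i h)

private theorem unif {P : V (n + 1) → ℝ} (hP : ContinuousOn P (Hs n)) {R : ℝ}
    (hR : ∀ x, R < ‖x‖ → P x = 0) :
    ∀ ε > 0, ∃ δ > 0, ∀ a ∈ Hs n, ∀ b ∈ Hs n, dist a b < δ → |P a - P b| ≤ ε := by
  intro ε hε
  have hK : IsCompact (Hs n ∩ Metric.closedBall 0 (R + 2)) :=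
    (isCompact_closedBall 0 (R + 2)).inter_left Hs_closed
  have hu := hK.uniformContinuousOn_of_continuous (hP.mono inter_subset_left)
  rw [Metric.uniformContinuousOn_iff] at hu
  obtain ⟨δ, hδ, h⟩ := hu ε hε
  refine ⟨min δ 1, lt_min hδ one_pos, ?_⟩
  intro a ha b hb hab
  have h1 : dist a b < δ := hab.trans_le (min_le_left _ _)
  have h2 : ‖a - b‖ < 1 := by
    rw [← dist_eq_norm]
    exact hab.trans_le (min_le_right _ _)
  have h3 : ‖b‖ ≤ ‖a‖ + 1 := by
    have := norm_sub_norm_le b a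
    rw [norm_sub_rev] at this
    linarith
  have h4 : ‖a‖ ≤ ‖b‖ + 1 := by
    have := norm_sub_norm_le a b
    linarith
  by_cases hc : ‖a‖ ≤ R + 1
  · have ha2 : a ∈ Hs n ∩ Metric.closedBall 0 (R + 2) := by
      refine ⟨ha, ?_⟩
      rw [mem_closedBall_zero_iff]
      linarith
    have hb2 : b ∈ Hs n ∩ Metric.closedBall 0 (R + 2) := by
      refine ⟨hb, ?_⟩
      rw [mem_closedBall_zero_iff]
      linarith
    have := h a ha2 b hb2 h1
    rw [Real.dist_eq] at this
    exact this.le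
  · push Not at hc
    rw [hR a (by linarith), hR b (by linarith)]
    simpa using hε.le

/-- Uniform convergence of the difference quotients, from the right and from the left. -/
theorem dq_unif {φ : V (n + 1) → ℝ} (hφ : φ ∈ T1 n) (i : Fin (n + 1)) :
    ∀ ε > 0, ∃ h0 > 0, ∀ h : ℝ, 0 < h → h < h0 → ∀ x ∈ Hs n, |dq i h φ x - pd (Hs n) i φ x| ≤ ε := by
  intro ε hε
  obtain ⟨R, hR⟩ := supp_ball hφ.2
  obtain ⟨δ, hδ, hu⟩ := unif (P_cont hφ i) (R := R) (fun x hx => pd_zero i (hR x hx)) ε hε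
  refine ⟨δ, hδ, fun h hh hlt x hx => ?_⟩
  have h1 := mvt Hs_convex i (ε := ε) hx (add_mem' hx i hh.le) (fun y hy => T1_diff hφ hy) (by
    intro s hs
    refine hu _ (add_mem' hx i (mul_nonneg hs.1 hh.le)) _ hx ?_
    rw [dist_eq_norm, add_sub_cancel_left, norm_smul, ei_norm, mul_one, Real.norm_eq_abs,
      abs_of_nonneg (mul_nonneg hs.1 hh.le)]
    calc s * h ≤ 1 * h := mul_le_mul_of_nonneg_right hs.2 hh.le
      _ = h := one_mul _
      _ < δ := hlt)
  have h2 : dq i h φ x - pd (Hs n) i φ x = (φ (x + h • ei i) - φ x - h * pd (Hs n) i φ x) / h := by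
    unfold dq
    field_simp
  rw [h2, abs_div, div_le_iff₀ (abs_pos.2 hh.ne'), mul_comm ε]
  exact h1

private theorem tend_of_unif {D : ℝ → V (n + 1) → ℝ} (R : ℝ)
    (hsupp : ∀ h, 0 < h → h < 1 → ∀ x ∈ Ho n, R + 1 < ‖x‖ → D h x = 0)
    (hunif : ∀ ε > 0, ∃ h0 > 0, ∀ h, 0 < h → h < h0 → ∀ x ∈ Ho n, |D h x| ≤ ε) :
    Tendsto (fun h : ℝ => sq (D h)) (𝓝[>] 0) (𝓝 0) := by
  rw [Metric.tendsto_nhdsWithin_nhds]
  intro ε hε
  set W : ℝ := (nu n).real (Metric.closedBall 0 (R + 1)) with hW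
  have hW0 : 0 ≤ W := measureReal_nonneg
  have hfin : (nu n) (Metric.closedBall 0 (R + 1)) ≠ ⊤ := by
    refine ne_of_lt ((Measure.restrict_apply_le _ _).trans_lt ?_)
    exact (isCompact_closedBall _ _).measure_lt_top
  obtain ⟨h0, hh0, hu⟩ := hunif (Real.sqrt (ε / (W + 1))) (Real.sqrt_pos.2 (by positivity))
  refine ⟨min h0 1, lt_min hh0 one_pos, ?_⟩
  intro h hh hlt
  have hh' : 0 < h := hh
  rw [Real.dist_eq, sub_zero, abs_of_pos hh'] at hlt
  have h1 : sq (D h) ≤ ε / (W + 1) * W := by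
    have h2 : sq (D h) ≤ ∫ x, (Metric.closedBall (0 : V (n + 1)) (R + 1)).indicator
        (fun _ => ε / (W + 1)) x ∂(nu n) := by
      refine integral_mono_of_nonneg (Eventually.of_forall fun x => sq_nonneg _) ?_ ?_
      · exact (integrable_indicator_iff Metric.isClosed_closedBall.measurableSet).2
          (integrableOn_const hfin)
      · filter_upwards [ae_restrict_mem Ho_open.measurableSet] with x hx
        by_cases hx2 : x ∈ Metric.closedBall (0 : V (n + 1)) (R + 1)
        · rw [indicator_of_mem hx2]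
          have h3 := hu h hh' (hlt.trans_le (min_le_left _ _)) x hx
          calc D h x ^ 2 = |D h x| ^ 2 := (sq_abs _).symm
            _ ≤ Real.sqrt (ε / (W + 1)) ^ 2 := pow_le_pow_left₀ (abs_nonneg _) h3 2
            _ = ε / (W + 1) := Real.sq_sqrt (by positivity)
        · rw [indicator_of_notMem hx2]
          have h4 : D h x = 0 := by
            refine hsupp h hh' (hlt.trans_le (min_le_right _ _)) x hx ?_
            rw [mem_closedBall_zero_iff] at hx2
            exact not_le.1 hx2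
          change D h x ^ 2 ≤ 0
          rw [h4]
          norm_num
    refine h2.trans (le_of_eq ?_)
    rw [integral_indicator Metric.isClosed_closedBall.measurableSet, setIntegral_const, ← hW,
      smul_eq_mul, mul_comm]
  have h2 : 0 ≤ sq (D h) := integral_nonneg fun x => sq_nonneg _
  rw [Real.dist_eq, sub_zero, abs_of_nonneg h2]
  refine h1.trans_lt ?_
  rw [div_mul_eq_mul_div, div_lt_iff₀ (by positivity)]
  nlinarith

/-- Convergence in `L²` of the difference quotients of a `C^1` function with compact support. -/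
theorem dq_tend_T1 {φ : V (n + 1) → ℝ} (hφ : φ ∈ T1 n) (i : Fin (n + 1)) :
    Tendsto (fun h : ℝ => sq (fun x => dq i h φ x - pd (Hs n) i φ x)) (𝓝[>] 0) (𝓝 0) := by
  obtain ⟨R, hR⟩ := supp_ball hφ.2
  refine tend_of_unif (D := fun h x => dq i h φ x - pd (Hs n) i φ x) R ?_ ?_
  · intro h hh hlt x hx hn
    have h1 : x ∉ tsupport φ := hR x (by linarith)
    have h2 : x + h • (ei i : V (n + 1)) ∉ tsupport φ := by
      apply hR
      have h3 : ‖x‖ ≤ ‖x + h • (ei i : V (n + 1))‖ + ‖h • (ei i : V (n + 1))‖ := by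
        have := norm_sub_le (x + h • (ei i : V (n + 1))) (h • (ei i : V (n + 1)))
        rwa [add_sub_cancel_right] at this
      rw [norm_smul, ei_norm, mul_one, Real.norm_eq_abs, abs_of_pos hh] at h3
      linarith
    change dq i h φ x - pd (Hs n) i φ x = 0
    unfold dq
    rw [pd_zero i h1, image_eq_zero_of_notMem_tsupport h1, image_eq_zero_of_notMem_tsupport h2]
    simp
  · intro ε hε
    obtain ⟨h0, hh0, hu⟩ := dq_unif hφ i ε hε
    exact ⟨h0, hh0, fun h hh hlt x hx => hu h hh hlt x (Ho_sub_Hs hx)⟩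

/-- The same for backward difference quotients of functions supported in the open half space: for `h` small
`φ (x - h e_i)` vanishes if `x ∉ Ho n + h e_i`. -/
theorem dq_tend_T0 {φ : V (n + 1) → ℝ} (hφ : φ ∈ T0 n) (i : Fin (n + 1)) :
    Tendsto (fun h : ℝ => sq (fun x => dq i (-h) φ x - pd (Hs n) i φ x)) (𝓝[>] 0) (𝓝 0) := by
  obtain ⟨R, hR⟩ := supp_ball hφ.2.1
  have hdiff : Differentiable ℝ φ := hφ.1.differentiable (by norm_num)
  have hpu : ∀ y, pd univ i φ y = fderiv ℝ φ y (ei i) := by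
    intro y
    unfold pd
    rw [fderivWithin_univ]
    rfl
  have hpH : ∀ y ∈ Hs n, pd (Hs n) i φ y = pd univ i φ y := by
    intro y hy
    rw [hpu, pd_eq_fderiv (hdiff y) hy i]
  refine tend_of_unif (D := fun h x => dq i (-h) φ x - pd (Hs n) i φ x) R ?_ ?_
  · intro h hh hlt x hx hn
    have h1 : x ∉ tsupport φ := hR x (by linarith)
    have h2 : x + (-h) • (ei i : V (n + 1)) ∉ tsupport φ := by
      apply hR
      have h3 : ‖x‖ ≤ ‖x + (-h) • (ei i : V (n + 1))‖ + ‖(-h) • (ei i : V (n + 1))‖ := by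
        have := norm_sub_le (x + (-h) • (ei i : V (n + 1))) ((-h) • (ei i : V (n + 1)))
        rwa [add_sub_cancel_right] at this
      rw [norm_smul, ei_norm, mul_one, Real.norm_eq_abs, abs_neg, abs_of_pos hh] at h3
      linarith
    change dq i (-h) φ x - pd (Hs n) i φ x = 0
    unfold dq
    rw [pd_zero i h1, image_eq_zero_of_notMem_tsupport h1, image_eq_zero_of_notMem_tsupport h2]
    simp
  · intro ε hε
    have hcont : Continuous (pd univ i φ) := by
      have h1 : Continuous (fderiv ℝ φ) := hφ.1.continuous_fderiv (by norm_num)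
      have h2 : pd univ i φ = fun y => fderiv ℝ φ y (ei i) := funext hpu
      rw [h2]
      fun_prop
    have hcs : HasCompactSupport (pd univ i φ) := by
      have h1 : HasCompactSupport (fderiv ℝ φ) := hφ.2.1.fderiv ℝ
      refine h1.mono' ?_
      intro y hy
      apply subset_tsupport
      intro h0
      apply hy
      rw [hpu, h0]
      rfl
    have huc := hcs.uniformContinuous_of_continuous hcont
    rw [Metric.uniformContinuous_iff] at huc
    obtain ⟨δ, hδ, hu⟩ := huc ε hε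
    refine ⟨δ, hδ, fun h hh hlt x hx => ?_⟩
    have h1 := mvt (S := univ) (φ := φ) (h := -h) convex_univ i (ε := ε) (mem_univ x) (mem_univ _)
      (fun y _ => (hdiff y).differentiableWithinAt) (by
      intro s hs
      have h2 : dist (x + (s * -h) • (ei i : V (n + 1))) x < δ := by
        rw [dist_eq_norm, add_sub_cancel_left, norm_smul, ei_norm, mul_one, Real.norm_eq_abs,
          mul_neg, abs_neg, abs_of_nonneg (mul_nonneg hs.1 hh.le)]
        calc s * h ≤ 1 * h := mul_le_mul_of_nonneg_right hs.2 hh.le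
          _ = h := one_mul _
          _ < δ := hlt
      have h3 := hu h2
      rw [Real.dist_eq] at h3
      exact h3.le)
    have h2 : dq i (-h) φ x - pd (Hs n) i φ x =
        (φ (x + (-h) • ei i) - φ x - (-h) * pd univ i φ x) / (-h) := by
      unfold dq
      rw [hpH x (Ho_sub_Hs hx)]
      field_simp
      ring
    change |dq i (-h) φ x - pd (Hs n) i φ x| ≤ ε
    rw [h2, abs_div, div_le_iff₀ (abs_pos.2 (neg_ne_zero.2 hh.ne')), mul_comm ε]
    exact h1

end

end Pool.Agent.CY.S4
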