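import Pool.Agent.CY.S4.L3a
import Pool.Agent.CY.S4.L3c
import Pool.Agent.CY.S4.L4

/-!
# CY-S4-L5a: the space `HH` (functions, gradients and traces in `H^1` of the half space): difference quotients

By approximation: `u_k ∈ T1`, `u_k → v`, `∂_i u_k → W_i` in `L²(nu)`, `u_k(0, ·) → t` in `L²`.
* `sq_dq_le`: `dq_le` for `u_k`, and `dq i h u_k → dq i h v` in `L²` (`sq_shift_le`, `l2_add_le`), `l2_tend_sq`.
* `dq`: `dq a.succ h u_k` belongs to `T1` (translation in a tangential direction; also for `h < 0`) and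
  `pd j (dq a.succ h u_k) = dq a.succ h (pd j u_k)` on `Hs n`; the traces are translated by `h e_a` in `V n`.
-/

set_option autoImplicit false

open scoped Manifold ContDiff ENNReal
open MeasureTheory Set Filter Topology

namespace Pool.Agent.CY.S4

noncomputable section

variable {n : ℕ}


variable {v : V (n + 1) → ℝ} {W : Fin (n + 1) → V (n + 1) → ℝ} {t : V n → ℝ}


private theorem quot_le {α : Type} [MeasurableSpace α] {μ : Measure α} {f : α → ℝ} (S : α → α) (h : ℝ)
    (hf : MemLp f 2 μ) (hs : MemLp (fun x => f (S x)) 2 μ)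
    (hle : ∫ x, f (S x) ^ 2 ∂μ ≤ ∫ x, f x ^ 2 ∂μ) :
    ∫ x, ((f (S x) - f x) / h) ^ 2 ∂μ ≤ 4 / h ^ 2 * ∫ x, f x ^ 2 ∂μ := by
  have e1 : ∫ x, ((f (S x) - f x) / h) ^ 2 ∂μ = (1 / h ^ 2) * ∫ x, (f (S x) - f x) ^ 2 ∂μ := by
    rw [← integral_const_mul]
    congr 1
    ext x
    rw [div_pow]
    ring
  rw [e1]
  have e2 := l2_sub_le hs hf
  have e3 : 0 ≤ 1 / h ^ 2 := by positivity
  have e4 : ∫ x, (f (S x) - f x) ^ 2 ∂μ ≤ 4 * ∫ x, f x ^ 2 ∂μ := by linarith
  calc (1 / h ^ 2) * ∫ x, (f (S x) - f x) ^ 2 ∂μ ≤ (1 / h ^ 2) * (4 * ∫ x, f x ^ 2 ∂μ) :=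
        mul_le_mul_of_nonneg_left e4 e3
    _ = 4 / h ^ 2 * ∫ x, f x ^ 2 ∂μ := by ring

private theorem sq_nonneg' (f : V (n + 1) → ℝ) : 0 ≤ sq f := integral_nonneg fun _ => sq_nonneg _

private theorem dq_sub' (i : Fin (n + 1)) (h : ℝ) (f g : V (n + 1) → ℝ) :
    (fun x => S4.dq i h f x - S4.dq i h g x) = S4.dq i h (fun x => f x - g x) := by
  ext x
  simp only [S4.dq]
  ring

theorem HH.sq_dq_le (H : HH v W t) (i : Fin (n + 1)) {h : ℝ} (hh : 0 < h) : sq (S4.dq i h v) ≤ sq (W i) := by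
  obtain ⟨u, hu, h1, h2, -⟩ := H.ex
  have hum : ∀ k, MemLp (u k) 2 (nu n) := fun k => (T1_memLp (hu k) 2).1
  have hup : ∀ k, MemLp (pd (Hs n) i (u k)) 2 (nu n) := fun k => (T1_memLp (hu k) 2).2 i
  have hA : Tendsto (fun k => sq (pd (Hs n) i (u k))) atTop (𝓝 (sq (W i))) :=
    l2_tend_sq hup (H.memW i) (h2 i)
  have hB : Tendsto (fun k => sq (S4.dq i h (u k))) atTop (𝓝 (sq (S4.dq i h v))) := by
    refine l2_tend_sq (fun k => memLp_dq i hh.le (hum k)) (memLp_dq i hh.le H.memv) ?_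
    have hb : ∀ k, ∫ x, (S4.dq i h (u k) x - S4.dq i h v x) ^ 2 ∂(nu n) ≤
        4 / h ^ 2 * sq (fun x => u k x - v x) := by
      intro k
      have hm : MemLp (fun x => u k x - v x) 2 (nu n) := (hum k).sub H.memv
      have := quot_le (fun x => x + h • ei i) h hm (memLp_shift i hh.le hm) (sq_shift_le i hh.le hm)
      refine le_trans (le_of_eq ?_) this
      congr 1
      ext x
      have := congrFun (dq_sub' i h (u k) v) x
      rw [this, S4.dq]
    have h0 : Tendsto (fun k => 4 / h ^ 2 * sq (fun x => u k x - v x)) atTop (𝓝 0) := by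
      simpa using h1.const_mul (4 / h ^ 2)
    exact squeeze_zero (fun k => integral_nonneg fun _ => sq_nonneg _) hb h0
  exact le_of_tendsto_of_tendsto' hB hA fun k => dq_le (hu k) i hh

open scoped Pointwise in
private theorem vadd_Hs (a : Fin n) (h : ℝ) : (h • ei a.succ : V (n + 1)) +ᵥ Hs n = Hs n := by
  have key : ∀ (c : ℝ) (x : V (n + 1)), (c • ei a.succ + x) 0 = x 0 := by
    intro c x
    simp [ei, (Fin.succ_ne_zero a).symm]
  ext x
  rw [Set.mem_vadd_set]
  constructor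
  · rintro ⟨y, hy, rfl⟩
    show 0 ≤ (h • ei a.succ + y) 0
    rw [key]
    exact hy
  · intro hx
    refine ⟨(-h) • ei a.succ + x, ?_, ?_⟩
    · show 0 ≤ ((-h) • ei a.succ + x) 0
      rw [key]
      exact hx
    · rw [vadd_eq_add, ← add_assoc, neg_smul, add_neg_cancel, zero_add]

private theorem shift_mem (a : Fin n) (h : ℝ) {x : V (n + 1)} (hx : x ∈ Hs n) : x + h • ei a.succ ∈ Hs n := by
  have : (x + h • ei a.succ) 0 = x 0 := by
    simp [ei, (Fin.succ_ne_zero a).symm]
  show 0 ≤ (x + h • ei a.succ) 0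
  rw [this]
  exact hx

open scoped Pointwise in
private theorem pd_shift (a : Fin n) (h : ℝ) (f : V (n + 1) → ℝ) (i : Fin (n + 1)) (x : V (n + 1)) :
    pd (Hs n) i (fun y => f (y + h • ei a.succ)) x = pd (Hs n) i f (x + h • ei a.succ) := by
  unfold pd
  rw [fderivWithin_comp_add_right, vadd_Hs]

private theorem diff_shift (a : Fin n) (h : ℝ) {f : V (n + 1) → ℝ} (hf : ContDiffOn ℝ 1 f (Hs n)) :
    ContDiffOn ℝ 1 (fun y => f (y + h • ei a.succ)) (Hs n) := by
  have h1 : ContDiffOn ℝ 1 (fun y : V (n + 1) => y + h • ei a.succ) (Hs n) :=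
    (contDiff_id.add contDiff_const).contDiffOn
  exact hf.comp h1 fun x hx => shift_mem a h hx

private theorem dq_eq (i : Fin (n + 1)) (h : ℝ) (f : V (n + 1) → ℝ) :
    S4.dq i h f = fun x => h⁻¹ * (f (x + h • ei i) - f x) := by
  ext x
  simp only [S4.dq]
  ring

private theorem T1_dq (a : Fin n) (h : ℝ) {φ : V (n + 1) → ℝ} (hφ : φ ∈ T1 n) : S4.dq a.succ h φ ∈ T1 n := by
  have hs : (fun y => φ (y + h • ei a.succ)) ∈ T1 n := by
    refine ⟨diff_shift a h hφ.1, ?_⟩
    exact hφ.2.comp_homeomorph (Homeomorph.addRight (h • ei a.succ))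
  rw [dq_eq]
  exact T1_smul _ (T1_sub hs hφ)

private theorem pd_dq (a : Fin n) (h : ℝ) {φ : V (n + 1) → ℝ} (hφ : φ ∈ T1 n) (i : Fin (n + 1)) {x : V (n + 1)}
    (hx : x ∈ Hs n) : pd (Hs n) i (S4.dq a.succ h φ) x = S4.dq a.succ h (pd (Hs n) i φ) x := by
  have d1 : DifferentiableWithinAt ℝ (fun y => φ (y + h • ei a.succ)) (Hs n) x :=
    (diff_shift a h hφ.1).differentiableOn (by norm_num) x hx
  have d2 : DifferentiableWithinAt ℝ φ (Hs n) x := T1_diff hφ hx
  rw [dq_eq, pd_smul h⁻¹ (f := fun x => φ (x + h • ei a.succ) - φ x) (d1.sub d2) hx, pd_sub d1 d2 hx, pd_shift,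
    dq_eq]

private theorem ae_Hs : ∀ᵐ x ∂(nu n), x ∈ Hs n := by
  have : ∀ᵐ x ∂(nu n), x ∈ Ho n := ae_restrict_mem Ho_open.measurableSet
  filter_upwards [this] with x hx
  exact Ho_sub_Hs hx

private theorem bd_add (a : Fin n) (h : ℝ) (z : V n) : bd z + h • ei a.succ = bd (z + h • ei a) := by
  ext j
  refine Fin.cases ?_ (fun b => ?_) j
  · simp [bd, cons, ei, (Fin.succ_ne_zero a).symm]
  · by_cases hab : b = a
    · subst hab
      simp [bd, cons, ei]
    · simp [bd, cons, ei, hab]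

theorem HH.dq (H : HH v W t) (a : Fin n) {h : ℝ} (hh : h ≠ 0) :
    HH (S4.dq a.succ h v) (fun j => S4.dq a.succ h (W j)) (fun z => (t (z + h • ei a) - t z) / h) := by
  obtain ⟨u, hu, h1, h2, h3⟩ := H.ex
  have hum : ∀ k, MemLp (u k) 2 (nu n) := fun k => (T1_memLp (hu k) 2).1
  have hup : ∀ k i, MemLp (pd (Hs n) i (u k)) 2 (nu n) := fun k i => (T1_memLp (hu k) 2).2 i
  have hmp : MeasurePreserving (fun z : V n => z + h • ei a) (volume : Measure (V n)) volume :=
    measurePreserving_add_right _ _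
  have hemb : MeasurableEmbedding (fun z : V n => z + h • ei a) :=
    (Homeomorph.addRight (h • (ei a : V n))).measurableEmbedding
  have hgen : ∀ f : V (n + 1) → ℝ, MemLp f 2 (nu n) → sq (S4.dq a.succ h f) ≤ 4 / h ^ 2 * sq f := by
    intro f hf
    have := quot_le (fun x => x + h • ei a.succ) h hf (memLp_shift_tan a h hf) (le_of_eq (sq_shift_tan a h f))
    exact this
  refine ⟨memLp_dq_tan a h H.memv, fun i => memLp_dq_tan a h (H.memW i), ?_, fun k => S4.dq a.succ h (u k),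
    fun k => T1_dq a h (hu k), ?_, ?_, ?_⟩
  · have m1 := ((H.memt.comp_measurePreserving hmp).sub H.memt).const_mul h⁻¹
    refine m1.ae_eq (Eventually.of_forall fun x => ?_)
    simp only [Pi.sub_apply, Function.comp_apply]
    ring
  · have hb : ∀ k, sq (fun x => S4.dq a.succ h (u k) x - S4.dq a.succ h v x) ≤
        4 / h ^ 2 * sq (fun x => u k x - v x) := by
      intro k
      rw [dq_sub']
      exact hgen _ ((hum k).sub H.memv)
    have h0 : Tendsto (fun k => 4 / h ^ 2 * sq (fun x => u k x - v x)) atTop (𝓝 0) := by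
      simpa using h1.const_mul (4 / h ^ 2)
    exact squeeze_zero (fun k => sq_nonneg' _) hb h0
  · intro i
    have hb : ∀ k, sq (fun x => pd (Hs n) i (S4.dq a.succ h (u k)) x - S4.dq a.succ h (W i) x) ≤
        4 / h ^ 2 * sq (fun x => pd (Hs n) i (u k) x - W i x) := by
      intro k
      have e : sq (fun x => pd (Hs n) i (S4.dq a.succ h (u k)) x - S4.dq a.succ h (W i) x) =
          sq (fun x => S4.dq a.succ h (pd (Hs n) i (u k)) x - S4.dq a.succ h (W i) x) := by
        unfold sq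
        refine integral_congr_ae ?_
        filter_upwards [ae_Hs] with x hx
        rw [pd_dq a h (hu k) i hx]
      rw [e, dq_sub']
      exact hgen _ ((hup k i).sub (H.memW i))
    have h0 : Tendsto (fun k => 4 / h ^ 2 * sq (fun x => pd (Hs n) i (u k) x - W i x)) atTop (𝓝 0) := by
      simpa using (h2 i).const_mul (4 / h ^ 2)
    exact squeeze_zero (fun k => sq_nonneg' _) hb h0
  · have hb : ∀ k, ∫ z : V n, (S4.dq a.succ h (u k) (bd z) - (t (z + h • ei a) - t z) / h) ^ 2 ≤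
        4 / h ^ 2 * ∫ z : V n, (u k (bd z) - t z) ^ 2 := by
      intro k
      have hm : MemLp (fun z : V n => u k (bd z) - t z) 2 volume := (T1_bdry (hu k) 2).sub H.memt
      have hm2 : MemLp (fun z : V n => (fun z : V n => u k (bd z) - t z) (z + h • ei a)) 2 volume :=
        hm.comp_measurePreserving hmp
      have := quot_le (fun z : V n => z + h • ei a) h hm hm2
        (le_of_eq (hmp.integral_comp hemb (fun z : V n => (u k (bd z) - t z) ^ 2)))
      refine le_trans (le_of_eq ?_) this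
      congr 1
      ext z
      simp only [S4.dq]
      rw [bd_add]
      ring
    have h0 : Tendsto (fun k => 4 / h ^ 2 * ∫ z : V n, (u k (bd z) - t z) ^ 2) atTop (𝓝 0) := by
      simpa using h3.const_mul (4 / h ^ 2)
    exact squeeze_zero (fun k => integral_nonneg fun _ => sq_nonneg _) hb h0

end

end Pool.Agent.CY.S4
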