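import Pool.Agent.CY.S4.L5a

/-!
# CY-S4-L5c: convergence of the difference quotients of `HH` functions

`sq (dq h v - W_a) ≤ 3 (sq (dq h (v - u_k)) + sq (dq h u_k - ∂_a u_k) + sq (∂_a u_k - W_a))`; the first term is
`≤ sq (W_a - ∂_a u_k)` (`HH.sq_dq_le` for `v - u_k`, which is `HH` with gradient `W - ∂u_k`); for fixed `k` the middle
term tends to `0` as `h → 0+` (`dq_tend_T1`).
-/

set_option autoImplicit false

open scoped Manifold ContDiff ENNReal
open MeasureTheory Set Filter Topology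

namespace Pool.Agent.CY.S4

noncomputable section

variable {n : ℕ}


variable {v : V (n + 1) → ℝ} {W : Fin (n + 1) → V (n + 1) → ℝ} {t : V n → ℝ}


private theorem ae_Hs : ∀ᵐ x ∂(nu n), x ∈ Hs n := by
  have : ∀ᵐ x ∂(nu n), x ∈ Ho n := ae_restrict_mem Ho_open.measurableSet
  filter_upwards [this] with x hx
  exact Ho_sub_Hs hx

private theorem sq_nonneg' (f : V (n + 1) → ℝ) : 0 ≤ sq f := integral_nonneg fun _ => sq_nonneg _

theorem HH.sub_T1 (H : HH v W t) {u : V (n + 1) → ℝ} (hu : u ∈ T1 n) :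
    HH (fun x => v x - u x) (fun i x => W i x - pd (Hs n) i u x) (fun z => t z - u (bd z)) := by
  obtain ⟨w, hw, h1, h2, h3⟩ := H.ex
  refine ⟨H.memv.sub (T1_memLp hu 2).1, fun i => (H.memW i).sub ((T1_memLp hu 2).2 i),
    H.memt.sub (T1_bdry hu 2), fun k x => w k x - u x, fun k => T1_sub (hw k) hu, ?_, ?_, ?_⟩
  · refine h1.congr fun k => ?_
    congr 1
    ext x
    ring
  · intro i
    refine (h2 i).congr fun k => ?_
    unfold sq
    refine integral_congr_ae ?_
    filter_upwards [ae_Hs] with x hx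
    rw [pd_sub (T1_diff (hw k) hx) (T1_diff hu hx) hx i]
    ring
  · refine h3.congr fun k => ?_
    congr 1
    ext z
    ring

theorem HH.tend_dq (H : HH v W t) (a : Fin n) :
    Tendsto (fun h : ℝ => sq (fun x => S4.dq a.succ h v x - W a.succ x)) (𝓝[>] 0) (𝓝 0) := by
  obtain ⟨u, hu, h1, h2, h3⟩ := H.ex
  rw [Metric.tendsto_nhds]
  intro ε hε
  obtain ⟨k, hk⟩ := ((h2 a.succ).eventually (gt_mem_nhds (show (0 : ℝ) < ε / 16 by positivity))).exists
  have hk' : sq (fun x => W a.succ x - pd (Hs n) a.succ (u k) x) < ε / 16 := by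
    have e : sq (fun x => W a.succ x - pd (Hs n) a.succ (u k) x) =
        sq (fun x => pd (Hs n) a.succ (u k) x - W a.succ x) := by
      unfold sq
      congr 1
      ext x
      ring
    rw [e]
    exact hk
  have hT := dq_tend_T1 (hu k) a.succ
  have hT' := hT.eventually (gt_mem_nhds (show (0 : ℝ) < ε / 16 by positivity))
  filter_upwards [hT', self_mem_nhdsWithin] with h hh hpos
  have hpos' : 0 < h := hpos
  rw [Real.dist_eq, sub_zero, abs_of_nonneg (sq_nonneg' _)]
  have hs := (H.sub_T1 (hu k)).sq_dq_le a.succ hpos'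
  -- splitting
  have m1 : MemLp (S4.dq a.succ h (fun x => v x - u k x)) 2 (nu n) :=
    memLp_dq_tan a h (H.memv.sub (T1_memLp (hu k) 2).1)
  have m2 : MemLp (fun x => S4.dq a.succ h (u k) x - pd (Hs n) a.succ (u k) x) 2 (nu n) :=
    (memLp_dq_tan a h (T1_memLp (hu k) 2).1).sub ((T1_memLp (hu k) 2).2 a.succ)
  have m3 : MemLp (fun x => pd (Hs n) a.succ (u k) x - W a.succ x) 2 (nu n) :=
    ((T1_memLp (hu k) 2).2 a.succ).sub (H.memW a.succ)
  have m23 : MemLp (fun x => (S4.dq a.succ h (u k) x - pd (Hs n) a.succ (u k) x) +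
      (pd (Hs n) a.succ (u k) x - W a.succ x)) 2 (nu n) := m2.add m3
  have e : sq (fun x => S4.dq a.succ h v x - W a.succ x) =
      ∫ x, (S4.dq a.succ h (fun x => v x - u k x) x + ((S4.dq a.succ h (u k) x - pd (Hs n) a.succ (u k) x) +
      (pd (Hs n) a.succ (u k) x - W a.succ x))) ^ 2 ∂(nu n) := by
    unfold sq
    congr 1
    ext x
    simp only [S4.dq]
    ring
  have b1 := l2_add_le m1 m23
  have b2 := l2_add_le m2 m3
  rw [e]
  unfold sq at hs hk hh hk'
  linarith

end

end Pool.Agent.CY.S4
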