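import Pool.Agent.CY.S4.L0r
import Pool.Agent.CY.S4.L3c
import Pool.Agent.CY.S4.L4

/-!
# CY-S4-L6a: bounded difference quotients give weak derivatives

For `φ ∈ T0` put `ℓ(φ) = ∫ G ∂_i φ`.  For `0 < h < dist (supp φ, complement of Ho)`,
`∫ (dq i h G) φ dν = -∫ G (x) dq i (-h) φ (x) dν` (change of variables in the whole space, both sides
extended by zero: `φ (x - h e_i) = 0` unless `x ∈ Ho n + h e_i`), and `dq i (-h) φ → ∂_i φ` in `L²` (`dq_tend_T0`), so
`∫ (dq i h G) φ → -ℓ(φ)`, hence `|ℓ(φ)| ≤ √C √(sq φ)`; then `l2_riesz` with `T = T0 n`, `W = -Q`.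
-/

set_option autoImplicit false

open scoped Manifold ContDiff ENNReal
open MeasureTheory Set Filter Topology

namespace Pool.Agent.CY.S4

noncomputable section

variable {n : ℕ}


theorem l6a_ae : ∀ᵐ x ∂(nu n), x ∈ Ho n := ae_restrict_mem Ho_open.measurableSet

theorem l6a_shift_Ho {x : V (n + 1)} (hx : x ∈ Ho n) (i : Fin (n + 1)) {s : ℝ} (hs : 0 ≤ s) :
    x + s • ei i ∈ Ho n := by
  have h1 : 0 < x 0 := hx
  change 0 < (x + s • ei i) 0
  have h2 : (x + s • ei i) 0 = x 0 + s * (ei i : V (n + 1)) 0 := rfl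
  rw [h2]
  have h3 : 0 ≤ (ei i : V (n + 1)) 0 := by
    rw [ei]
    simp only [EuclideanSpace.single, PiLp.single_apply]
    split_ifs <;> norm_num
  positivity

theorem l6a_zero_off {φ : V (n + 1) → ℝ} (hφ : φ ∈ T0 n) {x : V (n + 1)} (hx : x ∉ Ho n) : φ x = 0 := by
  by_contra h
  exact hx (hφ.2.2 (subset_tsupport φ h))

/-- translation of the product -/
theorem l6a_transl (G : V (n + 1) → ℝ) {φ : V (n + 1) → ℝ} (hφ : φ ∈ T0 n) (i : Fin (n + 1))
    {h : ℝ} (hh : 0 ≤ h) :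
    ∫ x, G (x + h • ei i) * φ x ∂(nu n) = ∫ x, G x * φ (x + (-h) • ei i) ∂(nu n) := by
  have hm : MeasurableSet (Ho n) := Ho_open.measurableSet
  have h1 : ∫ x, G (x + h • ei i) * φ x ∂(nu n) =
      ∫ x, (Ho n).indicator G (x + h • ei i) * φ x := by
    rw [← integral_indicator hm]
    congr 1
    ext x
    by_cases hx : x ∈ Ho n
    · rw [indicator_of_mem hx, indicator_of_mem (l6a_shift_Ho hx i hh)]
    · rw [indicator_of_notMem hx, l6a_zero_off hφ hx, mul_zero]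
  have h2 : ∫ x, G x * φ (x + (-h) • ei i) ∂(nu n) =
      ∫ x, (Ho n).indicator G x * φ (x + (-h) • ei i) := by
    rw [← integral_indicator hm]
    congr 1
    ext x
    by_cases hx : x ∈ Ho n
    · rw [indicator_of_mem hx, indicator_of_mem hx]
    · rw [indicator_of_notMem hx, indicator_of_notMem hx, zero_mul]
  rw [h1, h2]
  have h3 := integral_add_right_eq_self (μ := (volume : Measure (V (n + 1))))
    (fun x => (Ho n).indicator G x * φ (x + (-h) • ei i)) (h • ei i)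
  rw [← h3]
  congr 1
  ext x
  have : x + h • ei i + (-h) • ei i = x := by
    rw [neg_smul, add_neg_cancel_right]
  rw [this]

theorem l6a_memLp_neg {φ : V (n + 1) → ℝ} (hφ : φ ∈ T0 n) (i : Fin (n + 1)) (h : ℝ) :
    MemLp (fun x => φ (x + h • ei i)) 2 (nu n) := by
  refine memLp_of_cont (hφ.1.continuous.comp (by fun_prop)).continuousOn ?_
  exact hφ.2.1.comp_homeomorph (Homeomorph.addRight (h • ei i))

theorem l6a_dq_mem {φ : V (n + 1) → ℝ} (hφ : φ ∈ T0 n) (i : Fin (n + 1)) (h : ℝ) :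
    MemLp (dq i h φ) 2 (nu n) := by
  have h1 := l6a_memLp_neg hφ i h
  have h2 := (T1_memLp (T0_sub hφ) 2).1
  have h3 := (h1.sub h2).const_mul h⁻¹
  have h4 : dq i h φ = fun x => h⁻¹ * ((fun x => φ (x + h • ei i)) - φ) x := by
    ext x
    simp only [dq, Pi.sub_apply]
    ring
  rw [h4]
  exact h3

theorem dq_wd {G : V (n + 1) → ℝ} (hG : MemLp G 2 (nu n)) (i : Fin (n + 1)) {C : ℝ}
    (hC : ∀ h : ℝ, 0 < h → sq (dq i h G) ≤ C) :
    ∃ W : V (n + 1) → ℝ, MemLp W 2 (nu n) ∧ sq W ≤ C ∧ WD i G W := by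
  have hC0 : 0 ≤ C := le_trans (integral_nonneg fun x => sq_nonneg _) (hC 1 one_pos)
  have hmem : ∀ φ ∈ T0 n, MemLp φ 2 (nu n) := fun φ hφ => (T1_memLp (T0_sub hφ) 2).1
  have hpd : ∀ φ ∈ T0 n, MemLp (pd (Hs n) i φ) 2 (nu n) := fun φ hφ => (T1_memLp (T0_sub hφ) 2).2 i
  -- the bound
  have hbound : ∀ φ ∈ T0 n, |∫ x, G x * pd (Hs n) i φ x ∂(nu n)| ≤
      Real.sqrt C * Real.sqrt (∫ x, φ x ^ 2 ∂(nu n)) := by
    intro φ hφ
    have hident : ∀ h : ℝ, 0 < h → ∫ x, dq i h G x * φ x ∂(nu n) =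
        -∫ x, G x * dq i (-h) φ x ∂(nu n) := by
      intro h hh
      have e1 : ∫ x, dq i h G x * φ x ∂(nu n) =
          h⁻¹ * (∫ x, G (x + h • ei i) * φ x ∂(nu n) - ∫ x, G x * φ x ∂(nu n)) := by
        rw [← integral_sub (l2_int_mul (memLp_shift i hh.le hG) (hmem φ hφ))
          (l2_int_mul hG (hmem φ hφ)), ← integral_const_mul]
        congr 1
        ext x
        simp only [dq]
        ring
      have e2 : ∫ x, G x * dq i (-h) φ x ∂(nu n) =
          (-h)⁻¹ * (∫ x, G x * φ (x + (-h) • ei i) ∂(nu n) - ∫ x, G x * φ x ∂(nu n)) := by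
        rw [← integral_sub (l2_int_mul hG (l6a_memLp_neg hφ i (-h)))
          (l2_int_mul hG (hmem φ hφ)), ← integral_const_mul]
        congr 1
        ext x
        simp only [dq]
        ring
      rw [e1, e2, l6a_transl G hφ i hh.le]
      rw [inv_neg]
      ring
    -- limit
    have hlim : Tendsto (fun h : ℝ => ∫ x, G x * dq i (-h) φ x ∂(nu n)) (𝓝[>] 0)
        (𝓝 (∫ x, G x * pd (Hs n) i φ x ∂(nu n))) := by
      rw [tendsto_iff_norm_sub_tendsto_zero]
      have h0 : Tendsto (fun h : ℝ => Real.sqrt (∫ x, G x ^ 2 ∂(nu n)) *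
          Real.sqrt (sq (fun x => dq i (-h) φ x - pd (Hs n) i φ x))) (𝓝[>] 0) (𝓝 0) := by
        have h1 := (dq_tend_T0 hφ i).sqrt.const_mul (Real.sqrt (∫ x, G x ^ 2 ∂(nu n)))
        rw [Real.sqrt_zero, mul_zero] at h1
        exact h1
      refine squeeze_zero (fun h => norm_nonneg _) (fun h => ?_) h0
      rw [← integral_sub (l2_int_mul hG (l6a_dq_mem hφ i (-h))) (l2_int_mul hG (hpd φ hφ)),
        Real.norm_eq_abs]
      have h2 : ∫ x, (G x * dq i (-h) φ x - G x * pd (Hs n) i φ x) ∂(nu n) =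
          ∫ x, G x * (dq i (-h) φ x - pd (Hs n) i φ x) ∂(nu n) := by
        congr 1
        ext x
        ring
      rw [h2]
      exact l2_cs hG ((l6a_dq_mem hφ i (-h)).sub (hpd φ hφ))
    have habs := hlim.abs
    refine le_of_tendsto habs ?_
    filter_upwards [self_mem_nhdsWithin] with h hh
    have hh' : 0 < h := hh
    have h3 := hident h hh'
    have h4 : |∫ x, G x * dq i (-h) φ x ∂(nu n)| = |∫ x, dq i h G x * φ x ∂(nu n)| := by
      rw [h3, abs_neg]
    rw [h4]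
    refine (l2_cs (memLp_dq i hh'.le hG) (hmem φ hφ)).trans ?_
    exact mul_le_mul_of_nonneg_right (Real.sqrt_le_sqrt (hC h hh')) (Real.sqrt_nonneg _)
  -- Riesz
  obtain ⟨Q, hQ1, hQ2, hQ3⟩ := l2_riesz (μ := nu n) (T0 n) hmem T0_zero (fun φ hφ ψ hψ => T0_add hφ hψ)
    (fun c φ hφ => T0_smul c hφ) (fun φ => ∫ x, G x * pd (Hs n) i φ x ∂(nu n))
    (fun φ hφ ψ hψ => by
      rw [← integral_add (l2_int_mul hG (hpd φ hφ)) (l2_int_mul hG (hpd ψ hψ))]
      refine integral_congr_ae ?_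
      filter_upwards [l6a_ae (n := n)] with x hx
      have hx' := Ho_sub_Hs hx
      rw [pd_add (T1_diff (T0_sub hφ) hx') (T1_diff (T0_sub hψ) hx') hx' i]
      ring)
    (fun c φ hφ => by
      rw [← integral_const_mul]
      refine integral_congr_ae ?_
      filter_upwards [l6a_ae (n := n)] with x hx
      have hx' := Ho_sub_Hs hx
      rw [pd_smul c (T1_diff (T0_sub hφ) hx') hx' i]
      ring)
    (Real.sqrt C) (Real.sqrt_nonneg C) hbound
  refine ⟨fun x => -Q x, hQ1.neg, ?_, fun φ hφ => ?_⟩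
  · have h1 : sq (fun x => -Q x) = ∫ x, Q x ^ 2 ∂(nu n) := by
      unfold sq
      congr 1
      ext x
      ring
    rw [h1]
    rwa [Real.sq_sqrt hC0] at hQ2
  · have h1 := hQ3 φ hφ
    rw [h1, ← integral_neg]
    congr 1
    ext x
    ring

theorem BDQ.wd {G : V (n + 1) → ℝ} (hG : BDQ G) (i : Fin (n + 1)) :
    ∃ W : V (n + 1) → ℝ, MemLp W 2 (nu n) ∧ WD i G W := by
  obtain ⟨C, hC⟩ := hG.bd
  obtain ⟨W, h1, -, h3⟩ := dq_wd hG.mem i (fun h hh => hC i h hh)
  exact ⟨W, h1, h3⟩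

end

end Pool.Agent.CY.S4
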