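import Pool.Agent.CY.S4.L5a
import Pool.Agent.CY.S4.L5b

/-!
# CY-S4-L7: the energy estimate for tangential difference quotients

Test the equation with `D_{-h} D_h v` (`HH.dq` twice, `weak_ext`).  With `z_j = D_h W_j` (`h > 0`, direction `a`):
`∫ A_ij W_j D_{-h} D_h W_i = -∫ D_h (A_ij W_j) D_h W_i = -∫ A_ij(x + h e) z_j z_i - ∫ (D_h A_ij) W_j z_i`
(`dq_adj`, `dq_mul`), `∫ F D_{-h} D_h v`, `∫ G_i D_{-h} D_h W_i = -∫ D_h G_i z_i`.  Hence with
`N = (∑_i ∫ z_i²)^{1/2}`:
`l N² ≤ (n+1) L (∑_j sq W_j)^{1/2}(n+1) N + √(sq F) √(sq (D_{-h} D_h v)) + (n+1) √CG N`, and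
`sq (D_{-h} (D_h v)) = sq (D_h (D_h v)) ≤ sq (D_h W_a) ≤ N²` (`sq_dq_neg`, `HH.sq_dq_le` for `HH.dq`).  `|D_h A_ij| ≤ L`
on `Hs n` by the mean value inequality.  So `N ≤ const` and `sq (z_j) ≤ N²`.
-/

set_option autoImplicit false

open scoped Manifold ContDiff ENNReal
open MeasureTheory Set Filter Topology

namespace Pool.Agent.CY.S4

noncomputable section

variable {n : ℕ}



private theorem ei_mem (a : Fin n) (t : ℝ) {x : V (n + 1)} (hx : x ∈ Hs n) : x + t • ei a.succ ∈ Hs n := by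
  have h0 : (x + t • ei a.succ) 0 = x 0 := by
    simp [ei, (Fin.succ_ne_zero a).symm]
  show 0 ≤ (x + t • ei a.succ) 0
  rw [h0]
  exact hx

private theorem dq_bd (a : Fin n) {h : ℝ} (hh : 0 < h) {f : V (n + 1) → ℝ} {L : ℝ}
    (hf : ContDiffOn ℝ 1 f (Hs n)) (hL : ∀ x ∈ Hs n, |pd (Hs n) a.succ f x| ≤ L) {x : V (n + 1)} (hx : x ∈ Hs n) :
    |dq a.succ h f x| ≤ L := by
  have hd : ∀ t : ℝ, HasDerivWithinAt (fun s : ℝ => f (x + s • ei a.succ))
      (pd (Hs n) a.succ f (x + t • ei a.succ)) univ t := by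
    intro t
    have hdf : DifferentiableWithinAt ℝ f (Hs n) (x + t • ei a.succ) :=
      (hf.differentiableOn (by norm_num)) _ (ei_mem a t hx)
    have h1 := hdf.hasFDerivWithinAt
    have h2 : HasDerivWithinAt (fun s : ℝ => x + s • ei a.succ) (ei a.succ : V (n + 1)) univ t := by
      have := ((hasDerivAt_id t).smul_const (ei a.succ : V (n + 1))).const_add x
      simpa using this
    have h3 := h1.comp_hasDerivWithinAt t h2 (fun s _ => ei_mem a s hx)
    simpa [pd, ei, Function.comp_def] using h3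
  have hm := (convex_univ : Convex ℝ (univ : Set ℝ)).norm_image_sub_le_of_norm_hasDerivWithin_le
    (f := fun s : ℝ => f (x + s • ei a.succ)) (C := L) (x := 0) (y := h)
    (fun t _ => hd t) (fun t _ => by
      rw [Real.norm_eq_abs]; exact hL _ (ei_mem a t hx)) (mem_univ _) (mem_univ _)
  simp only [zero_smul, add_zero, sub_zero, Real.norm_eq_abs] at hm
  rw [abs_of_pos hh] at hm
  rw [dq, abs_div, abs_of_pos hh, div_le_iff₀ hh]
  exact hm

private theorem ae_Hs : ∀ᵐ x ∂(nu n), x ∈ Hs n := by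
  have : ∀ᵐ x ∂(nu n), x ∈ Ho n := ae_restrict_mem Ho_open.measurableSet
  filter_upwards [this] with x hx
  exact Ho_sub_Hs hx

private theorem meas_of_cont {b : V (n + 1) → ℝ} (hb : ContinuousOn b (Hs n)) :
    AEStronglyMeasurable b (nu n) :=
  (hb.mono Ho_sub_Hs).aestronglyMeasurable Ho_open.measurableSet

private theorem memLp_bmul {b f : V (n + 1) → ℝ} {L : ℝ} (hb : ContinuousOn b (Hs n))
    (hL : ∀ x ∈ Hs n, |b x| ≤ L) (hf : MemLp f 2 (nu n)) : MemLp (fun x => b x * f x) 2 (nu n) := by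
  refine MemLp.of_le_mul (c := L) hf ((meas_of_cont hb).mul hf.1) ?_
  filter_upwards [ae_Hs] with x hx
  rw [norm_mul, Real.norm_eq_abs]
  exact mul_le_mul_of_nonneg_right (hL x hx) (norm_nonneg _)

private theorem sq_nonneg' (f : V (n + 1) → ℝ) : 0 ≤ sq f := integral_nonneg fun _ => sq_nonneg _

private theorem dq_sum (a : Fin n) (h : ℝ) (f : Fin (n + 1) → V (n + 1) → ℝ) (x : V (n + 1)) :
    dq a.succ h (fun y => ∑ j, f j y) x = ∑ j, dq a.succ h (f j) x := by
  simp only [dq]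
  rw [← Finset.sum_sub_distrib, Finset.sum_div]

theorem energy {A : MF (n + 1)} {l L : ℝ} (hA : Ell A l L)
    {v : V (n + 1) → ℝ} {W : Fin (n + 1) → V (n + 1) → ℝ} {t : V n → ℝ} (H : HH v W t)
    {F : V (n + 1) → ℝ} (hF : MemLp F 2 (nu n)) {G : Fin (n + 1) → V (n + 1) → ℝ}
    (hG : ∀ i, MemLp (G i) 2 (nu n)) {CG : ℝ}
    (hGd : ∀ (i : Fin (n + 1)) (a : Fin n) (h : ℝ), 0 < h → sq (dq a.succ h (G i)) ≤ CG)
    (hE : ∀ φ ∈ T1 n, ∫ x, ∑ i, ∑ j, A x i j * W j x * pd (Hs n) i φ x ∂(nu n) =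
      ∫ x, F x * φ x ∂(nu n) + ∑ i, ∫ x, G i x * pd (Hs n) i φ x ∂(nu n)) :
    ∃ C : ℝ, ∀ (a : Fin n) (j : Fin (n + 1)) (h : ℝ), 0 < h → sq (dq a.succ h (W j)) ≤ C := by
  classical
  set K : ℝ := Real.sqrt (sq F) + ∑ _i : Fin (n + 1), Real.sqrt CG +
    ∑ _i : Fin (n + 1), ∑ j, L * Real.sqrt (sq (W j)) with hK
  have hl := hA.pos
  refine ⟨(K / l) ^ 2, ?_⟩
  intro a j h hh
  have hL0 : 0 ≤ L := le_trans (abs_nonneg _) (hA.bd 0 (by show (0:ℝ) ≤ (0 : V (n+1)) 0; simp) 0 0)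
  have Hz : ∀ i, MemLp (dq a.succ h (W i)) 2 (nu n) := fun i => memLp_dq_tan a h (H.memW i)
  have H1 := H.dq a hh.ne'
  have H2 := H1.dq a (neg_ne_zero.mpr hh.ne')
  have hcA : ∀ i j, ContinuousOn (fun x => A x i j) (Hs n) := fun i j => (hA.smooth i j).continuousOn
  have hshift : ContinuousOn (fun x : V (n + 1) => x + h • ei a.succ) (Hs n) := by fun_prop
  have hcAs : ∀ i j, ContinuousOn (fun x => A (x + h • ei a.succ) i j) (Hs n) := fun i j =>
    (hcA i j).comp hshift (fun x hx => ei_mem a h hx)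
  have hcD : ∀ i j, ContinuousOn (dq a.succ h (fun y => A y i j)) (Hs n) := fun i j =>
    ((hcAs i j).sub (hcA i j)).div_const h
  have hDb : ∀ i j, ∀ x ∈ Hs n, |dq a.succ h (fun y => A y i j) x| ≤ L := fun i j x hx =>
    dq_bd a hh (hA.smooth i j) (fun y hy => hA.dbd y hy i j _) hx
  -- the functions P i
  have hP : ∀ i, MemLp (fun x => ∑ j, A x i j * W j x) 2 (nu n) := fun i =>
    memLp_finsetSum _ fun j _ => memLp_bmul (hcA i j) (fun x hx => hA.bd x hx i j) (H.memW j)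
  have hw := weak_ext hA H.memW hF hG hE H2
  -- left side
  have hlhs : ∫ x, ∑ i, ∑ j, A x i j * W j x * dq a.succ (-h) (dq a.succ h (W i)) x ∂(nu n) =
      ∑ i, ∫ x, (∑ j, A x i j * W j x) * dq a.succ (-h) (dq a.succ h (W i)) x ∂(nu n) := by
    rw [← integral_finsetSum]
    · congr 1
      ext x
      refine Finset.sum_congr rfl fun i _ => ?_
      rw [Finset.sum_mul]
    · intro i _
      exact l2_int_mul (hP i) (memLp_dq_tan a (-h) (Hz i))
  have hadj : ∀ i, ∫ x, dq a.succ h (fun x => ∑ j, A x i j * W j x) x * dq a.succ h (W i) x ∂(nu n) =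
      -∫ x, (∑ j, A x i j * W j x) * dq a.succ (-h) (dq a.succ h (W i)) x ∂(nu n) := fun i =>
    dq_adj a h (hP i) (Hz i)
  have hadjG : ∀ i, ∫ x, dq a.succ h (G i) x * dq a.succ h (W i) x ∂(nu n) =
      -∫ x, G i x * dq a.succ (-h) (dq a.succ h (W i)) x ∂(nu n) := fun i =>
    dq_adj a h (hG i) (Hz i)
  -- expansion
  have hm1 : ∀ i j, MemLp (fun x => A (x + h • ei a.succ) i j * dq a.succ h (W j) x) 2 (nu n) := fun i j =>
    memLp_bmul (hcAs i j) (fun x hx => hA.bd _ (ei_mem a h hx) i j) (Hz j)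
  have hm2 : ∀ i j, MemLp (fun x => dq a.succ h (fun y => A y i j) x * W j x) 2 (nu n) := fun i j =>
    memLp_bmul (hcD i j) (hDb i j) (H.memW j)
  have hI1 : ∀ i j, Integrable (fun x => (A (x + h • ei a.succ) i j * dq a.succ h (W j) x) *
      dq a.succ h (W i) x) (nu n) := fun i j => l2_int_mul (hm1 i j) (Hz i)
  have hI2 : ∀ i j, Integrable (fun x => (dq a.succ h (fun y => A y i j) x * W j x) *
      dq a.succ h (W i) x) (nu n) := fun i j => l2_int_mul (hm2 i j) (Hz i)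
  have hexp : ∀ i, ∫ x, dq a.succ h (fun x => ∑ j, A x i j * W j x) x * dq a.succ h (W i) x ∂(nu n) =
      ∑ j, ∫ x, (A (x + h • ei a.succ) i j * dq a.succ h (W j) x) * dq a.succ h (W i) x ∂(nu n) +
      ∑ j, ∫ x, (dq a.succ h (fun y => A y i j) x * W j x) * dq a.succ h (W i) x ∂(nu n) := by
    intro i
    rw [← integral_finsetSum _ (fun j _ => hI1 i j), ← integral_finsetSum _ (fun j _ => hI2 i j),
      ← integral_add (integrable_finsetSum _ fun j _ => hI1 i j) (integrable_finsetSum _ fun j _ => hI2 i j)]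
    congr 1
    ext x
    rw [dq_sum a h (fun j y => A y i j * W j y) x, Finset.sum_mul, ← Finset.sum_add_distrib]
    refine Finset.sum_congr rfl fun j _ => ?_
    rw [dq_mul]
    ring
  -- ellipticity
  have hell : l * ∑ i, sq (dq a.succ h (W i)) ≤
      ∑ i, ∑ j, ∫ x, (A (x + h • ei a.succ) i j * dq a.succ h (W j) x) * dq a.succ h (W i) x ∂(nu n) := by
    have e1 : ∑ i, ∑ j, ∫ x, (A (x + h • ei a.succ) i j * dq a.succ h (W j) x) * dq a.succ h (W i) x ∂(nu n) =
        ∫ x, ∑ i, ∑ j, (A (x + h • ei a.succ) i j * dq a.succ h (W j) x) * dq a.succ h (W i) x ∂(nu n) := by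
      rw [integral_finsetSum _ (fun i _ => integrable_finsetSum _ fun j _ => hI1 i j)]
      refine Finset.sum_congr rfl fun i _ => ?_
      rw [integral_finsetSum _ (fun j _ => hI1 i j)]
    have e2 : l * ∑ i, sq (dq a.succ h (W i)) = ∫ x, l * ∑ i, dq a.succ h (W i) x ^ 2 ∂(nu n) := by
      rw [integral_const_mul, integral_finsetSum _ (fun i _ => l2_int_sq (Hz i))]
      rfl
    rw [e1, e2]
    refine integral_mono_ae ((integrable_finsetSum _ fun i _ => l2_int_sq (Hz i)).const_mul l)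
      (integrable_finsetSum _ fun i _ => integrable_finsetSum _ fun j _ => hI1 i j) ?_
    filter_upwards [ae_Hs] with x hx
    have := hA.ell _ (ei_mem a h hx) (fun i => dq a.succ h (W i) x)
    refine this.trans (le_of_eq ?_)
    refine Finset.sum_congr rfl fun i _ => Finset.sum_congr rfl fun j _ => ?_
    ring
  -- the size N
  set N : ℝ := Real.sqrt (∑ i, sq (dq a.succ h (W i))) with hN
  have hS0 : 0 ≤ ∑ i, sq (dq a.succ h (W i)) := Finset.sum_nonneg fun i _ => sq_nonneg' _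
  have hN0 : 0 ≤ N := Real.sqrt_nonneg _
  have hNN : N * N = ∑ i, sq (dq a.succ h (W i)) := Real.mul_self_sqrt hS0
  have hzN : ∀ i, sq (dq a.succ h (W i)) ≤ N * N := fun i => by
    rw [hNN]
    exact Finset.single_le_sum (f := fun i => sq (dq a.succ h (W i))) (fun i _ => sq_nonneg' _) (Finset.mem_univ i)
  have hzN' : ∀ i, Real.sqrt (sq (dq a.succ h (W i))) ≤ N := fun i => by
    rw [Real.sqrt_le_left hN0]
    simpa [pow_two] using hzN i
  -- the terms
  have t1 : |∫ x, F x * dq a.succ (-h) (dq a.succ h v) x ∂(nu n)| ≤ Real.sqrt (sq F) * N := by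
    refine (l2_cs hF H2.memv).trans ?_
    refine mul_le_mul_of_nonneg_left ?_ (Real.sqrt_nonneg _)
    have h3 : sq (dq a.succ (-h) (dq a.succ h v)) ≤ N * N := by
      rw [sq_dq_neg]
      exact (H1.sq_dq_le a.succ hh).trans (hzN _)
    rw [Real.sqrt_le_left hN0]
    simpa [pow_two, sq] using h3
  have t2 : ∀ i, |∫ x, dq a.succ h (G i) x * dq a.succ h (W i) x ∂(nu n)| ≤ Real.sqrt CG * N := by
    intro i
    refine (l2_cs (memLp_dq_tan a h (hG i)) (Hz i)).trans ?_
    exact mul_le_mul (Real.sqrt_le_sqrt (hGd i a h hh)) (hzN' i) (Real.sqrt_nonneg _) (Real.sqrt_nonneg _)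
  have t3 : ∀ i j, |∫ x, (dq a.succ h (fun y => A y i j) x * W j x) * dq a.succ h (W i) x ∂(nu n)| ≤
      (L * Real.sqrt (sq (W j))) * N := by
    intro i j
    refine (l2_cs (hm2 i j) (Hz i)).trans ?_
    refine mul_le_mul ?_ (hzN' i) (Real.sqrt_nonneg _) (by positivity)
    have h4 : ∫ x, (dq a.succ h (fun y => A y i j) x * W j x) ^ 2 ∂(nu n) ≤ L ^ 2 * sq (W j) := by
      refine l2_mono (H.memW j) ?_
      filter_upwards [ae_Hs] with x hx
      rw [abs_mul]
      exact mul_le_mul_of_nonneg_right (hDb i j x hx) (abs_nonneg _)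
    refine (Real.sqrt_le_sqrt h4).trans (le_of_eq ?_)
    rw [Real.sqrt_mul (by positivity), Real.sqrt_sq hL0]
  -- conclusion
  have hsum : ∑ i, ∫ x, dq a.succ h (fun x => ∑ j, A x i j * W j x) x * dq a.succ h (W i) x ∂(nu n) =
      -(∫ x, F x * dq a.succ (-h) (dq a.succ h v) x ∂(nu n)) +
      ∑ i, ∫ x, dq a.succ h (G i) x * dq a.succ h (W i) x ∂(nu n) := by
    simp only [hadj, hadjG, Finset.sum_neg_distrib]
    rw [← hlhs, hw]
    ring
  have hsum2 : ∑ i, ∫ x, dq a.succ h (fun x => ∑ j, A x i j * W j x) x * dq a.succ h (W i) x ∂(nu n) =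
      ∑ i, ∑ j, ∫ x, (A (x + h • ei a.succ) i j * dq a.succ h (W j) x) * dq a.succ h (W i) x ∂(nu n) +
      ∑ i, ∑ j, ∫ x, (dq a.succ h (fun y => A y i j) x * W j x) * dq a.succ h (W i) x ∂(nu n) := by
    rw [← Finset.sum_add_distrib]
    exact Finset.sum_congr rfl fun i _ => hexp i
  have b2 : |∑ i, ∫ x, dq a.succ h (G i) x * dq a.succ h (W i) x ∂(nu n)| ≤
      (∑ _i : Fin (n + 1), Real.sqrt CG) * N := by
    rw [Finset.sum_mul]
    exact (Finset.abs_sum_le_sum_abs _ _).trans (Finset.sum_le_sum fun i _ => t2 i)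
  have b3 : |∑ i, ∑ j, ∫ x, (dq a.succ h (fun y => A y i j) x * W j x) * dq a.succ h (W i) x ∂(nu n)| ≤
      (∑ _i : Fin (n + 1), ∑ j, L * Real.sqrt (sq (W j))) * N := by
    rw [Finset.sum_mul]
    refine (Finset.abs_sum_le_sum_abs _ _).trans (Finset.sum_le_sum fun i _ => ?_)
    rw [Finset.sum_mul]
    exact (Finset.abs_sum_le_sum_abs _ _).trans (Finset.sum_le_sum fun j _ => t3 i j)
  have hfin : l * (N * N) ≤ K * N := by
    rw [hNN]
    have e3 : K * N = Real.sqrt (sq F) * N + (∑ _i : Fin (n + 1), Real.sqrt CG) * N +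
        (∑ _i : Fin (n + 1), ∑ j, L * Real.sqrt (sq (W j))) * N := by rw [hK]; ring
    have a1 := abs_le.mp t1
    have a2 := abs_le.mp b2
    have a3 := abs_le.mp b3
    rw [e3]
    linarith [hell, hsum, hsum2, a1.1, a1.2, a2.1, a2.2, a3.1, a3.2]
  have hK0 : 0 ≤ K := by
    rw [hK]; positivity
  have hNK : N ≤ K / l := by
    rcases hN0.eq_or_lt with h0 | h0
    · rw [← h0]; positivity
    · rw [le_div_iff₀ hl]
      have : (N * l) * N ≤ K * N := by linarith [hfin]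
      exact le_of_mul_le_mul_right this h0
  refine (hzN j).trans ?_
  rw [pow_two]
  exact mul_self_le_mul_self hN0 hNK

end

end Pool.Agent.CY.S4
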