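import Pool.Agent.CY.S4.L5b
import Pool.Agent.CY.S4.L5c

/-!
# CY-S4-L8: rules for weak derivatives

* `WD.mul`: for `φ ∈ T0`, `b φ ∈ T0` (`T0_mul`) and `∂_i (b φ) = b ∂_i φ + (∂_i b) φ`.
* `wd_symm`: for `φ ∈ T0`, `h → 0+`, `b = a.succ`: `∫ W_b ∂_0 φ = lim ∫ (D_h v) ∂_0 φ` (`HH.tend_dq`)
  `= -lim ∫ (D_h W_0) φ` (`(HH.dq ..).wd 0`) `= lim ∫ W_0 D_{-h} φ` (`dq_adj`) `= ∫ W_0 ∂_b φ`
  (uniform convergence) `= -∫ U φ`.
-/

set_option autoImplicit false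

open scoped Manifold ContDiff ENNReal
open MeasureTheory Set Filter Topology

namespace Pool.Agent.CY.S4

noncomputable section

variable {n : ℕ}


variable {v w U U' : V (n + 1) → ℝ} {i : Fin (n + 1)}

private theorem pd_cont {b : V (n + 1) → ℝ} (hb : ContDiffOn ℝ 1 b (Hs n)) (i : Fin (n + 1)) :
    ContinuousOn (pd (Hs n) i b) (Hs n) := by
  have h : ContDiffOn ℝ ((0 + 1 : ℕ) : WithTop ℕ∞) b (Hs n) := by simpa using hb
  exact (pd_contDiffOn (k := 0) h i).continuousOn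

private theorem T0_mem {φ : V (n + 1) → ℝ} (hφ : φ ∈ T0 n) :
    MemLp φ 2 (nu n) ∧ ∀ i, MemLp (pd (Hs n) i φ) 2 (nu n) := T1_memLp (T0_sub hφ) 2

theorem WD.add (h : WD i v U) (h' : WD i w U') (hv : MemLp v 2 (nu n)) (hw : MemLp w 2 (nu n))
    (hU : MemLp U 2 (nu n)) (hU' : MemLp U' 2 (nu n)) : WD i (fun x => v x + w x) (fun x => U x + U' x) := by
  intro φ hφ
  obtain ⟨m1, m2⟩ := T0_mem hφ
  have e1 : ∫ x, (v x + w x) * pd (Hs n) i φ x ∂(nu n) = ∫ x, v x * pd (Hs n) i φ x ∂(nu n) +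
      ∫ x, w x * pd (Hs n) i φ x ∂(nu n) := by
    rw [← integral_add (l2_int_mul hv (m2 i)) (l2_int_mul hw (m2 i))]
    simp only [add_mul]
  have e2 : ∫ x, (U x + U' x) * φ x ∂(nu n) = ∫ x, U x * φ x ∂(nu n) +
      ∫ x, U' x * φ x ∂(nu n) := by
    rw [← integral_add (l2_int_mul hU m1) (l2_int_mul hU' m1)]
    simp only [add_mul]
  rw [e1, e2, h φ hφ, h' φ hφ]
  ring

theorem WD.smul (c : ℝ) (h : WD i v U) : WD i (fun x => c * v x) (fun x => c * U x) := by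
  intro φ hφ
  have e1 : ∫ x, c * v x * pd (Hs n) i φ x ∂(nu n) = c * ∫ x, v x * pd (Hs n) i φ x ∂(nu n) := by
    rw [← integral_const_mul]
    simp only [mul_assoc]
  have e2 : ∫ x, c * U x * φ x ∂(nu n) = c * ∫ x, U x * φ x ∂(nu n) := by
    rw [← integral_const_mul]
    simp only [mul_assoc]
  rw [e1, e2, h φ hφ]
  ring

theorem WD.sum {ι : Type} (s : Finset ι) {f g : ι → V (n + 1) → ℝ} (h : ∀ k ∈ s, WD i (f k) (g k))
    (hf : ∀ k ∈ s, MemLp (f k) 2 (nu n)) (hg : ∀ k ∈ s, MemLp (g k) 2 (nu n)) :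
    WD i (fun x => ∑ k ∈ s, f k x) (fun x => ∑ k ∈ s, g k x) := by
  intro φ hφ
  obtain ⟨m1, m2⟩ := T0_mem hφ
  have e1 : ∫ x, (∑ k ∈ s, f k x) * pd (Hs n) i φ x ∂(nu n) =
      ∑ k ∈ s, ∫ x, f k x * pd (Hs n) i φ x ∂(nu n) := by
    rw [← integral_finsetSum _ (fun k hk => l2_int_mul (hf k hk) (m2 i))]
    simp only [Finset.sum_mul]
  have e2 : ∫ x, (∑ k ∈ s, g k x) * φ x ∂(nu n) = ∑ k ∈ s, ∫ x, g k x * φ x ∂(nu n) := by
    rw [← integral_finsetSum _ (fun k hk => l2_int_mul (hg k hk) m1)]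
    simp only [Finset.sum_mul]
  rw [e1, e2, ← Finset.sum_neg_distrib]
  exact Finset.sum_congr rfl fun k hk => h k hk φ hφ

/-- Only the values on the half space matter. -/
theorem WD.congr (h : WD i v U) (h1 : v =ᵐ[nu n] w) (h2 : U =ᵐ[nu n] U') : WD i w U' := by
  intro φ hφ
  have e1 : ∫ x, w x * pd (Hs n) i φ x ∂(nu n) = ∫ x, v x * pd (Hs n) i φ x ∂(nu n) := by
    refine integral_congr_ae ?_
    filter_upwards [h1] with x hx
    rw [hx]
  have e2 : ∫ x, U' x * φ x ∂(nu n) = ∫ x, U x * φ x ∂(nu n) := by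
    refine integral_congr_ae ?_
    filter_upwards [h2] with x hx
    rw [hx]
  rw [e1, e2]
  exact h φ hφ

theorem WD.mul (h : WD i v U) (hv : MemLp v 2 (nu n)) (hU : MemLp U 2 (nu n)) {b : V (n + 1) → ℝ}
    (hb : ContDiffOn ℝ 1 b (Hs n)) : WD i (fun x => b x * v x) (fun x => b x * U x + pd (Hs n) i b x * v x) := by
  intro φ hφ
  have hφ1 : φ ∈ T1 n := T0_sub hφ
  have hpc : HasCompactSupport (pd (Hs n) i φ) :=
    HasCompactSupport.of_support_subset_isCompact hφ1.2 (pd_support φ i)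
  have m1 : MemLp (fun x => b x * pd (Hs n) i φ x) 2 (nu n) :=
    memLp_of_cont (hb.continuousOn.mul (pd_cont hφ1.1 i)) (hpc.mul_left (f := b))
  have m2 : MemLp (fun x => pd (Hs n) i b x * φ x) 2 (nu n) :=
    memLp_of_cont ((pd_cont hb i).mul hφ1.1.continuousOn) (hφ1.2.mul_left (f := pd (Hs n) i b))
  have m3 : MemLp (fun x => b x * φ x) 2 (nu n) :=
    memLp_of_cont (hb.continuousOn.mul hφ1.1.continuousOn) (hφ1.2.mul_left (f := b))
  have key := h _ (T0_mul hb hφ)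
  have e0 : ∫ x, v x * pd (Hs n) i (fun x => b x * φ x) x ∂(nu n) =
      ∫ x, v x * (b x * pd (Hs n) i φ x) ∂(nu n) + ∫ x, v x * (pd (Hs n) i b x * φ x) ∂(nu n) := by
    rw [← integral_add (l2_int_mul hv m1) (l2_int_mul hv m2)]
    refine integral_congr_ae ?_
    filter_upwards [ae_restrict_mem Ho_open.measurableSet] with x hx
    rw [pd_mul ((hb.differentiableOn (by norm_num)) x (Ho_sub_Hs hx)) (T1_diff hφ1 (Ho_sub_Hs hx))
      (Ho_sub_Hs hx)]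
    ring
  have e1 : ∫ x, b x * v x * pd (Hs n) i φ x ∂(nu n) =
      ∫ x, v x * (b x * pd (Hs n) i φ x) ∂(nu n) := by
    refine integral_congr_ae (Eventually.of_forall fun x => ?_)
    simp only
    ring
  have e2 : ∫ x, (b x * U x + pd (Hs n) i b x * v x) * φ x ∂(nu n) =
      ∫ x, U x * (b x * φ x) ∂(nu n) + ∫ x, v x * (pd (Hs n) i b x * φ x) ∂(nu n) := by
    rw [← integral_add (l2_int_mul hU m3) (l2_int_mul hv m2)]
    refine integral_congr_ae (Eventually.of_forall fun x => ?_)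
    simp only
    ring
  rw [e1, e2]
  rw [e0] at key
  linarith

theorem wd_symm {W : Fin (n + 1) → V (n + 1) → ℝ} {t : V n → ℝ} (H : HH v W t) (a : Fin n)
    (hU : MemLp U 2 (nu n)) (h : WD a.succ (W 0) U) : WD 0 (W a.succ) U := by
  intro φ hφ
  obtain ⟨m1, m2⟩ := T0_mem hφ
  have hpos : ∀ k : ℕ, (0 : ℝ) < 1 / ((k : ℝ) + 1) := fun k => by positivity
  have hseq : Tendsto (fun k : ℕ => 1 / ((k : ℝ) + 1)) atTop (𝓝[>] 0) :=
    tendsto_nhdsWithin_iff.2 ⟨tendsto_one_div_add_atTop_nhds_zero_nat,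
      Eventually.of_forall fun k => hpos k⟩
  have l1 : Tendsto (fun k : ℕ => ∫ x, dq a.succ (1 / ((k : ℝ) + 1)) v x * pd (Hs n) 0 φ x ∂(nu n))
      atTop (𝓝 (∫ x, W a.succ x * pd (Hs n) 0 φ x ∂(nu n))) :=
    l2_tend_int (fun k => memLp_dq a.succ (hpos k).le H.memv) (H.memW a.succ) (m2 0)
      ((H.tend_dq a).comp hseq)
  have l2 : Tendsto (fun k : ℕ => ∫ x, dq a.succ (-(1 / ((k : ℝ) + 1))) φ x * W 0 x ∂(nu n))
      atTop (𝓝 (∫ x, pd (Hs n) a.succ φ x * W 0 x ∂(nu n))) :=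
    l2_tend_int (fun k => memLp_dq_tan a _ m1) (m2 a.succ) (H.memW 0)
      ((dq_tend_T0 hφ a.succ).comp hseq)
  have heq : ∀ k : ℕ, ∫ x, dq a.succ (1 / ((k : ℝ) + 1)) v x * pd (Hs n) 0 φ x ∂(nu n) =
      ∫ x, dq a.succ (-(1 / ((k : ℝ) + 1))) φ x * W 0 x ∂(nu n) := by
    intro k
    have e1 := (H.dq a (hpos k).ne').wd 0 φ hφ
    have e2 := dq_adj a (1 / ((k : ℝ) + 1)) (H.memW 0) m1
    rw [e1, e2, neg_neg]
    refine integral_congr_ae (Eventually.of_forall fun x => ?_)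
    simp only
    ring
  have hlim := tendsto_nhds_unique (l1.congr heq) l2
  rw [hlim]
  have e3 := h φ hφ
  rw [← e3]
  refine integral_congr_ae (Eventually.of_forall fun x => ?_)
  simp only
  ring

end

end Pool.Agent.CY.S4
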