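import Pool.Agent.CY.S4.L7
import Pool.Agent.CY.S4.L8
import Pool.Agent.CY.S4.L6b

/-!
# CY-S4-L9: second derivatives of weak solutions on the half space

Tangential directions: `energy` and `dq_wd` give `W2 a.succ j` with `WD a.succ (W j) (W2 a.succ j)` (`hGd` from the
`BDQ` bounds).  `WD 0 (W b.succ) (W2 b.succ 0)` by `wd_symm`: put `W2 0 b.succ = W2 b.succ 0`.  Normal direction: let
`Th = ∑_j A_0j W_j`.  For `φ ∈ T0` the equation and `BDQ.wd` for `G_i` (`G'_i = ∂_i G_i`) give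
`∫ Th ∂_0 φ = ∫ (F - ∑_i G'_i + ∑_a ∑_j ∂_a (A_aj W_j)) φ`, where `∂_a (A_aj W_j) = A_aj W2_aj + (∂_a A_aj) W_j`
(`WD.mul`).  So `WD 0 Th Q` with `Q ∈ L²`.  Finally `W_0 = (Th - ∑_b A_0b W_b) / A_00`, `A_00 ≥ l > 0`,
`1 / A_00` is `C^1` with bounded derivatives: `WD.mul`, `WD.add`, `WD.sum`.
-/

set_option autoImplicit false

open scoped Manifold ContDiff ENNReal
open MeasureTheory Set Filter Topology

namespace Pool.Agent.CY.S4

noncomputable section

variable {n : ℕ}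


private theorem mulL2 {b f : V (n + 1) → ℝ} (hb : ContinuousOn b (Hs n)) {L : ℝ}
    (h1 : ∀ x ∈ Hs n, |b x| ≤ L) (hf : MemLp f 2 (nu n)) : MemLp (fun x => b x * f x) 2 (nu n) := by
  have hbm : AEStronglyMeasurable b (nu n) :=
    (hb.mono Ho_sub_Hs).aestronglyMeasurable Ho_open.measurableSet
  refine MemLp.of_le_mul (c := L) hf (hbm.mul hf.1) ?_
  filter_upwards [ae_restrict_mem Ho_open.measurableSet] with x hx
  rw [norm_mul]
  exact mul_le_mul_of_nonneg_right (h1 x (Ho_sub_Hs hx)) (norm_nonneg _)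

private theorem pd_cont {b : V (n + 1) → ℝ} (hb : ContDiffOn ℝ 1 b (Hs n)) (i : Fin (n + 1)) :
    ContinuousOn (pd (Hs n) i b) (Hs n) := by
  have h : ContDiffOn ℝ ((0 + 1 : ℕ) : WithTop ℕ∞) b (Hs n) := by simpa using hb
  exact (pd_contDiffOn (k := 0) h i).continuousOn

theorem local_reg {A : MF (n + 1)} {l L : ℝ} (hA : Ell A l L)
    {v : V (n + 1) → ℝ} {W : Fin (n + 1) → V (n + 1) → ℝ} {t : V n → ℝ} (H : HH v W t)
    {F : V (n + 1) → ℝ} (hF : MemLp F 2 (nu n)) {G : Fin (n + 1) → V (n + 1) → ℝ} (hG : ∀ i, BDQ (G i))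
    (hE : ∀ φ ∈ T1 n, ∫ x, ∑ i, ∑ j, A x i j * W j x * pd (Hs n) i φ x ∂(nu n) =
      ∫ x, F x * φ x ∂(nu n) + ∑ i, ∫ x, G i x * pd (Hs n) i φ x ∂(nu n)) :
    ∃ W2 : Fin (n + 1) → Fin (n + 1) → V (n + 1) → ℝ, (∀ i j, MemLp (W2 i j) 2 (nu n)) ∧
      ∀ i j, WD i (W j) (W2 i j) := by
  classical
  choose Cs hCs using fun i => (hG i).bd
  have hGd : ∀ (i : Fin (n + 1)) (a : Fin n) (h : ℝ), 0 < h →
      sq (dq a.succ h (G i)) ≤ ∑ i, |Cs i| := by
    intro i a h hh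
    refine (hCs i a.succ h hh).trans ((le_abs_self _).trans ?_)
    exact Finset.single_le_sum (f := fun i => |Cs i|) (fun j _ => abs_nonneg _)
      (Finset.mem_univ i)
  obtain ⟨C, hC⟩ := energy hA H hF (fun i => (hG i).mem) hGd hE
  choose T hT1 hT2 hT3 using fun (a : Fin n) (j : Fin (n + 1)) =>
    dq_wd (H.memW j) a.succ (fun h hh => hC a j h hh)
  choose G' hG1 hG2 using fun i => (hG i).wd i
  have hAc : ∀ i j, ContinuousOn (fun x => A x i j) (Hs n) := fun i j => (hA.smooth i j).continuousOn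
  have hApc : ∀ i j k, ContinuousOn (pd (Hs n) k (fun y => A y i j)) (Hs n) :=
    fun i j k => pd_cont (hA.smooth i j) k
  have hAW : ∀ i j k, MemLp (fun x => A x i j * W k x) 2 (nu n) :=
    fun i j k => mulL2 (hAc i j) (fun x hx => hA.bd x hx i j) (H.memW k)
  have hAf : ∀ i j, ∀ f : V (n + 1) → ℝ, MemLp f 2 (nu n) →
      MemLp (fun x => A x i j * f x) 2 (nu n) :=
    fun i j f hf => mulL2 (hAc i j) (fun x hx => hA.bd x hx i j) hf
  have hdf : ∀ i j k, ∀ f : V (n + 1) → ℝ, MemLp f 2 (nu n) →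
      MemLp (fun x => pd (Hs n) k (fun y => A y i j) x * f x) 2 (nu n) :=
    fun i j k f hf => mulL2 (hApc i j k) (fun x hx => hA.dbd x hx i j k) hf
  -- the tangential terms
  set R : Fin n → V (n + 1) → ℝ := fun a x => ∑ j, (A x a.succ j * T a j x +
    pd (Hs n) a.succ (fun y => A y a.succ j) x * W j x) with hRdef
  have hRt : ∀ a j, MemLp (fun x => A x a.succ j * T a j x +
      pd (Hs n) a.succ (fun y => A y a.succ j) x * W j x) 2 (nu n) :=
    fun a j => (hAf _ _ _ (hT1 a j)).add (hdf _ _ _ _ (H.memW j))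
  have hR : ∀ a, MemLp (R a) 2 (nu n) := fun a => memLp_finsetSum _ (fun j _ => hRt a j)
  have hRW : ∀ a : Fin n, WD a.succ (fun x => ∑ j, A x a.succ j * W j x) (R a) := fun a =>
    WD.sum Finset.univ (fun j _ => WD.mul (hT3 a j) (H.memW j) (hT1 a j) (hA.smooth a.succ j))
      (fun j _ => hAW _ _ _) (fun j _ => hRt a j)
  -- the normal component of the flux
  set Th : V (n + 1) → ℝ := fun x => ∑ j, A x 0 j * W j x with hTh
  set Q : V (n + 1) → ℝ := fun x => (∑ i, G' i x) - F x - ∑ a, R a x with hQ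
  have hThm : MemLp Th 2 (nu n) := memLp_finsetSum _ (fun j _ => hAW _ _ _)
  have hsG : MemLp (fun x => ∑ i, G' i x) 2 (nu n) := memLp_finsetSum _ (fun j _ => hG1 j)
  have hsR : MemLp (fun x => ∑ a, R a x) 2 (nu n) := memLp_finsetSum _ (fun j _ => hR j)
  have hQm : MemLp Q 2 (nu n) := (hsG.sub hF).sub hsR
  have hThQ : WD 0 Th Q := by
    intro φ hφ
    have hφ1 : φ ∈ T1 n := T0_sub hφ
    have mφ : MemLp φ 2 (nu n) := (T1_memLp hφ1 2).1
    have mdφ : ∀ i, MemLp (pd (Hs n) i φ) 2 (nu n) := (T1_memLp hφ1 2).2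
    have e1 := hE φ hφ1
    have e2 : ∫ x, ∑ i, ∑ j, A x i j * W j x * pd (Hs n) i φ x ∂(nu n) =
        ∑ i, ∫ x, (∑ j, A x i j * W j x) * pd (Hs n) i φ x ∂(nu n) := by
      rw [← integral_finsetSum]
      · refine integral_congr_ae (Eventually.of_forall fun x => ?_)
        simp only [Finset.sum_mul]
      · intro i _
        exact l2_int_mul (memLp_finsetSum _ (fun j _ => hAW _ _ _)) (mdφ i)
    rw [e2, Fin.sum_univ_succ] at e1
    have e3 : ∀ a : Fin n, ∫ x, (∑ j, A x a.succ j * W j x) * pd (Hs n) a.succ φ x ∂(nu n) =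
        -∫ x, R a x * φ x ∂(nu n) := fun a => hRW a φ hφ
    have e4 : ∀ i, ∫ x, G i x * pd (Hs n) i φ x ∂(nu n) = -∫ x, G' i x * φ x ∂(nu n) :=
      fun i => hG2 i φ hφ
    simp only [e3, e4] at e1
    have e5 : ∫ x, Q x * φ x ∂(nu n) = (∑ i, ∫ x, G' i x * φ x ∂(nu n)) -
        ∫ x, F x * φ x ∂(nu n) - ∑ a, ∫ x, R a x * φ x ∂(nu n) := by
      have i1 : ∀ i, Integrable (fun x => G' i x * φ x) (nu n) := fun i => l2_int_mul (hG1 i) mφ
      have i2 : Integrable (fun x => F x * φ x) (nu n) := l2_int_mul hF mφ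
      have i3 : ∀ a, Integrable (fun x => R a x * φ x) (nu n) := fun a => l2_int_mul (hR a) mφ
      have j1 : Integrable (fun x => ∑ i, G' i x * φ x) (nu n) :=
        integrable_finsetSum _ (fun i _ => i1 i)
      have j3 : Integrable (fun x => ∑ a, R a x * φ x) (nu n) :=
        integrable_finsetSum _ (fun i _ => i3 i)
      have j2 : Integrable (fun x => (∑ i, G' i x * φ x) - F x * φ x) (nu n) := j1.sub i2
      rw [← integral_finsetSum _ (fun i _ => i1 i), ← integral_finsetSum _ (fun i _ => i3 i),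
        ← integral_sub j1 i2, ← integral_sub j2 j3]
      refine integral_congr_ae (Eventually.of_forall fun x => ?_)
      simp only [hQ, sub_mul, Finset.sum_mul]
    have e6 : ∫ x, Th x * pd (Hs n) 0 φ x ∂(nu n) =
        ∫ x, (∑ j, A x 0 j * W j x) * pd (Hs n) 0 φ x ∂(nu n) := rfl
    rw [e5, e6]
    simp only [Finset.sum_neg_distrib] at e1
    linarith
  -- the coefficient A_00
  have hA00 : ∀ x ∈ Hs n, l ≤ A x 0 0 := by
    intro x hx
    have := hA.ell x hx (Pi.single 0 1)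
    have h1 : ∑ i : Fin (n + 1), (Pi.single (M := fun _ => ℝ) 0 1 i) ^ 2 = (1 : ℝ) := by
      simp [Pi.single_apply]
    have h2 : ∑ i : Fin (n + 1), ∑ j : Fin (n + 1), A x i j * (Pi.single (M := fun _ => ℝ) 0 1 i) *
        (Pi.single (M := fun _ => ℝ) 0 1 j) = A x 0 0 := by
      simp [Pi.single_apply]
    rw [h1, h2, mul_one] at this
    exact this
  have hl := hA.pos
  set b0 : V (n + 1) → ℝ := fun x => (A x 0 0)⁻¹ with hb0
  have hb0s : ContDiffOn ℝ 1 b0 (Hs n) :=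
    (hA.smooth 0 0).inv (fun x hx => (lt_of_lt_of_le hl (hA00 x hx)).ne')
  have hb0b : ∀ x ∈ Hs n, |b0 x| ≤ l⁻¹ := by
    intro x hx
    have h1 := hA00 x hx
    have h2 : 0 < A x 0 0 := lt_of_lt_of_le hl h1
    rw [hb0, abs_of_pos (inv_pos.2 h2)]
    exact inv_anti₀ hl h1
  have hb0d : ∀ x ∈ Hs n, |pd (Hs n) 0 b0 x| ≤ (l⁻¹) ^ 2 * L := by
    intro x hx
    have h1 := hA00 x hx
    have h2 : 0 < A x 0 0 := lt_of_lt_of_le hl h1
    have hd : DifferentiableWithinAt ℝ (fun y => A y 0 0) (Hs n) x :=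
      ((hA.smooth 0 0).differentiableOn (by norm_num)) x hx
    have h3 := pd_comp (F := fun s : ℝ => s⁻¹) (differentiableAt_inv h2.ne') hd hx 0
    have h4 : pd (Hs n) 0 b0 x = deriv (fun s : ℝ => s⁻¹) (A x 0 0) *
      pd (Hs n) 0 (fun y => A y 0 0) x := h3
    rw [h4, abs_mul]
    have h5 : |deriv (fun s : ℝ => s⁻¹) (A x 0 0)| ≤ (l⁻¹) ^ 2 := by
      rw [deriv_inv, abs_neg, abs_of_nonneg (by positivity), ← inv_pow]
      exact pow_le_pow_left₀ (inv_pos.2 h2).le (inv_anti₀ hl h1) 2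
    exact mul_le_mul h5 (hA.dbd x hx 0 0 0) (abs_nonneg _) (by positivity)
  -- W_0
  have hTsym : ∀ b : Fin n, WD 0 (W b.succ) (T b 0) := fun b => wd_symm H b (hT1 b 0) (hT3 b 0)
  set S1 : V (n + 1) → ℝ := fun x => ∑ b : Fin n, A x 0 b.succ * W b.succ x with hS1
  set S2 : V (n + 1) → ℝ := fun x => ∑ b : Fin n, (A x 0 b.succ * T b 0 x +
    pd (Hs n) 0 (fun y => A y 0 b.succ) x * W b.succ x) with hS2
  have hS2t : ∀ b : Fin n, MemLp (fun x => A x 0 b.succ * T b 0 x +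
    pd (Hs n) 0 (fun y => A y 0 b.succ) x * W b.succ x) 2 (nu n) :=
    fun b => (hAf _ _ _ (hT1 b 0)).add (hdf _ _ _ _ (H.memW b.succ))
  have hS1m : MemLp S1 2 (nu n) := memLp_finsetSum _ (fun j _ => hAW _ _ _)
  have hS2m : MemLp S2 2 (nu n) := memLp_finsetSum _ (fun j _ => hS2t j)
  have hS : WD 0 S1 S2 := WD.sum Finset.univ
    (fun b _ => WD.mul (hTsym b) (H.memW b.succ) (hT1 b 0) (hA.smooth 0 b.succ))
    (fun b _ => hAW _ _ _) (fun b _ => hS2t b)
  have hvU : WD 0 (fun x => Th x + (-1) * S1 x) (fun x => Q x + (-1) * S2 x) :=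
    WD.add hThQ (WD.smul (-1) hS) hThm (hS1m.const_mul (-1)) hQm (hS2m.const_mul (-1))
  have hvm : MemLp (fun x => Th x + (-1) * S1 x) 2 (nu n) := hThm.add (hS1m.const_mul (-1))
  have hUm : MemLp (fun x => Q x + (-1) * S2 x) 2 (nu n) := hQm.add (hS2m.const_mul (-1))
  set W00 : V (n + 1) → ℝ := fun x => b0 x * (Q x + (-1) * S2 x) +
    pd (Hs n) 0 b0 x * (Th x + (-1) * S1 x) with hW00
  have hW00m : MemLp W00 2 (nu n) :=
    (mulL2 hb0s.continuousOn hb0b hUm).add (mulL2 (pd_cont hb0s 0) hb0d hvm)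
  have hW00d : WD 0 (W 0) W00 := by
    refine WD.congr (WD.mul hvU hvm hUm hb0s) ?_ (ae_eq_refl _)
    filter_upwards [ae_restrict_mem Ho_open.measurableSet] with x hx
    have h1 := hA00 x (Ho_sub_Hs hx)
    have h2 : A x 0 0 ≠ 0 := (lt_of_lt_of_le hl h1).ne'
    have h3 : Th x = A x 0 0 * W 0 x + S1 x := by
      simp only [hTh, hS1]
      rw [Fin.sum_univ_succ]
    rw [h3]
    simp only [hb0]
    field_simp
    ring
  refine ⟨fun i j => Fin.cases (motive := fun _ => V (n + 1) → ℝ)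
    (Fin.cases (motive := fun _ => V (n + 1) → ℝ) W00 (fun b => T b 0) j) (fun a => T a j) i,
    ?_, ?_⟩
  · intro i j
    refine Fin.cases ?_ (fun a => ?_) i
    · refine Fin.cases ?_ (fun b => ?_) j
      · exact hW00m
      · exact hT1 b 0
    · exact hT1 a j
  · intro i j
    refine Fin.cases ?_ (fun a => ?_) i
    · refine Fin.cases ?_ (fun b => ?_) j
      · exact hW00d
      · exact hTsym b
    · exact hT3 a j

end

end Pool.Agent.CY.S4
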