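import Pool.Agent.CY.S4.L1t

/-!
# CY-S4-M1: the one-sided mollification: smoothness and bounds

`moll δ v x = (bump ⋆ (indicator (Ho n) v)) (x + 2 δ e_0)`, a convolution of a smooth function with compact support and
a locally integrable function (`HasCompactSupport.contDiff_convolution_left`; `v ∈ L²` is integrable on bounded sets);
compare Pool/Agent/EAC/PA/AMol0.lean, AMol1.lean, AMolL2.lean (on main; same kernel in `ℂ`, may be adapted).
For `x ∈ Hs n` the ball `B(x + 2 δ e_0, δ)` lies in `Ho n ∩ B(x, 3δ)`; `bump ≥ 0`, `∫ bump = 1`.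
-/

set_option autoImplicit false

open scoped Manifold ContDiff ENNReal
open MeasureTheory Set Filter Topology

namespace Pool.Agent.CY.S4

noncomputable section

variable {n : ℕ}


private theorem meas_Ho : MeasurableSet (Ho n) := by
  have h : IsOpen (Ho n) := isOpen_lt continuous_const (by fun_prop)
  exact h.measurableSet

theorem bump_smooth (δ : ℝ) : ContDiff ℝ ∞ (bump n δ) := by
  unfold bump
  split_ifs with h
  · exact ContDiffBump.contDiff_normed _
  · exact contDiff_const

theorem bump_nonneg (δ : ℝ) (x : V (n + 1)) : 0 ≤ bump n δ x := by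
  unfold bump
  split_ifs with h
  · exact ContDiffBump.nonneg_normed _ _
  · exact le_rfl

theorem bump_zero {δ : ℝ} (hδ : 0 < δ) {x : V (n + 1)} (hx : δ ≤ ‖x‖) : bump n δ x = 0 := by
  unfold bump
  rw [dif_pos hδ]
  rw [← Function.notMem_support, ContDiffBump.support_normed_eq]
  simpa using hx

theorem bump_int {δ : ℝ} (hδ : 0 < δ) : ∫ x, bump n δ x = 1 := by
  unfold bump
  rw [dif_pos hδ]
  exact ContDiffBump.integral_normed _

theorem bump_cpt (δ : ℝ) : HasCompactSupport (bump n δ) := by
  unfold bump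
  split_ifs with h
  · exact ContDiffBump.hasCompactSupport_normed _
  · exact HasCompactSupport.zero

theorem moll_smooth {δ : ℝ} (hδ : 0 < δ) {v : V (n + 1) → ℝ} (hv : MemLp v 2 (nu n)) :
    ContDiff ℝ ∞ (moll δ v) := by
  have hm : MemLp (indicator (Ho n) v) 2 (volume : Measure (V (n + 1))) :=
    (memLp_indicator_iff_restrict (meas_Ho (n := n))).2 hv
  have hl : LocallyIntegrable (indicator (Ho n) v) (volume : Measure (V (n + 1))) :=
    hm.locallyIntegrable (by norm_num)
  have h1 := (bump_cpt (n := n) δ).contDiff_convolution_right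
    (ContinuousLinearMap.mul ℝ ℝ) (μ := (volume : Measure (V (n + 1)))) hl (bump_smooth δ)
  have h2 : ContDiff ℝ ∞ (fun x : V (n + 1) => x + (2 * δ) • ei (0 : Fin (n + 1))) :=
    contDiff_id.add contDiff_const
  have h3 := h1.comp h2
  have e : moll δ v = (MeasureTheory.convolution (indicator (Ho n) v) (bump n δ)
      (ContinuousLinearMap.mul ℝ ℝ) (volume : Measure (V (n + 1)))) ∘
      (fun x : V (n + 1) => x + (2 * δ) • ei (0 : Fin (n + 1))) := by
    funext x
    simp only [Function.comp_apply, MeasureTheory.convolution, moll]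
    rw [← integral_indicator (meas_Ho (n := n))]
    refine integral_congr_ae (Filter.Eventually.of_forall fun y => ?_)
    by_cases hy : y ∈ Ho n
    · simp only [indicator_of_mem hy, ContinuousLinearMap.mul_apply']
      ring
    · simp only [indicator_of_notMem hy, ContinuousLinearMap.mul_apply', zero_mul]
  rw [e]
  exact h3

theorem moll_bounds {δ : ℝ} (hδ : 0 < δ) {v : V (n + 1) → ℝ} (hv : MemLp v 2 (nu n)) {x : V (n + 1)}
    (hx : x ∈ Hs n) {c C : ℝ} (h : ∀ᵐ y ∂(nu n), y ∈ Metric.ball x (3 * δ) → c ≤ v y ∧ v y ≤ C) :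
    c ≤ moll δ v x ∧ moll δ v x ≤ C := by
  have hk0 : ∀ y : V (n + 1), y ∉ Ho n ∨ y ∉ Metric.ball x (3 * δ) →
      bump n δ (x + (2 * δ) • ei 0 - y) = 0 := by
    intro y hy
    apply bump_zero hδ
    by_contra hlt
    rw [not_le] at hlt
    have hn : ‖((2 * δ) • ei (0 : Fin (n + 1)) : V (n + 1))‖ = 2 * δ := by
      rw [norm_smul, ei, EuclideanSpace.norm_single, norm_one, mul_one, Real.norm_eq_abs,
        abs_of_pos (by linarith)]
    rcases hy with hy | hy
    · apply hy
      change 0 < y 0
      have h1 : |(x + (2 * δ) • ei (0 : Fin (n + 1)) - y) 0| ≤ ‖x + (2 * δ) • ei 0 - y‖ := by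
        rw [← Real.norm_eq_abs]
        exact PiLp.norm_apply_le _ _
      have h2 : (x + (2 * δ) • ei (0 : Fin (n + 1)) - y) 0 = x 0 + 2 * δ - y 0 := by
        simp [ei]
      have h3 : 0 ≤ x 0 := hx
      rw [h2] at h1
      have h4 := le_abs_self (x 0 + 2 * δ - y 0)
      linarith
    · apply hy
      rw [Metric.mem_ball, dist_eq_norm]
      have e : y - x = (2 * δ) • ei (0 : Fin (n + 1)) - (x + (2 * δ) • ei 0 - y) := by abel
      rw [e]
      have := norm_sub_le ((2 * δ) • ei (0 : Fin (n + 1)) : V (n + 1)) (x + (2 * δ) • ei 0 - y)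
      linarith
  have hkc : Continuous fun y : V (n + 1) => bump n δ (x + (2 * δ) • ei 0 - y) :=
    (bump_smooth δ).continuous.comp (continuous_const.sub continuous_id)
  have hks : HasCompactSupport fun y : V (n + 1) => bump n δ (x + (2 * δ) • ei 0 - y) :=
    (bump_cpt (n := n) δ).comp_homeomorph (Homeomorph.subLeft (x + (2 * δ) • ei 0))
  have hki : ∫ y, bump n δ (x + (2 * δ) • ei 0 - y) ∂(nu n) = 1 := by
    rw [setIntegral_eq_integral_of_forall_compl_eq_zero (fun y hy => hk0 y (Or.inl hy)),
      integral_sub_left_eq_self (fun y => bump n δ y) volume (x + (2 * δ) • ei 0)]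
    exact bump_int hδ
  have hkI : Integrable (fun y : V (n + 1) => bump n δ (x + (2 * δ) • ei 0 - y)) (nu n) :=
    (hkc.integrable_of_hasCompactSupport hks).integrableOn
  have hk2 : MemLp (fun y : V (n + 1) => bump n δ (x + (2 * δ) • ei 0 - y)) 2 (nu n) :=
    (hkc.memLp_of_hasCompactSupport hks).restrict _
  have hkv : Integrable (fun y : V (n + 1) => bump n δ (x + (2 * δ) • ei 0 - y) * v y) (nu n) :=
    hk2.integrable_mul hv
  constructor
  · have h1 : ∫ y, bump n δ (x + (2 * δ) • ei 0 - y) * c ∂(nu n) ≤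
        ∫ y, bump n δ (x + (2 * δ) • ei 0 - y) * v y ∂(nu n) := by
      refine integral_mono_ae (hkI.mul_const c) hkv ?_
      filter_upwards [h] with y hy
      by_cases hb : y ∈ Metric.ball x (3 * δ)
      · exact mul_le_mul_of_nonneg_left (hy hb).1 (bump_nonneg _ _)
      · rw [hk0 y (Or.inr hb), zero_mul, zero_mul]
    rw [integral_mul_const, hki, one_mul] at h1
    exact h1
  · have h1 : ∫ y, bump n δ (x + (2 * δ) • ei 0 - y) * v y ∂(nu n) ≤
        ∫ y, bump n δ (x + (2 * δ) • ei 0 - y) * C ∂(nu n) := by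
      refine integral_mono_ae hkv (hkI.mul_const C) ?_
      filter_upwards [h] with y hy
      by_cases hb : y ∈ Metric.ball x (3 * δ)
      · exact mul_le_mul_of_nonneg_left (hy hb).2 (bump_nonneg _ _)
      · rw [hk0 y (Or.inr hb), zero_mul, zero_mul]
    rw [integral_mul_const, hki, one_mul] at h1
    exact h1

end

end Pool.Agent.CY.S4
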