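import Pool.Agent.CY.S4.M1

/-!
# CY-S4-M1d: derivatives of the one-sided mollification

For `x ∈ Hs n` the closed ball `B(x + 2 δ e_0, δ)` is a compact subset of `Ho n`, so
`y ↦ bump n δ (x + 2 δ e_0 - y)` belongs to `T0 n`; differentiating under the integral sign (or the
derivative of the convolution, `HasCompactSupport.hasFDerivAt_convolution_left`) `∂_i (moll δ v) (x) =
∫ (∂_i bump) (x + 2 δ e_0 - y) v y = -∫ ∂_{y_i} [bump (..)] v y = ∫ bump (..) W y = moll δ W x`.
-/

set_option autoImplicit false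

open scoped Manifold ContDiff ENNReal
open MeasureTheory Set Filter Topology

namespace Pool.Agent.CY.S4

noncomputable section

variable {n : ℕ}


theorem m1d_locInt {v : V (n + 1) → ℝ} (hv : MemLp v 2 (nu n)) :
    LocallyIntegrable ((Ho n).indicator v) (volume : Measure (V (n + 1))) := by
  have h1 : MemLp ((Ho n).indicator v) 2 (volume : Measure (V (n + 1))) :=
    (memLp_indicator_iff_restrict Ho_open.measurableSet).2 hv
  exact h1.locallyIntegrable (by norm_num)

theorem m1d_moll_eq (δ : ℝ) (v : V (n + 1) → ℝ) (x : V (n + 1)) :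
    moll δ v x = MeasureTheory.convolution ((Ho n).indicator v) (bump n δ)
      (ContinuousLinearMap.mul ℝ ℝ) volume (x + (2 * δ) • ei 0) := by
  rw [moll, MeasureTheory.convolution, ← integral_indicator Ho_open.measurableSet]
  congr 1
  ext y
  simp only [ContinuousLinearMap.mul_apply']
  by_cases hy : y ∈ Ho n
  · rw [indicator_of_mem hy, indicator_of_mem hy, mul_comm]
  · rw [indicator_of_notMem hy, indicator_of_notMem hy, zero_mul]

theorem m1d_T0 {δ : ℝ} (hδ : 0 < δ) {x : V (n + 1)} (hx : x ∈ Hs n) :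
    (fun y => bump n δ (x + (2 * δ) • ei 0 - y)) ∈ T0 n := by
  refine ⟨?_, ?_, ?_⟩
  · have h1 : ContDiff ℝ 1 (bump n δ) := (bump_smooth δ).of_le (by exact_mod_cast le_top)
    exact h1.comp (by fun_prop)
  · exact (bump_cpt δ).comp_homeomorph (Homeomorph.subLeft (x + (2 * δ) • ei 0))
  · have h2 : tsupport (fun y => bump n δ (x + (2 * δ) • ei 0 - y)) ⊆
        Metric.closedBall (x + (2 * δ) • ei 0) δ := by
      refine closure_minimal (fun y hy => ?_) Metric.isClosed_closedBall
      rw [Function.mem_support] at hy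
      rw [Metric.mem_closedBall, dist_comm, dist_eq_norm]
      by_contra h
      exact hy (bump_zero hδ (le_of_lt (not_le.1 h)))
    refine h2.trans fun y hy => ?_
    rw [Metric.mem_closedBall, dist_comm, dist_eq_norm] at hy
    have h3 : ‖(x + (2 * δ) • ei 0 - y : V (n + 1)) 0‖ ≤ ‖(x + (2 * δ) • ei 0 - y : V (n + 1))‖ :=
      PiLp.norm_apply_le _ 0
    have h4 : (x + (2 * δ) • ei 0 - y : V (n + 1)) 0 = x 0 + 2 * δ * (ei 0 : V (n + 1)) 0 - y 0 := rfl
    have h5 : (ei 0 : V (n + 1)) 0 = 1 := by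
      simp [ei]
    rw [h4, h5, mul_one, Real.norm_eq_abs] at h3
    have h6 := (abs_le.1 (h3.trans hy)).2
    have h7 : 0 ≤ x 0 := hx
    change 0 < y 0
    linarith

theorem pd_moll {δ : ℝ} (hδ : 0 < δ) {v W : V (n + 1) → ℝ} (hv : MemLp v 2 (nu n)) (hW : MemLp W 2 (nu n))
    {i : Fin (n + 1)} (h : WD i v W) {x : V (n + 1)} (hx : x ∈ Hs n) :
    pd (Hs n) i (moll δ v) x = moll δ W x := by
  have hb1 : ContDiff ℝ 1 (bump n δ) := (bump_smooth δ).of_le (by exact_mod_cast le_top)
  have hder : HasFDerivAt (moll δ v)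
      ((MeasureTheory.convolution ((Ho n).indicator v) (fderiv ℝ (bump n δ))
        ((ContinuousLinearMap.mul ℝ ℝ).precompR (V (n + 1))) volume) (x + (2 * δ) • ei 0)) x := by
    have h1 := (bump_cpt (n := n) δ).hasFDerivAt_convolution_right (ContinuousLinearMap.mul ℝ ℝ)
      (m1d_locInt hv) hb1 (x + (2 * δ) • ei 0)
    have h2 : HasFDerivAt (fun x : V (n + 1) => x + (2 * δ) • ei 0)
        (ContinuousLinearMap.id ℝ (V (n + 1))) x := (hasFDerivAt_id x).add_const _
    have h3 := HasFDerivAt.comp x h1 h2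
    rw [ContinuousLinearMap.comp_id] at h3
    refine h3.congr_of_eventuallyEq (Eventually.of_forall fun y => ?_)
    exact m1d_moll_eq δ v y
  have h1 : pd (Hs n) i (moll δ v) x =
      ∫ y, (Ho n).indicator v y * fderiv ℝ (bump n δ) (x + (2 * δ) • ei 0 - y) (ei i) := by
    rw [pd_eq_fderiv hder.differentiableAt hx i, hder.fderiv]
    rw [convolution_precompR_apply (ContinuousLinearMap.mul ℝ ℝ) (m1d_locInt hv)
      ((bump_cpt δ).fderiv ℝ) (hb1.continuous_fderiv one_ne_zero)]
    rfl
  have h2 : ∫ y, (Ho n).indicator v y * fderiv ℝ (bump n δ) (x + (2 * δ) • ei 0 - y) (ei i) =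
      ∫ y, v y * fderiv ℝ (bump n δ) (x + (2 * δ) • ei 0 - y) (ei i) ∂(nu n) := by
    rw [← integral_indicator Ho_open.measurableSet]
    congr 1
    ext y
    by_cases hy : y ∈ Ho n
    · rw [indicator_of_mem hy, indicator_of_mem hy]
    · rw [indicator_of_notMem hy, indicator_of_notMem hy, zero_mul]
  have h3 := h _ (m1d_T0 hδ hx)
  have h4 : ∫ y, v y * pd (Hs n) i (fun y => bump n δ (x + (2 * δ) • ei 0 - y)) y ∂(nu n) =
      -∫ y, v y * fderiv ℝ (bump n δ) (x + (2 * δ) • ei 0 - y) (ei i) ∂(nu n) := by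
    rw [← integral_neg]
    refine integral_congr_ae ?_
    filter_upwards [ae_restrict_mem (μ := (volume : Measure (V (n + 1)))) (Ho_open (n := n)).measurableSet]
      with y hy
    have h5 : HasFDerivAt (fun y => bump n δ (x + (2 * δ) • ei 0 - y))
        ((fderiv ℝ (bump n δ) (x + (2 * δ) • ei 0 - y)).comp (-ContinuousLinearMap.id ℝ (V (n + 1)))) y := by
      have h6 := (hb1.differentiable one_ne_zero (x + (2 * δ) • ei 0 - y)).hasFDerivAt
      have h7 : HasFDerivAt (fun y : V (n + 1) => x + (2 * δ) • ei 0 - y)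
          (-ContinuousLinearMap.id ℝ (V (n + 1))) y := (hasFDerivAt_id y).const_sub _
      exact HasFDerivAt.comp y h6 h7
    rw [pd_eq_fderiv h5.differentiableAt (Ho_sub_Hs hy) i, h5.fderiv]
    simp
  rw [h4] at h3
  have h8 := neg_inj.1 h3
  rw [h1, h2, h8]
  rw [moll]
  congr 1
  ext y
  ring

end

end Pool.Agent.CY.S4
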